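import Mathlib

/-!
Complemented subspaces, countable `ℓ₁`-sums and the Pelczynski decomposition method.
-/

set_option autoImplicit false

open Filter Topology

namespace Pool.Agent.H180

/-- `Y` is isomorphic to a complemented subspace of `Z`. -/
def Cpl (Y Z : Type*) [NormedAddCommGroup Y] [NormedSpace ℝ Y]
    [NormedAddCommGroup Z] [NormedSpace ℝ Z] : Prop :=
  ∃ (j : Y →L[ℝ] Z) (q : Z →L[ℝ] Y), ∀ y, q (j y) = y

section Basic

variable {A B C D : Type*} [NormedAddCommGroup A] [NormedSpace ℝ A] [NormedAddCommGroup B]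
  [NormedSpace ℝ B] [NormedAddCommGroup C] [NormedSpace ℝ C] [NormedAddCommGroup D]
  [NormedSpace ℝ D]

theorem Cpl.refl : Cpl A A := ⟨ContinuousLinearMap.id ℝ A, ContinuousLinearMap.id ℝ A, fun _ => rfl⟩

theorem Cpl.of_equiv (e : A ≃L[ℝ] B) : Cpl A B :=
  ⟨e, e.symm, fun y => by simp⟩

theorem Cpl.trans (h₁ : Cpl A B) (h₂ : Cpl B C) : Cpl A C := by
  obtain ⟨j, q, h⟩ := h₁
  obtain ⟨j', q', h'⟩ := h₂
  exact ⟨j'.comp j, q.comp q', fun y => by simp [h', h]⟩

theorem Cpl.split (h : Cpl A B) : ∃ W : Submodule ℝ B, IsClosed (W : Set B) ∧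
    Nonempty (B ≃L[ℝ] A × W) := by
  obtain ⟨j, q, h⟩ := h
  exact ⟨_, q.isClosed_ker, ⟨ContinuousLinearEquiv.equivOfRightInverse q j h⟩⟩

theorem Cpl.prod (h₁ : Cpl A B) (h₂ : Cpl C D) : Cpl (A × C) (B × D) := by
  obtain ⟨j, q, h⟩ := h₁
  obtain ⟨j', q', h'⟩ := h₂
  exact ⟨j.prodMap j', q.prodMap q', fun y => Prod.ext (h y.1) (h' y.2)⟩

theorem Cpl.fst : Cpl A (A × B) :=
  ⟨ContinuousLinearMap.inl ℝ A B, ContinuousLinearMap.fst ℝ A B, fun _ => rfl⟩

theorem Cpl.snd : Cpl B (A × B) :=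
  ⟨ContinuousLinearMap.inr ℝ A B, ContinuousLinearMap.snd ℝ A B, fun _ => rfl⟩

end Basic

/-- the `ℓ₁`-sum of countably many copies of `A` -/
abbrev LS (A : Type*) [NormedAddCommGroup A] : Type _ := lp (fun _ : ℕ => A) 1

section Sum

variable {A B : Type*} [NormedAddCommGroup A] [NormedAddCommGroup B]

theorem LS.summable (f : LS A) : Summable fun n => ‖f n‖ := by
  have h := (lp.memℓp (E := fun _ : ℕ => A) (p := 1) f).summable (by norm_num)
  simp only [ENNReal.toReal_one, Real.rpow_one] at h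
  exact h

/-- the element with given coordinates -/
def LS.mk (f : ℕ → A) (hf : Summable fun n => ‖f n‖) : LS A :=
  ⟨f, memℓp_gen (by simpa using hf)⟩

theorem LS.mk_apply (f : ℕ → A) (hf : Summable fun n => ‖f n‖) (n : ℕ) : LS.mk f hf n = f n := rfl

theorem LS.norm_eq (f : LS A) : ‖f‖ = ∑' n, ‖f n‖ := by
  have h := lp.norm_eq_tsum_rpow (E := fun _ : ℕ => A) (p := 1) (by norm_num) f
  simp only [ENNReal.toReal_one, Real.rpow_one, div_one] at h
  exact h

theorem LS.ext {f g : LS A} (h : ∀ n, f n = g n) : f = g := Subtype.ext (funext h)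

theorem LS.norm_apply_le (f : LS A) (n : ℕ) : ‖f n‖ ≤ ‖f‖ := by
  rw [LS.norm_eq]
  exact (LS.summable f).le_tsum n (fun _ _ => norm_nonneg _)

variable [NormedSpace ℝ A] [NormedSpace ℝ B]

/-- coordinates -/
noncomputable def LS.coord (n : ℕ) : LS A →L[ℝ] A :=
  LinearMap.mkContinuous (𝕜 := ℝ) (𝕜₂ := ℝ)
    { toFun := fun f => f n, map_add' := fun _ _ => rfl, map_smul' := fun _ _ => rfl } 1
    (fun f => by rw [one_mul]; exact LS.norm_apply_le f n)

@[simp] theorem LS.coord_apply (n : ℕ) (f : LS A) : LS.coord n f = f n := rfl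

/-- a bounded linear map into `ℓ₁(B)` from its coordinates -/
noncomputable def LS.pi {C : Type*} [NormedAddCommGroup C] [NormedSpace ℝ C]
    (T : ℕ → (C →L[ℝ] B)) (K : ℝ)
    (h : ∀ y, Summable (fun n => ‖T n y‖) ∧ ∑' n, ‖T n y‖ ≤ K * ‖y‖) : C →L[ℝ] LS B :=
  LinearMap.mkContinuous (𝕜 := ℝ) (𝕜₂ := ℝ)
    { toFun := fun y => LS.mk (fun n => T n y) (h y).1
      map_add' := fun y y' => LS.ext fun n => map_add (T n) y y'
      map_smul' := fun c y => LS.ext fun n => map_smul (T n) c y } K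
    (fun y => by
      rw [LS.norm_eq]
      exact (h y).2)

@[simp] theorem LS.pi_apply {C : Type*} [NormedAddCommGroup C] [NormedSpace ℝ C]
    (T : ℕ → (C →L[ℝ] B)) (K : ℝ)
    (h : ∀ y, Summable (fun n => ‖T n y‖) ∧ ∑' n, ‖T n y‖ ≤ K * ‖y‖) (y : C) (n : ℕ) :
    LS.pi T K h y n = T n y := rfl

/-- coordinatewise application of an operator -/
noncomputable def LS.map (T : A →L[ℝ] B) : LS A →L[ℝ] LS B :=
  LS.pi (fun n => T.comp (LS.coord n)) ‖T‖ (fun f => by
    have h1 : Summable fun n => ‖T‖ * ‖f n‖ := (LS.summable f).mul_left _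
    have h2 : Summable fun n => ‖(T.comp (LS.coord n)) f‖ :=
      h1.of_nonneg_of_le (fun _ => norm_nonneg _) fun n => T.le_opNorm _
    refine ⟨h2, ?_⟩
    rw [LS.norm_eq, ← tsum_mul_left]
    exact h2.tsum_le_tsum (fun n => T.le_opNorm _) h1)

@[simp] theorem LS.map_apply (T : A →L[ℝ] B) (f : LS A) (n : ℕ) : LS.map T f n = T (f n) := rfl

/-- functoriality -/
noncomputable def LS.equiv (e : A ≃L[ℝ] B) : LS A ≃L[ℝ] LS B :=
  ContinuousLinearEquiv.equivOfInverse (LS.map (e : A →L[ℝ] B)) (LS.map (e.symm : B →L[ℝ] A))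
    (fun f => LS.ext fun n => by simp) (fun f => LS.ext fun n => by simp)

/-- `ℓ₁(A × B) = ℓ₁(A) × ℓ₁(B)` -/
noncomputable def LS.prodEquiv : LS (A × B) ≃L[ℝ] LS A × LS B :=
  ContinuousLinearEquiv.equivOfInverse
    ((LS.map (ContinuousLinearMap.fst ℝ A B)).prod (LS.map (ContinuousLinearMap.snd ℝ A B)))
    (((LS.map (ContinuousLinearMap.inl ℝ A B)).comp (ContinuousLinearMap.fst ℝ (LS A) (LS B))) +
      ((LS.map (ContinuousLinearMap.inr ℝ A B)).comp (ContinuousLinearMap.snd ℝ (LS A) (LS B))))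
    (fun f => LS.ext fun n => by
      show ((f n).1, (0 : B)) + ((0 : A), (f n).2) = f n
      simp)
    (fun f => by
      refine Prod.ext (LS.ext fun n => ?_) (LS.ext fun n => ?_)
      · show f.1 n + 0 = f.1 n
        simp
      · show 0 + f.2 n = f.2 n
        simp)

omit [NormedSpace ℝ A] in
theorem LS.cons_summable (a : A) (g : LS A) :
    Summable fun n => ‖(Nat.casesOn n a (fun m => g m) : A)‖ := by
  rw [← summable_nat_add_iff 1]
  exact LS.summable g

/-- shift: `ℓ₁(A) = A × ℓ₁(A)` -/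
noncomputable def LS.shift : LS A ≃L[ℝ] A × LS A :=
  ContinuousLinearEquiv.equivOfInverse
    ((LS.coord 0).prod (LS.pi (fun n => LS.coord (n + 1)) 1 (fun f => by
      have h1 : Summable fun n => ‖f (n + 1)‖ := (summable_nat_add_iff 1).2 (LS.summable f)
      refine ⟨h1, ?_⟩
      rw [one_mul, LS.norm_eq, (LS.summable f).tsum_eq_zero_add]
      have := norm_nonneg (f 0)
      show ∑' n, ‖f (n + 1)‖ ≤ _
      linarith)))
    (LinearMap.mkContinuous (𝕜 := ℝ) (𝕜₂ := ℝ)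
      { toFun := fun p => LS.mk (fun n => Nat.casesOn n p.1 (fun m => p.2 m))
          (LS.cons_summable p.1 p.2)
        map_add' := fun p q => LS.ext fun n => by cases n <;> rfl
        map_smul' := fun c p => LS.ext fun n => by cases n <;> rfl } 2 (fun p => by
        show ‖LS.mk _ (LS.cons_summable p.1 p.2)‖ ≤ _
        rw [LS.norm_eq, (LS.summable _).tsum_eq_zero_add]
        show ‖p.1‖ + ∑' n, ‖p.2 n‖ ≤ 2 * ‖p‖
        rw [← LS.norm_eq]
        have h1 := norm_fst_le p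
        have h2 := norm_snd_le p
        linarith))
    (fun f => LS.ext fun n => by cases n <;> rfl)
    (fun p => Prod.ext rfl (LS.ext fun n => rfl))

end Sum

/-- Pelczynski decomposition method. -/
theorem pelczynski {Y A : Type*} [NormedAddCommGroup Y] [NormedSpace ℝ Y] [NormedAddCommGroup A]
    [NormedSpace ℝ A] (hYA : Cpl Y A) (hAY : Cpl A Y) (hL : Cpl (LS A) A) :
    Nonempty (Y ≃L[ℝ] A) := by
  obtain ⟨Z, -, ⟨e1⟩⟩ := hYA.split
  obtain ⟨V, -, ⟨e2⟩⟩ := hAY.split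
  obtain ⟨W, -, ⟨e3⟩⟩ := hL.split
  -- A = A × A
  have h1 : Nonempty (A ≃L[ℝ] A × A) := by
    refine ⟨e3.trans ?_⟩
    refine (LS.shift.prodCongr (ContinuousLinearEquiv.refl ℝ W)).trans ?_
    refine (ContinuousLinearEquiv.prodAssoc ℝ _ _ _).trans ?_
    exact (ContinuousLinearEquiv.refl ℝ A).prodCongr e3.symm
  obtain ⟨e4⟩ := h1
  -- ℓ₁(A) = ℓ₁(Y) × ℓ₁(Z)
  have e5 : (LS A) ≃L[ℝ] (LS Y) × (LS Z) := (LS.equiv e1).trans LS.prodEquiv
  -- Y × A = A
  have e6 : (Y × A) ≃L[ℝ] A := by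
    refine ((ContinuousLinearEquiv.refl ℝ Y).prodCongr e3).trans ?_
    refine (ContinuousLinearEquiv.prodAssoc ℝ _ _ _).symm.trans ?_
    refine (ContinuousLinearEquiv.prodCongr ?_ (ContinuousLinearEquiv.refl ℝ W)).trans e3.symm
    refine ((ContinuousLinearEquiv.refl ℝ Y).prodCongr e5).trans ?_
    refine (ContinuousLinearEquiv.prodAssoc ℝ _ _ _).symm.trans ?_
    refine (ContinuousLinearEquiv.prodCongr ?_ (ContinuousLinearEquiv.refl ℝ _)).trans e5.symm
    exact LS.shift.symm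
  refine ⟨e2.trans ?_⟩
  refine (e4.prodCongr (ContinuousLinearEquiv.refl ℝ V)).trans ?_
  refine (ContinuousLinearEquiv.prodAssoc ℝ _ _ _).trans ?_
  refine ((ContinuousLinearEquiv.refl ℝ A).prodCongr e2.symm).trans ?_
  exact (ContinuousLinearEquiv.prodComm ℝ _ _).trans e6

end Pool.Agent.H180
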