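import Mathlib

/-!
Limits of bounded families of (asymptotically) bilinear forms along an ultrafilter.
-/

set_option autoImplicit false

open Filter Topology

namespace Pool.Agent.H180

variable {ι : Type*}

/-- a bounded real function has a limit along an ultrafilter -/
theorem exists_tendsto (U : Ultrafilter ι) (f : ι → ℝ) (C : ℝ) (h : ∀ i, |f i| ≤ C) :
    ∃ l : ℝ, Tendsto f U (𝓝 l) ∧ |l| ≤ C := by
  have h1 : (U.map f : Filter ℝ) ≤ 𝓟 (Set.Icc (-C) C) := by
    rw [le_principal_iff]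
    exact Filter.mem_map.2 (Filter.univ_mem' fun i => abs_le.1 (h i))
  obtain ⟨l, hl, hl2⟩ := (isCompact_Icc (a := -C) (b := C)).ultrafilter_le_nhds (U.map f) h1
  exact ⟨l, hl2, abs_le.2 hl⟩

variable {W Z : Type*} [NormedAddCommGroup W] [NormedSpace ℝ W] [NormedAddCommGroup Z]
  [NormedSpace ℝ Z]

/-- the limit of a bounded family of asymptotically bilinear forms -/
theorem exists_lim (U : Ultrafilter ι) (B : ι → W → Z → ℝ) (C : ℝ)
    (hC : ∀ i w z, |B i w z| ≤ C * ‖w‖ * ‖z‖)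
    (add_left : ∀ w w' z, Tendsto (fun i => B i (w + w') z - B i w z - B i w' z) U (𝓝 0))
    (smul_left : ∀ (c : ℝ) w z, Tendsto (fun i => B i (c • w) z - c * B i w z) U (𝓝 0))
    (add_right : ∀ w z z', Tendsto (fun i => B i w (z + z') - B i w z - B i w z') U (𝓝 0))
    (smul_right : ∀ (c : ℝ) w z, Tendsto (fun i => B i w (c • z) - c * B i w z) U (𝓝 0)) :
    ∃ T : W →L[ℝ] (Z →L[ℝ] ℝ), (∀ w z, Tendsto (fun i => B i w z) U (𝓝 (T w z))) ∧
      ∀ w, ‖T w‖ ≤ |C| * ‖w‖ := by
  choose l hl hl2 using fun w z => exists_tendsto U (fun i => B i w z) (C * ‖w‖ * ‖z‖)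
    (fun i => hC i w z)
  have uniq : ∀ {f : ι → ℝ} {a : ℝ}, Tendsto f U (𝓝 a) → Tendsto f U (𝓝 0) → a = 0 :=
    fun h1 h2 => tendsto_nhds_unique h1 h2
  let T0 : W →ₗ[ℝ] Z →ₗ[ℝ] ℝ := LinearMap.mk₂ ℝ l
    (fun w w' z => by
      have h := uniq (((hl (w + w') z).sub (hl w z)).sub (hl w' z)) (add_left w w' z)
      linarith)
    (fun c w z => by
      have h := uniq ((hl (c • w) z).sub ((hl w z).const_mul c)) (smul_left c w z)
      rw [smul_eq_mul]
      linarith)
    (fun w z z' => by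
      have h := uniq (((hl w (z + z')).sub (hl w z)).sub (hl w z')) (add_right w z z')
      linarith)
    (fun c w z => by
      have h := uniq ((hl w (c • z)).sub ((hl w z).const_mul c)) (smul_right c w z)
      rw [smul_eq_mul]
      linarith)
  have hb : ∀ w z, ‖T0 w z‖ ≤ |C| * ‖w‖ * ‖z‖ := by
    intro w z
    refine (hl2 w z).trans ?_
    gcongr
    exact le_abs_self C
  refine ⟨T0.mkContinuous₂ |C| hb, fun w z => hl w z, fun w => ?_⟩
  exact ContinuousLinearMap.opNorm_le_bound _ (by positivity) (hb w)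

/-- the limit of a bounded family of linear functionals -/
theorem exists_lim_fun (U : Ultrafilter ι) (B : ι → Z → ℝ) (C : ℝ)
    (hC : ∀ i z, |B i z| ≤ C * ‖z‖)
    (hadd : ∀ z z', Tendsto (fun i => B i (z + z') - B i z - B i z') U (𝓝 0))
    (hsmul : ∀ (c : ℝ) z, Tendsto (fun i => B i (c • z) - c * B i z) U (𝓝 0)) :
    ∃ T : Z →L[ℝ] ℝ, (∀ z, Tendsto (fun i => B i z) U (𝓝 (T z))) ∧ ‖T‖ ≤ |C| := by
  choose l hl hl2 using fun z => exists_tendsto U (fun i => B i z) (C * ‖z‖)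
    (fun i => hC i z)
  have uniq : ∀ {f : ι → ℝ} {a : ℝ}, Tendsto f U (𝓝 a) → Tendsto f U (𝓝 0) → a = 0 :=
    fun h1 h2 => tendsto_nhds_unique h1 h2
  let T0 : Z →ₗ[ℝ] ℝ :=
    { toFun := l
      map_add' := fun z z' => by
        have h := uniq (((hl (z + z')).sub (hl z)).sub (hl z')) (hadd z z')
        linarith
      map_smul' := fun c z => by
        have h := uniq ((hl (c • z)).sub ((hl z).const_mul c)) (hsmul c z)
        simp only [RingHom.id_apply, smul_eq_mul]
        linarith }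
  have hb : ∀ z, ‖T0 z‖ ≤ |C| * ‖z‖ := by
    intro z
    refine (hl2 z).trans ?_
    gcongr
    exact le_abs_self C
  exact ⟨T0.mkContinuous |C| hb, fun z => hl z, T0.mkContinuous_norm_le (abs_nonneg _) hb⟩

end Pool.Agent.H180
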