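import Mathlib
import Pool.Agent.H180.Lim
import Pool.Agent.H180.Dec

/-!
The Cantor cube `T → Bool` over an arbitrary index set and measures on it.
-/

set_option autoImplicit false

open Filter Topology Set
open scoped Classical

namespace Pool.Agent.H180

/-- restriction to the coordinates in `F` -/
def pr {T : Type*} (F : Finset T) (t : T → Bool) : F → Bool := fun i => t i

/-- extension by `false` -/
noncomputable def ex {T : Type*} {F : Finset T} (s : F → Bool) : T → Bool :=
  fun i => if h : i ∈ F then s ⟨i, h⟩ else false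

section

variable {T : Type*}

lemma pr_ex {F : Finset T} (s : F → Bool) : pr F (ex s) = s := by
  funext i
  simp [pr, ex]

lemma pr_pr {F G : Finset T} (h : F ⊆ G) (t : T → Bool) : pr F (ex (pr G t)) = pr F t := by
  funext i
  have : (i : T) ∈ G := h i.2
  simp [pr, ex, this]

lemma pr_mono {F G : Finset T} (h : F ⊆ G) {t t' : T → Bool} (ht : pr G t = pr G t') :
    pr F t = pr F t' := by
  funext i
  exact congrFun ht ⟨i, h i.2⟩

lemma continuous_pr (F : Finset T) : Continuous (pr F) := by
  unfold pr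
  fun_prop

/-- functions of the coordinates in `F` -/
noncomputable def lift (F : Finset T) : ((F → Bool) → ℝ) →ₗ[ℝ] C(T → Bool, ℝ) where
  toFun φ := ⟨fun t => φ (pr F t), (continuous_of_discreteTopology (f := φ)).comp (continuous_pr F)⟩
  map_add' _ _ := rfl
  map_smul' _ _ := rfl

lemma lift_apply (F : Finset T) (φ : (F → Bool) → ℝ) (t : T → Bool) : lift F φ t = φ (pr F t) := rfl

lemma norm_lift_le (F : Finset T) (φ : (F → Bool) → ℝ) (C : ℝ) (hC : 0 ≤ C) (h : ∀ s, |φ s| ≤ C) :
    ‖lift F φ‖ ≤ C := by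
  rw [ContinuousMap.norm_le _ hC]
  intro t
  rw [lift_apply, Real.norm_eq_abs]; exact h _

/-- the indicator of a cylinder -/
noncomputable def cyl {F : Finset T} (s : F → Bool) : C(T → Bool, ℝ) :=
  lift F (Pi.single s 1)

lemma cyl_apply {F : Finset T} (s : F → Bool) (t : T → Bool) :
    cyl s t = if pr F t = s then 1 else 0 := by
  unfold cyl
  rw [lift_apply]
  by_cases h : pr F t = s
  · rw [h]
    simp
  · rw [Pi.single_eq_of_ne h]
    simp [h]

lemma lift_eq_sum (F : Finset T) (φ : (F → Bool) → ℝ) : lift F φ = ∑ s, φ s • cyl s := by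
  ext t
  rw [lift_apply, ContinuousMap.sum_apply, Finset.sum_eq_single (pr F t)]
  · rw [ContinuousMap.smul_apply, cyl_apply, if_pos rfl, smul_eq_mul, mul_one]
  · intro s _ hs
    rw [ContinuousMap.smul_apply, cyl_apply, if_neg (Ne.symm hs), smul_zero]
  · intro h
    exact absurd (Finset.mem_univ _) h

lemma sum_abs_le (ν : C(T → Bool, ℝ) →L[ℝ] ℝ) (F : Finset T) :
    ∑ s : F → Bool, |ν (cyl s)| ≤ ‖ν‖ := by
  let φ : (F → Bool) → ℝ := fun s => SignType.sign (ν (cyl s))
  have h1 : ν (lift F φ) = ∑ s : F → Bool, |ν (cyl s)| := by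
    rw [lift_eq_sum, map_sum]
    refine Finset.sum_congr rfl fun s _ => ?_
    rw [map_smul, smul_eq_mul]
    exact sign_mul_self _
  rw [← h1]
  have h2 : ‖lift F φ‖ ≤ 1 := by
    refine norm_lift_le F φ 1 zero_le_one fun s => ?_
    change |((SignType.sign (ν (cyl s)) : SignType) : ℝ)| ≤ 1
    rcases SignType.sign (ν (cyl s)) with _ | _ | _ <;> simp
  calc ν (lift F φ) ≤ ‖ν (lift F φ)‖ := Real.le_norm_self _
    _ ≤ ‖ν‖ * ‖lift F φ‖ := ν.le_opNorm _
    _ ≤ ‖ν‖ * 1 := by gcongr
    _ = ‖ν‖ := mul_one _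

/-- a cylinder is the sum of its finer cylinders -/
lemma cyl_eq_sum {F G : Finset T} (h : F ⊆ G) (s : F → Bool) :
    (cyl s : C(T → Bool, ℝ)) = ∑ s' : G → Bool, (cyl s (ex s')) • cyl s' := by
  ext t
  rw [ContinuousMap.sum_apply, Finset.sum_eq_single (pr G t)]
  · rw [ContinuousMap.smul_apply, cyl_apply (pr G t), if_pos rfl, smul_eq_mul, mul_one, cyl_apply,
      cyl_apply, pr_pr h]
  · intro s' _ hs'
    rw [ContinuousMap.smul_apply, cyl_apply s', if_neg (Ne.symm hs'), smul_zero]
  · intro h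
    exact absurd (Finset.mem_univ _) h

/-- approximation of continuous functions by functions of finitely many coordinates -/
lemma tendsto_lift (f : C(T → Bool, ℝ)) :
    Tendsto (fun F : Finset T => lift F (fun s => f (ex s))) atTop (𝓝 f) := by
  rw [Metric.tendsto_atTop]
  intro ε hε
  have h1 : ∀ t : T → Bool, ∃ F : Finset T, ∀ t' : T → Bool, pr F t' = pr F t →
      |f t' - f t| < ε / 4 := by
    intro t
    have ho : IsOpen (f ⁻¹' Metric.ball (f t) (ε / 4)) := Metric.isOpen_ball.preimage f.continuous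
    obtain ⟨I, u, hu1, hu2⟩ := isOpen_pi_iff.mp ho t (Metric.mem_ball_self (by positivity))
    refine ⟨I, fun t' ht' => ?_⟩
    have h2 : t' ∈ f ⁻¹' Metric.ball (f t) (ε / 4) := by
      refine hu2 fun k hk => ?_
      have h4 := congrFun ht' ⟨k, hk⟩
      change t' k = t k at h4
      rw [h4]
      exact (hu1 k hk).2
    rw [mem_preimage, Metric.mem_ball, Real.dist_eq] at h2
    exact h2
  choose N hN using h1
  have hopen : ∀ t : T → Bool, IsOpen {t' : T → Bool | pr (N t) t' = pr (N t) t} := fun t =>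
    (isOpen_discrete {pr (N t) t}).preimage (continuous_pr (N t))
  obtain ⟨S, hS⟩ := isCompact_univ.elim_finite_subcover
    (fun t : T → Bool => {t' : T → Bool | pr (N t) t' = pr (N t) t})
    hopen (fun t _ => mem_iUnion.mpr ⟨t, rfl⟩)
  refine ⟨S.biUnion N, fun n hn => ?_⟩
  rw [dist_eq_norm]
  refine lt_of_le_of_lt (b := ε / 2) ?_ (by linarith)
  rw [ContinuousMap.norm_le _ (by positivity)]
  intro t'
  obtain ⟨t, htT, ht⟩ := mem_iUnion₂.mp (hS (mem_univ t'))
  have hn' : N t ⊆ n := (Finset.subset_biUnion_of_mem N htT).trans hn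
  have e1 := hN t t' ht
  have e2 := hN t (ex (pr n t')) (by rw [pr_pr hn']; exact ht)
  rw [ContinuousMap.sub_apply, lift_apply, Real.norm_eq_abs]
  calc |f (ex (pr n t')) - f t'| = |(f (ex (pr n t')) - f t) - (f t' - f t)| := by ring_nf
    _ ≤ |f (ex (pr n t')) - f t| + |f t' - f t| := abs_sub _ _
    _ ≤ ε / 2 := by linarith

end

/-- **Lower embedding.** If the predual contains a copy of the `ℓ₁`-sum of the spaces `ℓ_∞(2^F)`, `F` finite
subset of `T`, then the measures on `{0,1}^T` are complemented in the dual. -/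
theorem cpl_low {Z : Type*} [NormedAddCommGroup Z] [NormedSpace ℝ Z] {T : Type*}
    (g : ∀ F : Finset T, (F → Bool) → Z) (C : ℝ)
    (hg : ∀ (F : Finset T) (a : (F → Bool) → ℝ), (∀ s, |a s| ≤ 1) → ‖∑ s, a s • g F s‖ ≤ C)
    (x : (T → Bool) → (Z →L[ℝ] ℝ)) (M : ℝ) (hM : ∀ t, ‖x t‖ ≤ M)
    (hx : ∀ t (F : Finset T) (s : F → Bool), x t (g F s) = cyl s t) :
    Cpl (C(T → Bool, ℝ) →L[ℝ] ℝ) (Z →L[ℝ] ℝ) := by
  let V : Ultrafilter (Finset T) := Ultrafilter.of atTop
  have hV : (V : Filter (Finset T)) ≤ atTop := Ultrafilter.of_le _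
  obtain ⟨β, hβ, -⟩ := exists_lim V
    (fun (F : Finset T) (ν : C(T → Bool, ℝ) →L[ℝ] ℝ) (z : Z) =>
      ∑ s : F → Bool, ν (cyl s) * x (ex s) z) M
    (fun F ν z => by
      refine (Finset.abs_sum_le_sum_abs _ _).trans ?_
      have h1 : ∀ s ∈ (Finset.univ : Finset (F → Bool)), |ν (cyl s) * x (ex s) z| ≤
          |ν (cyl s)| * (M * ‖z‖) := by
        intro s _
        rw [abs_mul]
        refine mul_le_mul_of_nonneg_left ?_ (abs_nonneg _)
        exact ((x (ex s)).le_opNorm z).trans (mul_le_mul_of_nonneg_right (hM _) (norm_nonneg _))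
      refine (Finset.sum_le_sum h1).trans ?_
      rw [← Finset.sum_mul]
      have h2 := sum_abs_le ν F
      have h3 : 0 ≤ M := (norm_nonneg _).trans (hM (fun _ => false))
      calc (∑ s : F → Bool, |ν (cyl s)|) * (M * ‖z‖) ≤ ‖ν‖ * (M * ‖z‖) :=
            mul_le_mul_of_nonneg_right h2 (by positivity)
        _ = M * ‖ν‖ * ‖z‖ := by ring)
    (fun ν ν' z => by
      refine Tendsto.congr (fun F => ?_) tendsto_const_nhds
      simp only [add_apply, add_mul, Finset.sum_add_distrib]
      ring)
    (fun c ν z => by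
      refine Tendsto.congr (fun F => ?_) tendsto_const_nhds
      simp only [smul_apply, smul_eq_mul, mul_assoc, ← Finset.mul_sum]
      ring)
    (fun ν z z' => by
      refine Tendsto.congr (fun F => ?_) tendsto_const_nhds
      simp only [map_add, mul_add, Finset.sum_add_distrib]
      ring)
    (fun c ν z => by
      refine Tendsto.congr (fun F => ?_) tendsto_const_nhds
      simp only [map_smul, smul_eq_mul, Finset.mul_sum]
      rw [eq_comm, sub_eq_zero]
      exact Finset.sum_congr rfl fun s _ => by ring)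
  obtain ⟨α, hα, -⟩ := exists_lim V
    (fun (F : Finset T) (y : Z →L[ℝ] ℝ) (h : C(T → Bool, ℝ)) =>
      ∑ s : F → Bool, y (g F s) * h (ex s)) |C|
    (fun F y h => by
      by_cases hh : ‖h‖ = 0
      · have h0 : h = 0 := norm_eq_zero.1 hh
        simp [h0]
      · have hpos : 0 < ‖h‖ := lt_of_le_of_ne (norm_nonneg _) (Ne.symm hh)
        have h1 : ∑ s : F → Bool, y (g F s) * h (ex s) =
            ‖h‖ * y (∑ s : F → Bool, (h (ex s) / ‖h‖) • g F s) := by
          rw [map_sum, Finset.mul_sum]
          refine Finset.sum_congr rfl fun s _ => ?_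
          rw [map_smul, smul_eq_mul]
          field_simp
        have h2 : ‖∑ s : F → Bool, (h (ex s) / ‖h‖) • g F s‖ ≤ C := by
          refine hg F _ fun s => ?_
          rw [abs_div, abs_of_pos hpos, div_le_one hpos]
          exact h.norm_coe_le_norm _
        rw [h1, abs_mul, abs_of_pos hpos]
        have h3 := (y.le_opNorm (∑ s : F → Bool, (h (ex s) / ‖h‖) • g F s))
        rw [Real.norm_eq_abs] at h3
        calc ‖h‖ * |y (∑ s : F → Bool, (h (ex s) / ‖h‖) • g F s)| ≤ ‖h‖ * (‖y‖ * |C|) := by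
              refine mul_le_mul_of_nonneg_left (h3.trans ?_) (norm_nonneg _)
              exact mul_le_mul_of_nonneg_left (h2.trans (le_abs_self C)) (norm_nonneg _)
          _ = |C| * ‖y‖ * ‖h‖ := by ring)
    (fun y y' h => by
      refine Tendsto.congr (fun F => ?_) tendsto_const_nhds
      simp only [add_apply, add_mul, Finset.sum_add_distrib]
      ring)
    (fun c y h => by
      refine Tendsto.congr (fun F => ?_) tendsto_const_nhds
      simp only [smul_apply, smul_eq_mul, mul_assoc, ← Finset.mul_sum]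
      ring)
    (fun y h h' => by
      refine Tendsto.congr (fun F => ?_) tendsto_const_nhds
      simp only [ContinuousMap.add_apply, mul_add, Finset.sum_add_distrib]
      ring)
    (fun c y h => by
      refine Tendsto.congr (fun F => ?_) tendsto_const_nhds
      simp only [ContinuousMap.smul_apply, smul_eq_mul, Finset.mul_sum]
      rw [eq_comm, sub_eq_zero]
      exact Finset.sum_congr rfl fun s _ => by ring)
  have key : ∀ (ν : C(T → Bool, ℝ) →L[ℝ] ℝ) (F : Finset T) (s : F → Bool),
      β ν (g F s) = ν (cyl s) := by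
    intro ν F s
    refine tendsto_nhds_unique (hβ ν (g F s)) ?_
    refine Tendsto.congr' ?_ tendsto_const_nhds
    have hev : ∀ᶠ G in (atTop : Filter (Finset T)), F ≤ G := eventually_ge_atTop _
    filter_upwards [hV hev] with G hG
    rw [cyl_eq_sum hG s, map_sum]
    refine Finset.sum_congr rfl fun s' _ => ?_
    rw [map_smul, smul_eq_mul, hx]
    ring
  refine ⟨β, α, fun ν => ?_⟩
  ext h
  refine tendsto_nhds_unique (hα (β ν) h) ?_
  have h1 : Tendsto (fun F : Finset T => ν (lift F (fun s => h (ex s)))) V (𝓝 (ν h)) :=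
    (ν.continuous.tendsto h).comp ((tendsto_lift h).mono_left hV)
  refine h1.congr fun F => ?_
  rw [lift_eq_sum, map_sum]
  refine Finset.sum_congr rfl fun s _ => ?_
  rw [map_smul, smul_eq_mul, key]
  ring

end Pool.Agent.H180
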