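import Mathlib
import Pool.Agent.H180.Dec
import Pool.Agent.H180.Lim

/-!
A dual space with enough local `ℓ₁`-structure is complemented in the dual of `C({0,1}^κ)`, where `κ` is the
density character of the predual.
-/

set_option autoImplicit false

open Filter Topology

namespace Pool.Agent.H180

/-- Local `ℓ₁`-structure of the dual of `Z`: every functional `x` is represented by measures `s i x` with finite
support in the unit ball of `Z*`, with `‖s i x‖ ≤ lam ‖x‖`, asymptotically linear in `x`, with barycentres tending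
to `x` pointwise on `Z`. -/
structure Loc (Z : Type*) [NormedAddCommGroup Z] [NormedSpace ℝ Z] {ι : Type*} (U : Ultrafilter ι)
    (s : ι → (Z →L[ℝ] ℝ) → ((Z →L[ℝ] ℝ) →₀ ℝ)) (lam : ℝ) : Prop where
  nonneg : 0 ≤ lam
  bound : ∀ i x, ((s i x).sum fun _ a => |a|) ≤ lam * ‖x‖
  ball : ∀ i x, ∀ y ∈ (s i x).support, ‖y‖ ≤ 1
  add : ∀ x x', ∀ᶠ i in (U : Filter ι), s i (x + x') = s i x + s i x'
  smul : ∀ (c : ℝ) x, ∀ᶠ i in (U : Filter ι), s i (c • x) = c • s i x
  lim : ∀ x z, Tendsto (fun i => (s i x).sum fun y a => a * y z) U (𝓝 (x z))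

section

variable {Z : Type*} [NormedAddCommGroup Z] [NormedSpace ℝ Z]

theorem sum_add_fun {Y : Type*} (f g : Y →₀ ℝ) (h : Y → ℝ) :
    ((f + g).sum fun y a => a * h y) = (f.sum fun y a => a * h y) + g.sum fun y a => a * h y :=
  Finsupp.sum_add_index' (fun _ => by ring) (fun _ _ _ => by ring)

theorem sum_smul_fun {Y : Type*} (c : ℝ) (f : Y →₀ ℝ) (h : Y → ℝ) :
    ((c • f).sum fun y a => a * h y) = c * (f.sum fun y a => a * h y) := by
  rw [Finsupp.sum_smul_index' (fun _ => by ring), Finsupp.mul_sum]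
  refine Finsupp.sum_congr fun y _ => ?_
  rw [smul_eq_mul]
  ring

theorem abs_sum_le {Y : Type*} (f : Y →₀ ℝ) (h : Y → ℝ) (C : ℝ) (hC : ∀ y ∈ f.support, |h y| ≤ C) :
    |f.sum fun y a => a * h y| ≤ C * f.sum fun _ a => |a| := by
  unfold Finsupp.sum
  refine (Finset.abs_sum_le_sum_abs _ _).trans ?_
  rw [Finset.mul_sum]
  refine Finset.sum_le_sum fun y hy => ?_
  rw [abs_mul, mul_comm]
  exact mul_le_mul_of_nonneg_right (hC y hy) (abs_nonneg _)

/-- a map into measures: pairing with functions -/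
theorem Loc.exists_map {ι : Type*} {U : Ultrafilter ι}
    {s : ι → (Z →L[ℝ] ℝ) → ((Z →L[ℝ] ℝ) →₀ ℝ)} {lam : ℝ} (hs : Loc Z U s lam)
    {K : Type*} [TopologicalSpace K] [CompactSpace K] (p : (Z →L[ℝ] ℝ) → K) :
    ∃ α : (Z →L[ℝ] ℝ) →L[ℝ] (C(K, ℝ) →L[ℝ] ℝ), (∀ x, ‖α x‖ ≤ lam * ‖x‖) ∧
      ∀ x h, Tendsto (fun i => (s i x).sum fun y a => a * h (p y)) U (𝓝 (α x h)) := by
  obtain ⟨α, h1, h2⟩ := exists_lim U
    (fun i (x : Z →L[ℝ] ℝ) (h : C(K, ℝ)) => (s i x).sum fun y a => a * h (p y)) lam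
    (fun i x h => by
      refine (abs_sum_le _ _ ‖h‖ (fun y _ => h.norm_coe_le_norm (p y))).trans ?_
      rw [mul_comm]
      exact mul_le_mul_of_nonneg_right (hs.bound i x) (norm_nonneg _))
    (fun x x' h => by
      refine Tendsto.congr' ?_ tendsto_const_nhds
      filter_upwards [hs.add x x'] with i hi
      rw [hi, sum_add_fun]
      ring)
    (fun c x h => by
      refine Tendsto.congr' ?_ tendsto_const_nhds
      filter_upwards [hs.smul c x] with i hi
      rw [hi, sum_smul_fun]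
      ring)
    (fun x h h' => by
      refine Tendsto.congr (fun i => ?_) tendsto_const_nhds
      simp only [Finsupp.sum, ContinuousMap.add_apply, mul_add, Finset.sum_add_distrib]
      ring)
    (fun c x h => by
      refine Tendsto.congr (fun i => ?_) tendsto_const_nhds
      simp only [Finsupp.sum, ContinuousMap.smul_apply, smul_eq_mul, Finset.mul_sum]
      rw [eq_comm, sub_eq_zero]
      exact Finset.sum_congr rfl fun y _ => by ring)
  refine ⟨α, fun x => ?_, h1⟩
  have := h2 x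
  rwa [abs_of_nonneg hs.nonneg] at this

omit [NormedSpace ℝ Z] in
theorem net_aux {X E : Type*} [NormedAddCommGroup E] [ProperSpace E] (r : X → E) (S : Set X)
    (h : ∀ x ∈ S, ‖r x‖ ≤ 1) (ε : ℝ) (hε : 0 < ε) :
    ∃ (k : ℕ) (c : Fin k → X), (∀ j, c j ∈ S) ∧ ∀ x ∈ S, ∃ j, dist (r x) (r (c j)) < ε := by
  classical
  have hb : TotallyBounded (r '' S) := by
    refine TotallyBounded.subset ?_ (isCompact_closedBall (0 : E) 1).totallyBounded
    rintro _ ⟨x, hx, rfl⟩
    rw [mem_closedBall_zero_iff]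
    exact h x hx
  obtain ⟨t, ht1, ht2, ht3⟩ := Metric.finite_approx_of_totallyBounded hb ε hε
  have hch : ∀ u : t, ∃ x ∈ S, r x = u := fun u => ht1 u.2
  choose c hc1 hc2 using hch
  have hfin : Finite t := ht2
  obtain ⟨k, ⟨e⟩⟩ := Finite.exists_equiv_fin t
  refine ⟨k, fun j => c (e.symm j), fun j => hc1 _, fun x hx => ?_⟩
  obtain ⟨u, hu, hxu⟩ := Set.mem_iUnion₂.1 (ht3 ⟨x, hx, rfl⟩)
  refine ⟨e ⟨u, hu⟩, ?_⟩
  show dist (r x) (r (c (e.symm (e ⟨u, hu⟩)))) < ε
  rw [e.symm_apply_apply, hc2]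
  exact hxu

/-- finite nets for the restrictions of functionals to finite dimensional subspaces -/
theorem exists_net (G : Submodule ℝ Z) [FiniteDimensional ℝ G] (ε : ℝ) (hε : 0 < ε) :
    ∃ (k : ℕ) (y : Fin k → (Z →L[ℝ] ℝ)), (∀ j, ‖y j‖ ≤ 1) ∧
      ∀ x : Z →L[ℝ] ℝ, ‖x‖ ≤ 1 → ∃ j, ∀ z ∈ G, |x z - y j z| ≤ ε * ‖z‖ := by
  classical
  let r : (Z →L[ℝ] ℝ) → (G →L[ℝ] ℝ) := fun x => x.comp G.subtypeL
  have hr : ∀ x, ‖r x‖ ≤ ‖x‖ := by
    intro x
    refine (ContinuousLinearMap.opNorm_comp_le _ _).trans ?_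
    have := G.norm_subtypeL_le
    nlinarith [norm_nonneg x]
  have hprop : ProperSpace (G →L[ℝ] ℝ) := FiniteDimensional.proper ℝ (G →L[ℝ] ℝ)
  obtain ⟨k, c, hc1, hc2⟩ := net_aux r {x | ‖x‖ ≤ 1} (fun x hx => (hr x).trans hx) ε hε
  refine ⟨k, c, hc1, fun x hx => ?_⟩
  obtain ⟨j, hj⟩ := hc2 x hx
  refine ⟨j, fun z hz => ?_⟩
  rw [dist_eq_norm] at hj
  have h2 := (r x - r (c j)).le_opNorm ⟨z, hz⟩
  have h3 : (r x - r (c j)) ⟨z, hz⟩ = x z - c j z := rfl
  rw [h3, Real.norm_eq_abs] at h2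
  exact h2.trans (mul_le_mul_of_nonneg_right hj.le (norm_nonneg _))

/-- decoding of a finite block -/
noncomputable def dec {k : ℕ} (b : Fin k → Bool) : Option (Fin k) :=
  open Classical in if h : ∃ i, b i = true then some h.choose else none

theorem dec_eq {k : ℕ} (j : Fin k) : dec (fun i => decide (i = j)) = some j := by
  have h : ∃ i, (fun i => decide (i = j)) i = true := ⟨j, by simp⟩
  rw [dec, dif_pos h]
  exact congrArg some (of_decide_eq_true h.choose_spec)

/-- The operators `Z → C({0,1}^(T'))`. -/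
theorem exists_ops {T : Type*} (d : T → Z) :
    ∃ (e : Finset T × ℕ → (Z →L[ℝ] C((Finset T × ℕ × ℕ → Bool), ℝ)))
      (p : (Z →L[ℝ] ℝ) → (Finset T × ℕ × ℕ → Bool)), (∀ i z, ‖e i z‖ ≤ ‖z‖) ∧
      ∀ (F : Finset T) (n : ℕ) (y : Z →L[ℝ] ℝ), ‖y‖ ≤ 1 →
        ∀ z ∈ Submodule.span ℝ (d '' (F : Set T)), |y z - e (F, n) z (p y)| ≤ (1 / ((n : ℝ) + 1)) * ‖z‖ := by
  classical
  have hfd : ∀ F : Finset T, FiniteDimensional ℝ (Submodule.span ℝ (d '' (F : Set T))) := fun F =>
    FiniteDimensional.span_of_finite ℝ (F.finite_toSet.image d)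
  have hnet := fun (F : Finset T) (n : ℕ) =>
    exists_net (Submodule.span ℝ (d '' (F : Set T))) (1 / ((n : ℝ) + 1)) (by positivity)
  choose k y hy1 hy2 using hnet
  choose j hj using fun F n => hy2 F n
  -- evaluation at the decoded index
  let ev : ∀ (F : Finset T) (n : ℕ), (Finset T × ℕ × ℕ → Bool) → (Z →L[ℝ] ℝ) := fun F n t =>
    match dec (fun i : Fin (k F n) => t (F, n, i)) with
    | some i => y F n i
    | none => 0
  have hev : ∀ F n t, ‖ev F n t‖ ≤ 1 := by
    intro F n t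
    show ‖(match dec (fun i : Fin (k F n) => t (F, n, i)) with
    | some i => y F n i
    | none => 0)‖ ≤ 1
    cases dec (fun i : Fin (k F n) => t (F, n, i)) with
    | none => simp
    | some i => exact hy1 F n i
  have hcont : ∀ F n z, Continuous fun t => ev F n t z := by
    intro F n z
    have h1 : Continuous fun (b : Fin (k F n) → Bool) =>
        (match dec b with
          | some i => y F n i
          | none => (0 : Z →L[ℝ] ℝ)) z := continuous_of_discreteTopology
    have h2 : Continuous fun (t : Finset T × ℕ × ℕ → Bool) => fun i : Fin (k F n) => t (F, n, i) := by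
      fun_prop
    exact h1.comp h2
  let e : Finset T × ℕ → (Z →L[ℝ] C((Finset T × ℕ × ℕ → Bool), ℝ)) := fun i =>
    LinearMap.mkContinuous (𝕜 := ℝ) (𝕜₂ := ℝ)
      { toFun := fun z => ⟨fun t => ev i.1 i.2 t z, hcont i.1 i.2 z⟩
        map_add' := fun z z' => by
          ext t
          exact map_add (ev i.1 i.2 t) z z'
        map_smul' := fun c z => by
          ext t
          exact map_smul (ev i.1 i.2 t) c z } 1 (fun z => by
        rw [one_mul]
        refine (ContinuousMap.norm_le _ (norm_nonneg z)).2 fun t => ?_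
        refine ((ev i.1 i.2 t).le_opNorm z).trans ?_
        have := hev i.1 i.2 t
        nlinarith [norm_nonneg z])
  have he : ∀ F n z t, e (F, n) z t = ev F n t z := fun _ _ _ _ => rfl
  let p : (Z →L[ℝ] ℝ) → (Finset T × ℕ × ℕ → Bool) := fun x q =>
    if hx : ‖x‖ ≤ 1 then decide (q.2.2 = (j q.1 q.2.1 x hx : ℕ)) else false
  refine ⟨e, p, fun i z => ?_, fun F n x hx z hz => ?_⟩
  · refine (ContinuousMap.norm_le _ (norm_nonneg z)).2 fun t => ?_
    refine ((ev i.1 i.2 t).le_opNorm z).trans ?_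
    have := hev i.1 i.2 t
    nlinarith [norm_nonneg z]
  · have h1 : (fun i : Fin (k F n) => p x (F, n, i)) = fun i => decide (i = j F n x hx) := by
      funext i
      simp only [p, dif_pos hx]
      rw [decide_eq_decide]
      exact Fin.ext_iff.symm
    have h2 : ev F n (p x) = y F n (j F n x hx) := by
      show (match dec (fun i : Fin (k F n) => p x (F, n, i)) with
        | some i => y F n i
        | none => 0) = _
      rw [h1, dec_eq]
    rw [he, h2]
    exact hj F n x hx z hz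

/-- **Upper embedding.** -/
theorem cpl_up {ι : Type*} {U : Ultrafilter ι}
    {s : ι → (Z →L[ℝ] ℝ) → ((Z →L[ℝ] ℝ) →₀ ℝ)} {lam : ℝ} (hs : Loc Z U s lam)
    {T : Type*} [Nonempty T] (d : T → Z) (hd : DenseRange d) :
    Cpl (Z →L[ℝ] ℝ) (C((Finset T × ℕ × ℕ → Bool), ℝ) →L[ℝ] ℝ) := by
  classical
  obtain ⟨e, p, he, hep⟩ := exists_ops d
  obtain ⟨α, hα1, hα2⟩ := hs.exists_map p
  let V : Ultrafilter (Finset T × ℕ) := Ultrafilter.of atTop
  have hV : (V : Filter (Finset T × ℕ)) ≤ atTop := Ultrafilter.of_le _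
  obtain ⟨β, hβ, -⟩ := exists_lim V
    (fun i (μ : C((Finset T × ℕ × ℕ → Bool), ℝ) →L[ℝ] ℝ) (z : Z) => μ (e i z)) 1
    (fun i μ z => by
      rw [one_mul]
      refine (μ.le_opNorm _).trans ?_
      exact mul_le_mul_of_nonneg_left (he i z) (norm_nonneg _))
    (fun μ μ' z => by
      refine Tendsto.congr (fun i => ?_) tendsto_const_nhds
      rw [add_apply]
      ring)
    (fun c μ z => by
      refine Tendsto.congr (fun i => ?_) tendsto_const_nhds
      rw [smul_apply, smul_eq_mul]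
      ring)
    (fun μ z z' => by
      refine Tendsto.congr (fun i => ?_) tendsto_const_nhds
      rw [map_add, map_add]
      ring)
    (fun c μ z => by
      refine Tendsto.congr (fun i => ?_) tendsto_const_nhds
      rw [map_smul, map_smul, smul_eq_mul]
      ring)
  refine ⟨α, β, fun x => ?_⟩
  ext z
  refine tendsto_nhds_unique (hβ (α x) z) ?_
  -- the error
  have key : ∀ (F : Finset T) (n : ℕ) (t : T), t ∈ F →
      |α x (e (F, n) z) - x z| ≤ (2 * ‖z - d t‖ + (1 / ((n : ℝ) + 1)) * ‖d t‖) * (lam * ‖x‖) := by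
    intro F n t ht
    have h1 : Tendsto (fun i => |((s i x).sum fun y a => a * (e (F, n) z) (p y)) -
        (s i x).sum fun y a => a * y z|) U (𝓝 |α x (e (F, n) z) - x z|) :=
      ((hα2 x (e (F, n) z)).sub (hs.lim x z)).abs
    refine le_of_tendsto h1 (Filter.Eventually.of_forall fun i => ?_)
    have h2 : ((s i x).sum fun y a => a * (e (F, n) z) (p y)) - ((s i x).sum fun y a => a * y z) =
        (s i x).sum fun y a => a * ((e (F, n) z) (p y) - y z) := by
      unfold Finsupp.sum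
      rw [← Finset.sum_sub_distrib]
      exact Finset.sum_congr rfl fun y _ => by ring
    rw [h2]
    refine (abs_sum_le _ _ (2 * ‖z - d t‖ + (1 / ((n : ℝ) + 1)) * ‖d t‖) (fun y hy => ?_)).trans ?_
    · have hy1 := hs.ball i x y hy
      have hmem : d t ∈ Submodule.span ℝ (d '' (F : Set T)) :=
        Submodule.subset_span ⟨t, by simpa using ht, rfl⟩
      have h3 := hep F n y hy1 (d t) hmem
      have h4 : |(e (F, n) (z - d t)) (p y)| ≤ ‖z - d t‖ :=
        ((e (F, n) (z - d t)).norm_coe_le_norm (p y)).trans (he _ _)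
      have h5 : |y (z - d t)| ≤ ‖z - d t‖ := by
        refine (y.le_opNorm _).trans ?_
        nlinarith [norm_nonneg (z - d t)]
      have h6 : (e (F, n) z) (p y) - y z = (e (F, n) (z - d t)) (p y) - y (z - d t) -
          (y (d t) - e (F, n) (d t) (p y)) := by
        rw [map_sub, map_sub, ContinuousMap.sub_apply]
        ring
      rw [h6]
      refine (abs_sub _ _).trans ?_
      have := abs_sub (e (F, n) (z - d t) (p y)) (y (z - d t))
      linarith
    · refine mul_le_mul_of_nonneg_left (hs.bound i x) (by positivity)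
  rw [Metric.tendsto_nhds]
  intro ε hε
  have hL : 0 ≤ lam * ‖x‖ := mul_nonneg hs.nonneg (norm_nonneg _)
  set L := lam * ‖x‖ with hLdef
  obtain ⟨t, ht⟩ := hd.exists_dist_lt z (ε := ε / (4 * (L + 1))) (by positivity)
  obtain ⟨N, hN⟩ := exists_nat_gt (‖d t‖ * (4 * (L + 1)) / ε)
  have hev : ∀ᶠ i in (atTop : Filter (Finset T × ℕ)), ({t}, N) ≤ i := eventually_ge_atTop _
  filter_upwards [hV hev] with i hi
  obtain ⟨F, n⟩ := i
  have hF : t ∈ F := hi.1 (by simp)
  have hn : N ≤ n := hi.2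
  rw [Real.dist_eq]
  refine lt_of_le_of_lt (key F n t hF) ?_
  have h7 : ‖z - d t‖ < ε / (4 * (L + 1)) := by rwa [← dist_eq_norm]
  have h8 : (1 / ((n : ℝ) + 1)) * ‖d t‖ < ε / (4 * (L + 1)) := by
    have hn' : (N : ℝ) ≤ n := by exact_mod_cast hn
    have h9 : ‖d t‖ * (4 * (L + 1)) / ε < (n : ℝ) + 1 := by linarith
    rw [div_lt_iff₀ hε] at h9
    rw [one_div, inv_mul_eq_div, div_lt_div_iff₀ (by positivity) (by positivity)]
    linarith
  have h10 : (2 * ‖z - d t‖ + 1 / ((n : ℝ) + 1) * ‖d t‖) ≤ 3 * (ε / (4 * (L + 1))) := by linarith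
  calc (2 * ‖z - d t‖ + 1 / ((n : ℝ) + 1) * ‖d t‖) * L ≤ 3 * (ε / (4 * (L + 1))) * L :=
        mul_le_mul_of_nonneg_right h10 hL
    _ < ε := by
        rw [show 3 * (ε / (4 * (L + 1))) * L = (3 * ε * L) / (4 * (L + 1)) by ring,
          div_lt_iff₀ (by positivity)]
        nlinarith

end

end Pool.Agent.H180
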