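import Mathlib
import Pool.Agent.H180.Dec
import Pool.Agent.H180.Up
import Pool.Agent.H180.Cant

/-!
The space of measures on `{0,1}^T` is isomorphic to its own `ℓ₁`-sum; the two-sided theorem.
-/

set_option autoImplicit false

open Filter Topology Set

namespace Pool.Agent.H180

/-- measures on a compact space -/
abbrev MM (K : Type*) [TopologicalSpace K] [CompactSpace K] : Type _ := C(K, ℝ) →L[ℝ] ℝ

section

variable {K L : Type*} [TopologicalSpace K] [CompactSpace K] [TopologicalSpace L] [CompactSpace L]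

/-- composition with a continuous map -/
noncomputable def pull (φ : C(K, L)) : C(L, ℝ) →L[ℝ] C(K, ℝ) :=
  LinearMap.mkContinuous (𝕜 := ℝ) (𝕜₂ := ℝ)
    { toFun := fun f => f.comp φ, map_add' := fun _ _ => rfl, map_smul' := fun _ _ => rfl } 1
    (fun f => by
      rw [one_mul]
      exact (ContinuousMap.norm_le _ (norm_nonneg f)).2 fun t => f.norm_coe_le_norm _)

theorem pull_apply (φ : C(K, L)) (f : C(L, ℝ)) (t : K) : pull φ f t = f (φ t) := rfl

theorem norm_pull_le (φ : C(K, L)) (f : C(L, ℝ)) : ‖pull φ f‖ ≤ ‖f‖ :=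
  (ContinuousMap.norm_le _ (norm_nonneg f)).2 fun _ => f.norm_coe_le_norm _

/-- the adjoint -/
noncomputable def adj {E F : Type*} [NormedAddCommGroup E] [NormedSpace ℝ E] [NormedAddCommGroup F]
    [NormedSpace ℝ F] (A : E →L[ℝ] F) : (F →L[ℝ] ℝ) →L[ℝ] (E →L[ℝ] ℝ) :=
  (ContinuousLinearMap.compL ℝ E F ℝ).flip A

theorem adj_apply {E F : Type*} [NormedAddCommGroup E] [NormedSpace ℝ E] [NormedAddCommGroup F]
    [NormedSpace ℝ F] (A : E →L[ℝ] F) (y : F →L[ℝ] ℝ) (e : E) : adj A y e = y (A e) := rfl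

/-- the image of measures -/
noncomputable def push (φ : C(K, L)) : MM K →L[ℝ] MM L := adj (pull φ)

theorem push_apply (φ : C(K, L)) (μ : MM K) (f : C(L, ℝ)) : push φ μ f = μ (pull φ f) := rfl

/-- homeomorphic spaces have isomorphic spaces of measures -/
noncomputable def MM.congr (e : K ≃ₜ L) : MM K ≃L[ℝ] MM L :=
  ContinuousLinearEquiv.equivOfInverse (push ⟨e, e.continuous⟩) (push ⟨e.symm, e.symm.continuous⟩)
    (fun μ => by
      ext f
      rw [push_apply, push_apply]
      congr 1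
      ext t
      simp [pull_apply])
    (fun μ => by
      ext f
      rw [push_apply, push_apply]
      congr 1
      ext t
      simp [pull_apply])

end

/-- equivalent index sets -/
noncomputable def MM.cube {S T : Type*} (e : S ≃ T) : MM (S → Bool) ≃L[ℝ] MM (T → Bool) :=
  MM.congr
    { toFun := fun t i => t (e.symm i)
      invFun := fun t i => t (e i)
      left_inv := fun t => by simp
      right_inv := fun t => by simp
      continuous_toFun := by fun_prop
      continuous_invFun := by fun_prop }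

theorem sum_norm_le {E : Type*} [NormedAddCommGroup E] [NormedSpace ℝ E] {I : Type*} (s : Finset I)
    (f : I → (E →L[ℝ] ℝ)) (K : ℝ)
    (h : ∀ u : I → E, (∀ n, ‖u n‖ ≤ 1) → ∑ n ∈ s, f n (u n) ≤ K) :
    ∑ n ∈ s, ‖f n‖ ≤ K := by
  refine le_of_forall_pos_le_add fun ε hε => ?_
  have h1 : ∀ n, ∃ u : E, ‖u‖ ≤ 1 ∧ ‖f n‖ - ε / (s.card + 1) ≤ f n u := by
    intro n
    have hδ : 0 < ε / (s.card + 1 : ℝ) := by positivity
    obtain ⟨x, hx1, hx2⟩ := (f n).exists_lt_apply_of_lt_opNorm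
      (show ‖f n‖ - ε / (s.card + 1) < ‖f n‖ by linarith)
    rcases le_total 0 (f n x) with h0 | h0
    · refine ⟨x, hx1.le, ?_⟩
      rw [Real.norm_of_nonneg h0] at hx2
      exact hx2.le
    · refine ⟨-x, by rw [norm_neg]; exact hx1.le, ?_⟩
      rw [Real.norm_of_nonpos h0] at hx2
      rw [map_neg]
      exact hx2.le
  choose u hu1 hu2 using h1
  have h2 := h u hu1
  have h3 : ∑ n ∈ s, ‖f n‖ ≤ ∑ n ∈ s, (f n (u n) + ε / (s.card + 1)) :=
    Finset.sum_le_sum fun n _ => by linarith [hu2 n]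
  rw [Finset.sum_add_distrib, Finset.sum_const, nsmul_eq_mul] at h3
  have h4 : (s.card : ℝ) * (ε / (s.card + 1)) ≤ ε := by
    rw [mul_div_assoc', div_le_iff₀ (by positivity)]
    nlinarith
  linarith

theorem summable_norm_le {E : Type*} [NormedAddCommGroup E] [NormedSpace ℝ E]
    (f : ℕ → (E →L[ℝ] ℝ)) (K : ℝ)
    (h : ∀ (s : Finset ℕ) (u : ℕ → E), (∀ n, ‖u n‖ ≤ 1) → ∑ n ∈ s, f n (u n) ≤ K) :
    Summable (fun n => ‖f n‖) ∧ ∑' n, ‖f n‖ ≤ K := by
  have h1 : ∀ s : Finset ℕ, ∑ n ∈ s, ‖f n‖ ≤ K := fun s => sum_norm_le s f K (h s)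
  have h2 : Summable (fun n => ‖f n‖) :=
    summable_of_sum_le (fun n => norm_nonneg _) h1
  exact ⟨h2, h2.tsum_le_of_sum_le h1⟩

section Self

variable (T : Type*)

/-- points of the `n`-th clopen set -/
def inn (n : ℕ) : C(T → Bool, (T ⊕ ℕ) → Bool) :=
  ⟨fun t => Sum.elim t (fun m => decide (m = n)), by
    refine continuous_pi fun i => ?_
    cases i with
    | inl a => exact continuous_apply a
    | inr m => exact continuous_const⟩

/-- restriction -/
def rst : C((T ⊕ ℕ) → Bool, T → Bool) := ⟨fun t a => t (Sum.inl a), by fun_prop⟩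

/-- a function of finitely many coordinates -/
def bmp0 (n : ℕ) (b : Fin (n + 1) → Bool) : ℝ :=
  if (∀ i : Fin (n + 1), b i = decide ((i : ℕ) = n)) then 1 else 0

/-- indicator of the `n`-th clopen set: the first value `true` on `ℕ` is at `n` -/
noncomputable def bmp (n : ℕ) : C((T ⊕ ℕ) → Bool, ℝ) :=
  ⟨fun t => bmp0 n (fun i => t (Sum.inr i)),
    (continuous_of_discreteTopology (f := bmp0 n)).comp (by fun_prop)⟩

open Classical in
theorem bmp_apply (n : ℕ) (t : (T ⊕ ℕ) → Bool) :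
    bmp T n t = if (∀ i ≤ n, t (Sum.inr i) = decide (i = n)) then 1 else 0 := by
  show (if (∀ i : Fin (n + 1), t (Sum.inr i) = decide ((i : ℕ) = n)) then (1 : ℝ) else 0) = _
  have h1 : (∀ i : Fin (n + 1), t (Sum.inr i) = decide ((i : ℕ) = n)) ↔
      (∀ i ≤ n, t (Sum.inr i) = decide (i = n)) :=
    ⟨fun h i hi => h ⟨i, by omega⟩, fun h i => h i (by omega)⟩
  by_cases h : ∀ i ≤ n, t (Sum.inr i) = decide (i = n)
  · rw [if_pos h, if_pos (h1.2 h)]
  · rw [if_neg h, if_neg (fun h' => h (h1.1 h'))]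

theorem bmp_inn (n m : ℕ) (t : T → Bool) : bmp T n (inn T m t) = if n = m then 1 else 0 := by
  classical
  rw [bmp_apply]
  by_cases h : n = m
  · subst h
    rw [if_pos rfl, if_pos]
    intro i _
    rfl
  · rw [if_neg h, if_neg]
    intro h'
    by_cases hmn : m ≤ n
    · have := h' m hmn
      change decide (m = m) = decide (m = n) at this
      have h2 : decide (m = n) = true := by rw [← this]; simp
      exact h (of_decide_eq_true h2).symm
    · have := h' n le_rfl
      change decide (n = m) = decide (n = n) at this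
      have h2 : decide (n = m) = true := by rw [this]; simp
      exact h (of_decide_eq_true h2)

theorem bmp_nonneg (n : ℕ) (t : (T ⊕ ℕ) → Bool) : 0 ≤ bmp T n t := by
  classical
  rw [bmp_apply]
  split_ifs <;> norm_num

theorem bmp_sum_le (s : Finset ℕ) (t : (T ⊕ ℕ) → Bool) : ∑ n ∈ s, bmp T n t ≤ 1 := by
  classical
  by_cases h : ∃ n ∈ s, bmp T n t ≠ 0
  · obtain ⟨n, hn, hn0⟩ := h
    rw [Finset.sum_eq_single_of_mem n hn]
    · rw [bmp_apply]
      split_ifs <;> norm_num
    · intro m hm hmn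
      rw [bmp_apply] at hn0 ⊢
      have h1 : ∀ i ≤ n, t (Sum.inr i) = decide (i = n) := by
        by_contra hc
        rw [if_neg hc] at hn0
        exact hn0 rfl
      rw [if_neg]
      intro h2
      rcases lt_or_gt_of_ne hmn with hlt | hlt
      · have a := h1 m hlt.le
        have b := h2 m le_rfl
        rw [a] at b
        simp only [decide_true, decide_eq_true_eq] at b
        omega
      · have a := h2 n hlt.le
        have b := h1 n le_rfl
        rw [a] at b
        simp only [decide_true, decide_eq_true_eq] at b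
        omega
  · push Not at h
    rw [Finset.sum_eq_zero h]
    norm_num

/-- multiplication by the bumps -/
noncomputable def mlt (n : ℕ) : C(T → Bool, ℝ) →L[ℝ] C((T ⊕ ℕ) → Bool, ℝ) :=
  LinearMap.mkContinuous (𝕜 := ℝ) (𝕜₂ := ℝ)
    { toFun := fun f => bmp T n * pull (rst T) f
      map_add' := fun f g => by rw [map_add, mul_add]
      map_smul' := fun c f => by
        ext t
        simp only [map_smul, ContinuousMap.mul_apply, ContinuousMap.smul_apply, smul_eq_mul,
          RingHom.id_apply]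
        ring } 1 (fun f => by
      rw [one_mul]
      refine (ContinuousMap.norm_le _ (norm_nonneg _)).2 fun t => ?_
      show ‖(bmp T n * pull (rst T) f) t‖ ≤ _
      rw [ContinuousMap.mul_apply, norm_mul]
      have h1 : ‖bmp T n t‖ ≤ 1 := by
        rw [Real.norm_of_nonneg (bmp_nonneg T n t)]
        have := bmp_sum_le T {n} t
        simpa using this
      have h2 : ‖pull (rst T) f t‖ ≤ ‖f‖ := f.norm_coe_le_norm _
      calc _ ≤ 1 * ‖f‖ := mul_le_mul h1 h2 (norm_nonneg _) (by norm_num)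
        _ = _ := one_mul _)

theorem mlt_apply (n : ℕ) (f : C(T → Bool, ℝ)) (t : (T ⊕ ℕ) → Bool) :
    mlt T n f t = bmp T n t * f (rst T t) := rfl

theorem sum_inn (ν : LS (MM (T → Bool))) (h : C((T ⊕ ℕ) → Bool, ℝ)) :
    Summable (fun n => ν n (pull (inn T n) h)) ∧
      |∑' n, ν n (pull (inn T n) h)| ≤ ‖ν‖ * ‖h‖ := by
  have h0 : ∀ n, ‖ν n (pull (inn T n) h)‖ ≤ ‖ν n‖ * ‖h‖ := fun n =>
    ((ν n).le_opNorm _).trans (mul_le_mul_of_nonneg_left (norm_pull_le _ _) (norm_nonneg _))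
  have h1 : Summable fun n => ‖ν n‖ * ‖h‖ := (LS.summable ν).mul_right _
  have h2 : Summable fun n => ‖ν n (pull (inn T n) h)‖ :=
    h1.of_nonneg_of_le (fun _ => norm_nonneg _) h0
  refine ⟨h2.of_norm, ?_⟩
  have h3 := norm_tsum_le_tsum_norm h2
  have h4 := h2.tsum_le_tsum h0 h1
  rw [tsum_mul_right, ← LS.norm_eq] at h4
  exact h3.trans h4

/-- the embedding as a bilinear map -/
noncomputable def JJ0 : LS (MM (T → Bool)) →ₗ[ℝ] C((T ⊕ ℕ) → Bool, ℝ) →ₗ[ℝ] ℝ := LinearMap.mk₂ ℝ
  (fun ν h => ∑' n, ν n (pull (inn T n) h))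
  (fun ν ν' h => by
    rw [← (sum_inn T ν h).1.tsum_add (sum_inn T ν' h).1]
    rfl)
  (fun c ν h => by
    rw [smul_eq_mul, ← tsum_mul_left]
    rfl)
  (fun ν h h' => by
    rw [← (sum_inn T ν h).1.tsum_add (sum_inn T ν h').1]
    congr 1
    funext n
    rw [map_add, map_add])
  (fun c ν h => by
    rw [smul_eq_mul, ← tsum_mul_left]
    congr 1
    funext n
    rw [map_smul, map_smul, smul_eq_mul])

/-- the embedding -/
noncomputable def JJ : LS (MM (T → Bool)) →L[ℝ] MM ((T ⊕ ℕ) → Bool) :=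
  (JJ0 T).mkContinuous₂ 1 (fun ν h => by
    rw [one_mul]
    exact (sum_inn T ν h).2)

theorem JJ_apply (ν : LS (MM (T → Bool))) (h : C((T ⊕ ℕ) → Bool, ℝ)) :
    JJ T ν h = ∑' n, ν n (pull (inn T n) h) := rfl

theorem QQ_bound (μ : MM ((T ⊕ ℕ) → Bool)) :
    Summable (fun n => ‖adj (mlt T n) μ‖) ∧ ∑' n, ‖adj (mlt T n) μ‖ ≤ 1 * ‖μ‖ := by
  rw [one_mul]
  refine summable_norm_le (fun n => adj (mlt T n) μ) ‖μ‖ fun s u hu => ?_
  have h1 : ∑ n ∈ s, (adj (mlt T n) μ) (u n) = μ (∑ n ∈ s, mlt T n (u n)) := by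
    rw [map_sum]
    rfl
  rw [h1]
  refine (le_abs_self _).trans ((μ.le_opNorm _).trans ?_)
  have h2 : ‖∑ n ∈ s, mlt T n (u n)‖ ≤ 1 := by
    refine (ContinuousMap.norm_le _ zero_le_one).2 fun t => ?_
    rw [ContinuousMap.sum_apply]
    refine (norm_sum_le _ _).trans ((Finset.sum_le_sum fun n _ => ?_).trans (bmp_sum_le T s t))
    rw [mlt_apply, norm_mul, Real.norm_of_nonneg (bmp_nonneg T n t)]
    have h3 : ‖u n (rst T t)‖ ≤ 1 := ((u n).norm_coe_le_norm _).trans (hu n)
    have := bmp_nonneg T n t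
    nlinarith
  have h4 : 0 ≤ ‖μ‖ := norm_nonneg μ
  nlinarith

/-- The `ℓ₁`-sum of measures on `{0,1}^T` is complemented in the measures on `{0,1}^(T ⊕ ℕ)`. -/
theorem cpl_self_aux : Cpl (LS (MM (T → Bool))) (MM ((T ⊕ ℕ) → Bool)) := by
  classical
  refine ⟨JJ T, LS.pi (fun n => adj (mlt T n)) 1 (QQ_bound T), fun ν => LS.ext fun n => ?_⟩
  ext f
  rw [LS.pi_apply, adj_apply, JJ_apply, tsum_eq_single n]
  · congr 1
    ext t
    rw [pull_apply, mlt_apply, bmp_inn, if_pos rfl, one_mul]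
    rfl
  · intro m hm
    have : pull (inn T m) (mlt T n f) = 0 := by
      ext t
      rw [pull_apply, mlt_apply, bmp_inn, if_neg (Ne.symm hm), zero_mul]
      rfl
    rw [this, map_zero]

theorem nonempty_sum_nat [Infinite T] : Nonempty ((T ⊕ ℕ) ≃ T) := by
  refine Cardinal.lift_mk_eq'.1 ?_
  rw [Cardinal.mk_sum, Cardinal.mk_nat, Cardinal.lift_add]
  simp only [Cardinal.lift_aleph0, Cardinal.lift_uzero, Cardinal.lift_id]
  exact Cardinal.add_eq_left (Cardinal.aleph0_le_mk T) (Cardinal.aleph0_le_mk T)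

theorem nonempty_index [Infinite T] : Nonempty ((Finset T × ℕ × ℕ) ≃ T) := by
  refine Cardinal.lift_mk_eq'.1 ?_
  simp only [Cardinal.mk_prod, Cardinal.mk_finset_of_infinite, Cardinal.mk_nat, Cardinal.lift_aleph0,
    Cardinal.lift_uzero, Cardinal.lift_id, Cardinal.aleph0_mul_aleph0]
  exact Cardinal.mul_eq_left (Cardinal.aleph0_le_mk T) (Cardinal.aleph0_le_mk T) Cardinal.aleph0_ne_zero

theorem cpl_self [Infinite T] : Cpl (LS (MM (T → Bool))) (MM (T → Bool)) := by
  obtain ⟨e⟩ := nonempty_sum_nat T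
  exact (cpl_self_aux T).trans (Cpl.of_equiv (MM.cube e))

end Self

end Pool.Agent.H180
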