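import Mathlib
import Pool.Agent.H180.Self

/-!
Local `ℓ₁`-structure of `𝓛₁`-spaces.
-/

set_option autoImplicit false

open Filter Topology Set

namespace Pool.Agent.H180

/-- script-`L₁` spaces, as in the frozen statement -/
def IsL1 (X : Type*) [NormedAddCommGroup X] [NormedSpace ℝ X] : Prop :=
  ∃ lam : ℝ, ∀ F : Submodule ℝ X, FiniteDimensional ℝ F →
    ∃ (n : ℕ) (x : Fin n → X),
      F ≤ Submodule.span ℝ (Set.range x) ∧
      ∀ a : Fin n → ℝ,
        ‖∑ i, a i • x i‖ ≤ ∑ i, |a i| ∧
        ∑ i, |a i| ≤ lam * ‖∑ i, a i • x i‖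

/-- exact local `ℓ₁`-structure -/
structure LocE (X : Type*) [NormedAddCommGroup X] [NormedSpace ℝ X] {ι : Type*} (U : Ultrafilter ι)
    (s : ι → X → (X →₀ ℝ)) (lam : ℝ) : Prop where
  nonneg : 0 ≤ lam
  bound : ∀ i x, ((s i x).sum fun _ a => |a|) ≤ lam * ‖x‖
  ball : ∀ i x, ∀ y ∈ (s i x).support, ‖y‖ ≤ 1
  add : ∀ x x', ∀ᶠ i in (U : Filter ι), s i (x + x') = s i x + s i x'
  smul : ∀ (c : ℝ) x, ∀ᶠ i in (U : Filter ι), s i (c • x) = c • s i x
  bary : ∀ x, ∀ᶠ i in (U : Filter ι), ((s i x).sum fun y a => a • y) = x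

/-- existence of a local `ℓ₁`-structure -/
def HasLoc.{u} (X : Type u) [NormedAddCommGroup X] [NormedSpace ℝ X] : Prop :=
  ∃ (ι : Type u) (U : Ultrafilter ι) (s : ι → X → (X →₀ ℝ)) (lam : ℝ), LocE X U s lam

section

variable {X : Type*} [NormedAddCommGroup X] [NormedSpace ℝ X]

theorem sum_abs_eq {Y : Type*} (f : Y →₀ ℝ) (s : Finset Y) (h : f.support ⊆ s) :
    (f.sum fun _ a => |a|) = ∑ y ∈ s, |f y| :=
  Finsupp.sum_of_support_subset f h _ (fun _ _ => abs_zero)

theorem sum_abs_mapDomain_le {Y Y' : Type*} (g : Y → Y') (f : Y →₀ ℝ) :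
    ((Finsupp.mapDomain g f).sum fun _ a => |a|) ≤ f.sum fun _ a => |a| := by
  classical
  induction f using Finsupp.induction with
  | zero => simp
  | single_add y b f hy hb ih =>
    have h1 : ((Finsupp.single y b + f).sum fun _ a => |a|) = |b| + f.sum fun _ a => |a| := by
      rw [Finsupp.sum_add_index_of_disjoint, Finsupp.sum_single_index abs_zero]
      rw [Finsupp.support_single _ hb]
      simpa using hy
    rw [h1, Finsupp.mapDomain_add, Finsupp.mapDomain_single]
    have h2 : ((Finsupp.single (g y) b + Finsupp.mapDomain g f).sum fun _ a => |a|) ≤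
        |b| + (Finsupp.mapDomain g f).sum fun _ a => |a| := by
      set f' := Finsupp.mapDomain g f
      have h3 : (Finsupp.single (g y) b + f').support ⊆ insert (g y) f'.support := by
        refine Finsupp.support_add.trans ?_
        intro w hw
        rw [Finset.mem_union] at hw
        rcases hw with hw | hw
        · have := Finsupp.support_single_subset hw
          rw [Finset.mem_singleton] at this
          rw [this]
          exact Finset.mem_insert_self _ _
        · exact Finset.mem_insert_of_mem hw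
      rw [sum_abs_eq _ _ h3, sum_abs_eq f' (insert (g y) f'.support) (Finset.subset_insert _ _)]
      calc ∑ w ∈ insert (g y) f'.support, |(Finsupp.single (g y) b + f') w| ≤
            ∑ w ∈ insert (g y) f'.support, (|Finsupp.single (g y) b w| + |f' w|) :=
            Finset.sum_le_sum fun w _ => by rw [Finsupp.add_apply]; exact abs_add_le _ _
        _ = |b| + ∑ w ∈ insert (g y) f'.support, |f' w| := by
            rw [Finset.sum_add_distrib]
            congr 1
            rw [Finset.sum_eq_single_of_mem (g y) (Finset.mem_insert_self _ _)]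
            · simp
            · intro w _ hw
              rw [Finsupp.single_eq_of_ne hw, abs_zero]
    linarith

theorem sum_mapDomain_smul {Y Y' : Type*} (g : Y → Y') (f : Y →₀ ℝ) (k : Y' → X) :
    ((Finsupp.mapDomain g f).sum fun y a => a • k y) = f.sum fun y a => a • k (g y) :=
  Finsupp.sum_mapDomain_index (h := fun y a => a • k y) (fun _ => zero_smul ℝ _)
    (fun _ _ _ => add_smul _ _ _)

theorem LocE.of_isL1 (h : IsL1 X) : ∃ (s : Finset X → X → (X →₀ ℝ)) (lam : ℝ),
    LocE X (Ultrafilter.of atTop) s lam := by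
  classical
  obtain ⟨lam, h⟩ := h
  have hfd : ∀ F : Finset X, FiniteDimensional ℝ (Submodule.span ℝ (F : Set X)) := fun F =>
    FiniteDimensional.span_of_finite ℝ F.finite_toSet
  choose n x hx1 hx2 using fun F : Finset X => h (Submodule.span ℝ (F : Set X)) (hfd F)
  have hli : ∀ F, LinearIndependent ℝ (x F) := by
    intro F
    rw [Fintype.linearIndependent_iff]
    intro g hg i
    have h1 := (hx2 F g).2
    rw [hg, norm_zero, mul_zero] at h1
    have h2 : |g i| ≤ ∑ j, |g j| :=
      Finset.single_le_sum (f := fun j => |g j|) (fun j _ => abs_nonneg _) (Finset.mem_univ i)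
    exact abs_eq_zero.1 (le_antisymm (h2.trans h1) (abs_nonneg _))
  have hball : ∀ F i, ‖x F i‖ ≤ 1 := by
    intro F i
    have h1 := (hx2 F (Pi.single i 1)).1
    have h2 : ∑ j, (Pi.single i (1 : ℝ) : Fin (n F) → ℝ) j • x F j = x F i := by
      rw [Finset.sum_eq_single i]
      · rw [Pi.single_eq_same, one_smul]
      · intro j _ hj
        rw [Pi.single_eq_of_ne hj, zero_smul]
      · intro h
        exact absurd (Finset.mem_univ _) h
    have h3 : ∑ j, |(Pi.single i (1 : ℝ) : Fin (n F) → ℝ) j| = 1 := by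
      rw [Finset.sum_eq_single i]
      · rw [Pi.single_eq_same, abs_one]
      · intro j _ hj
        rw [Pi.single_eq_of_ne hj, abs_zero]
      · intro h
        exact absurd (Finset.mem_univ _) h
    rwa [h2, h3] at h1
  let s : Finset X → X → (X →₀ ℝ) := fun F y =>
    if hy : y ∈ Submodule.span ℝ (Set.range (x F)) then
      Finsupp.mapDomain (x F) ((hli F).repr ⟨y, hy⟩) else 0
  have hs : ∀ F y (hy : y ∈ Submodule.span ℝ (Set.range (x F))),
      s F y = Finsupp.mapDomain (x F) ((hli F).repr ⟨y, hy⟩) := fun F y hy => dif_pos hy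
  have hs0 : ∀ F y, y ∉ Submodule.span ℝ (Set.range (x F)) → s F y = 0 := fun F y hy => dif_neg hy
  have hrep : ∀ F y (hy : y ∈ Submodule.span ℝ (Set.range (x F))),
      ∑ i, ((hli F).repr ⟨y, hy⟩) i • x F i = y := by
    intro F y hy
    have := (hli F).linearCombination_repr ⟨y, hy⟩
    rw [Finsupp.linearCombination_apply,
      Finsupp.sum_fintype _ (fun i a => a • x F i) (fun i => zero_smul ℝ _)] at this
    exact this
  have hU : ((Ultrafilter.of atTop : Ultrafilter (Finset X)) : Filter (Finset X)) ≤ atTop :=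
    Ultrafilter.of_le _
  have hmem : ∀ y : X, ∀ᶠ F in ((Ultrafilter.of atTop : Ultrafilter (Finset X)) : Filter (Finset X)),
      y ∈ Submodule.span ℝ (Set.range (x F)) := by
    intro y
    have hev : ∀ᶠ F in (atTop : Filter (Finset X)), {y} ≤ F := eventually_ge_atTop _
    filter_upwards [hU hev] with F hF
    exact hx1 F (Submodule.subset_span (hF (Finset.mem_singleton_self y)))
  refine ⟨s, |lam|, ⟨abs_nonneg _, fun F y => ?_, fun F y w hw => ?_, fun y y' => ?_,
    fun c y => ?_, fun y => ?_⟩⟩
  · by_cases hy : y ∈ Submodule.span ℝ (Set.range (x F))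
    · rw [hs F y hy]
      refine (sum_abs_mapDomain_le _ _).trans ?_
      rw [Finsupp.sum_fintype _ _ (fun i => abs_zero)]
      refine ((hx2 F _).2).trans ?_
      rw [hrep F y hy]
      exact mul_le_mul_of_nonneg_right (le_abs_self _) (norm_nonneg _)
    · rw [hs0 F y hy, Finsupp.sum_zero_index]
      positivity
  · by_cases hy : y ∈ Submodule.span ℝ (Set.range (x F))
    · rw [hs F y hy] at hw
      have := Finsupp.mapDomain_support hw
      rw [Finset.mem_image] at this
      obtain ⟨i, -, rfl⟩ := this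
      exact hball F i
    · rw [hs0 F y hy] at hw
      simp at hw
  · filter_upwards [hmem y, hmem y'] with F h1 h2
    rw [hs F _ (Submodule.add_mem _ h1 h2), hs F _ h1, hs F _ h2, ← Finsupp.mapDomain_add,
      ← map_add]
    rfl
  · filter_upwards [hmem y] with F h1
    rw [hs F _ (Submodule.smul_mem _ c h1), hs F _ h1, ← Finsupp.mapDomain_smul, ← map_smul]
    rfl
  · filter_upwards [hmem y] with F h1
    rw [hs F _ h1]
    refine (sum_mapDomain_smul (x F) _ (fun y => y)).trans ?_
    rw [Finsupp.sum_fintype _ (fun i a => a • x F i) (fun i => zero_smul ℝ _)]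
    exact hrep F y h1

/-- exact structures pass to complemented subspaces -/
theorem LocE.cpl {ι : Type*} {U : Ultrafilter ι} {s : ι → X → (X →₀ ℝ)} {lam : ℝ}
    (h : LocE X U s lam) {Y : Type*} [NormedAddCommGroup Y] [NormedSpace ℝ Y] (hY : Cpl Y X) :
    ∃ (s' : ι → Y → (Y →₀ ℝ)) (lam' : ℝ), LocE Y U s' lam' := by
  classical
  obtain ⟨j, q, hjq⟩ := hY
  set c : ℝ := ‖q‖ + 1 with hc
  have hc0 : 0 < c := by positivity
  let s' : ι → Y → (Y →₀ ℝ) := fun i y => c • Finsupp.mapDomain (fun x => c⁻¹ • q x) (s i (j y))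
  refine ⟨s', c * lam * ‖j‖, ⟨?_, fun i y => ?_, fun i y w hw => ?_, fun y y' => ?_,
    fun a y => ?_, fun y => ?_⟩⟩
  · have := h.nonneg
    positivity
  · have h1 : ((s' i y).sum fun _ a => |a|) =
        c * ((Finsupp.mapDomain (fun x => c⁻¹ • q x) (s i (j y))).sum fun _ a => |a|) := by
      rw [Finsupp.sum_smul_index' (fun _ => abs_zero), Finsupp.mul_sum]
      refine Finsupp.sum_congr fun w _ => ?_
      rw [smul_eq_mul, abs_mul, abs_of_pos hc0]
    rw [h1, mul_assoc, mul_assoc]
    refine mul_le_mul_of_nonneg_left ?_ hc0.le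
    refine (sum_abs_mapDomain_le _ _).trans ((h.bound i (j y)).trans ?_)
    exact mul_le_mul_of_nonneg_left (j.le_opNorm y) h.nonneg
  · have h1 := Finsupp.support_smul hw
    have h2 := Finsupp.mapDomain_support h1
    rw [Finset.mem_image] at h2
    obtain ⟨x, hx, rfl⟩ := h2
    have h3 := h.ball i _ x hx
    rw [norm_smul, norm_inv, Real.norm_of_nonneg hc0.le, inv_mul_le_iff₀ hc0, mul_one]
    refine (q.le_opNorm x).trans ?_
    have := norm_nonneg q
    nlinarith
  · filter_upwards [h.add (j y) (j y')] with i hi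
    show c • Finsupp.mapDomain _ (s i (j (y + y'))) = _
    rw [map_add, hi, Finsupp.mapDomain_add, smul_add]
  · filter_upwards [h.smul a (j y)] with i hi
    show c • Finsupp.mapDomain _ (s i (j (a • y))) = a • (c • _)
    rw [map_smul, hi, Finsupp.mapDomain_smul, smul_comm]
  · filter_upwards [h.bary (j y)] with i hi
    show ((c • Finsupp.mapDomain (fun x => c⁻¹ • q x) (s i (j y))).sum fun y a => a • y) = y
    rw [Finsupp.sum_smul_index' (h := fun y a => a • y) (fun _ => zero_smul ℝ _)]
    have h0 := sum_mapDomain_smul (fun x => c⁻¹ • q x) (s i (j y)) (fun y => c • y)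
    have h1 : ∀ (x : X) (a : ℝ), a • c • c⁻¹ • q x = q (a • x) := by
      intro x a
      rw [map_smul, smul_smul c, mul_inv_cancel₀ hc0.ne', one_smul]
    simp only [h1] at h0
    have h0' : ∀ (w : Y) (a : ℝ), (c • a) • w = a • c • w := fun w a => by
      rw [smul_smul, smul_eq_mul, mul_comm]
    simp only [h0']
    rw [h0]
    have h2 : ((s i (j y)).sum fun x a => q (a • x)) = q ((s i (j y)).sum fun x a => a • x) := by
      rw [Finsupp.sum, Finsupp.sum, map_sum]
    rw [h2, hi, hjq]

theorem LocE.loc {Z : Type*} [NormedAddCommGroup Z] [NormedSpace ℝ Z] {ι : Type*}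
    {U : Ultrafilter ι} {s : ι → (Z →L[ℝ] ℝ) → ((Z →L[ℝ] ℝ) →₀ ℝ)} {lam : ℝ}
    (h : LocE (Z →L[ℝ] ℝ) U s lam) : Loc Z U s lam where
  nonneg := h.nonneg
  bound := h.bound
  ball := h.ball
  add := h.add
  smul := h.smul
  lim := fun x z => by
    refine Tendsto.congr' ?_ tendsto_const_nhds
    filter_upwards [h.bary x] with i hi
    conv_lhs => rw [← hi]
    rw [Finsupp.sum, Finsupp.sum, sum_apply]
    rfl

end

end Pool.Agent.H180
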