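import Mathlib
import Pool.Agent.H180.LocE

/-!
The two-sided theorem: a dual `𝓛₁`-space whose predual has a dense set indexed by `T` and contains the
`ℓ₁`-sum of the finite blocks `ℓ_∞(2^F)`, `F ⊂ T` finite, is isomorphic to the measures on `{0,1}^T`.
-/

set_option autoImplicit false

open Filter Topology Set
open scoped Classical

namespace Pool.Agent.H180

/-- Interpolation by functionals (Helly, Hahn–Banach). -/
theorem exists_interp {Z : Type*} [NormedAddCommGroup Z] [NormedSpace ℝ Z] {I : Type*} (v : I → Z)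
    (c : I → ℝ) (K : ℝ) (hK : 0 ≤ K)
    (h : ∀ a : I →₀ ℝ, |a.sum fun i b => b * c i| ≤ K * ‖a.sum fun i b => b • v i‖) :
    ∃ x : Z →L[ℝ] ℝ, ‖x‖ ≤ K ∧ ∀ i, x (v i) = c i := by
  let L : (I →₀ ℝ) →ₗ[ℝ] Z := Finsupp.linearCombination ℝ v
  let φ : (I →₀ ℝ) →ₗ[ℝ] ℝ := Finsupp.linearCombination ℝ c
  have hL : ∀ a, L a = a.sum fun i b => b • v i := fun a => Finsupp.linearCombination_apply ℝ a
  have hφ : ∀ a, φ a = a.sum fun i b => b * c i := fun a => Finsupp.linearCombination_apply ℝ a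
  have h' : ∀ a, |φ a| ≤ K * ‖L a‖ := fun a => by
    rw [hL, hφ]
    exact h a
  have hker : LinearMap.ker L ≤ LinearMap.ker φ := by
    intro a ha
    rw [LinearMap.mem_ker] at ha ⊢
    have := h' a
    rw [ha, norm_zero, mul_zero] at this
    exact abs_eq_zero.1 (le_antisymm this (abs_nonneg _))
  let f0 : LinearMap.range L →ₗ[ℝ] ℝ :=
    ((LinearMap.ker L).liftQ φ hker).comp (LinearMap.quotKerEquivRange L).symm.toLinearMap
  have hf0 : ∀ a, f0 ⟨L a, LinearMap.mem_range_self L a⟩ = φ a := by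
    intro a
    show ((LinearMap.ker L).liftQ φ hker) ((LinearMap.quotKerEquivRange L).symm
      ⟨L a, LinearMap.mem_range_self L a⟩) = φ a
    rw [LinearMap.quotKerEquivRange_symm_apply_image]
    rfl
  let f : (LinearMap.range L) →L[ℝ] ℝ := f0.mkContinuous K (by
    rintro ⟨_, a, rfl⟩
    rw [hf0, Real.norm_eq_abs]
    exact h' a)
  have hfn : ‖f‖ ≤ K := LinearMap.mkContinuous_norm_le _ hK _
  obtain ⟨x, hx1, hx2⟩ := exists_extension_norm_eq (LinearMap.range L) f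
  refine ⟨x, hx2.le.trans hfn, fun i => ?_⟩
  have h1 : L (Finsupp.single i 1) = v i := by
    rw [hL, Finsupp.sum_single_index (h := fun i b => b • v i) (zero_smul ℝ _), one_smul]
  have h2 : φ (Finsupp.single i 1) = c i := by
    rw [hφ, Finsupp.sum_single_index (h := fun i b => b * c i) (zero_mul _), one_mul]
  have h3 := hx1 ⟨L (Finsupp.single i 1), LinearMap.mem_range_self L _⟩
  have h4 : f ⟨L (Finsupp.single i 1), LinearMap.mem_range_self L _⟩ = φ (Finsupp.single i 1) := hf0 _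
  rw [h4, h2] at h3
  rw [← h3, ← h1]

/-- `Z` contains the `ℓ₁`-sum of the spaces `ℓ_∞(2^F)`. -/
def HasG (Z : Type*) [NormedAddCommGroup Z] [NormedSpace ℝ Z] (T : Type*) : Prop :=
  ∃ (g : ∀ F : Finset T, (F → Bool) → Z) (C K : ℝ),
    (∀ (F : Finset T) (a : (F → Bool) → ℝ), (∀ s, |a s| ≤ 1) → ‖∑ s, a s • g F s‖ ≤ C) ∧
    0 ≤ K ∧ ∀ (t : T → Bool) (a : ((F : Finset T) × (F → Bool)) →₀ ℝ),
      |a.sum fun i b => b * cyl i.2 t| ≤ K * ‖a.sum fun i b => b • g i.1 i.2‖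

/-- **Lower embedding**, from the predual. -/
theorem HasG.cpl {Z : Type*} [NormedAddCommGroup Z] [NormedSpace ℝ Z] {T : Type*} (h : HasG Z T) :
    Cpl (MM (T → Bool)) (Z →L[ℝ] ℝ) := by
  obtain ⟨g, C, K, hg, hK, h⟩ := h
  have h1 : ∀ t : T → Bool, ∃ x : Z →L[ℝ] ℝ, ‖x‖ ≤ K ∧
      ∀ i : (F : Finset T) × (F → Bool), x (g i.1 i.2) = cyl i.2 t := fun t =>
    exists_interp _ _ K hK (h t)
  choose x hx1 hx2 using h1
  exact cpl_low g C hg x K hx1 (fun t F s => hx2 t ⟨F, s⟩)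

/-- **Two-sided theorem.** -/
theorem plus {Z : Type*} [NormedAddCommGroup Z] [NormedSpace ℝ Z] {T : Type*} [Infinite T]
    (hL : HasLoc (Z →L[ℝ] ℝ)) (d : T → Z) (hd : DenseRange d) (hG : HasG Z T) :
    Nonempty ((Z →L[ℝ] ℝ) ≃L[ℝ] MM (T → Bool)) := by
  obtain ⟨ι, U, s, lam, hs⟩ := hL
  obtain ⟨e⟩ := nonempty_index T
  refine pelczynski ?_ hG.cpl (cpl_self T)
  exact (cpl_up hs.loc d hd).trans (Cpl.of_equiv (MM.cube e))

end Pool.Agent.H180
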