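import Mathlib

/-!
The Delta-system lemma for a regular cardinal and finite sets of bounded size.
-/

set_option autoImplicit false

open Cardinal Set

namespace Pool.Agent.H180

theorem small_biUnion {κ : Cardinal.{0}} (hκ : κ.IsRegular) {A B : Type} (S : Set A)
    (t : A → Set B) (hS : #S < κ) (ht : ∀ a ∈ S, #(t a) < κ) : #(⋃ a ∈ S, t a : Set B) < κ :=
  (card_biUnion_lt_iff_forall_of_isRegular hκ hS).2 ht

/-- pigeonhole principle -/
theorem pigeon {κ : Cardinal.{0}} (hκ : κ.IsRegular) {I A : Type} (J : Set I) (hJ : κ ≤ #J)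
    (f : I → A) (hA : #A < κ) : ∃ a, κ ≤ #{i ∈ J | f i = a} := by
  by_contra hcon
  push Not at hcon
  have h1 := small_biUnion hκ (univ : Set A) (fun a => {i ∈ J | f i = a})
    (by rwa [Cardinal.mk_univ]) (fun a _ => hcon a)
  have h2 : J ⊆ ⋃ a ∈ (univ : Set A), {i ∈ J | f i = a} := by
    intro i hi
    simp only [mem_univ, iUnion_true, mem_iUnion]
    exact ⟨f i, hi, rfl⟩
  exact absurd (hJ.trans (Cardinal.mk_le_mk_of_subset h2)) (not_le.2 h1)

theorem diff_big {κ : Cardinal.{0}} (hκ : ℵ₀ ≤ κ) {I : Type} (J D : Set I) (hJ : κ ≤ #J)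
    (hD : #D < κ) : κ ≤ #(J \ D : Set I) := by
  by_contra hcon
  push Not at hcon
  have h1 : #J ≤ #(J \ D : Set I) + #D := by
    refine (Cardinal.mk_le_mk_of_subset (?_ : J ⊆ (J \ D) ∪ D)).trans (Cardinal.mk_union_le _ _)
    rw [Set.sdiff_union_self]
    exact subset_union_left
  exact absurd (hJ.trans h1) (not_le.2 (Cardinal.add_lt_of_lt hκ hcon hD))

theorem finset_small {κ : Cardinal.{0}} (hκ : ℵ₀ ≤ κ) {T : Type} (F : Finset T) :
    #((F : Set T)) < κ :=
  (Cardinal.lt_aleph0_iff_finite.2 (F.finite_toSet)).trans_le hκ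

/-- Delta-system lemma for families of finite sets of bounded size. -/
theorem delta_card {κ : Cardinal.{0}} (hκ : κ.IsRegular) {T I : Type} (n : ℕ) :
    ∀ (F : I → Finset T) (J : Set I), κ ≤ #J → (∀ i ∈ J, (F i).card ≤ n) →
      ∃ (J' : Set I) (R : Finset T), J' ⊆ J ∧ κ ≤ #J' ∧
        (∀ i ∈ J', R ⊆ F i) ∧ ∀ i ∈ J', ∀ j ∈ J', i ≠ j → ∀ t ∈ F i, t ∈ F j → t ∈ R := by
  classical
  have hω : ℵ₀ ≤ κ := hκ.aleph0_le
  induction n with
  | zero =>
    intro F J hJ hc
    refine ⟨J, ∅, le_refl _, hJ, by simp, ?_⟩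
    intro i hi j _ _ t ht
    have := hc i hi
    rw [Nat.le_zero, Finset.card_eq_zero] at this
    rw [this] at ht
    simp at ht
  | succ n ih =>
    intro F J hJ hc
    by_cases hp : ∃ p : T, κ ≤ #{i ∈ J | p ∈ F i}
    · obtain ⟨p, hp⟩ := hp
      obtain ⟨J', R, hJ', hbig, hR1, hR2⟩ := ih (fun i => (F i).erase p) {i ∈ J | p ∈ F i} hp
        (fun i hi => by
          rw [Finset.card_erase_of_mem hi.2]
          have := hc i hi.1
          omega)
      refine ⟨J', insert p R, fun i hi => (hJ' hi).1, hbig, fun i hi => ?_, ?_⟩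
      · intro t ht
        rw [Finset.mem_insert] at ht
        rcases ht with rfl | ht
        · exact (hJ' hi).2
        · exact Finset.mem_of_mem_erase (hR1 i hi ht)
      · intro i hi j hj hij t hti htj
        by_cases htp : t = p
        · rw [htp]
          exact Finset.mem_insert_self _ _
        · exact Finset.mem_insert_of_mem (hR2 i hi j hj hij t
            (Finset.mem_erase.2 ⟨htp, hti⟩) (Finset.mem_erase.2 ⟨htp, htj⟩))
    · push Not at hp
      -- a maximal disjoint subfamily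
      obtain ⟨M, hM⟩ := zorn_subset {M : Set I | M ⊆ J ∧ ∀ i ∈ M, ∀ j ∈ M, i ≠ j →
          Disjoint (F i) (F j)} (by
        intro c hc' hch
        refine ⟨⋃₀ c, ⟨?_, ?_⟩, fun s hs => Set.subset_sUnion_of_mem hs⟩
        · exact Set.sUnion_subset fun s hs => (hc' hs).1
        · rintro i ⟨s, hs, hi⟩ j ⟨t, ht, hj⟩ hij
          rcases hch.total hs ht with h | h
          · exact (hc' ht).2 i (h hi) j hj hij
          · exact (hc' hs).2 i hi j (h hj) hij)
      refine ⟨M, ∅, hM.prop.1, ?_, by simp, fun i hi j hj hij t hti htj => ?_⟩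
      · by_contra hcon
        push Not at hcon
        have h1 : #(⋃ i ∈ M, (F i : Set T) : Set T) < κ :=
          small_biUnion hκ M (fun i => (F i : Set T)) hcon (fun i _ => finset_small hω _)
        have h2 : #(⋃ p ∈ (⋃ i ∈ M, (F i : Set T)), {i ∈ J | p ∈ F i} : Set I) < κ :=
          small_biUnion hκ _ _ h1 (fun p _ => hp p)
        have h3 : J ⊆ (⋃ p ∈ (⋃ i ∈ M, (F i : Set T)), {i ∈ J | p ∈ F i}) ∪ M := by
          intro i hi
          by_cases hd : ∀ j ∈ M, Disjoint (F i) (F j)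
          · right
            have h4 : insert i M ∈ {M : Set I | M ⊆ J ∧ ∀ i ∈ M, ∀ j ∈ M, i ≠ j →
                Disjoint (F i) (F j)} := by
              refine ⟨Set.insert_subset hi hM.prop.1, ?_⟩
              rintro a (rfl | ha) b (rfl | hb) hab
              · exact absurd rfl hab
              · exact hd b hb
              · exact (hd a ha).symm
              · exact hM.prop.2 a ha b hb hab
            exact hM.le_of_ge h4 (Set.subset_insert i M) (Set.mem_insert i M)
          · left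
            push Not at hd
            obtain ⟨j, hj, hd⟩ := hd
            rw [Finset.not_disjoint_iff] at hd
            obtain ⟨p, hpi, hpj⟩ := hd
            exact mem_biUnion (mem_biUnion hj hpj) ⟨hi, hpi⟩
        have h5 := (Cardinal.mk_le_mk_of_subset h3).trans (Cardinal.mk_union_le _ _)
        exact absurd (hJ.trans h5) (not_le.2 (Cardinal.add_lt_of_lt hω h2 hcon))
      · exact absurd htj (Finset.disjoint_left.1 (hM.prop.2 i hi j hj hij) hti)

/-- Delta-system lemma for a regular uncountable cardinal. -/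
theorem delta_system {κ : Cardinal.{0}} (hκ : κ.IsRegular) (hω : ℵ₀ < κ) {T I : Type}
    (F : I → Finset T) (J : Set I) (hJ : κ ≤ #J) :
      ∃ (J' : Set I) (R : Finset T), J' ⊆ J ∧ κ ≤ #J' ∧
        (∀ i ∈ J', R ⊆ F i) ∧ ∀ i ∈ J', ∀ j ∈ J', i ≠ j → ∀ t ∈ F i, t ∈ F j → t ∈ R := by
  obtain ⟨n, hn⟩ := pigeon hκ J hJ (fun i => (F i).card) (by simpa using hω)
  obtain ⟨J', R, h1, h2, h3, h4⟩ := delta_card hκ n F _ hn (fun i hi => hi.2.le)
  exact ⟨J', R, fun i hi => (h1 hi).1, h2, h3, h4⟩

end Pool.Agent.H180
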