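import Mathlib
import Pool.Agent.H180.Delta

/-!
Transfinite selection of disjoint finite sets.
-/

set_option autoImplicit false

open Set Cardinal

namespace Pool.Agent.H180

theorem exists_select {T : Type} (hκ : (#T).IsRegular) {W : Type} [LinearOrder W]
    [WellFoundedLT W] (hW : ∀ w : W, #(Set.Iio w) < #T) (D : Set T) (hD : #D < #T)
    (C : W → T → Finset T) (hC : ∀ w γ γ', γ ≠ γ' → Disjoint (C w γ) (C w γ')) :
    ∃ σ : W → T, (∀ w, ∀ τ ∈ C w (σ w), τ ∉ D) ∧
      ∀ w w', w ≠ w' → Disjoint (C w (σ w)) (C w' (σ w')) := by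
  classical
  have hne : Nonempty T := by
    by_contra hcon
    rw [not_nonempty_iff] at hcon
    have := hκ.aleph0_le
    rw [Cardinal.mk_eq_zero] at this
    exact absurd this (not_le.2 Cardinal.aleph0_pos)
  obtain ⟨γ₀⟩ := hne
  have hwf : WellFounded ((· < ·) : W → W → Prop) := wellFounded_lt
  let P : (w : W) → ((w' : W) → w' < w → T) → T → Prop := fun w ih γ =>
    (∀ τ ∈ C w γ, τ ∉ D) ∧ ∀ w' (hw : w' < w), Disjoint (C w γ) (C w' (ih w' hw))
  let σ : W → T := hwf.fix fun w ih => if h : ∃ γ, P w ih γ then h.choose else γ₀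
  have hσ : ∀ w, σ w = if h : ∃ γ, P w (fun w' _ => σ w') γ then h.choose else γ₀ := fun w =>
    hwf.fix_eq _ w
  have hP : ∀ w, P w (fun w' _ => σ w') (σ w) := by
    intro w
    have hex : ∃ γ, P w (fun w' _ => σ w') γ := by
      set Us : Set T := D ∪ ⋃ w' ∈ Set.Iio w, (C w' (σ w') : Set T) with hUs
      have h1 : #Us < #T := by
        refine (Cardinal.mk_union_le _ _).trans_lt (Cardinal.add_lt_of_lt hκ.aleph0_le hD ?_)
        exact small_biUnion hκ _ _ (hW w) fun w' _ => finset_small hκ.aleph0_le _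
      by_contra hcon
      push Not at hcon
      have h2 : ∀ γ, ∃ τ ∈ C w γ, τ ∈ Us := by
        intro γ
        by_contra h3
        push Not at h3
        refine hcon γ ⟨fun τ hτ hτD => h3 τ hτ (Or.inl hτD), fun w' hw => ?_⟩
        rw [Finset.disjoint_left]
        intro τ hτ hτ'
        exact h3 τ hτ (Or.inr (mem_biUnion hw hτ'))
      choose f hf1 hf2 using h2
      have h4 : #T ≤ #Us := by
        refine Cardinal.mk_le_of_injective (f := fun γ => (⟨f γ, hf2 γ⟩ : Us)) ?_
        intro γ γ' hγ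
        by_contra hne
        have h5 : f γ = f γ' := congrArg Subtype.val hγ
        exact (Finset.disjoint_left.1 (hC w γ γ' hne)) (hf1 γ) (h5 ▸ hf1 γ')
      exact absurd h4 (not_le.2 h1)
    rw [hσ w, dif_pos hex]
    exact hex.choose_spec
  refine ⟨σ, fun w => (hP w).1, fun w w' hne => ?_⟩
  rcases lt_or_gt_of_ne hne with h | h
  · exact ((hP w').2 w h).symm
  · exact (hP w).2 w' h

theorem exists_select' {T : Type} (hκ : (#T).IsRegular) {I : Type} (hI : #I ≤ #T) (D : Set T)
    (hD : #D < #T) (C : I → T → Finset T)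
    (hC : ∀ i γ γ', γ ≠ γ' → Disjoint (C i γ) (C i γ')) :
    ∃ σ : I → T, (∀ i, ∀ τ ∈ C i (σ i), τ ∉ D) ∧
      ∀ i j, i ≠ j → Disjoint (C i (σ i)) (C j (σ j)) := by
  classical
  have h1 : #I ≤ #((#T).ord.ToType) := by rw [Cardinal.mk_ord_toType]; exact hI
  obtain ⟨w⟩ := Cardinal.le_def _ _ |>.1 h1
  rcases isEmpty_or_nonempty I with hI0 | hI0
  · exact ⟨fun i => (hI0.false i).elim, fun i => (hI0.false i).elim, fun i => (hI0.false i).elim⟩
  · obtain ⟨σ, h2, h3⟩ := exists_select hκ (W := (#T).ord.ToType)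
      (fun x => Cardinal.mk_Iio_toType_ord_lt x) D hD (fun x => C (Function.invFun w x))
      (fun x => hC _)
    have h4 : ∀ i, Function.invFun w (w i) = i := Function.leftInverse_invFun w.injective
    refine ⟨fun i => σ (w i), fun i => ?_, fun i j hij => ?_⟩
    · have := h2 (w i)
      rwa [h4] at this
    · have := h3 (w i) (w j) (fun h => hij (w.injective h))
      rwa [h4, h4] at this

end Pool.Agent.H180
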