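import Mathlib

/-!
The extraction lemma: in a large sign-indexed family of vectors of `ℓ₁^k` biorthogonal to bounded functions there
are many almost disjoint big pieces.
-/

set_option autoImplicit false

open Finset

namespace Pool.Agent.H180

/-- the sign of a Boolean -/
def sg (b : Bool) : ℝ := if b then 1 else -1

theorem sg_not (b : Bool) : sg (!b) = -sg b := by cases b <;> simp [sg]

theorem sg_sq (b : Bool) : sg b ^ 2 = 1 := by cases b <;> norm_num [sg]

theorem abs_sg (b : Bool) : |sg b| = 1 := by cases b <;> simp [sg]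

/-- flipping a coordinate -/
def flip {n : ℕ} (a : Fin n) : (Fin n → Bool) ≃ (Fin n → Bool) where
  toFun ε := Function.update ε a (!ε a)
  invFun ε := Function.update ε a (!ε a)
  left_inv ε := by
    funext i
    by_cases h : i = a
    · subst h; simp
    · simp [Function.update_of_ne h]
  right_inv ε := by
    funext i
    by_cases h : i = a
    · subst h; simp
    · simp [Function.update_of_ne h]

theorem rademacher_aux {n : ℕ} (u : Fin n → ℝ) (s : Finset (Fin n)) :
    ∑ ε : Fin n → Bool, (∑ i ∈ s, sg (ε i) * u i) ^ 2 = 2 ^ n * ∑ i ∈ s, u i ^ 2 := by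
  classical
  induction s using Finset.induction with
  | empty => simp
  | insert a s ha ih =>
    have h1 : ∑ ε : Fin n → Bool, (∑ i ∈ insert a s, sg (ε i) * u i) ^ 2 =
        ∑ ε : Fin n → Bool, (∑ i ∈ s, sg (ε i) * u i + sg (ε a) * u a) ^ 2 :=
      Finset.sum_congr rfl fun ε _ => by rw [Finset.sum_insert ha, add_comm]
    have h2 : ∑ ε : Fin n → Bool, (∑ i ∈ s, sg (ε i) * u i + sg (ε a) * u a) ^ 2 =
        ∑ ε : Fin n → Bool, (∑ i ∈ s, sg (ε i) * u i - sg (ε a) * u a) ^ 2 := by
      rw [← Equiv.sum_comp (flip a)]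
      refine Finset.sum_congr rfl fun ε _ => ?_
      have e1 : ∑ i ∈ s, sg (flip a ε i) * u i = ∑ i ∈ s, sg (ε i) * u i := by
        refine Finset.sum_congr rfl fun i hi => ?_
        have : i ≠ a := fun h => ha (h ▸ hi)
        show sg (Function.update ε a (!ε a) i) * u i = _
        rw [Function.update_of_ne this]
      have e2 : sg (flip a ε a) = -sg (ε a) := by
        show sg (Function.update ε a (!ε a) a) = _
        rw [Function.update_self, sg_not]
      rw [e1, e2]
      ring
    have h3 : ∑ ε : Fin n → Bool, (∑ i ∈ s, sg (ε i) * u i + sg (ε a) * u a) ^ 2 +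
        ∑ ε : Fin n → Bool, (∑ i ∈ s, sg (ε i) * u i - sg (ε a) * u a) ^ 2 =
        2 * ∑ ε : Fin n → Bool, ((∑ i ∈ s, sg (ε i) * u i) ^ 2 + u a ^ 2) := by
      rw [← Finset.sum_add_distrib, Finset.mul_sum]
      refine Finset.sum_congr rfl fun ε _ => ?_
      have := sg_sq (ε a)
      linear_combination (2 * u a ^ 2) * this
    have h4 : ∑ _ε : Fin n → Bool, u a ^ 2 = 2 ^ n * u a ^ 2 := by
      rw [Finset.sum_const, Finset.card_univ, Fintype.card_fun, Fintype.card_bool, Fintype.card_fin,
        nsmul_eq_mul]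
      push_cast
      ring
    rw [h1, Finset.sum_insert ha]
    rw [Finset.sum_add_distrib, ih, h4] at h3
    linarith

theorem rademacher {n : ℕ} (u : Fin n → ℝ) :
    ∑ ε : Fin n → Bool, (∑ i, sg (ε i) * u i) ^ 2 = 2 ^ n * ∑ i, u i ^ 2 :=
  rademacher_aux u Finset.univ

theorem rademacher_abs {N : ℕ} (hN : 0 < N) (u : Fin (N * N) → ℝ) (hu : ∀ i, |u i| ≤ 1) :
    ∑ ε : Fin (N * N) → Bool, |∑ i, sg (ε i) * u i| ≤ 2 ^ (N * N) * N := by
  have hN' : (0 : ℝ) < N := by exact_mod_cast hN
  have h1 : ∀ x : ℝ, |x| ≤ (x ^ 2 / N + N) / 2 := by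
    intro x
    rw [le_div_iff₀ (by norm_num), ← sq_abs x, ← sub_nonneg]
    have : |x| ^ 2 / N + N - |x| * 2 = (|x| - N) ^ 2 / N := by field_simp; ring
    rw [this]
    positivity
  calc ∑ ε : Fin (N * N) → Bool, |∑ i, sg (ε i) * u i| ≤
        ∑ ε : Fin (N * N) → Bool, ((∑ i, sg (ε i) * u i) ^ 2 / N + N) / 2 :=
        Finset.sum_le_sum fun ε _ => h1 _
    _ = ((∑ ε : Fin (N * N) → Bool, (∑ i, sg (ε i) * u i) ^ 2) / N + 2 ^ (N * N) * N) / 2 := by
        rw [← Finset.sum_div, Finset.sum_add_distrib, ← Finset.sum_div, Finset.sum_const,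
          Finset.card_univ, Fintype.card_fun, Fintype.card_bool, Fintype.card_fin, nsmul_eq_mul]
        push_cast
        ring
    _ = (2 ^ (N * N) * (∑ i, u i ^ 2) / N + 2 ^ (N * N) * N) / 2 := by rw [rademacher]
    _ ≤ (2 ^ (N * N) * (N * N) / N + 2 ^ (N * N) * N) / 2 := by
        have h2 : ∑ i, u i ^ 2 ≤ (N * N : ℝ) := by
          calc ∑ i, u i ^ 2 ≤ ∑ _i : Fin (N * N), (1 : ℝ) := by
                refine Finset.sum_le_sum fun i _ => ?_
                rw [← sq_abs]
                have := hu i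
                have h0 := abs_nonneg (u i)
                nlinarith
            _ = _ := by simp
        gcongr
    _ = 2 ^ (N * N) * N := by
        field_simp
        ring

/-- The family is not dominated by a small multiple of a fixed vector. -/
theorem not_dominated {N k : ℕ} (v : (Fin (N * N) → Bool) → Fin k → ℝ)
    (u : Fin (N * N) → Fin k → ℝ) (hu : ∀ i j, |u i j| ≤ 1)
    (h : ∀ ε i, 7 / 8 ≤ sg (ε i) * ∑ j, v ε j * u i j) (W : Fin k → ℝ) (hW : ∀ j, 0 ≤ W j)
    (hb : ∑ j, W j < 3 / 8 * N) :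
    ∃ ε, 1 / 2 ≤ ∑ j ∈ univ.filter (fun j => W j < |v ε j|), |v ε j| := by
  classical
  by_contra hcon
  push Not at hcon
  have hW0 : 0 ≤ ∑ j, W j := Finset.sum_nonneg fun j _ => hW j
  have hN : 0 < N := by
    rcases Nat.eq_zero_or_pos N with h0 | h0
    · rw [h0] at hb
      simp at hb
      linarith
    · exact h0
  have hN' : (0 : ℝ) < N := by exact_mod_cast hN
  have key : ∀ ε : Fin (N * N) → Bool, 3 / 8 * ((N : ℝ) * N) ≤
      ∑ j, W j * |∑ i, sg (ε i) * u i j| := by
    intro ε
    have h1 : 7 / 8 * ((N : ℝ) * N) ≤ ∑ i, sg (ε i) * ∑ j, v ε j * u i j := by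
      calc 7 / 8 * ((N : ℝ) * N) = ∑ _i : Fin (N * N), (7 / 8 : ℝ) := by
            rw [Finset.sum_const, Finset.card_univ, Fintype.card_fin, nsmul_eq_mul]
            push_cast
            ring
        _ ≤ _ := Finset.sum_le_sum fun i _ => h ε i
    have h2 : ∑ i, sg (ε i) * ∑ j, v ε j * u i j = ∑ j, v ε j * ∑ i, sg (ε i) * u i j := by
      simp only [Finset.mul_sum]
      rw [Finset.sum_comm]
      refine Finset.sum_congr rfl fun j _ => Finset.sum_congr rfl fun i _ => ?_
      ring
    have h3 : ∀ j, |∑ i, sg (ε i) * u i j| ≤ (N : ℝ) * N := by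
      intro j
      refine (Finset.abs_sum_le_sum_abs _ _).trans ?_
      calc ∑ i, |sg (ε i) * u i j| ≤ ∑ _i : Fin (N * N), (1 : ℝ) := by
            refine Finset.sum_le_sum fun i _ => ?_
            rw [abs_mul, abs_sg, one_mul]
            exact hu i j
        _ = _ := by simp
    have h4 : ∀ j, v ε j * ∑ i, sg (ε i) * u i j ≤ W j * |∑ i, sg (ε i) * u i j| +
        (if W j < |v ε j| then |v ε j| * ((N : ℝ) * N) else 0) := by
      intro j
      have e1 : v ε j * ∑ i, sg (ε i) * u i j ≤ |v ε j| * |∑ i, sg (ε i) * u i j| := by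
        rw [← abs_mul]; exact le_abs_self _
      split_ifs with hj
      · have e2 : |v ε j| * |∑ i, sg (ε i) * u i j| ≤ |v ε j| * ((N : ℝ) * N) :=
          mul_le_mul_of_nonneg_left (h3 j) (abs_nonneg _)
        have e3 : 0 ≤ W j * |∑ i, sg (ε i) * u i j| := mul_nonneg (hW j) (abs_nonneg _)
        linarith
      · have e2 : |v ε j| * |∑ i, sg (ε i) * u i j| ≤ W j * |∑ i, sg (ε i) * u i j| :=
          mul_le_mul_of_nonneg_right (not_lt.1 hj) (abs_nonneg _)
        linarith
    have h5 : ∑ j, (if W j < |v ε j| then |v ε j| * ((N : ℝ) * N) else 0) ≤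
        1 / 2 * ((N : ℝ) * N) := by
      rw [← Finset.sum_filter, ← Finset.sum_mul]
      exact mul_le_mul_of_nonneg_right (hcon ε).le (by positivity)
    have h6 := Finset.sum_le_sum fun j (_ : j ∈ univ) => h4 j
    rw [Finset.sum_add_distrib] at h6
    linarith
  have h7 : ∑ _ε : Fin (N * N) → Bool, (3 / 8 * ((N : ℝ) * N)) ≤
      ∑ ε : Fin (N * N) → Bool, ∑ j, W j * |∑ i, sg (ε i) * u i j| :=
    Finset.sum_le_sum fun ε _ => key ε
  rw [Finset.sum_comm, Finset.sum_const, Finset.card_univ, Fintype.card_fun, Fintype.card_bool,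
    Fintype.card_fin, nsmul_eq_mul] at h7
  have h8 : ∑ j, ∑ ε : Fin (N * N) → Bool, W j * |∑ i, sg (ε i) * u i j| ≤
      ∑ j, W j * (2 ^ (N * N) * N) := by
    refine Finset.sum_le_sum fun j _ => ?_
    rw [← Finset.mul_sum]
    exact mul_le_mul_of_nonneg_left (rademacher_abs hN _ fun i => hu i j) (hW j)
  rw [← Finset.sum_mul] at h8
  have h9 : (2 : ℝ) ^ (N * N) * N * (3 / 8 * N) ≤ 2 ^ (N * N) * N * ∑ j, W j := by
    have := h7.trans h8
    push_cast at this
    linarith
  have h10 : (0 : ℝ) < 2 ^ (N * N) * N := by positivity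
  have h11 := le_of_mul_le_mul_left h9 h10
  linarith

/-- greedy selection -/
theorem greedy {N k : ℕ} (M R : ℝ) (hR : 0 ≤ R) (v : (Fin (N * N) → Bool) → Fin k → ℝ)
    (u : Fin (N * N) → Fin k → ℝ) (hu : ∀ i j, |u i j| ≤ 1) (hv : ∀ ε, ∑ j, |v ε j| ≤ M)
    (h : ∀ ε i, 7 / 8 ≤ sg (ε i) * ∑ j, v ε j * u i j) (r : ℕ) :
    R * (r * M) < 3 / 8 * N →
    ∃ (e : ℕ → (Fin (N * N) → Bool)) (A : ℕ → Finset (Fin k)), ∀ i < r,
      1 / 2 ≤ ∑ j ∈ A i, |v (e i) j| ∧ ∀ l < i, ∀ j ∈ A i, R * |v (e l) j| ≤ |v (e i) j| := by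
  classical
  have hM : 0 ≤ M := (Finset.sum_nonneg fun j _ => abs_nonneg _).trans (hv fun _ => true)
  induction r with
  | zero => intro _; exact ⟨fun _ _ => true, fun _ => ∅, fun i hi => absurd hi (Nat.not_lt_zero i)⟩
  | succ r ih =>
    intro hr
    have hr' : R * (r * M) < 3 / 8 * N := by
      refine lt_of_le_of_lt ?_ hr
      refine mul_le_mul_of_nonneg_left (mul_le_mul_of_nonneg_right ?_ hM) hR
      push_cast
      linarith
    obtain ⟨e, A, hA⟩ := ih hr'
    let W : Fin k → ℝ := fun j => R * ∑ l ∈ range r, |v (e l) j|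
    have hW : ∀ j, 0 ≤ W j := fun j => mul_nonneg hR (Finset.sum_nonneg fun l _ => abs_nonneg _)
    have hWs : ∑ j, W j < 3 / 8 * N := by
      refine lt_of_le_of_lt ?_ hr'
      show ∑ j, R * ∑ l ∈ range r, |v (e l) j| ≤ _
      rw [← Finset.mul_sum, Finset.sum_comm]
      refine mul_le_mul_of_nonneg_left ?_ hR
      calc ∑ l ∈ range r, ∑ j, |v (e l) j| ≤ ∑ _l ∈ range r, M :=
            Finset.sum_le_sum fun l _ => hv _
        _ = r * M := by rw [Finset.sum_const, Finset.card_range, nsmul_eq_mul]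
    obtain ⟨ε, hε⟩ := not_dominated v u hu h W hW hWs
    refine ⟨Function.update e r ε, Function.update A r (univ.filter fun j => W j < |v ε j|), ?_⟩
    intro i hi
    rcases Nat.lt_succ_iff_lt_or_eq.1 hi with hi' | hi'
    · rw [Function.update_of_ne hi'.ne, Function.update_of_ne hi'.ne]
      refine ⟨(hA i hi').1, fun l hl j hj => ?_⟩
      rw [Function.update_of_ne (hl.trans hi').ne]
      exact (hA i hi').2 l hl j hj
    · subst hi'
      rw [Function.update_self, Function.update_self]
      refine ⟨hε, fun l hl j hj => ?_⟩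
      rw [Function.update_of_ne hl.ne]
      rw [Finset.mem_filter] at hj
      refine le_trans ?_ hj.2.le
      refine mul_le_mul_of_nonneg_left ?_ hR
      exact Finset.single_le_sum (f := fun l => |v (e l) j|) (fun l _ => abs_nonneg _)
        (Finset.mem_range.2 hl)

/-- independent sets in directed graphs of small out-degree -/
theorem exists_indep (d m : ℕ) (r : ℕ → ℕ → Prop) : ∀ V : Finset ℕ,
    (∀ i ∈ V, ∀ S : Finset ℕ, S ⊆ V → (∀ j ∈ S, r i j) → S.card ≤ d) → m * (2 * d + 1) ≤ V.card →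
    ∃ I ⊆ V, I.card = m ∧ ∀ i ∈ I, ∀ j ∈ I, i ≠ j → ¬ r i j := by
  classical
  induction m with
  | zero => intro V _ _; exact ⟨∅, Finset.empty_subset _, rfl, by simp⟩
  | succ m ih =>
    intro V hV hc
    have hpos : 0 < V.card := lt_of_lt_of_le (by positivity) hc
    -- a vertex of small in-degree
    have h1 : ∃ p ∈ V, (V.filter fun i => r i p).card ≤ d := by
      by_contra hcon
      push Not at hcon
      have h2 : ∑ p ∈ V, (V.filter fun i => r i p).card = ∑ i ∈ V, (V.filter fun p => r i p).card := by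
        simp only [Finset.card_filter]
        exact Finset.sum_comm
      have h3 : ∑ i ∈ V, (V.filter fun p => r i p).card ≤ ∑ _i ∈ V, d :=
        Finset.sum_le_sum fun i hi => hV i hi _ (Finset.filter_subset _ _) (fun j hj =>
          (Finset.mem_filter.1 hj).2)
      have h4 : ∑ _p ∈ V, (d + 1) ≤ ∑ p ∈ V, (V.filter fun i => r i p).card :=
        Finset.sum_le_sum fun p hp => hcon p hp
      rw [Finset.sum_const, smul_eq_mul] at h3 h4
      have : V.card * (d + 1) ≤ V.card * d := h4.trans (h2.le.trans h3)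
      nlinarith
    obtain ⟨p, hp, hpd⟩ := h1
    let D : Finset ℕ := insert p ((V.filter fun i => r i p) ∪ V.filter fun j => r p j)
    have hD : D.card ≤ 2 * d + 1 := by
      refine (Finset.card_insert_le _ _).trans ?_
      have h5 := Finset.card_union_le (V.filter fun i => r i p) (V.filter fun j => r p j)
      have h6 := hV p hp (V.filter fun j => r p j) (Finset.filter_subset _ _)
        (fun j hj => (Finset.mem_filter.1 hj).2)
      omega
    obtain ⟨I, hI, hIc, hIr⟩ := ih (V \ D) (fun i hi S hS hr => hV i (Finset.mem_sdiff.1 hi).1 S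
      (hS.trans Finset.sdiff_subset) hr) (by
        have := Finset.le_card_sdiff D V
        have h7 : (m + 1) * (2 * d + 1) = m * (2 * d + 1) + (2 * d + 1) := by ring
        omega)
    have hpI : p ∉ I := fun h => (Finset.mem_sdiff.1 (hI h)).2 (Finset.mem_insert_self _ _)
    refine ⟨insert p I, ?_, by rw [Finset.card_insert_of_notMem hpI, hIc], ?_⟩
    · refine Finset.insert_subset hp (hI.trans Finset.sdiff_subset)
    · intro i hi j hj hij
      rw [Finset.mem_insert] at hi hj
      rcases hi with rfl | hi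
      · rcases hj with rfl | hj
        · exact absurd rfl hij
        · intro hr
          have := Finset.mem_sdiff.1 (hI hj)
          exact this.2 (Finset.mem_insert_of_mem (Finset.mem_union_right _
            (Finset.mem_filter.2 ⟨this.1, hr⟩)))
      · rcases hj with rfl | hj
        · intro hr
          have := Finset.mem_sdiff.1 (hI hi)
          exact this.2 (Finset.mem_insert_of_mem (Finset.mem_union_left _
            (Finset.mem_filter.2 ⟨this.1, hr⟩)))
        · exact hIr i hi j hj hij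

end Pool.Agent.H180
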