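import Mathlib
import Pool.Agent.H180.Ext

/-!
The extraction lemma, final form.
-/

set_option autoImplicit false

open Finset

namespace Pool.Agent.H180

theorem extraction (M κ : ℝ) (hM : 1 ≤ M) (hκ : 0 < κ) (m : ℕ) : ∃ N : ℕ, ∀ (k : ℕ)
    (v : (Fin (N * N) → Bool) → Fin k → ℝ) (u : Fin (N * N) → Fin k → ℝ),
    (∀ i j, |u i j| ≤ 1) → (∀ ε, ∑ j, |v ε j| ≤ M) →
    (∀ ε i, 7 / 8 ≤ sg (ε i) * ∑ j, v ε j * u i j) →
    ∃ (e : Fin (m + 1) → (Fin (N * N) → Bool)) (Q : Fin (m + 1) → Finset (Fin k)),
      (∀ i j, i ≠ j → Disjoint (Q i) (Q j)) ∧ (∀ i, 1 / 4 ≤ ∑ j ∈ Q i, |v (e i) j|) ∧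
      ∀ i, ∑ i' ∈ univ.erase i, ∑ j ∈ Q i', |v (e i) j| ≤ κ := by
  classical
  obtain ⟨d, hd⟩ := exists_nat_ge (M * (m + 1) / κ)
  set r : ℕ := (m + 1) * (2 * d + 1) with hr
  have hr0 : 0 < r := by positivity
  have hr0' : (0 : ℝ) < r := by exact_mod_cast hr0
  have hM0 : 0 < M := by linarith
  set R : ℝ := 4 * r * M with hRdef
  have hR : 0 < R := by positivity
  obtain ⟨N, hN⟩ := exists_nat_gt (R * (r * M) / (3 / 8))
  refine ⟨N, fun k v u hu hv h => ?_⟩
  have hN' : R * (r * M) < 3 / 8 * N := by
    rw [div_lt_iff₀ (by norm_num)] at hN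
    linarith
  obtain ⟨e, A, hA⟩ := greedy M R hR.le v u hu hv h r hN'
  let A' : ℕ → Finset (Fin k) := fun i => (A i).filter fun j => ∀ l, i < l → l < r → j ∉ A l
  have hdisj : ∀ i i', i < r → i' < r → i ≠ i' → Disjoint (A' i) (A' i') := by
    have aux : ∀ i i', i < i' → i' < r → Disjoint (A' i) (A' i') := by
      intro i i' h1 h2
      rw [Finset.disjoint_left]
      intro j hj hj'
      exact (Finset.mem_filter.1 hj).2 i' h1 h2 (Finset.mem_filter.1 hj').1
    intro i i' h1 h2 hne
    rcases lt_or_gt_of_ne hne with h3 | h3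
    · exact aux i i' h3 h2
    · exact (aux i' i h3 h1).symm
  have hsmall : ∀ i l, i < l → l < r → ∑ j ∈ A l, |v (e i) j| ≤ 1 / (4 * r) := by
    intro i l hil hl
    have h1 : R * ∑ j ∈ A l, |v (e i) j| ≤ M := by
      rw [Finset.mul_sum]
      refine (Finset.sum_le_sum fun j hj => (hA l hl).2 i hil j hj).trans ?_
      exact (Finset.sum_le_sum_of_subset_of_nonneg (Finset.subset_univ _)
        (fun _ _ _ => abs_nonneg _)).trans (hv (e l))
    rw [le_div_iff₀ (by positivity)]
    have h2 : M * ((∑ j ∈ A l, |v (e i) j|) * (4 * r)) ≤ M * 1 := by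
      rw [hRdef] at h1
      linarith
    exact le_of_mul_le_mul_left h2 hM0
  have hmass : ∀ i < r, 1 / 4 ≤ ∑ j ∈ A' i, |v (e i) j| := by
    intro i hi
    have h1 := (hA i hi).1
    have h2 : ∑ j ∈ A i, |v (e i) j| ≤ ∑ j ∈ A' i, |v (e i) j| +
        ∑ l ∈ (range r).filter (fun l => i < l), ∑ j ∈ A l, |v (e i) j| := by
      have h3 : ∀ j ∈ A i, |v (e i) j| ≤ (if j ∈ A' i then |v (e i) j| else 0) +
          ∑ l ∈ (range r).filter (fun l => i < l), (if j ∈ A l then |v (e i) j| else 0) := by
        intro j hj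
        by_cases hj' : j ∈ A' i
        · rw [if_pos hj']
          have : 0 ≤ ∑ l ∈ (range r).filter (fun l => i < l),
              (if j ∈ A l then |v (e i) j| else 0) :=
            Finset.sum_nonneg fun l _ => by split_ifs <;> positivity
          linarith
        · rw [if_neg hj', zero_add]
          have h4 : ∃ l, i < l ∧ l < r ∧ j ∈ A l := by
            by_contra hcon
            push Not at hcon
            exact hj' (Finset.mem_filter.2 ⟨hj, hcon⟩)
          obtain ⟨l, h5, h6, h7⟩ := h4
          have h8 : (if j ∈ A l then |v (e i) j| else 0) ≤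
              ∑ l ∈ (range r).filter (fun l => i < l), (if j ∈ A l then |v (e i) j| else 0) :=
            Finset.single_le_sum (f := fun l => if j ∈ A l then |v (e i) j| else 0)
              (fun l _ => by split_ifs <;> positivity)
              (Finset.mem_filter.2 ⟨Finset.mem_range.2 h6, h5⟩)
          rwa [if_pos h7] at h8
      refine (Finset.sum_le_sum h3).trans ?_
      refine (Finset.sum_le_sum_of_subset_of_nonneg (Finset.subset_univ (A i))
        (fun j _ _ => ?_)).trans ?_
      · have : 0 ≤ ∑ l ∈ (range r).filter (fun l => i < l),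
            (if j ∈ A l then |v (e i) j| else 0) :=
          Finset.sum_nonneg fun l _ => by split_ifs <;> positivity
        split_ifs <;> positivity
      · rw [Finset.sum_add_distrib, Finset.sum_comm]
        refine add_le_add (le_of_eq ?_) (le_of_eq ?_)
        · rw [← Finset.sum_filter]
          congr 1
          ext j
          simp
        · refine Finset.sum_congr rfl fun l _ => ?_
          rw [← Finset.sum_filter]
          congr 1
          ext j
          simp
    have h9 : ∑ l ∈ (range r).filter (fun l => i < l), ∑ j ∈ A l, |v (e i) j| ≤ 1 / 4 := by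
      calc ∑ l ∈ (range r).filter (fun l => i < l), ∑ j ∈ A l, |v (e i) j| ≤
            ∑ _l ∈ (range r).filter (fun l => i < l), (1 / (4 * r) : ℝ) := by
            refine Finset.sum_le_sum fun l hl => ?_
            rw [Finset.mem_filter, Finset.mem_range] at hl
            exact hsmall i l hl.2 hl.1
        _ ≤ ∑ _l ∈ range r, (1 / (4 * r) : ℝ) :=
            Finset.sum_le_sum_of_subset_of_nonneg (Finset.filter_subset _ _)
              (fun _ _ _ => by positivity)
        _ = 1 / 4 := by
            rw [Finset.sum_const, Finset.card_range, nsmul_eq_mul]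
            field_simp
    linarith
  have hm1 : (0 : ℝ) < (m : ℝ) + 1 := by positivity
  obtain ⟨I, hI, hIc, hIr⟩ := exists_indep d (m + 1)
    (fun i j => i ≠ j ∧ κ / (m + 1) < ∑ t ∈ A' j, |v (e i) t|) (range r) (by
      intro i _ S hS hrel
      have h1 : ∑ _j ∈ S, (κ / (m + 1) : ℝ) ≤ M := by
        calc ∑ _j ∈ S, (κ / (m + 1) : ℝ) ≤ ∑ j ∈ S, ∑ t ∈ A' j, |v (e i) t| :=
              Finset.sum_le_sum fun j hj => (hrel j hj).2.le
          _ = ∑ t ∈ S.biUnion A', |v (e i) t| := by
              rw [Finset.sum_biUnion]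
              intro a ha b hb hab
              exact hdisj a b (Finset.mem_range.1 (hS ha)) (Finset.mem_range.1 (hS hb)) hab
          _ ≤ ∑ t, |v (e i) t| := Finset.sum_le_sum_of_subset_of_nonneg (Finset.subset_univ _)
              (fun _ _ _ => abs_nonneg _)
          _ ≤ M := hv _
      rw [Finset.sum_const, nsmul_eq_mul] at h1
      have h2 : (S.card : ℝ) ≤ M * (m + 1) / κ := by
        rw [le_div_iff₀ hκ]
        calc (S.card : ℝ) * κ = (S.card * (κ / (m + 1))) * (m + 1) := by field_simp
          _ ≤ M * (m + 1) := mul_le_mul_of_nonneg_right h1 hm1.le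
      exact_mod_cast h2.trans hd) (by rw [Finset.card_range])
  let f : Fin (m + 1) → ℕ := I.orderEmbOfFin hIc
  have hfI : ∀ i, f i ∈ I := fun i => I.orderEmbOfFin_mem hIc i
  have hfr : ∀ i, f i < r := fun i => Finset.mem_range.1 (hI (hfI i))
  have hfinj : Function.Injective f := (I.orderEmbOfFin hIc).injective
  refine ⟨fun i => e (f i), fun i => A' (f i), fun i j hij => ?_, fun i => ?_, fun i => ?_⟩
  · exact hdisj _ _ (hfr i) (hfr j) (fun h => hij (hfinj h))
  · exact hmass _ (hfr i)
  · calc ∑ i' ∈ univ.erase i, ∑ j ∈ A' (f i'), |v (e (f i)) j| ≤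
          ∑ _i' ∈ univ.erase i, (κ / (m + 1) : ℝ) := by
          refine Finset.sum_le_sum fun i' hi' => ?_
          have hne : f i ≠ f i' := fun h => (Finset.mem_erase.1 hi').1 (hfinj h).symm
          have := hIr _ (hfI i) _ (hfI i') hne
          push Not at this
          exact this hne
      _ ≤ ∑ _i' : Fin (m + 1), (κ / (m + 1) : ℝ) :=
          Finset.sum_le_sum_of_subset_of_nonneg (Finset.erase_subset _ _)
            (fun _ _ _ => by positivity)
      _ = κ := by
          rw [Finset.sum_const, Finset.card_univ, Fintype.card_fin, nsmul_eq_mul]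
          push_cast
          field_simp

end Pool.Agent.H180
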