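import Mathlib
import Pool.Agent.H180.LocE
import Pool.Agent.H180.Ext

/-!
Finite sets of the predual factor through `ℓ_∞^k`.
-/

set_option autoImplicit false

open Filter Topology Set

namespace Pool.Agent.H180

section

variable {Z : Type*} [NormedAddCommGroup Z] [NormedSpace ℝ Z]

/-- a function on a finite set as a continuous function -/
def cf {k : ℕ} (σ : Fin k → ℝ) : C(Fin k, ℝ) := ⟨σ, continuous_of_discreteTopology⟩

theorem norm_cf_le {k : ℕ} (σ : Fin k → ℝ) (C : ℝ) (hC : 0 ≤ C) (h : ∀ j, |σ j| ≤ C) :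
    ‖cf σ‖ ≤ C := (ContinuousMap.norm_le _ hC).2 h

theorem cf_eq_sum {k : ℕ} (σ : Fin k → ℝ) : cf σ = ∑ j, σ j • cf (Pi.single j 1) := by
  ext i
  rw [ContinuousMap.sum_apply, Finset.sum_eq_single i]
  · show σ i = σ i • (Pi.single i (1 : ℝ) : Fin k → ℝ) i
    simp
  · intro j _ hj
    show σ j • (Pi.single j (1 : ℝ) : Fin k → ℝ) i = 0
    rw [Pi.single_eq_of_ne (Ne.symm hj), smul_zero]
  · intro h
    exact absurd (Finset.mem_univ _) h

theorem apply_cf {k : ℕ} (μ : C(Fin k, ℝ) →L[ℝ] ℝ) (σ : Fin k → ℝ) :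
    μ (cf σ) = ∑ j, σ j * μ (cf (Pi.single j 1)) := by
  conv_lhs => rw [cf_eq_sum σ]
  rw [map_sum]
  exact Finset.sum_congr rfl fun j _ => by rw [map_smul, smul_eq_mul]

/-- the finite rank operator on the dual -/
theorem exists_theta {ι : Type*} {U : Ultrafilter ι}
    {s : ι → (Z →L[ℝ] ℝ) → ((Z →L[ℝ] ℝ) →₀ ℝ)} {lam : ℝ} (hs : Loc Z U s lam)
    {n : ℕ} (z : Fin n → Z) (ε : ℝ) (hε : 0 < ε) :
    ∃ (k : ℕ) (u : Fin n → Fin k → ℝ) (α : (Z →L[ℝ] ℝ) →L[ℝ] (C(Fin k, ℝ) →L[ℝ] ℝ)),
      (∀ l j, |u l j| ≤ ‖z l‖) ∧ (∀ x, ‖α x‖ ≤ lam * ‖x‖) ∧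
      ∀ x l, |α x (cf (u l)) - x (z l)| ≤ ε * ‖z l‖ * (lam * ‖x‖) := by
  classical
  have hfd : FiniteDimensional ℝ (Submodule.span ℝ (Set.range z)) :=
    FiniteDimensional.span_of_finite ℝ (Set.finite_range z)
  obtain ⟨k, y, hy1, hy2⟩ := exists_net (Submodule.span ℝ (Set.range z)) ε hε
  choose J hJ using hy2
  let p : (Z →L[ℝ] ℝ) → Fin k := fun x => if hx : ‖x‖ ≤ 1 then J x hx else J 0 (by simp)
  obtain ⟨α, hα1, hα2⟩ := hs.exists_map p
  refine ⟨k, fun l j => y j (z l), α, fun l j => ?_, hα1, fun x l => ?_⟩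
  · refine ((y j).le_opNorm (z l)).trans ?_
    have := hy1 j
    nlinarith [norm_nonneg (z l)]
  · have h1 : Tendsto (fun i => |((s i x).sum fun w a => a * cf (fun j => y j (z l)) (p w)) -
        (s i x).sum fun w a => a * w (z l)|) U (𝓝 |α x (cf fun j => y j (z l)) - x (z l)|) :=
      ((hα2 x (cf fun j => y j (z l))).sub (hs.lim x (z l))).abs
    refine le_of_tendsto h1 (Filter.Eventually.of_forall fun i => ?_)
    have h2 : ((s i x).sum fun w a => a * cf (fun j => y j (z l)) (p w)) -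
        ((s i x).sum fun w a => a * w (z l)) =
        (s i x).sum fun w a => a * (cf (fun j => y j (z l)) (p w) - w (z l)) := by
      unfold Finsupp.sum
      rw [← Finset.sum_sub_distrib]
      exact Finset.sum_congr rfl fun y _ => by ring
    rw [h2]
    refine (abs_sum_le _ _ (ε * ‖z l‖) (fun w hw => ?_)).trans ?_
    · have hw1 := hs.ball i x w hw
      have h3 := hJ w hw1 (z l) (Submodule.subset_span ⟨l, rfl⟩)
      have h4 : p w = J w hw1 := dif_pos hw1
      show |y (p w) (z l) - w (z l)| ≤ _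
      rw [h4, abs_sub_comm]
      exact h3
    · exact mul_le_mul_of_nonneg_left (hs.bound i x) (by positivity)

theorem norm_le_of_signs {k : ℕ} (b : Fin k → Z) (C : ℝ) (hC : 0 ≤ C)
    (h : ∀ σ : Fin k → Bool, ‖∑ j, sg (σ j) • b j‖ ≤ C) (σ : Fin k → ℝ) (hσ : ∀ j, |σ j| ≤ 1) :
    ‖∑ j, σ j • b j‖ ≤ C := by
  classical
  refine NormedSpace.norm_le_dual_bound ℝ _ hC fun f => ?_
  have h1 : ‖f (∑ j, σ j • b j)‖ ≤ ∑ j, |f (b j)| := by
    rw [map_sum]
    refine (norm_sum_le _ _).trans (Finset.sum_le_sum fun j _ => ?_)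
    rw [map_smul, smul_eq_mul, norm_mul, Real.norm_eq_abs, Real.norm_eq_abs]
    have := abs_nonneg (f (b j))
    nlinarith [hσ j]
  have h2 : ∑ j, |f (b j)| = f (∑ j, sg (decide (0 ≤ f (b j))) • b j) := by
    rw [map_sum]
    refine Finset.sum_congr rfl fun j _ => ?_
    rw [map_smul, smul_eq_mul]
    by_cases h0 : 0 ≤ f (b j)
    · rw [abs_of_nonneg h0]
      simp [sg, h0]
    · rw [abs_of_neg (not_le.1 h0)]
      simp [sg, h0]
  rw [h2] at h1
  refine h1.trans ((le_abs_self _).trans ((f.le_opNorm _).trans ?_))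
  rw [mul_comm]
  exact mul_le_mul_of_nonneg_right (h _) (norm_nonneg _)

/-- the linear map of the separation argument -/
noncomputable def Lam {n k : ℕ} (u : Fin n → Fin k → ℝ) :
    (Fin k → Z) →ₗ[ℝ] (((Fin k → Bool) → Z) × (Fin n → Z)) where
  toFun b := (fun σ => ∑ j, sg (σ j) • b j, fun l => ∑ j, u l j • b j)
  map_add' b b' := by
    refine Prod.ext (funext fun σ => ?_) (funext fun l => ?_)
    · simp only [Pi.add_apply, smul_add, Finset.sum_add_distrib, Prod.fst_add]
    · simp only [Pi.add_apply, smul_add, Finset.sum_add_distrib, Prod.snd_add]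
  map_smul' c b := by
    refine Prod.ext (funext fun σ => ?_) (funext fun l => ?_)
    · simp only [Pi.smul_apply, Prod.smul_fst, RingHom.id_apply, Finset.smul_sum]
      exact Finset.sum_congr rfl fun j _ => smul_comm _ _ _
    · simp only [Pi.smul_apply, Prod.smul_snd, RingHom.id_apply, Finset.smul_sum]
      exact Finset.sum_congr rfl fun j _ => smul_comm _ _ _

theorem exists_fac {ι : Type*} {U : Ultrafilter ι}
    {s : ι → (Z →L[ℝ] ℝ) → ((Z →L[ℝ] ℝ) →₀ ℝ)} {lam : ℝ} (hs : Loc Z U s lam) (lam' : ℝ)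
    (hlam : lam < lam') {n : ℕ} (z : Fin n → Z) (η : ℝ) (hη : 0 < η) :
    ∃ (k : ℕ) (b : Fin k → Z) (u : Fin n → Fin k → ℝ),
      (∀ σ : Fin k → ℝ, (∀ j, |σ j| ≤ 1) → ‖∑ j, σ j • b j‖ ≤ lam') ∧
      (∀ l j, |u l j| ≤ ‖z l‖) ∧ ∀ l, ‖∑ j, u l j • b j - z l‖ ≤ η := by
  classical
  have hlam0 : 0 ≤ lam := hs.nonneg
  have hlam' : 0 < lam' := hlam0.trans_lt hlam
  set Zm : ℝ := ∑ l, ‖z l‖ with hZm
  have hZm0 : 0 ≤ Zm := Finset.sum_nonneg fun l _ => norm_nonneg _
  set ε : ℝ := η / (2 * (lam * Zm + 1)) with hεdef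
  have hε : 0 < ε := by positivity
  obtain ⟨k, u, α, hu, hα1, hα2⟩ := exists_theta hs z ε hε
  have hαlin : ∀ (x : Z →L[ℝ] ℝ) (σ : Fin k → ℝ), α x (cf σ) = ∑ j, σ j * α x (cf (Pi.single j 1)) :=
    fun x σ => apply_cf _ _
  by_cases hd : Disjoint (Metric.ball (0 : (Fin k → Bool) → Z) lam' ×ˢ Metric.ball z η)
      (Set.range (Lam u))
  · exfalso
    have hcv1 : Convex ℝ (Metric.ball (0 : (Fin k → Bool) → Z) lam' ×ˢ Metric.ball z η) :=
      (convex_ball (0 : (Fin k → Bool) → Z) lam').prod (convex_ball z η)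
    have hop : IsOpen (Metric.ball (0 : (Fin k → Bool) → Z) lam' ×ˢ Metric.ball z η) :=
      Metric.isOpen_ball.prod Metric.isOpen_ball
    have hcv2 : Convex ℝ (Set.range (Lam (Z := Z) u)) := by
      rw [← LinearMap.coe_range]
      exact Submodule.convex _
    obtain ⟨f, c, hf1, hf2⟩ := geometric_hahn_banach_open hcv1 hop hcv2 hd
    have hc : c ≤ 0 := by
      have := hf2 0 ⟨0, map_zero _⟩
      simpa using this
    have hf0 : ∀ b, f (Lam u b) = 0 := by
      intro b
      by_contra hne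
      have h1 := hf2 (Lam u (((c - 1) / f (Lam u b)) • b)) ⟨_, rfl⟩
      rw [map_smul, map_smul, smul_eq_mul, div_mul_cancel₀ _ hne] at h1
      linarith
    let x : (Fin k → Bool) → (Z →L[ℝ] ℝ) := fun σ =>
      (f.comp (ContinuousLinearMap.inl ℝ ((Fin k → Bool) → Z) (Fin n → Z))).comp
        (ContinuousLinearMap.single ℝ (fun _ => Z) σ)
    let y : Fin n → (Z →L[ℝ] ℝ) := fun l =>
      (f.comp (ContinuousLinearMap.inr ℝ ((Fin k → Bool) → Z) (Fin n → Z))).comp
        (ContinuousLinearMap.single ℝ (fun _ => Z) l)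
    have hdec : ∀ (p : (Fin k → Bool) → Z) (q : Fin n → Z),
        f (p, q) = ∑ σ, x σ (p σ) + ∑ l, y l (q l) := by
      intro p q
      have h1 : ((p, q) : ((Fin k → Bool) → Z) × (Fin n → Z)) = (p, 0) + (0, q) := by simp
      have h2 : f (p, 0) = ∑ σ, x σ (p σ) := by
        show (f.comp (ContinuousLinearMap.inl ℝ ((Fin k → Bool) → Z) (Fin n → Z))) p = _
        conv_lhs => rw [← Finset.univ_sum_single p]
        rw [map_sum]
        rfl
      have h3 : f (0, q) = ∑ l, y l (q l) := by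
        show (f.comp (ContinuousLinearMap.inr ℝ ((Fin k → Bool) → Z) (Fin n → Z))) q = _
        conv_lhs => rw [← Finset.univ_sum_single q]
        rw [map_sum]
        rfl
      rw [h1, map_add, h2, h3]
    set Kc : ℝ := -∑ l, y l (z l) with hKc
    have hneg : ∀ (w : (Fin k → Bool) ⊕ Fin n → Z), (∀ i, ‖w i‖ ≤ 1) → ∀ t : ℝ, 0 ≤ t → t < 1 →
        t * (∑ σ, lam' * x σ (w (Sum.inl σ)) + ∑ l, η * y l (w (Sum.inr l))) < Kc := by
      intro w hw t ht0 ht1
      have h1 := hf1 (fun σ => (lam' * t) • w (Sum.inl σ), fun l => z l + (η * t) • w (Sum.inr l)) (by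
        refine ⟨?_, ?_⟩
        · show _ ∈ Metric.ball (0 : (Fin k → Bool) → Z) lam'
          rw [mem_ball_zero_iff]
          refine lt_of_le_of_lt (b := lam' * t) ((pi_norm_le_iff_of_nonneg (by positivity)).2
            fun σ => ?_) (by nlinarith)
          rw [norm_smul, Real.norm_of_nonneg (by positivity)]
          have := hw (Sum.inl σ)
          have h0 : 0 ≤ lam' * t := by positivity
          nlinarith
        · show _ ∈ Metric.ball z η
          rw [mem_ball_iff_norm]
          refine lt_of_le_of_lt (b := η * t) ((pi_norm_le_iff_of_nonneg (by positivity)).2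
            fun l => ?_) (by nlinarith)
          show ‖z l + (η * t) • w (Sum.inr l) - z l‖ ≤ _
          rw [add_sub_cancel_left, norm_smul, Real.norm_of_nonneg (by positivity)]
          have := hw (Sum.inr l)
          have h0 : 0 ≤ η * t := by positivity
          nlinarith)
      rw [hdec] at h1
      have h2 : ∑ σ, x σ ((lam' * t) • w (Sum.inl σ)) = t * ∑ σ, lam' * x σ (w (Sum.inl σ)) := by
        rw [Finset.mul_sum]
        refine Finset.sum_congr rfl fun σ _ => ?_
        rw [map_smul, smul_eq_mul]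
        ring
      have h3 : ∑ l, y l (z l + (η * t) • w (Sum.inr l)) =
          ∑ l, y l (z l) + t * ∑ l, η * y l (w (Sum.inr l)) := by
        rw [Finset.mul_sum, ← Finset.sum_add_distrib]
        refine Finset.sum_congr rfl fun l _ => ?_
        rw [map_add, map_smul, smul_eq_mul]
        ring
      rw [h2, h3] at h1
      rw [mul_add]
      linarith
    have hKpos : 0 < Kc := by
      have := hneg (fun _ => 0) (by simp) 0 le_rfl one_pos
      simpa using this
    let F : (Fin k → Bool) ⊕ Fin n → (Z →L[ℝ] ℝ) := Sum.elim (fun σ => lam' • x σ) fun l => η • y l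
    have hFn : ∑ i, ‖F i‖ ≤ Kc := by
      refine sum_norm_le Finset.univ F Kc fun w hw => ?_
      have h1 : ∑ i, F i (w i) = ∑ σ, lam' * x σ (w (Sum.inl σ)) +
          ∑ l, η * y l (w (Sum.inr l)) := by
        rw [Fintype.sum_sum_type]
        rfl
      rw [h1]
      by_contra hcon
      push Not at hcon
      set A := ∑ σ, lam' * x σ (w (Sum.inl σ)) + ∑ l, η * y l (w (Sum.inr l)) with hA
      have hA0 : 0 < A := hKpos.trans hcon
      have h2 := hneg w hw (Kc / A) (by positivity) ((div_lt_one hA0).2 hcon)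
      rw [← hA, div_mul_cancel₀ _ hA0.ne'] at h2
      exact lt_irrefl _ h2
    rw [Fintype.sum_sum_type] at hFn
    have hF1 : ∑ σ, ‖F (Sum.inl σ)‖ = lam' * ∑ σ, ‖x σ‖ := by
      rw [Finset.mul_sum]
      refine Finset.sum_congr rfl fun σ _ => ?_
      show ‖lam' • x σ‖ = _
      rw [norm_smul, Real.norm_of_nonneg hlam'.le]
    have hF2 : ∑ l, ‖F (Sum.inr l)‖ = η * ∑ l, ‖y l‖ := by
      rw [Finset.mul_sum]
      refine Finset.sum_congr rfl fun l _ => ?_
      show ‖η • y l‖ = _
      rw [norm_smul, Real.norm_of_nonneg hη.le]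
    rw [hF1, hF2] at hFn
    -- the relation between `x` and `y`
    have hrel : ∀ j, ∑ l, u l j • y l = -∑ σ, sg (σ j) • x σ := by
      intro j
      ext w
      have h1 := hf0 (Pi.single j w)
      have h2 : Lam u (Pi.single j w) = (fun σ => sg (σ j) • w, fun l => u l j • w) := by
        refine Prod.ext (funext fun σ => ?_) (funext fun l => ?_)
        · show ∑ i, sg (σ i) • (Pi.single j w : Fin k → Z) i = _
          rw [Finset.sum_eq_single j]
          · rw [Pi.single_eq_same]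
          · intro i _ hi
            rw [Pi.single_eq_of_ne hi, smul_zero]
          · intro h; exact absurd (Finset.mem_univ _) h
        · show ∑ i, u l i • (Pi.single j w : Fin k → Z) i = _
          rw [Finset.sum_eq_single j]
          · rw [Pi.single_eq_same]
          · intro i _ hi
            rw [Pi.single_eq_of_ne hi, smul_zero]
          · intro h; exact absurd (Finset.mem_univ _) h
      rw [h2, hdec] at h1
      simp only [map_smul, smul_eq_mul] at h1
      simp only [neg_apply, sum_apply, smul_apply, smul_eq_mul]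
      linarith
    have hS : ∑ l, α (y l) (cf (u l)) = -∑ σ, α (x σ) (cf fun j => sg (σ j)) := by
      have h1 : ∑ l, α (y l) (cf (u l)) = ∑ j, α (∑ l, u l j • y l) (cf (Pi.single j 1)) := by
        have h2 : ∀ j, α (∑ l, u l j • y l) (cf (Pi.single j 1)) =
            ∑ l, u l j * α (y l) (cf (Pi.single j 1)) := by
          intro j
          rw [map_sum, sum_apply]
          exact Finset.sum_congr rfl fun l _ => by rw [map_smul, smul_apply, smul_eq_mul]
        simp only [h2]
        rw [Finset.sum_comm]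
        exact Finset.sum_congr rfl fun l _ => hαlin _ _
      rw [h1]
      have h3 : ∀ j, α (∑ l, u l j • y l) (cf (Pi.single j 1)) =
          -∑ σ, sg (σ j) * α (x σ) (cf (Pi.single j 1)) := by
        intro j
        rw [hrel j, map_neg, neg_apply, map_sum, sum_apply]
        congr 1
        exact Finset.sum_congr rfl fun σ _ => by rw [map_smul, smul_apply, smul_eq_mul]
      simp only [h3]
      rw [Finset.sum_neg_distrib, Finset.sum_comm]
      congr 1
      exact Finset.sum_congr rfl fun σ _ => (hαlin _ _).symm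
    have hS1 : |∑ l, α (y l) (cf (u l))| ≤ lam * ∑ σ, ‖x σ‖ := by
      rw [hS, abs_neg, Finset.mul_sum]
      refine (Finset.abs_sum_le_sum_abs _ _).trans (Finset.sum_le_sum fun σ _ => ?_)
      refine ((α (x σ)).le_opNorm _).trans ?_
      have h1 : ‖cf fun j => sg (σ j)‖ ≤ 1 := norm_cf_le _ 1 zero_le_one fun j => (abs_sg _).le
      have h2 : 0 ≤ ‖α (x σ)‖ := norm_nonneg (α (x σ))
      have h3 := hα1 (x σ)
      nlinarith
    have hS2 : |∑ l, α (y l) (cf (u l)) - ∑ l, y l (z l)| ≤ η / 2 * ∑ l, ‖y l‖ := by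
      rw [← Finset.sum_sub_distrib, Finset.mul_sum]
      refine (Finset.abs_sum_le_sum_abs _ _).trans (Finset.sum_le_sum fun l _ => ?_)
      refine (hα2 (y l) l).trans ?_
      have h1 : ‖z l‖ ≤ Zm :=
        Finset.single_le_sum (f := fun l => ‖z l‖) (fun l _ => norm_nonneg _) (Finset.mem_univ l)
      have h2 : ε * (lam * Zm + 1) = η / 2 := by
        rw [hεdef]
        field_simp
      have h3 : ε * ‖z l‖ * lam ≤ η / 2 := by
        rw [← h2]
        have : ‖z l‖ * lam ≤ lam * Zm + 1 := by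
          have := mul_le_mul_of_nonneg_left h1 hlam0
          linarith
        calc ε * ‖z l‖ * lam = ε * (‖z l‖ * lam) := by ring
          _ ≤ _ := mul_le_mul_of_nonneg_left this hε.le
      calc ε * ‖z l‖ * (lam * ‖y l‖) = (ε * ‖z l‖ * lam) * ‖y l‖ := by ring
        _ ≤ _ := mul_le_mul_of_nonneg_right h3 (norm_nonneg _)
    have h4 := abs_le.1 hS1
    have h5 := abs_le.1 hS2
    have hx0 : 0 ≤ ∑ σ, ‖x σ‖ := Finset.sum_nonneg fun _ _ => norm_nonneg _
    have hy0 : 0 ≤ ∑ l, ‖y l‖ := Finset.sum_nonneg fun _ _ => norm_nonneg _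
    have h6 : Kc ≤ lam * ∑ σ, ‖x σ‖ + η / 2 * ∑ l, ‖y l‖ := by
      rw [hKc]
      linarith [h4.1, h5.2]
    have h7 : (lam' - lam) * ∑ σ, ‖x σ‖ + η / 2 * ∑ l, ‖y l‖ ≤ 0 := by nlinarith
    have h8 : ∑ σ, ‖x σ‖ = 0 := by
      have h9 : 0 ≤ η / 2 * ∑ l, ‖y l‖ := by positivity
      have h10 : (lam' - lam) * ∑ σ, ‖x σ‖ ≤ 0 := by linarith
      have h11 : 0 < lam' - lam := by linarith
      nlinarith
    have h9 : ∑ l, ‖y l‖ = 0 := by
      rw [h8, mul_zero, zero_add] at h7
      nlinarith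
    rw [h8, h9, mul_zero, mul_zero, add_zero] at h6
    linarith
  · rw [Set.not_disjoint_iff] at hd
    obtain ⟨p, hp, b, rfl⟩ := hd
    refine ⟨k, b, u, fun σ hσ => ?_, hu, fun l => ?_⟩
    · refine norm_le_of_signs b lam' hlam'.le (fun τ => ?_) σ hσ
      have h1 : (Lam u b).1 ∈ Metric.ball (0 : (Fin k → Bool) → Z) lam' := hp.1
      rw [mem_ball_zero_iff] at h1
      exact (norm_le_pi_norm (Lam u b).1 τ).trans h1.le
    · have h1 : (Lam u b).2 ∈ Metric.ball z η := hp.2
      rw [mem_ball_iff_norm] at h1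
      exact (norm_le_pi_norm ((Lam u b).2 - z) l).trans h1.le

end

end Pool.Agent.H180
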