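import Mathlib
import Pool.Agent.H180.Ext

/-!
Irreducible weak-star closed sets of functionals over the Cantor cube.
-/

set_option autoImplicit false

open Filter Topology Set

namespace Pool.Agent.H180

section

variable {Z : Type} [NormedAddCommGroup Z] [NormedSpace ℝ Z] {T : Type}

/-- `x` takes the values `sg (t γ)` at `z γ`, `γ ∈ F` -/
def Mt (z : T → Z) (F : Set T) (t : T → Bool) (x : Z →L[ℝ] ℝ) : Prop := ∀ γ ∈ F, x (z γ) = sg (t γ)

theorem Mt.mono {z : T → Z} {F F' : Set T} {t : T → Bool} {x : Z →L[ℝ] ℝ} (h : Mt z F' t x)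
    (hF : F ⊆ F') : Mt z F t x := fun γ hγ => h γ (hF hγ)

theorem Mt.congr {z : T → Z} {F : Set T} {t t' : T → Bool} {x : Z →L[ℝ] ℝ} (h : Mt z F t x)
    (ht : ∀ γ ∈ F, t' γ = t γ) : Mt z F t' x := fun γ hγ => by rw [ht γ hγ]; exact h γ hγ

theorem sg_inj {a b : Bool} (h : sg a = sg b) : a = b := by
  cases a <;> cases b <;> simp [sg] at h ⊢ <;> linarith

/-- the properties of the set of functionals -/
structure Irr (z : T → Z) (M₀ : ℝ) (E : Set (Z →L[ℝ] ℝ)) : Prop where
  bound : ∀ x ∈ E, ‖x‖ ≤ M₀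
  onto : ∀ t : T → Bool, ∃ x ∈ E, Mt z Set.univ t x
  irr : ∀ (k : ℕ) (b : Fin k → Z) (η : ℝ), 0 < η → ∀ (F : Finset T) (t₀ : T → Bool),
    ∃ (F' : Finset T) (t₁ : T → Bool), F ⊆ F' ∧ (∀ γ ∈ F, t₁ γ = t₀ γ) ∧
      ∀ x ∈ E, ∀ y ∈ E, Mt z F' t₁ x → Mt z F' t₁ y → ∀ j, |x (b j) - y (b j)| ≤ η

theorem exists_irr (z : T → Z) (M₀ : ℝ)
    (h : ∀ t : T → Bool, ∃ x : Z →L[ℝ] ℝ, ‖x‖ ≤ M₀ ∧ ∀ γ, x (z γ) = sg (t γ)) :
    ∃ E : Set (Z →L[ℝ] ℝ), Irr z M₀ E := by
  classical
  let K₀ : Set (WeakDual ℝ Z) := WeakDual.toStrongDual ⁻¹' Metric.closedBall 0 M₀ ∩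
    ⋂ γ, {x : WeakDual ℝ Z | x (z γ) = 1 ∨ x (z γ) = -1}
  have hK₀ : IsCompact K₀ := by
    refine (WeakDual.isCompact_closedBall 0 M₀).inter_right (isClosed_iInter fun γ => ?_)
    have h1 : IsClosed ((fun x : WeakDual ℝ Z => x (z γ)) ⁻¹' {1, -1}) :=
      (Set.toFinite ({1, -1} : Set ℝ)).isClosed.preimage (WeakDual.eval_continuous (z γ))
    exact h1
  have hcs : CompactSpace K₀ := isCompact_iff_compactSpace.1 hK₀
  let X : K₀ → (T → Bool) := fun x γ => decide (0 < (x : WeakDual ℝ Z) (z γ))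
  have hval : ∀ (x : K₀) (γ : T), (x : WeakDual ℝ Z) (z γ) = sg (X x γ) := by
    intro x γ
    have h1 := Set.mem_iInter.1 x.2.2 γ
    rcases h1 with h1 | h1
    · show (x : WeakDual ℝ Z) (z γ) = sg (decide (0 < (x : WeakDual ℝ Z) (z γ)))
      rw [h1]
      simp [sg]
    · show (x : WeakDual ℝ Z) (z γ) = sg (decide (0 < (x : WeakDual ℝ Z) (z γ)))
      rw [h1]
      norm_num [sg]
  have hev : ∀ w : Z, Continuous fun x : K₀ => (x : WeakDual ℝ Z) w := fun w =>
    (WeakDual.eval_continuous w).comp continuous_subtype_val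
  have hXc : Continuous X := by
    refine continuous_pi fun γ => ?_
    rw [continuous_bool_rng true]
    refine ⟨?_, ?_⟩
    · have h1 : (fun x : K₀ => X x γ) ⁻¹' {true} = (fun x : K₀ => (x : WeakDual ℝ Z) (z γ)) ⁻¹' {1} := by
        ext x
        have := hval x γ
        simp only [Set.mem_preimage, Set.mem_singleton_iff]
        rw [this]
        cases X x γ <;> norm_num [sg]
      rw [h1]
      exact isClosed_singleton.preimage (hev _)
    · have h1 : (fun x : K₀ => X x γ) ⁻¹' {true} =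
          (fun x : K₀ => (x : WeakDual ℝ Z) (z γ)) ⁻¹' Set.Ioi 0 := by
        ext x
        simp only [Set.mem_preimage, Set.mem_singleton_iff, Set.mem_Ioi]
        show decide (0 < (x : WeakDual ℝ Z) (z γ)) = true ↔ _
        simp
      rw [h1]
      exact isOpen_Ioi.preimage (hev _)
  have hXs : Function.Surjective X := by
    intro t
    obtain ⟨x, hx1, hx2⟩ := h t
    have hmem : StrongDual.toWeakDual x ∈ K₀ := by
      refine ⟨?_, ?_⟩
      · show WeakDual.toStrongDual (StrongDual.toWeakDual x) ∈ Metric.closedBall 0 M₀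
        rw [mem_closedBall_zero_iff]
        exact hx1
      · rw [Set.mem_iInter]
        intro γ
        show x (z γ) = 1 ∨ x (z γ) = -1
        rw [hx2]
        cases t γ <;> simp [sg]
    refine ⟨⟨_, hmem⟩, funext fun γ => ?_⟩
    refine sg_inj ?_
    rw [← hval, ← hx2]
    rfl
  obtain ⟨E, hEc, hE1, hE2⟩ := exists_compact_surjective_zorn_subset hXc hXs
  refine ⟨{x | ∃ e ∈ E, WeakDual.toStrongDual (e : WeakDual ℝ Z) = x}, ⟨?_, ?_, ?_⟩⟩
  · rintro x ⟨e, -, rfl⟩
    exact mem_closedBall_zero_iff.1 e.2.1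
  · intro t
    have ht : t ∈ X '' E := by rw [hE1]; exact Set.mem_univ t
    obtain ⟨e, he, rfl⟩ := ht
    exact ⟨_, ⟨e, he, rfl⟩, fun γ _ => hval e γ⟩
  · intro k b η hη F t₀
    have ht : t₀ ∈ X '' E := by rw [hE1]; exact Set.mem_univ t₀
    obtain ⟨e₀, he₀, hXe₀⟩ := ht
    -- the open set
    let Uo : Set E := {e | (∀ j, |((e : K₀) : WeakDual ℝ Z) (b j) - (e₀ : WeakDual ℝ Z) (b j)| < η / 2) ∧
      ∀ γ ∈ F, X e γ = t₀ γ}
    have hUo : IsOpen Uo := by
      have h1 : Uo = (⋂ j, {e : E | |((e : K₀) : WeakDual ℝ Z) (b j) -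
          (e₀ : WeakDual ℝ Z) (b j)| < η / 2}) ∩ ⋂ γ ∈ F, {e : E | X e γ = t₀ γ} := by
        ext e
        simp [Uo]
      rw [h1]
      refine IsOpen.inter (isOpen_iInter_of_finite fun j => ?_)
        (F.finite_toSet.isOpen_biInter fun γ _ => ?_)
      · have hc : Continuous fun e : E => |((e : K₀) : WeakDual ℝ Z) (b j) -
            (e₀ : WeakDual ℝ Z) (b j)| :=
          (((hev (b j)).comp continuous_subtype_val).sub continuous_const).abs
        exact isOpen_Iio.preimage hc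
      · have hc : Continuous fun e : E => X e γ :=
          (continuous_apply γ).comp (hXc.comp continuous_subtype_val)
        exact (isOpen_discrete {t₀ γ}).preimage hc
    have hne : (Uoᶜ : Set E) ≠ Set.univ := by
      intro hcon
      have h1 : (⟨e₀, he₀⟩ : E) ∈ Uo := by
        refine ⟨fun j => ?_, fun γ _ => ?_⟩
        · show |(e₀ : WeakDual ℝ Z) (b j) - (e₀ : WeakDual ℝ Z) (b j)| < η / 2
          rw [sub_self, abs_zero]
          positivity
        · show X e₀ γ = t₀ γ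
          rw [hXe₀]
      have h2 : (⟨e₀, he₀⟩ : E) ∈ (Uoᶜ : Set E) := by rw [hcon]; exact Set.mem_univ _
      exact h2 h1
    have h3 := hE2 (Uoᶜ) hne hUo.isClosed_compl
    obtain ⟨t, ht⟩ := (Set.ne_univ_iff_exists_notMem _).1 h3
    have hclosed : IsClosed (E.domRestrict X '' Uoᶜ) := by
      have hc : Continuous (E.domRestrict X) := hXc.comp continuous_subtype_val
      exact ((hUo.isClosed_compl.isCompact).image hc).isClosed
    obtain ⟨I, w, hw1, hw2⟩ := isOpen_pi_iff.1 hclosed.isOpen_compl t ht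
    have hIn : ∀ e : E, (∀ γ ∈ I, X e γ = t γ) → e ∈ Uo := by
      intro e he
      by_contra hcon
      have h4 : X e ∈ (E.domRestrict X '' Uoᶜ)ᶜ := by
        refine hw2 fun γ hγ => ?_
        rw [he γ hγ]
        exact (hw1 γ hγ).2
      exact h4 ⟨e, hcon, rfl⟩
    -- `t` agrees with `t₀` on `F`
    have hagree : ∀ γ ∈ F, γ ∈ I → t γ = t₀ γ := by
      intro γ hγF hγI
      have ht' : t ∈ X '' E := by rw [hE1]; exact Set.mem_univ t
      obtain ⟨e, he, hXe⟩ := ht'
      have h5 := hIn ⟨e, he⟩ (fun γ _ => by show X e γ = t γ; rw [hXe])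
      have h6 := h5.2 γ hγF
      rw [← h6]
      show t γ = X e γ
      rw [hXe]
    refine ⟨F ∪ I, fun γ => if γ ∈ I then t γ else t₀ γ, Finset.subset_union_left, ?_, ?_⟩
    · intro γ hγ
      show (if γ ∈ I then t γ else t₀ γ) = t₀ γ
      split_ifs with hγI
      · exact hagree γ hγ hγI
      · rfl
    · have hmem : ∀ x ∈ {x | ∃ e ∈ E, WeakDual.toStrongDual (e : WeakDual ℝ Z) = x},
          Mt z ((F ∪ I : Finset T) : Set T) (fun γ => if γ ∈ I then t γ else t₀ γ) x →
          ∀ j, |x (b j) - (e₀ : WeakDual ℝ Z) (b j)| < η / 2 := by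
        rintro x ⟨e, he, rfl⟩ hx j
        refine (hIn ⟨e, he⟩ fun γ hγ => ?_).1 j
        have h7 := hx γ (Finset.mem_coe.2 (Finset.mem_union_right F hγ))
        have h8 : (WeakDual.toStrongDual (e : WeakDual ℝ Z)) (z γ) = sg (X e γ) := hval e γ
        rw [h8] at h7
        have h9 := sg_inj h7
        show X e γ = t γ
        rw [h9]
        show (if γ ∈ I then t γ else t₀ γ) = t γ
        exact if_pos hγ
      intro x hx y hy hmx hmy j
      have h1 := hmem x hx hmx j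
      have h2 := hmem y hy hmy j
      have h3 := abs_sub_abs_le_abs_sub (x (b j) - (e₀ : WeakDual ℝ Z) (b j))
        (y (b j) - (e₀ : WeakDual ℝ Z) (b j))
      have h4 : |x (b j) - y (b j)| ≤ |x (b j) - (e₀ : WeakDual ℝ Z) (b j)| +
          |y (b j) - (e₀ : WeakDual ℝ Z) (b j)| := by
        have := abs_sub (x (b j) - (e₀ : WeakDual ℝ Z) (b j)) (y (b j) - (e₀ : WeakDual ℝ Z) (b j))
        rwa [sub_sub_sub_cancel_right] at this
      linarith

end

end Pool.Agent.H180
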