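import Mathlib
import Pool.Agent.H180.Irr
import Pool.Agent.H180.Ext2
import Pool.Agent.H180.Fac

/-!
One block: finite families of functionals on a finite block of coordinates give copies of `ℓ_∞^m` in the predual.
-/

set_option autoImplicit false

open Filter Topology Set

namespace Pool.Agent.H180

section

variable {Z : Type} [NormedAddCommGroup Z] [NormedSpace ℝ Z] {T : Type}

theorem Irr.multi {z : T → Z} {M₀ : ℝ} {E : Set (Z →L[ℝ] ℝ)} (h : Irr z M₀ E) {k : ℕ}
    (b : Fin k → Z) (η : ℝ) (hη : 0 < η) (A F : Finset T) (hAF : Disjoint A F) (t₀ : T → Bool)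
    (P : Finset (T → Bool)) :
    ∃ (F' : Finset T) (t₁ : T → Bool), F ⊆ F' ∧ Disjoint A F' ∧ (∀ γ ∈ F, t₁ γ = t₀ γ) ∧
      ∀ p ∈ P, ∀ x ∈ E, ∀ y ∈ E, Mt z A p x → Mt z A p y → Mt z F' t₁ x → Mt z F' t₁ y →
        ∀ j, |x (b j) - y (b j)| ≤ η := by
  classical
  induction P using Finset.induction with
  | empty => exact ⟨F, t₀, le_refl _, hAF, fun _ _ => rfl, fun p hp => absurd hp (Finset.notMem_empty p)⟩
  | insert p P _ ih =>
    obtain ⟨F', t₁, h1, h2, h3, h4⟩ := ih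
    obtain ⟨F'', t₂, h5, h6, h7⟩ := h.irr k b η hη (F' ∪ A) (fun γ => if γ ∈ A then p γ else t₁ γ)
    have hF'A : ∀ γ ∈ F', γ ∉ A := fun γ hγ hγA => (Finset.disjoint_left.1 h2) hγA hγ
    have ht2 : ∀ γ ∈ F', t₂ γ = t₁ γ := by
      intro γ hγ
      have := h6 γ (Finset.mem_union_left _ hγ)
      rwa [if_neg (hF'A γ hγ)] at this
    have ht2A : ∀ γ ∈ A, t₂ γ = p γ := by
      intro γ hγ
      have := h6 γ (Finset.mem_union_right _ hγ)
      rwa [if_pos hγ] at this
    have hsub : F' ⊆ F'' \ A := by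
      intro γ hγ
      exact Finset.mem_sdiff.2 ⟨h5 (Finset.mem_union_left _ hγ), hF'A γ hγ⟩
    refine ⟨F'' \ A, t₂, h1.trans hsub, Finset.disjoint_sdiff, fun γ hγ => ?_, ?_⟩
    · rw [ht2 γ (h1 hγ), h3 γ hγ]
    · intro q hq x hx y hy hxq hyq hx2 hy2 j
      rw [Finset.mem_insert] at hq
      rcases hq with rfl | hq
      · have aux : ∀ w : Z →L[ℝ] ℝ, Mt z A q w → Mt z (↑(F'' \ A)) t₂ w → Mt z F'' t₂ w := by
          intro w hw1 hw2 γ hγ
          by_cases hγA : γ ∈ A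
          · rw [ht2A γ hγA]
            exact hw1 γ hγA
          · exact hw2 γ (Finset.mem_coe.2 (Finset.mem_sdiff.2 ⟨Finset.mem_coe.1 hγ, hγA⟩))
        exact h7 x hx y hy (aux x hxq hx2) (aux y hyq hy2) j
      · have aux : ∀ w : Z →L[ℝ] ℝ, Mt z (↑(F'' \ A)) t₂ w → Mt z F' t₁ w := fun w hw γ hγ => by
          rw [← ht2 γ (Finset.mem_coe.1 hγ)]
          exact hw γ (Finset.mem_coe.2 (hsub (Finset.mem_coe.1 hγ)))
        exact h4 q hq x hx y hy hxq hyq (aux x hx2) (aux y hy2) j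

/-- sum of absolute values of a functional -/
theorem sum_abs_apply_le {k : ℕ} (b : Fin k → Z) (C : ℝ)
    (h : ∀ σ : Fin k → ℝ, (∀ j, |σ j| ≤ 1) → ‖∑ j, σ j • b j‖ ≤ C) (x : Z →L[ℝ] ℝ) :
    ∑ j, |x (b j)| ≤ ‖x‖ * C := by
  classical
  have h2 : ∑ j, |x (b j)| = x (∑ j, sg (decide (0 ≤ x (b j))) • b j) := by
    rw [map_sum]
    refine Finset.sum_congr rfl fun j _ => ?_
    rw [map_smul, smul_eq_mul]
    by_cases h0 : 0 ≤ x (b j)
    · rw [abs_of_nonneg h0]
      simp [sg, h0]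
    · rw [abs_of_neg (not_le.1 h0)]
      simp [sg, h0]
  rw [h2]
  refine (le_abs_self _).trans ((x.le_opNorm _).trans ?_)
  exact mul_le_mul_of_nonneg_left (h _ fun j => (abs_sg _).le) (norm_nonneg _)

/-- the data of a block -/
structure Blk (z : T → Z) (E : Set (Z →L[ℝ] ℝ)) (C : ℝ) (m : ℕ) (F₁ : Finset T) (t₁ : T → Bool)
    (B : Finset T) (g : Fin m → Z) (p : Fin (m + 1) → T → Bool) : Prop where
  disj : Disjoint B F₁
  upper : ∀ a : Fin m → ℝ, (∀ i, |a i| ≤ 1) → ‖∑ i, a i • g i‖ ≤ C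
  main : ∀ i : Fin m, ∀ x ∈ E, Mt z F₁ t₁ x → Mt z B (p i.castSucc) x →
    ∀ a : Fin m → ℝ, (∀ i', |a i'| ≤ 1) → a i = 1 → 3 / 16 ≤ x (∑ i, a i • g i)
  neutral : ∀ x ∈ E, Mt z F₁ t₁ x → Mt z B (p (Fin.last m)) x →
    ∀ a : Fin m → ℝ, (∀ i', |a i'| ≤ 1) → |x (∑ i, a i • g i)| ≤ 1 / 16

/-- one block -/
theorem exists_block {z : T → Z} {M₀ : ℝ} {E : Set (Z →L[ℝ] ℝ)} (h : Irr z M₀ E)
    (hM₀ : 1 ≤ M₀) (hz : ∀ γ, ‖z γ‖ ≤ 1) {ι : Type*} {U : Ultrafilter ι}
    {s : ι → (Z →L[ℝ] ℝ) → ((Z →L[ℝ] ℝ) →₀ ℝ)} {lam : ℝ} (hs : Loc Z U s lam) (lam' : ℝ)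
    (hlam : lam < lam') (m : ℕ) :
    ∃ n : ℕ, ∀ (a : Fin n → T), Function.Injective a → ∀ (F₀ : Finset T) (t₀ : T → Bool),
      (∀ l, a l ∉ F₀) → ∃ (F' : Finset T) (t' : T → Bool) (g : Fin m → Z)
        (e : Fin (m + 1) → (Fin n → Bool)), F₀ ⊆ F' ∧ (∀ l, a l ∉ F') ∧ (∀ γ ∈ F₀, t' γ = t₀ γ) ∧
        (∀ c : Fin m → ℝ, (∀ i, |c i| ≤ 1) → ‖∑ i, c i • g i‖ ≤ lam') ∧
        (∀ i : Fin m, ∀ x ∈ E, Mt z F' t' x → (∀ l, x (z (a l)) = sg (e i.castSucc l)) →
          ∀ c : Fin m → ℝ, (∀ i', |c i'| ≤ 1) → c i = 1 → 3 / 16 ≤ x (∑ i, c i • g i)) ∧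
        (∀ x ∈ E, Mt z F' t' x → (∀ l, x (z (a l)) = sg (e (Fin.last m) l)) →
          ∀ c : Fin m → ℝ, (∀ i', |c i'| ≤ 1) → |x (∑ i, c i • g i)| ≤ 1 / 16) := by
  classical
  have hlam0 : 0 < lam' := hs.nonneg.trans_lt hlam
  obtain ⟨N, hN⟩ := extraction (max (M₀ * lam') 1) (1 / 32) (le_max_right _ _) (by norm_num) m
  refine ⟨N * N, fun a ha F₀ t₀ haF₀ => ?_⟩
  have hM0 : 0 < M₀ := by linarith
  obtain ⟨k, b, u, hb, hu, hub⟩ := exists_fac hs lam' hlam (fun l => z (a l)) (1 / (8 * M₀))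
    (by positivity)
  let A : Finset T := Finset.univ.image a
  have hAF₀ : Disjoint A F₀ := by
    rw [Finset.disjoint_left]
    intro γ hγ
    obtain ⟨l, -, rfl⟩ := Finset.mem_image.1 hγ
    exact haF₀ l
  have hA : ∀ l, a l ∈ A := fun l => Finset.mem_image_of_mem _ (Finset.mem_univ l)
  let P : (Fin (N * N) → Bool) → (T → Bool) := fun ε => Function.extend a ε fun _ => false
  have hP : ∀ ε l, P ε (a l) = ε l := fun ε l => ha.extend_apply _ _ _
  obtain ⟨F', t', h1, h2, h3, h4⟩ := h.multi b (1 / 32 / (k + 1)) (by positivity) A F₀ hAF₀ t₀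
    (Finset.univ.image P)
  have haF' : ∀ l, a l ∉ F' := fun l hl => (Finset.disjoint_left.1 h2) (hA l) hl
  -- the functionals
  choose X hX1 hX2 using fun ε : Fin (N * N) → Bool => h.onto fun γ => if γ ∈ A then P ε γ else t' γ
  have hXA : ∀ ε l, X ε (z (a l)) = sg (ε l) := by
    intro ε l
    have h5 : X ε (z (a l)) = sg (if a l ∈ A then P ε (a l) else t' (a l)) :=
      hX2 ε (a l) (Set.mem_univ _)
    rw [h5, if_pos (hA l), hP]
  have hXF : ∀ ε, Mt z F' t' (X ε) := by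
    intro ε γ hγ
    have h5 : X ε (z γ) = sg (if γ ∈ A then P ε γ else t' γ) := hX2 ε γ (Set.mem_univ _)
    have h6 : γ ∉ A := fun h' => (Finset.disjoint_left.1 h2) h' (Finset.mem_coe.1 hγ)
    rw [h5, if_neg h6]
  have hMtA : ∀ ε (x : Z →L[ℝ] ℝ), (∀ l, x (z (a l)) = sg (ε l)) → Mt z A (P ε) x := by
    intro ε x hx γ hγ
    obtain ⟨l, -, rfl⟩ := Finset.mem_image.1 (Finset.mem_coe.1 hγ)
    rw [hP]
    exact hx l
  let v : (Fin (N * N) → Bool) → Fin k → ℝ := fun ε j => X ε (b j)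
  obtain ⟨e, Q, hQ1, hQ2, hQ3⟩ := hN k v u (fun i j => (hu i j).trans (hz _)) (fun ε => by
      refine (sum_abs_apply_le b lam' hb (X ε)).trans ((mul_le_mul_of_nonneg_right
        (h.bound _ (hX1 ε)) hlam0.le).trans (le_max_left _ _))) (fun ε i => by
      have e1 : ∑ j, v ε j * u i j = X ε (∑ j, u i j • b j) := by
        rw [map_sum]
        refine Finset.sum_congr rfl fun j _ => ?_
        rw [map_smul, smul_eq_mul]
        exact mul_comm _ _
      have e2 : |X ε (∑ j, u i j • b j) - sg (ε i)| ≤ 1 / 8 := by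
        rw [← hXA ε i, ← map_sub]
        refine ((X ε).le_opNorm _).trans ?_
        calc ‖X ε‖ * ‖∑ j, u i j • b j - z (a i)‖ ≤ M₀ * (1 / (8 * M₀)) :=
              mul_le_mul (h.bound _ (hX1 ε)) (hub i) (norm_nonneg _) hM0.le
          _ = 1 / 8 := by field_simp
      rw [e1]
      have e3 := abs_le.1 e2
      cases hε : ε i
      · rw [hε] at e3
        simp only [sg] at e3 ⊢
        norm_num at e3 ⊢
        linarith [e3.2]
      · rw [hε] at e3
        simp only [sg] at e3 ⊢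
        norm_num at e3 ⊢
        linarith [e3.1])
  -- the vectors
  let χ : Fin m → Fin k → ℝ := fun i j =>
    if j ∈ Q i.castSucc then sg (decide (0 ≤ v (e i.castSucc) j)) else 0
  have hχ : ∀ i j, |χ i j| ≤ if j ∈ Q i.castSucc then 1 else 0 := by
    intro i j
    show |if j ∈ Q i.castSucc then sg (decide (0 ≤ v (e i.castSucc) j)) else 0| ≤ _
    split_ifs
    · rw [abs_sg]
    · simp
  have hcomb : ∀ c : Fin m → ℝ, (∀ i, |c i| ≤ 1) → ∀ j, |∑ i, c i * χ i j| ≤ 1 := by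
    intro c hc j
    refine (Finset.abs_sum_le_sum_abs _ _).trans ?_
    have h5 : ∀ i, |c i * χ i j| ≤ if j ∈ Q i.castSucc then 1 else 0 := by
      intro i
      rw [abs_mul]
      have := hχ i j
      have h0 := abs_nonneg (χ i j)
      have h0' := abs_nonneg (c i)
      have hci := hc i
      nlinarith
    refine (Finset.sum_le_sum fun i _ => h5 i).trans ?_
    by_cases hj : ∃ i : Fin m, j ∈ Q i.castSucc
    · obtain ⟨i, hi⟩ := hj
      rw [Finset.sum_eq_single i, if_pos hi]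
      · intro i' _ hne
        rw [if_neg]
        intro hi'
        have hne' : i'.castSucc ≠ i.castSucc := fun h => hne (Fin.castSucc_injective _ h)
        exact (Finset.disjoint_left.1 (hQ1 _ _ hne')) hi' hi
      · intro h'; exact absurd (Finset.mem_univ _) h'
    · push Not at hj
      rw [Finset.sum_eq_zero fun i _ => if_neg (hj i)]
      norm_num
  let g : Fin m → Z := fun i => ∑ j, χ i j • b j
  have hgsum : ∀ c : Fin m → ℝ, ∑ i, c i • g i = ∑ j, (∑ i, c i * χ i j) • b j := by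
    intro c
    show ∑ i, c i • ∑ j, χ i j • b j = _
    simp only [Finset.smul_sum, Finset.sum_smul, smul_smul]
    exact Finset.sum_comm
  -- near constancy
  have hnear : ∀ (i : Fin (m + 1)), ∀ x ∈ E, Mt z F' t' x → (∀ l, x (z (a l)) = sg (e i l)) →
      ∀ c : Fin m → ℝ, (∀ i', |c i'| ≤ 1) →
      |x (∑ i, c i • g i) - ∑ j, (∑ i, c i * χ i j) * v (e i) j| ≤ 1 / 32 := by
    intro i x hx hx1 hx2 c hc
    rw [hgsum, map_sum, ← Finset.sum_sub_distrib]
    refine (Finset.abs_sum_le_sum_abs _ _).trans ?_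
    have h5 : ∀ j ∈ (Finset.univ : Finset (Fin k)), |x ((∑ i, c i * χ i j) • b j) -
        (∑ i, c i * χ i j) * v (e i) j| ≤ 1 / 32 / (k + 1) := by
      intro j _
      rw [map_smul, smul_eq_mul, ← mul_sub, abs_mul]
      have h6 := h4 (P (e i)) (Finset.mem_image_of_mem _ (Finset.mem_univ _)) x hx (X (e i))
        (hX1 _) (hMtA _ x hx2) (hMtA _ _ (hXA _)) hx1 (hXF _) j
      have h7 := hcomb c hc j
      have h8 := abs_nonneg (x (b j) - v (e i) j)
      calc |∑ i, c i * χ i j| * |x (b j) - v (e i) j| ≤ 1 * |x (b j) - v (e i) j| :=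
            mul_le_mul_of_nonneg_right h7 h8
        _ ≤ _ := by rw [one_mul]; exact h6
    refine (Finset.sum_le_sum h5).trans ?_
    rw [Finset.sum_const, Finset.card_univ, Fintype.card_fin, nsmul_eq_mul, mul_div_assoc',
      div_le_iff₀ (by positivity)]
    linarith
  have hoff : ∀ (i : Fin (m + 1)) (c : Fin m → ℝ), (∀ i', |c i'| ≤ 1) →
      |∑ i' ∈ Finset.univ.filter (fun i' : Fin m => i'.castSucc ≠ i), ∑ j, c i' * χ i' j * v (e i) j| ≤
        1 / 32 := by
    intro i c hc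
    refine (Finset.abs_sum_le_sum_abs _ _).trans (le_trans ?_ (hQ3 i))
    have h5 : ∀ i' : Fin m, |∑ j, c i' * χ i' j * v (e i) j| ≤ ∑ j ∈ Q i'.castSucc, |v (e i) j| := by
      intro i'
      refine (Finset.abs_sum_le_sum_abs _ _).trans ?_
      have h6 : ∀ j, |c i' * χ i' j * v (e i) j| ≤ if j ∈ Q i'.castSucc then |v (e i) j| else 0 := by
        intro j
        rw [abs_mul, abs_mul]
        have h7 := hχ i' j
        split_ifs at h7 ⊢
        · have := hc i'
          have h8 : |c i'| * |χ i' j| ≤ 1 := mul_le_one₀ this (abs_nonneg _) h7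
          have := abs_nonneg (v (e i) j)
          nlinarith
        · have h8 : |χ i' j| = 0 := le_antisymm h7 (abs_nonneg _)
          rw [h8]
          simp
      refine (Finset.sum_le_sum fun j _ => h6 j).trans (le_of_eq ?_)
      rw [← Finset.sum_filter]
      congr 1
      ext j
      simp
    refine (Finset.sum_le_sum fun i' _ => h5 i').trans ?_
    have h9 : ∑ i' ∈ Finset.univ.filter (fun i' : Fin m => i'.castSucc ≠ i),
        ∑ j ∈ Q i'.castSucc, |v (e i) j| =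
        ∑ i'' ∈ (Finset.univ.filter (fun i' : Fin m => i'.castSucc ≠ i)).map Fin.castSuccEmb,
          ∑ j ∈ Q i'', |v (e i) j| := by
      rw [Finset.sum_map]
      rfl
    rw [h9]
    refine Finset.sum_le_sum_of_subset_of_nonneg ?_ fun _ _ _ =>
      Finset.sum_nonneg fun _ _ => abs_nonneg _
    intro i'' hi''
    obtain ⟨i', hi', rfl⟩ := Finset.mem_map.1 hi''
    exact Finset.mem_erase.2 ⟨(Finset.mem_filter.1 hi').2, Finset.mem_univ _⟩
  have hexp : ∀ (i : Fin (m + 1)) (c : Fin m → ℝ),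
      ∑ j, (∑ i', c i' * χ i' j) * v (e i) j = ∑ i', ∑ j, c i' * χ i' j * v (e i) j := by
    intro i c
    simp only [Finset.sum_mul]
    exact Finset.sum_comm
  refine ⟨F', t', g, e, h1, haF', h3, ?_, ?_, ?_⟩
  · intro c hc
    rw [hgsum]
    exact hb _ (hcomb c hc)
  · intro i x hx hx1 hx2 c hc hci
    have h5 := abs_le.1 (hnear i.castSucc x hx hx1 hx2 c hc)
    have h6 := abs_le.1 (hoff i.castSucc c hc)
    have h7 : ∑ i', ∑ j, c i' * χ i' j * v (e i.castSucc) j =
        ∑ j, c i * χ i j * v (e i.castSucc) j +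
        ∑ i' ∈ Finset.univ.filter (fun i' : Fin m => i'.castSucc ≠ i.castSucc),
          ∑ j, c i' * χ i' j * v (e i.castSucc) j := by
      have h8 : Finset.univ.filter (fun i' : Fin m => i'.castSucc ≠ i.castSucc) =
          Finset.univ.erase i := by
        ext i'
        simp
      rw [h8]
      exact (Finset.add_sum_erase _ (fun i' : Fin m => ∑ j, c i' * χ i' j * v (e i.castSucc) j)
        (Finset.mem_univ i)).symm
    have h9 : ∑ j, c i * χ i j * v (e i.castSucc) j = ∑ j ∈ Q i.castSucc, |v (e i.castSucc) j| := by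
      rw [hci]
      have h10 : ∀ j, 1 * χ i j * v (e i.castSucc) j =
          if j ∈ Q i.castSucc then |v (e i.castSucc) j| else 0 := by
        intro j
        show 1 * (if j ∈ Q i.castSucc then sg (decide (0 ≤ v (e i.castSucc) j)) else 0) *
          v (e i.castSucc) j = _
        split_ifs
        · by_cases h0 : 0 ≤ v (e i.castSucc) j
          · rw [abs_of_nonneg h0]
            simp [sg, h0]
          · rw [abs_of_neg (not_le.1 h0)]
            simp [sg, h0]
        · ring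
      rw [Finset.sum_congr rfl fun j _ => h10 j, ← Finset.sum_filter]
      congr 1
      ext j
      simp
    have h11 := hQ2 i.castSucc
    rw [hexp] at h5
    rw [h7, h9] at h5
    linarith [h5.1, h6.1]
  · intro x hx hx1 hx2 c hc
    have h5 := hnear (Fin.last m) x hx hx1 hx2 c hc
    have h6 := hoff (Fin.last m) c hc
    have h7 : Finset.univ.filter (fun i' : Fin m => i'.castSucc ≠ Fin.last m) = Finset.univ := by
      ext i'
      simp [Fin.castSucc_ne_last]
    rw [h7] at h6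
    rw [hexp] at h5
    have h8 := abs_le.1 h5
    have h9 := abs_le.1 h6
    rw [abs_le]
    constructor <;> linarith [h8.1, h8.2, h9.1, h9.2]

end

end Pool.Agent.H180
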