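import Mathlib
import Pool.Agent.H180.Block
import Pool.Agent.H180.Delta

/-!
One size of blocks: `κ` many independent blocks over a finite root, `κ` regular and uncountable.
-/

set_option autoImplicit false

open Filter Topology Set Cardinal

namespace Pool.Agent.H180

section

variable {Z : Type} [NormedAddCommGroup Z] [NormedSpace ℝ Z] {T : Type}

theorem big_two {κ : Cardinal.{0}} (hκ : ℵ₀ ≤ κ) {I : Type} (J : Set I) (hJ : κ ≤ #J) :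
    ∃ i ∈ J, ∃ j ∈ J, i ≠ j := by
  have h1 : (J : Set I).Infinite := by
    rw [← Set.infinite_coe_iff, Cardinal.infinite_iff]
    exact hκ.trans hJ
  obtain ⟨i, hi⟩ := h1.nonempty
  obtain ⟨j, hj⟩ := (h1.sdiff (Set.finite_singleton i)).nonempty
  exact ⟨i, hi, j, hj.1, fun h => hj.2 h.symm⟩

theorem exists_step {z : T → Z} {M₀ : ℝ} {E : Set (Z →L[ℝ] ℝ)} (h : Irr z M₀ E)
    (hM₀ : 1 ≤ M₀) (hz : ∀ γ, ‖z γ‖ ≤ 1) {ι : Type*} {U : Ultrafilter ι}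
    {s : ι → (Z →L[ℝ] ℝ) → ((Z →L[ℝ] ℝ) →₀ ℝ)} {lam : ℝ} (hs : Loc Z U s lam) (lam' : ℝ)
    (hlam : lam < lam') (hκ : (#T).IsRegular) (hω : ℵ₀ < #T) (m : ℕ) (F₀ : Finset T)
    (t₀ : T → Bool) :
    ∃ (F₁ : Finset T) (t₁ : T → Bool) (B : T → Finset T) (g : T → Fin m → Z)
      (p : T → Fin (m + 1) → T → Bool), F₀ ⊆ F₁ ∧ (∀ γ ∈ F₀, t₁ γ = t₀ γ) ∧
      (∀ γ, Blk z E lam' m F₁ t₁ (B γ) (g γ) (p γ)) ∧ ∀ γ γ', γ ≠ γ' → Disjoint (B γ) (B γ') := by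
  classical
  obtain ⟨n, hn⟩ := exists_block h hM₀ hz hs lam' hlam m
  -- the blocks
  have hinj : ∃ φ : T × Fin n → {γ : T // γ ∉ F₀}, Function.Injective φ := by
    have h1 : #(T × Fin n) ≤ #{γ : T // γ ∉ F₀} := by
      have h2 : #T ≤ #{γ : T // γ ∉ F₀} := by
        have := diff_big hκ.aleph0_le (univ : Set T) (F₀ : Set T) (by rw [Cardinal.mk_univ])
          (finset_small hκ.aleph0_le F₀)
        refine this.trans (Cardinal.mk_le_of_injective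
          (f := fun γ : ((univ : Set T) \ (F₀ : Set T) : Set T) =>
            (⟨γ.1, fun hc => γ.2.2 hc⟩ : {γ : T // γ ∉ F₀})) ?_)
        intro a b hab
        exact Subtype.ext (congrArg (fun x : {γ : T // γ ∉ F₀} => x.1) hab)
      rw [Cardinal.mk_prod, Cardinal.lift_id, Cardinal.lift_id, Cardinal.mk_fin]
      refine (Cardinal.mul_le_max _ _).trans ?_
      refine max_le (max_le h2 ?_) (hκ.aleph0_le.trans h2)
      exact ((Cardinal.natCast_lt_aleph0).le.trans hκ.aleph0_le).trans h2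
    obtain ⟨f⟩ := Cardinal.le_def _ _ |>.1 h1
    exact ⟨f, f.injective⟩
  obtain ⟨φ, hφ⟩ := hinj
  let a : T → Fin n → T := fun γ l => (φ (γ, l)).1
  have ha : ∀ γ γ' l l', a γ l = a γ' l' → γ = γ' ∧ l = l' := by
    intro γ γ' l l' h1
    have := hφ (Subtype.ext h1)
    exact Prod.mk.inj this
  have ha0 : ∀ γ l, a γ l ∉ F₀ := fun γ l => (φ (γ, l)).2
  choose F' t' g e hF0 haF' ht' hup hmain hneu using fun γ => hn (a γ)
    (fun l l' hll => (ha γ γ l l' hll).2) F₀ t₀ (ha0 γ)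
  let A : T → Finset T := fun γ => Finset.univ.image (a γ)
  have hA : ∀ γ l, a γ l ∈ A γ := fun γ l => Finset.mem_image_of_mem _ (Finset.mem_univ l)
  have hAF' : ∀ γ, ∀ τ ∈ F' γ, τ ∉ A γ := by
    intro γ τ hτ hτA
    obtain ⟨l, -, rfl⟩ := Finset.mem_image.1 hτA
    exact haF' γ l hτ
  obtain ⟨J₁, R, -, hJ₁, hR1, hR2⟩ := delta_system hκ hω (fun γ => F' γ ∪ A γ) univ
    (by rw [Cardinal.mk_univ])
  -- remove the blocks which meet the root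
  have hD : #({γ : T | ∃ l, a γ l ∈ R} : Set T) < #T := by
    have h1 : ({γ : T | ∃ l, a γ l ∈ R} : Set T).Finite := by
      refine Set.Finite.subset ((R.finite_toSet.preimage
        (f := fun q : T × Fin n => a q.1 q.2) ?_).image Prod.fst) ?_
      · intro q _ q' _ hqq
        exact Prod.ext (ha _ _ _ _ hqq).1 (ha _ _ _ _ hqq).2
      · rintro γ ⟨l, hl⟩
        exact ⟨(γ, l), hl, rfl⟩
    exact (Cardinal.lt_aleph0_iff_finite.2 h1).trans_le hκ.aleph0_le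
  have hJ₂ := diff_big hκ.aleph0_le J₁ _ hJ₁ hD
  obtain ⟨τ₀, hJ₃⟩ := pigeon hκ _ hJ₂ (fun γ => fun r : R => t' γ r) (by
    refine lt_of_lt_of_le (Cardinal.lt_aleph0_of_finite _) hκ.aleph0_le)
  set J₃ : Set T := {γ ∈ J₁ \ {γ | ∃ l, a γ l ∈ R} | (fun r : R => t' γ r) = τ₀} with hJ₃def
  obtain ⟨ψ⟩ := Cardinal.le_def _ _ |>.1 hJ₃
  have hψ1 : ∀ γ, (ψ γ : T) ∈ J₁ := fun γ => (ψ γ).2.1.1
  have hψ2 : ∀ γ l, a (ψ γ) l ∉ R := fun γ l hl => (ψ γ).2.1.2 ⟨l, hl⟩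
  have hψ3 : ∀ γ, (fun r : R => t' (ψ γ) r) = τ₀ := fun γ => (ψ γ).2.2
  have hF₀R : F₀ ⊆ R := by
    obtain ⟨i, hi, j, hj, hij⟩ := big_two hκ.aleph0_le J₃ hJ₃
    intro τ hτ
    exact hR2 i hi.1.1 j hj.1.1 hij τ (Finset.mem_union_left _ (hF0 i hτ))
      (Finset.mem_union_left _ (hF0 j hτ))
  have hne : Nonempty T := by
    by_contra hcon
    rw [not_nonempty_iff] at hcon
    rw [Cardinal.mk_eq_zero] at hω
    exact absurd hω (by simp)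
  obtain ⟨γ₀⟩ := hne
  have hagree : ∀ γ, ∀ τ ∈ R, t' (ψ γ) τ = t' (ψ γ₀) τ := by
    intro γ τ hτ
    have h1 := congrFun (hψ3 γ) ⟨τ, hτ⟩
    have h2 := congrFun (hψ3 γ₀) ⟨τ, hτ⟩
    exact h1.trans h2.symm
  have hmatch : ∀ γ (i : Fin (m + 1)) (x : Z →L[ℝ] ℝ), Mt z R (t' (ψ γ₀)) x →
      Mt z ((F' (ψ γ) ∪ A (ψ γ)) \ R : Finset T) (fun τ => if τ ∈ A (ψ γ) then
        Function.extend (a (ψ γ)) (e (ψ γ) i) (fun _ => false) τ else t' (ψ γ) τ) x →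
      Mt z (F' (ψ γ)) (t' (ψ γ)) x ∧ ∀ l, x (z (a (ψ γ) l)) = sg (e (ψ γ) i l) := by
    intro γ i x hx1 hx2
    refine ⟨fun τ hτ => ?_, fun l => ?_⟩
    · by_cases hτR : τ ∈ R
      · rw [hagree γ τ hτR]
        exact hx1 τ hτR
      · have h1 : x (z τ) = sg (if τ ∈ A (ψ γ) then
            Function.extend (a (ψ γ)) (e (ψ γ) i) (fun _ => false) τ else t' (ψ γ) τ) :=
          hx2 τ (Finset.mem_coe.2 (Finset.mem_sdiff.2
            ⟨Finset.mem_union_left _ (Finset.mem_coe.1 hτ), hτR⟩))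
        rw [h1, if_neg (hAF' _ τ (Finset.mem_coe.1 hτ))]
    · have h1 : x (z (a (ψ γ) l)) = sg (if a (ψ γ) l ∈ A (ψ γ) then
          Function.extend (a (ψ γ)) (e (ψ γ) i) (fun _ => false) (a (ψ γ) l)
          else t' (ψ γ) (a (ψ γ) l)) :=
        hx2 _ (Finset.mem_coe.2 (Finset.mem_sdiff.2
          ⟨Finset.mem_union_right _ (hA _ l), hψ2 γ l⟩))
      have h2 : Function.Injective (a (ψ γ)) := fun l l' hll => (ha _ _ l l' hll).2
      rw [h1, if_pos (hA _ l), h2.extend_apply]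
  refine ⟨R, t' (ψ γ₀), fun γ => (F' (ψ γ) ∪ A (ψ γ)) \ R, fun γ => g (ψ γ), fun γ i τ =>
    if τ ∈ A (ψ γ) then Function.extend (a (ψ γ)) (e (ψ γ) i) (fun _ => false) τ
      else t' (ψ γ) τ, hF₀R, fun γ hγ => ht' _ γ hγ, fun γ => ⟨Finset.sdiff_disjoint, hup _, ?_, ?_⟩,
    ?_⟩
  · intro i x hx hx1 hx2 c hc hci
    obtain ⟨h1, h2⟩ := hmatch γ i.castSucc x hx1 hx2
    exact hmain (ψ γ) i x hx h1 h2 c hc hci
  · intro x hx hx1 hx2 c hc
    obtain ⟨h1, h2⟩ := hmatch γ (Fin.last m) x hx1 hx2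
    exact hneu (ψ γ) x hx h1 h2 c hc
  · intro γ γ' hγγ'
    have hne' : (ψ γ : T) ≠ ψ γ' := fun hc => hγγ' (ψ.injective (Subtype.ext hc))
    rw [Finset.disjoint_left]
    intro τ hτ hτ'
    rw [Finset.mem_sdiff] at hτ hτ'
    exact hτ.2 (hR2 _ (hψ1 γ) _ (hψ1 γ') hne' τ hτ.1 hτ'.1)

end

end Pool.Agent.H180
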