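import Mathlib
import Pool.Agent.H180.Step
import Pool.Agent.H180.Sel
import Pool.Agent.H180.Plus

/-!
`ℓ₁(κ)` in the predual of an `𝓛₁`-space, `κ` regular and uncountable, gives the `ℓ₁`-sum of finite blocks.
-/

set_option autoImplicit false

open Filter Topology Set Cardinal
open scoped Classical

namespace Pool.Agent.H180

section

variable {Z : Type} [NormedAddCommGroup Z] [NormedSpace ℝ Z] {T : Type}

theorem hasG_of_irr {z : T → Z} {M₀ : ℝ} {E : Set (Z →L[ℝ] ℝ)} (h : Irr z M₀ E)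
    (hM₀ : 1 ≤ M₀) (hz : ∀ γ, ‖z γ‖ ≤ 1) {ι : Type*} {U : Ultrafilter ι}
    {s : ι → (Z →L[ℝ] ℝ) → ((Z →L[ℝ] ℝ) →₀ ℝ)} {lam : ℝ} (hs : Loc Z U s lam)
    (hκ : (#T).IsRegular) (hω : ℵ₀ < #T) : HasG Z T := by
  choose F₁ t₁ B g p hF ht hB hd using fun m F₀ t₀ =>
    exists_step h hM₀ hz hs (lam + 1) (by linarith) hκ hω (2 ^ m) F₀ t₀
  -- the roots
  let st : ℕ → Finset T × (T → Bool) := fun m =>
    Nat.rec (∅, fun _ => false) (fun m q => (F₁ m q.1 q.2, t₁ m q.1 q.2)) m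
  have hst : ∀ m, st (m + 1) = (F₁ m (st m).1 (st m).2, t₁ m (st m).1 (st m).2) := fun m => rfl
  have hmono1 : ∀ m, (st m).1 ⊆ (st (m + 1)).1 := fun m => hF m _ _
  have hmono : ∀ m m', m ≤ m' → (st m).1 ⊆ (st m').1 ∧ ∀ γ ∈ (st m).1, (st m').2 γ = (st m).2 γ := by
    intro m m' hmm
    induction m', hmm using Nat.le_induction with
    | base => exact ⟨le_refl _, fun _ _ => rfl⟩
    | succ m' _ ih =>
      refine ⟨ih.1.trans (hmono1 m'), fun γ hγ => ?_⟩
      rw [← ih.2 γ hγ]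
      exact ht m' _ _ γ (ih.1 hγ)
  let Fi : Set T := ⋃ m, ((st m).1 : Set T)
  have hFi : #Fi < #T := by
    refine lt_of_le_of_lt ?_ hω
    rw [Cardinal.le_aleph0_iff_set_countable]
    exact Set.countable_iUnion fun m => (st m).1.countable_toSet
  let ti : T → Bool := fun γ => if hγ : ∃ m, γ ∈ (st m).1 then (st (Nat.find hγ)).2 γ else false
  have hti : ∀ m, ∀ γ ∈ (st m).1, ti γ = (st m).2 γ := by
    intro m γ hγ
    have hex : ∃ m, γ ∈ (st m).1 := ⟨m, hγ⟩
    show (if hγ : ∃ m, γ ∈ (st m).1 then (st (Nat.find hγ)).2 γ else false) = _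
    rw [dif_pos hex]
    exact ((hmono _ m (Nat.find_min' hex hγ)).2 γ (Nat.find_spec hex)).symm
  -- selection
  have hI : #(Finset T) ≤ #T := by
    have : Infinite T := Cardinal.infinite_iff.2 hκ.aleph0_le
    rw [Cardinal.mk_finset_of_infinite]
  obtain ⟨σ, hσ1, hσ2⟩ := exists_select' hκ hI Fi hFi
    (fun F γ => B F.card (st F.card).1 (st F.card).2 γ) (fun F => hd _ _ _)
  let BB : Finset T → Finset T := fun F => B F.card (st F.card).1 (st F.card).2 (σ F)
  have hblk : ∀ F : Finset T, Blk z E (lam + 1) (2 ^ F.card) (st (F.card + 1)).1 (st (F.card + 1)).2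
      (BB F) (g F.card (st F.card).1 (st F.card).2 (σ F))
      (p F.card (st F.card).1 (st F.card).2 (σ F)) := fun F => hB _ _ _ _
  have hBB1 : ∀ F, ∀ τ ∈ BB F, τ ∉ Fi := hσ1
  have hBB2 : ∀ F F', F ≠ F' → Disjoint (BB F) (BB F') := hσ2
  have hcard : ∀ F : Finset T, Fintype.card (F → Bool) = 2 ^ F.card := by
    intro F
    rw [Fintype.card_fun, Fintype.card_bool, Fintype.card_coe]
  let en : ∀ F : Finset T, (F → Bool) ≃ Fin (2 ^ F.card) := fun F => Fintype.equivFinOfCardEq (hcard F)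
  let G : ∀ F : Finset T, (F → Bool) → Z := fun F r =>
    g F.card (st F.card).1 (st F.card).2 (σ F) (en F r)
  let pp : ∀ F : Finset T, Fin (2 ^ F.card + 1) → T → Bool := fun F =>
    p F.card (st F.card).1 (st F.card).2 (σ F)
  have hGsum : ∀ (F : Finset T) (a : (F → Bool) → ℝ), ∑ r, a r • G F r =
      ∑ i, a ((en F).symm i) • g F.card (st F.card).1 (st F.card).2 (σ F) i := by
    intro F a
    rw [← Equiv.sum_comp (en F)]
    exact Finset.sum_congr rfl fun r _ => by rw [Equiv.symm_apply_apply]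
  -- functionals with prescribed patterns
  have hpat : ∀ j : ∀ F : Finset T, Fin (2 ^ F.card + 1), ∃ x ∈ E, ∀ F : Finset T,
      Mt z (st (F.card + 1)).1 (st (F.card + 1)).2 x ∧ Mt z (BB F) (pp F (j F)) x := by
    intro j
    obtain ⟨x, hx1, hx2⟩ := h.onto fun τ => if τ ∈ Fi then ti τ else
      if hτ : ∃ F, τ ∈ BB F then pp hτ.choose (j hτ.choose) τ else false
    refine ⟨x, hx1, fun F => ⟨fun τ hτ => ?_, fun τ hτ => ?_⟩⟩
    · have h1 : x (z τ) = sg (if τ ∈ Fi then ti τ else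
        if hτ : ∃ F, τ ∈ BB F then pp hτ.choose (j hτ.choose) τ else false) := hx2 τ (Set.mem_univ _)
      have h2 : τ ∈ Fi := Set.mem_iUnion.2 ⟨F.card + 1, hτ⟩
      rw [h1, if_pos h2, hti (F.card + 1) τ (Finset.mem_coe.1 hτ)]
    · have h1 : x (z τ) = sg (if τ ∈ Fi then ti τ else
        if hτ : ∃ F, τ ∈ BB F then pp hτ.choose (j hτ.choose) τ else false) := hx2 τ (Set.mem_univ _)
      have hτ' : τ ∈ BB F := Finset.mem_coe.1 hτ
      have h2 : ∃ F, τ ∈ BB F := ⟨F, hτ'⟩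
      have h3 : h2.choose = F := by
        by_contra hne
        exact (Finset.disjoint_left.1 (hBB2 _ _ hne)) h2.choose_spec hτ'
      rw [h1, if_neg (hBB1 F τ hτ'), dif_pos h2, h3]
  -- the core estimate
  have core : ∀ (𝓕 𝓖 : Finset (Finset T)) (a : ∀ F : Finset T, (F → Bool) → ℝ)
      (r : ∀ F : Finset T, F → Bool) (α : Finset T → ℝ), 𝓖 ⊆ 𝓕 → (∀ F r', |a F r'| ≤ α F) →
      (∀ F ∈ 𝓖, a F (r F) = α F) →
      3 / 16 * ∑ F ∈ 𝓖, α F - 1 / 16 * ∑ F ∈ 𝓕 \ 𝓖, α F ≤
        M₀ * ‖∑ F ∈ 𝓕, ∑ r', a F r' • G F r'‖ := by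
    intro 𝓕 𝓖 a r α h𝓖 hα hr
    have hα0 : ∀ F, 0 ≤ α F := fun F => (abs_nonneg _).trans (hα F (r F))
    obtain ⟨x, hxE, hx⟩ := hpat fun F => if F ∈ 𝓖 then (en F (r F)).castSucc else Fin.last _
    have hb1 : ∀ F ∈ 𝓖, 3 / 16 * α F ≤ x (∑ r', a F r' • G F r') := by
      intro F hF𝓖
      obtain ⟨h1, h2⟩ := hx F
      rw [if_pos hF𝓖] at h2
      rcases (hα0 F).eq_or_lt with h0 | h0
      · have h3 : ∀ r', a F r' = 0 := fun r' => by
          have := hα F r'
          rw [← h0] at this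
          exact abs_eq_zero.1 (le_antisymm this (abs_nonneg _))
        simp only [h3, zero_smul, Finset.sum_const_zero, map_zero]
        rw [← h0]
        norm_num
      · have h4 := (hblk F).main (en F (r F)) x hxE h1 h2
          (fun i => a F ((en F).symm i) / α F) (fun i => by
            rw [abs_div, abs_of_pos h0, div_le_one h0]
            exact hα F _) (by
            show a F ((en F).symm (en F (r F))) / α F = 1
            rw [Equiv.symm_apply_apply, hr F hF𝓖, div_self h0.ne'])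
        have h5 : ∑ r', a F r' • G F r' = α F • ∑ i, (a F ((en F).symm i) / α F) •
            g F.card (st F.card).1 (st F.card).2 (σ F) i := by
          rw [hGsum, Finset.smul_sum]
          refine Finset.sum_congr rfl fun i _ => ?_
          rw [smul_smul, mul_div_cancel₀ _ h0.ne']
        rw [h5, map_smul, smul_eq_mul, mul_comm]
        exact mul_le_mul_of_nonneg_left h4 h0.le
    have hb2 : ∀ F, F ∉ 𝓖 → -(1 / 16 * α F) ≤ x (∑ r', a F r' • G F r') := by
      intro F hF𝓖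
      obtain ⟨h1, h2⟩ := hx F
      rw [if_neg hF𝓖] at h2
      rcases (hα0 F).eq_or_lt with h0 | h0
      · have h3 : ∀ r', a F r' = 0 := fun r' => by
          have := hα F r'
          rw [← h0] at this
          exact abs_eq_zero.1 (le_antisymm this (abs_nonneg _))
        simp only [h3, zero_smul, Finset.sum_const_zero, map_zero]
        rw [← h0]
        norm_num
      · have h4 := (hblk F).neutral x hxE h1 h2
          (fun i => a F ((en F).symm i) / α F) (fun i => by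
            rw [abs_div, abs_of_pos h0, div_le_one h0]
            exact hα F _)
        have h5 : ∑ r', a F r' • G F r' = α F • ∑ i, (a F ((en F).symm i) / α F) •
            g F.card (st F.card).1 (st F.card).2 (σ F) i := by
          rw [hGsum, Finset.smul_sum]
          refine Finset.sum_congr rfl fun i _ => ?_
          rw [smul_smul, mul_div_cancel₀ _ h0.ne']
        rw [h5, map_smul, smul_eq_mul]
        have h6 := (abs_le.1 h4).1
        nlinarith
    have h1 : x (∑ F ∈ 𝓕, ∑ r', a F r' • G F r') ≤ M₀ * ‖∑ F ∈ 𝓕, ∑ r', a F r' • G F r'‖ :=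
      (le_abs_self _).trans ((x.le_opNorm _).trans
        (mul_le_mul_of_nonneg_right (h.bound x hxE) (norm_nonneg _)))
    refine le_trans ?_ h1
    rw [map_sum, ← Finset.sum_sdiff h𝓖, Finset.mul_sum, Finset.mul_sum, sub_eq_neg_add,
      ← Finset.sum_neg_distrib]
    exact add_le_add (Finset.sum_le_sum fun F hF => hb2 F (Finset.mem_sdiff.1 hF).2)
      (Finset.sum_le_sum fun F hF => hb1 F hF)
  refine ⟨G, lam + 1, 16 * M₀, ?_, by linarith, ?_⟩
  · intro F a ha
    rw [hGsum]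
    exact (hblk F).upper _ fun i => ha _
  · intro t a
    let 𝓕 : Finset (Finset T) := a.support.image Sigma.fst
    have hsub : a.support ⊆ 𝓕.sigma fun _ => Finset.univ := by
      intro i hi
      rw [Finset.mem_sigma]
      exact ⟨Finset.mem_image_of_mem _ hi, Finset.mem_univ _⟩
    have e1 : (a.sum fun i b => b * cyl i.2 t) = ∑ F ∈ 𝓕, a ⟨F, pr F t⟩ := by
      rw [Finsupp.sum_of_support_subset a hsub (fun i b => b * cyl i.2 t)
        (fun i _ => zero_mul _), Finset.sum_sigma]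
      refine Finset.sum_congr rfl fun F _ => ?_
      show ∑ r : F → Bool, a ⟨F, r⟩ * cyl r t = _
      rw [Finset.sum_eq_single (pr F t)]
      · rw [cyl_apply, if_pos rfl, mul_one]
      · intro r _ hr
        rw [cyl_apply, if_neg (Ne.symm hr), mul_zero]
      · intro h'; exact absurd (Finset.mem_univ _) h'
    have e2 : (a.sum fun i b => b • G i.1 i.2) = ∑ F ∈ 𝓕, ∑ r, a ⟨F, r⟩ • G F r := by
      rw [Finsupp.sum_of_support_subset a hsub (fun i b => b • G i.1 i.2)
        (fun i _ => zero_smul ℝ _), Finset.sum_sigma]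
    have hmax : ∀ F : Finset T, ∃ r : F → Bool, ∀ r' : F → Bool, |a ⟨F, r'⟩| ≤ |a ⟨F, r⟩| := fun F =>
      Finite.exists_max fun r : F → Bool => |a ⟨F, r⟩|
    choose r hr using hmax
    let α : Finset T → ℝ := fun F => |a ⟨F, r F⟩|
    have h1 := core 𝓕 (𝓕.filter fun F => 0 ≤ a ⟨F, r F⟩) (fun F r' => a ⟨F, r'⟩) r α
      (Finset.filter_subset _ _) (fun F r' => hr F r')
      (fun F hF => (abs_of_nonneg (Finset.mem_filter.1 hF).2).symm)
    have h2 := core 𝓕 (𝓕.filter fun F => ¬ 0 ≤ a ⟨F, r F⟩) (fun F r' => -a ⟨F, r'⟩) r α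
      (Finset.filter_subset _ _) (fun F r' => by rw [abs_neg]; exact hr F r')
      (fun F hF => (abs_of_neg (not_le.1 (Finset.mem_filter.1 hF).2)).symm)
    have e3 : ∑ F ∈ 𝓕, ∑ r', (fun F r' => -a ⟨F, r'⟩) F r' • G F r' =
        -∑ F ∈ 𝓕, ∑ r, a ⟨F, r⟩ • G F r := by
      simp only [neg_smul, Finset.sum_neg_distrib]
    rw [e3, norm_neg] at h2
    have e4 : 𝓕 \ (𝓕.filter fun F => 0 ≤ a ⟨F, r F⟩) = 𝓕.filter fun F => ¬ 0 ≤ a ⟨F, r F⟩ := by
      ext F
      simp only [Finset.mem_sdiff, Finset.mem_filter]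
      tauto
    have e5 : 𝓕 \ (𝓕.filter fun F => ¬ 0 ≤ a ⟨F, r F⟩) = 𝓕.filter fun F => 0 ≤ a ⟨F, r F⟩ := by
      ext F
      simp only [Finset.mem_sdiff, Finset.mem_filter]
      tauto
    rw [e4] at h1
    rw [e5] at h2
    have e6 : ∑ F ∈ 𝓕, α F = ∑ F ∈ 𝓕.filter (fun F => 0 ≤ a ⟨F, r F⟩), α F +
        ∑ F ∈ 𝓕.filter (fun F => ¬ 0 ≤ a ⟨F, r F⟩), α F :=
      (Finset.sum_filter_add_sum_filter_not _ _ _).symm
    have h3 : |∑ F ∈ 𝓕, a ⟨F, pr F t⟩| ≤ ∑ F ∈ 𝓕, α F :=
      (Finset.abs_sum_le_sum_abs _ _).trans (Finset.sum_le_sum fun F _ => hr F _)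
    rw [e1, e2]
    linarith

end

end Pool.Agent.H180
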