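import Mathlib
import Pool.Agent.H180.Delta

/-!
Boolean independence from measures of large type: sigma-algebras generated by few functions.
-/

set_option autoImplicit false

open Filter Topology Set MeasureTheory Cardinal
open scoped Classical ENNReal

namespace Pool.Agent.H180

section

variable {K Z : Type} (L : Z → K → ℝ)

/-- generators -/
def gens (N : Set Z) : Set (Set K) := {A | ∃ z ∈ N, ∃ q : ℚ, A = {x | L z x < q}}

/-- the sigma-algebra generated by the functions in `N` -/
abbrev sgm (N : Set Z) : MeasurableSpace K := MeasurableSpace.generateFrom (gens L N)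

variable {L}

theorem sgm_mono {N N' : Set Z} (h : N ⊆ N') : sgm L N ≤ sgm L N' := by
  refine MeasurableSpace.generateFrom_mono ?_
  rintro _ ⟨z, hz, q, rfl⟩
  exact ⟨z, h hz, q, rfl⟩

theorem sgm_le [MeasurableSpace K] (hL : ∀ z, Measurable (L z)) (N : Set Z) :
    sgm L N ≤ ‹MeasurableSpace K› := by
  refine MeasurableSpace.generateFrom_le ?_
  rintro _ ⟨z, hz, q, rfl⟩
  exact measurableSet_lt (hL z) measurable_const

theorem measurableSet_lt_sgm {N : Set Z} {z : Z} (hz : z ∈ N) (q : ℚ) :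
    MeasurableSet[sgm L N] {x | L z x < q} :=
  MeasurableSpace.measurableSet_generateFrom ⟨z, hz, q, rfl⟩

/-- measurable sets have countable supports -/
theorem exists_countable_support {N : Set Z} {A : Set K} (hA : MeasurableSet[sgm L N] A) :
    ∃ C ⊆ N, C.Countable ∧ MeasurableSet[sgm L C] A := by
  refine MeasurableSpace.generateFrom_induction (gens L N)
    (fun A _ => ∃ C ⊆ N, C.Countable ∧ MeasurableSet[sgm L C] A) ?_ ?_ ?_ ?_ A hA
  · rintro _ ⟨z, hz, q, rfl⟩ -
    exact ⟨{z}, by simpa using hz, Set.countable_singleton z, measurableSet_lt_sgm (by simp) q⟩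
  · exact ⟨∅, Set.empty_subset _, Set.countable_empty, @MeasurableSet.empty K (sgm L ∅)⟩
  · rintro t ht ⟨C, h1, h2, h3⟩
    exact ⟨C, h1, h2, h3.compl⟩
  · intro s hs h
    choose C h1 h2 h3 using h
    refine ⟨⋃ n, C n, Set.iUnion_subset h1, Set.countable_iUnion h2, ?_⟩
    exact MeasurableSet.iUnion fun n => sgm_mono (Set.subset_iUnion C n) _ (h3 n)

theorem card_sgm {κ : Cardinal.{0}} (hκ : κ.IsRegular) (hpow : ∀ ν < κ, ν ^ ℵ₀ < κ)
    {N : Set Z} (hN : #N < κ) : #{A : Set K | MeasurableSet[sgm L N] A} < κ := by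
  have h2 : (2 : Cardinal) < κ := lt_of_lt_of_le (Cardinal.natCast_lt_aleph0) hκ.aleph0_le
  have h1 : #(gens L N) < κ := by
    have h3 : gens L N ⊆ ⋃ p ∈ N, Set.range fun q : ℚ => {x | L p x < q} := by
      rintro _ ⟨z, hz, q, rfl⟩
      exact Set.mem_biUnion hz ⟨q, rfl⟩
    refine (Cardinal.mk_le_mk_of_subset h3).trans_lt ?_
    refine small_biUnion hκ _ _ hN fun z _ => ?_
    refine (Cardinal.mk_range_le).trans_lt ?_
    have h4 : #ℚ ≤ 2 ^ ℵ₀ := by
      rw [Cardinal.mkRat]
      exact (Cardinal.cantor ℵ₀).le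
    exact h4.trans_lt (hpow 2 h2)
  have h5 := MeasurableSpace.cardinal_measurableSet_le (gens L N)
  refine h5.trans_lt (hpow _ (max_lt h1 h2))

variable [MeasurableSpace K] (μ : Measure K) (L)

/-- the function `z` splits the subsets of `E` -/
def Pr (E : Set K) (r s : ℚ) (N : Set Z) (z : Z) : Prop :=
  ∀ A, MeasurableSet[sgm L N] A → A ⊆ E → 0 < μ A →
    0 < μ (A ∩ {x | L z x < r}) ∧ 0 < μ (A ∩ {x | L z x < s}ᶜ)

theorem Pr.mono {μ : Measure K} {L : Z → K → ℝ} {E : Set K} {r s : ℚ} {N N' : Set Z} {z : Z}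
    (h : Pr L μ E r s N' z) (hN : N ⊆ N') : Pr L μ E r s N z :=
  fun A hA => h A (sgm_mono hN A hA)

/-- the function `z` is almost measurable -/
def AM (N : Set Z) (z : Z) : Prop :=
  ∀ q : ℚ, ∃ B, MeasurableSet[sgm L N] B ∧ {x | L z x < q} =ᵐ[μ] B

variable {L μ} [IsFiniteMeasure μ]

theorem exists_Pr (hL : ∀ z, Measurable (L z)) (N : Set Z) (z : Z) (hz : ¬ AM L μ N z) :
    ∃ (E : Set K) (r s : ℚ), r < s ∧ MeasurableSet[sgm L N] E ∧ 0 < μ E ∧ Pr L μ E r s N z := by
  by_contra hcon
  push Not at hcon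
  apply hz
  have hm := sgm_le hL N
  let f : ℚ → K → ℝ := fun q => Set.indicator {x | L z x < q} (fun _ => (1 : ℝ))
  let p : ℚ → K → ℝ := fun q => μ[f q | sgm L N]
  have hS : ∀ q : ℚ, MeasurableSet {x | L z x < q} := fun q =>
    measurableSet_lt (hL z) measurable_const
  have hf : ∀ q, Integrable (f q) μ := fun q => (integrable_const (1 : ℝ)).indicator (hS q)
  have hpm : ∀ q, Measurable[sgm L N] (p q) := fun q => stronglyMeasurable_condExp.measurable
  have hp0 : ∀ q, 0 ≤ᵐ[μ] p q := fun q => condExp_nonneg (Filter.Eventually.of_forall fun x =>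
    Set.indicator_nonneg (fun _ _ => zero_le_one) x)
  have hp1 : ∀ q, p q ≤ᵐ[μ] fun _ => 1 := by
    intro q
    have h1 : p q ≤ᵐ[μ] μ[fun _ => (1 : ℝ) | sgm L N] :=
      condExp_mono (hf q) (integrable_const _) (Filter.Eventually.of_forall fun x =>
        Set.indicator_le_self' (fun _ _ => zero_le_one) x)
    rwa [condExp_const hm] at h1
  have hint : ∀ q A, MeasurableSet[sgm L N] A → ∫ x in A, p q x ∂μ = μ.real (A ∩ {x | L z x < q}) := by
    intro q A hA
    rw [setIntegral_condExp hm (hf q) hA, setIntegral_indicator (hS q), setIntegral_const,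
      smul_eq_mul, mul_one]
  have hint1 : ∀ q A, MeasurableSet[sgm L N] A →
      ∫ x in A, (1 - p q x) ∂μ = μ.real (A ∩ {x | L z x < q}ᶜ) := by
    intro q A hA
    rw [integral_sub (integrable_const _) integrable_condExp.integrableOn, hint q A hA,
      setIntegral_const, smul_eq_mul, mul_one, ← measureReal_inter_add_sdiff (s := A) (hS q)]
    rw [Set.sdiff_eq]
    ring
  have hposlem : ∀ (u : K → ℝ), 0 ≤ᵐ[μ] u → Integrable u μ → ∀ A : Set K, MeasurableSet A →
      (∀ x ∈ A, u x ≠ 0) → 0 < μ A → 0 < ∫ x in A, u x ∂μ := by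
    intro u hu hui A hA hne hpos
    rw [setIntegral_pos_iff_support_of_nonneg_ae (ae_restrict_of_ae hu) hui.integrableOn]
    refine hpos.trans_le (measure_mono fun x hx => ⟨hne x hx, hx⟩)
  have key : ∀ r s : ℚ, r < s → ∀ᵐ x ∂μ, p r x = 0 ∨ p s x = 1 := by
    intro r s hrs
    set E : Set K := {x | p r x ≠ 0} ∩ {x | p s x ≠ 1} with hE
    have hEm : MeasurableSet[sgm L N] E := by
      refine MeasurableSet.inter ?_ ?_
      · exact (hpm r (measurableSet_singleton (0 : ℝ))).compl
      · exact (hpm s (measurableSet_singleton (1 : ℝ))).compl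
    by_contra hc
    have hE0 : 0 < μ E := by
      rw [pos_iff_ne_zero]
      intro h0
      apply hc
      rw [ae_iff]
      convert h0 using 2
      ext x
      simp only [Set.mem_ofPred_eq, not_or, hE, mem_inter_iff]
    refine hcon E r s hrs hEm hE0 fun A hA hAE hA0 => ⟨?_, ?_⟩
    · have h1 := hposlem (p r) (hp0 r) integrable_condExp A (hm A hA) (fun x hx => (hAE hx).1) hA0
      rw [hint r A hA] at h1
      exact (ENNReal.toReal_pos_iff.1 h1).1
    · have h1 := hposlem (fun x => 1 - p s x) (by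
        filter_upwards [hp1 s] with x hx
        show (0 : ℝ) ≤ 1 - p s x
        linarith) ((integrable_const _).sub integrable_condExp) A (hm A hA)
        (fun x hx => by
          have := (hAE hx).2
          intro h
          apply this
          show p s x = 1
          linarith) hA0
      rw [hint1 s A hA] at h1
      exact (ENNReal.toReal_pos_iff.1 h1).1
  -- the level sets
  have hlow : ∀ q : ℚ, ∀ᵐ x ∂μ, p q x = 0 → ¬ L z x < q := by
    intro q
    have hms : MeasurableSet[sgm L N] {x | p q x = 0} := hpm q (measurableSet_singleton (0 : ℝ))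
    have h1 : μ.real ({x | p q x = 0} ∩ {x | L z x < q}) = 0 := by
      rw [← hint q _ hms]
      refine setIntegral_eq_zero_of_forall_eq_zero fun x hx => hx
    have h2 : μ ({x | p q x = 0} ∩ {x | L z x < q}) = 0 :=
      (measureReal_eq_zero_iff).1 h1
    rw [ae_iff]
    convert h2 using 2
    ext x
    simp only [Set.mem_ofPred_eq, Classical.not_imp, not_not, mem_inter_iff]
  have hhigh : ∀ q : ℚ, ∀ᵐ x ∂μ, p q x = 1 → L z x < q := by
    intro q
    have hms : MeasurableSet[sgm L N] {x | p q x = 1} := hpm q (measurableSet_singleton (1 : ℝ))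
    have h1 : μ.real ({x | p q x = 1} ∩ {x | L z x < q}ᶜ) = 0 := by
      rw [← hint1 q _ hms]
      refine setIntegral_eq_zero_of_forall_eq_zero fun x hx => ?_
      have : p q x = 1 := hx
      rw [this, sub_self]
    have h2 : μ ({x | p q x = 1} ∩ {x | L z x < q}ᶜ) = 0 :=
      (measureReal_eq_zero_iff).1 h1
    rw [ae_iff]
    convert h2 using 2
    ext x
    simp only [Set.mem_ofPred_eq, Classical.not_imp, mem_inter_iff, mem_compl_iff]
  have hall1 : ∀ᵐ x ∂μ, ∀ q : ℚ, p q x = 0 → ¬ L z x < q := ae_all_iff.2 hlow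
  have hall2 : ∀ᵐ x ∂μ, ∀ q : ℚ, p q x = 1 → L z x < q := ae_all_iff.2 hhigh
  have hall3 : ∀ᵐ x ∂μ, ∀ r s : ℚ, r < s → p r x = 0 ∨ p s x = 1 := by
    rw [ae_all_iff]
    intro r
    rw [ae_all_iff]
    intro s
    by_cases hrs : r < s
    · filter_upwards [key r s hrs] with x hx _ using hx
    · exact Filter.Eventually.of_forall fun x h => absurd h hrs
  intro q
  refine ⟨⋃ s : {s : ℚ // s < q}, {x | p s x = 1},
    MeasurableSet.iUnion fun s => hpm s (measurableSet_singleton (1 : ℝ)), ?_⟩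
  filter_upwards [hall1, hall2, hall3] with x h1 h2 h3
  apply propext
  show L z x < q ↔ x ∈ ⋃ s : {s : ℚ // s < q}, {x | p s x = 1}
  rw [mem_iUnion]
  constructor
  · intro hx
    obtain ⟨r, hr1, hr2⟩ := exists_rat_btwn hx
    obtain ⟨s, hs1, hs2⟩ := exists_rat_btwn hr2
    have hrs : r < s := by exact_mod_cast hs1
    rcases h3 r s hrs with h | h
    · exact absurd hr1 (h1 r h)
    · exact ⟨⟨s, by exact_mod_cast hs2⟩, h⟩
  · rintro ⟨⟨s, hs⟩, hx⟩
    have := h2 s hx
    have hs' : (s : ℝ) < q := by exact_mod_cast hs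
    linarith

end

end Pool.Agent.H180
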