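import Mathlib
import Pool.Agent.H180.HayA

/-!
Boolean independence from measures of large type: closing off and selection.
-/

set_option autoImplicit false

open Filter Topology Set MeasureTheory Cardinal
open scoped Classical ENNReal

namespace Pool.Agent.H180

section Closing

variable {K Z : Type}

theorem meas_inter {W : Type} (m : MeasurableSpace K) {E : Set K} (hE : MeasurableSet[m] E)
    (F : Finset W) (S : W → Set K) (h : ∀ t ∈ F, MeasurableSet[m] (S t)) :
    MeasurableSet[m] (E ∩ ⋂ t ∈ F, S t) :=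
  hE.inter (Finset.measurableSet_biInter F h)

/-- one step of the closing off -/
def Gs (L : Z → K → ℝ) (N' : Set K → ℚ → ℚ → Set Z) (N : Set Z) : Set Z :=
  N ∪ ⋃ E ∈ {A : Set K | MeasurableSet[sgm L N] A}, ⋃ p ∈ (univ : Set (ℚ × ℚ)), N' E p.1 p.2

theorem card_Gs {κ : Cardinal.{0}} (hκ : κ.IsRegular) (hω : ℵ₀ < κ) (hpow : ∀ ν < κ, ν ^ ℵ₀ < κ)
    (L : Z → K → ℝ) (N' : Set K → ℚ → ℚ → Set Z) (hN' : ∀ E r s, #(N' E r s) < κ) {N : Set Z}
    (hN : #N < κ) : #(Gs L N' N) < κ := by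
  refine (Cardinal.mk_union_le _ _).trans_lt (Cardinal.add_lt_of_lt hκ.aleph0_le hN ?_)
  refine small_biUnion hκ _ _ (card_sgm hκ hpow hN) fun E _ => ?_
  refine small_biUnion hκ _ _ ?_ fun p _ => hN' _ _ _
  rw [Cardinal.mk_univ]
  exact (Cardinal.mk_le_aleph0).trans_lt hω

theorem exists_closed {κ : Cardinal.{0}} (hκ : κ.IsRegular) (hω : ℵ₀ < κ)
    (hpow : ∀ ν < κ, ν ^ ℵ₀ < κ) (L : Z → K → ℝ) (N' : Set K → ℚ → ℚ → Set Z)
    (hN' : ∀ E r s, #(N' E r s) < κ) :
    ∃ N : Set Z, #N < κ ∧ ∀ E, MeasurableSet[sgm L N] E → ∀ r s, N' E r s ⊆ N := by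
  let W : Type := (Cardinal.aleph 1).ord.ToType
  have hW : #W = Cardinal.aleph 1 := Cardinal.mk_ord_toType _
  have hIio : ∀ a : W, #(Set.Iio a) ≤ ℵ₀ := fun a => by
    have h1 : #(Set.Iio a) < Cardinal.aleph 1 := Cardinal.mk_Iio_toType_ord_lt a
    exact Order.lt_succ_iff.1 (h1.trans_eq Cardinal.succ_aleph0.symm)
  have hIic : ∀ a : W, (Set.Iic a).Countable := fun a => by
    have h1 : (Set.Iio a).Countable := Cardinal.le_aleph0_iff_set_countable.1 (hIio a)
    have h2 : Set.Iic a = insert a (Set.Iio a) := by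
      ext b
      simp [le_iff_eq_or_lt]
    rw [h2]
    exact h1.insert a
  have hunc : ¬ (univ : Set W).Countable := by
    rw [← Cardinal.le_aleph0_iff_set_countable, Cardinal.mk_univ, hW, not_le,
      ← Cardinal.succ_aleph0]
    exact Order.lt_succ _
  have hWκ : #W < κ := by
    rw [hW]
    refine (Cardinal.aleph_one_le_continuum).trans_lt ?_
    rw [← Cardinal.two_power_aleph0]
    exact hpow 2 (lt_of_lt_of_le Cardinal.natCast_lt_aleph0 hκ.aleph0_le)
  have hwf : WellFounded ((· < ·) : W → W → Prop) := wellFounded_lt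
  let f : W → Set Z := hwf.fix fun a ih => ⋃ b : Set.Iio a, Gs L N' (ih b b.2)
  have hf : ∀ a, f a = ⋃ b : Set.Iio a, Gs L N' (f b) := fun a => hwf.fix_eq _ a
  have hcard : ∀ a, #(f a) < κ := by
    intro a
    induction a using hwf.induction with
    | _ a ih =>
      rw [hf a]
      have h1 := small_biUnion hκ (Set.Iio a) (fun b => Gs L N' (f b)) ((hIio a).trans_lt hω)
        (fun b hb => card_Gs hκ hω hpow L N' hN' (ih b hb))
      rwa [Set.biUnion_eq_iUnion] at h1
  refine ⟨⋃ a, Gs L N' (f a), ?_, fun E hE r s => ?_⟩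
  · have h1 := small_biUnion hκ (univ : Set W) (fun b => Gs L N' (f b))
      (by rwa [Cardinal.mk_univ]) (fun b _ => card_Gs hκ hω hpow L N' hN' (hcard b))
    rwa [Set.biUnion_univ] at h1
  · obtain ⟨C, hC1, hC2, hC3⟩ := exists_countable_support hE
    have h1 : ∀ c : C, ∃ a, (c : Z) ∈ Gs L N' (f a) := fun c => mem_iUnion.1 (hC1 c.2)
    choose a ha using h1
    obtain ⟨w, hw⟩ : ∃ w, ∀ c : C, a c < w := by
      by_contra hcon
      push Not at hcon
      apply hunc
      have : Countable C := hC2.to_subtype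
      refine (Set.countable_iUnion fun c : C => hIic (a c)).mono fun w _ => ?_
      obtain ⟨c, hc⟩ := hcon w
      exact mem_iUnion.2 ⟨c, hc⟩
    have hCw : C ⊆ f w := by
      intro c hc
      rw [hf w]
      exact mem_iUnion.2 ⟨⟨a ⟨c, hc⟩, hw _⟩, ha _⟩
    have hE2 : MeasurableSet[sgm L (f w)] E := sgm_mono hCw _ hC3
    intro z hz
    refine mem_iUnion.2 ⟨w, Or.inr ?_⟩
    refine mem_biUnion hE2 ?_
    exact mem_biUnion (mem_univ (r, s)) hz

end Closing

section Indep

variable {K Z : Type} [MeasurableSpace K] {μ : Measure K} [IsFiniteMeasure μ] {L : Z → K → ℝ}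

theorem haydon_sets {κ : Cardinal.{0}} (hκ : κ.IsRegular) (hω : ℵ₀ < κ)
    (hpow : ∀ ν < κ, ν ^ ℵ₀ < κ) (hL : ∀ z, Measurable (L z))
    (hbig : ∀ N : Set Z, #N < κ → ∃ z, ¬ AM L μ N z) :
    ∃ (E : Set K) (r s : ℚ) (C : Set Z), r < s ∧ 0 < μ E ∧ C.Countable ∧ MeasurableSet[sgm L C] E ∧
      ∀ N : Set Z, #N < κ → ∃ z, Pr L μ E r s N z := by
  by_contra hcon
  push Not at hcon
  let P : Set K → ℚ → ℚ → Set Z → Prop := fun E r s N => #N < κ ∧ ∀ z, ¬ Pr L μ E r s N z
  let N' : Set K → ℚ → ℚ → Set Z := fun E r s => if h : ∃ N, P E r s N then h.choose else ∅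
  have hN'1 : ∀ E r s, (∃ N, P E r s N) → P E r s (N' E r s) := by
    intro E r s h
    show P E r s (if h : ∃ N, P E r s N then h.choose else ∅)
    rw [dif_pos h]
    exact h.choose_spec
  have hN' : ∀ E r s, #(N' E r s) < κ := by
    intro E r s
    by_cases h : ∃ N, P E r s N
    · exact (hN'1 E r s h).1
    · have : N' E r s = ∅ := dif_neg h
      rw [this, Cardinal.mk_eq_zero]
      exact Cardinal.aleph0_pos.trans hω
  obtain ⟨N, hN, hcl⟩ := exists_closed hκ hω hpow L N' hN'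
  obtain ⟨z, hz⟩ := hbig N hN
  obtain ⟨E, r, s, hrs, hE, hE0, hPr⟩ := exists_Pr hL N z hz
  obtain ⟨C, hC1, hC2, hC3⟩ := exists_countable_support hE
  obtain ⟨N1, hN1, hN2⟩ := hcon E r s C hrs hE0 hC2 hC3
  exact (hN'1 E r s ⟨N1, hN1, hN2⟩).2 z (hPr.mono (hcl E hE r s))

theorem haydon_indep {T : Type} (hκ : (#T).IsRegular) (hω : ℵ₀ < #T)
    (hpow : ∀ ν < #T, ν ^ ℵ₀ < #T) (hL : ∀ z, Measurable (L z))
    (hbig : ∀ N : Set Z, #N < #T → ∃ z, ¬ AM L μ N z) :
    ∃ (z : T → Z) (r s : ℚ), r < s ∧ ∀ (F : Finset T) (σ : T → Bool), ∃ x, ∀ t ∈ F,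
      (σ t = true → ¬ L (z t) x < s) ∧ (σ t = false → L (z t) x < r) := by
  obtain ⟨E, r, s, C, hrs, hE0, hC, hE, h⟩ := haydon_sets hκ hω hpow hL hbig
  have hCc : #C < #T := (Cardinal.le_aleph0_iff_set_countable.2 hC).trans_lt hω
  let W : Type := (#T).ord.ToType
  have hwf : WellFounded ((· < ·) : W → W → Prop) := wellFounded_lt
  have hex : ∀ N : Set Z, ∃ z, #N < #T → Pr L μ E r s N z := by
    intro N
    by_cases hN : #N < #T
    · obtain ⟨z, hz⟩ := h N hN
      exact ⟨z, fun _ => hz⟩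
    · obtain ⟨z, hz⟩ := h C hCc
      exact ⟨z, fun h => absurd h hN⟩
  choose ch hch using hex
  let y : W → Z := hwf.fix fun a ih => ch (C ∪ ⋃ b : Set.Iio a, {ih b b.2})
  have hy : ∀ a, y a = ch (C ∪ ⋃ b : Set.Iio a, {y b}) := fun a => hwf.fix_eq _ a
  have hPr : ∀ a, Pr L μ E r s (C ∪ ⋃ b : Set.Iio a, {y b}) (y a) := by
    intro a
    have h1 : #(C ∪ ⋃ b : Set.Iio a, {y b} : Set Z) < #T := by
      refine (Cardinal.mk_union_le _ _).trans_lt (Cardinal.add_lt_of_lt hκ.aleph0_le hCc ?_)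
      have h2 := small_biUnion hκ (Set.Iio a) (fun b => {y b}) (Cardinal.mk_Iio_toType_ord_lt a)
        (fun b _ => by
          rw [Cardinal.mk_singleton]
          exact Cardinal.one_lt_aleph0.trans hω)
      rwa [Set.biUnion_eq_iUnion] at h2
    have h2 := hch _ h1
    rwa [← hy a] at h2
  -- independence
  let S : (W → Bool) → W → Set K := fun σ t =>
    if σ t = true then {x | L (y t) x < s}ᶜ else {x | L (y t) x < r}
  have hind : ∀ (σ : W → Bool) (F : Finset W), 0 < μ (E ∩ ⋂ t ∈ F, S σ t) := by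
    intro σ F
    induction F using Finset.induction_on_max with
    | empty =>
      simpa using hE0
    | insert a F ha ih =>
      have hset : (E ∩ ⋂ t ∈ insert a F, S σ t) = (E ∩ ⋂ t ∈ F, S σ t) ∩ S σ a := by
        ext x
        simp only [mem_inter_iff, Finset.mem_insert, mem_iInter, forall_eq_or_imp]
        tauto
      rw [hset]
      have hm : MeasurableSet[sgm L (C ∪ ⋃ b : Set.Iio a, {y b})] (E ∩ ⋂ t ∈ F, S σ t) := by
        refine meas_inter (sgm L (C ∪ ⋃ b : Set.Iio a, {y b})) (sgm_mono subset_union_left _ hE) F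
          (S σ) fun t ht => ?_
        have hmem : y t ∈ C ∪ ⋃ b : Set.Iio a, {y b} :=
          Or.inr (mem_iUnion.2 ⟨⟨t, ha t ht⟩, rfl⟩)
        show MeasurableSet[sgm L (C ∪ ⋃ b : Set.Iio a, {y b})] (if σ t = true then {x | L (y t) x < s}ᶜ else {x | L (y t) x < r})
        split_ifs
        · exact (measurableSet_lt_sgm hmem s).compl
        · exact measurableSet_lt_sgm hmem r
      have h3 := hPr a _ hm inter_subset_left ih
      show 0 < μ ((E ∩ ⋂ t ∈ F, S σ t) ∩
        (if σ a = true then {x | L (y a) x < s}ᶜ else {x | L (y a) x < r}))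
      split_ifs
      · exact h3.2
      · exact h3.1
  obtain ⟨e⟩ : Nonempty (T ≃ W) := Cardinal.eq.1 (Cardinal.mk_ord_toType _).symm
  refine ⟨fun t => y (e t), r, s, hrs, fun F σ => ?_⟩
  have h1 := hind (fun w => σ (e.symm w)) (F.image e)
  obtain ⟨x, hx⟩ := nonempty_of_measure_ne_zero h1.ne'
  refine ⟨x, fun t ht => ?_⟩
  have h2 := mem_iInter₂.1 hx.2 (e t) (Finset.mem_image_of_mem e ht)
  have h3 : x ∈ (if σ (e.symm (e t)) = true then {x | L (y (e t)) x < s}ᶜ else
    {x | L (y (e t)) x < r}) := h2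
  rw [e.symm_apply_apply] at h3
  constructor
  · intro hσ
    rw [if_pos hσ] at h3
    exact h3
  · intro hσ
    rw [if_neg (by simp [hσ])] at h3
    exact h3

end Indep

end Pool.Agent.H180
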