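import Mathlib
import Pool.Agent.H180.Self
import Pool.Agent.H731R2.Riesz
import Pool.Agent.R275.LOne

/-!
Inner regular finite measures on compact spaces, and the Riesz representation.
-/

set_option autoImplicit false

open MeasureTheory Filter Topology Set
open scoped ENNReal NNReal

namespace Pool.Agent.H180

/-- finite Borel measures, inner regular for closed sets -/
structure Good {K : Type*} [TopologicalSpace K] [MeasurableSpace K] (μ : Measure K) : Prop where
  fin : IsFiniteMeasure μ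
  inner : ∀ A, MeasurableSet A → ∀ ε : ℝ≥0∞, ε ≠ 0 → ∃ C ⊆ A, IsClosed C ∧ μ (A \ C) ≤ ε

section

variable {K : Type*} [TopologicalSpace K] [MeasurableSpace K] [BorelSpace K]

theorem Good.of_ac {μ ν : Measure K} (h : Good μ) (hν : IsFiniteMeasure ν) (hac : ν ≪ μ) :
    Good ν := by
  refine ⟨hν, fun A hA ε hε => ?_⟩
  choose C hC1 hC2 hC3 using fun n : ℕ => h.inner A hA ((n : ℝ≥0∞) + 1)⁻¹ (by simp)
  let D : ℕ → Set K := Set.accumulate C
  have hDc : ∀ n, IsClosed (D n) := by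
    intro n
    show IsClosed (⋃ y ≤ n, C y)
    exact (Set.finite_le_nat n).isClosed_biUnion fun k _ => hC2 k
  have hDA : ∀ n, D n ⊆ A := by
    intro n
    show (⋃ y ≤ n, C y) ⊆ A
    exact Set.iUnion₂_subset fun k _ => hC1 k
  have hanti : Antitone fun n => A \ D n := by
    intro n m hnm
    exact Set.sdiff_subset_sdiff_right (Set.monotone_accumulate hnm)
  have hzero : μ (⋂ n, A \ D n) = 0 := by
    refine le_antisymm (ENNReal.le_of_forall_pos_le_add fun r hr _ => ?_) zero_le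
    rw [zero_add]
    obtain ⟨n, hn⟩ := ENNReal.exists_inv_nat_lt (a := (r : ℝ≥0∞)) (by
      simpa using hr.ne')
    refine (measure_mono (Set.iInter_subset _ n)).trans ?_
    refine (measure_mono (Set.sdiff_subset_sdiff_right (Set.subset_accumulate (s := C)))).trans
      ((hC3 n).trans ?_)
    refine le_trans ?_ hn.le
    gcongr
    exact le_self_add
  have h0 : ν (⋂ n, A \ D n) = 0 := hac hzero
  have ht := tendsto_measure_iInter_atTop (μ := ν)
    (fun n => (hA.diff (hDc n).measurableSet).nullMeasurableSet) hanti ⟨0, measure_ne_top ν _⟩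
  rw [h0] at ht
  obtain ⟨n, hn⟩ := ((ENNReal.tendsto_nhds_zero.1 ht) ε hε.bot_lt).exists
  exact ⟨D n, hDA n, hDc n, hn⟩

theorem Good.sum {I : Type*} {m : I → Measure K} (h : ∀ i, Good (m i))
    (hf : IsFiniteMeasure (Measure.sum m)) : Good (Measure.sum m) := by
  classical
  refine ⟨hf, fun A hA ε hε => ?_⟩
  have h1 : ∑' i, m i univ ≠ ⊤ := by
    have := measure_ne_top (Measure.sum m) univ
    rwa [Measure.sum_apply _ MeasurableSet.univ] at this
  have ht := ENNReal.tendsto_tsum_compl_atTop_zero h1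
  have hε2 : ε / 2 ≠ 0 := (ENNReal.div_pos hε (by norm_num)).ne'
  obtain ⟨s, hs⟩ := ((ENNReal.tendsto_nhds_zero.1 ht) (ε / 2) hε2.bot_lt).exists
  have hδ : ε / 2 / (s.card + 1) ≠ 0 := by
    refine (ENNReal.div_pos hε2 ?_).ne'
    exact ENNReal.add_ne_top.2 ⟨ENNReal.natCast_ne_top _, ENNReal.one_ne_top⟩
  choose C hC1 hC2 hC3 using fun i => (h i).inner A hA (ε / 2 / (s.card + 1)) hδ
  have hcl : IsClosed (⋃ i ∈ s, C i) := s.finite_toSet.isClosed_biUnion fun i _ => hC2 i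
  refine ⟨⋃ i ∈ s, C i, Set.iUnion₂_subset fun i _ => hC1 i, hcl, ?_⟩
  rw [Measure.sum_apply _ (hA.diff hcl.measurableSet)]
  set E : Set K := A \ ⋃ i ∈ s, C i with hE
  have h2 : ∑' i, m i E ≤ ∑ i ∈ s, m i E + ∑' i : {i // i ∉ s}, m i univ := by
    have key : ∑ i ∈ s, m i E + ∑' i : ↑((s : Set I)ᶜ), m i E = ∑' i, m i E :=
      ENNReal.sum_add_tsum_compl s (fun i => m i E)
    have key2 : ∑' i : ↑((s : Set I)ᶜ), m i E ≤ ∑' i : ↑((s : Set I)ᶜ), m i univ :=
      ENNReal.tsum_le_tsum fun i => measure_mono (Set.subset_univ _)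
    rw [← key]
    exact add_le_add le_rfl key2
  have h3 : ∑ i ∈ s, m i E ≤ ε / 2 := by
    calc ∑ i ∈ s, m i E ≤ ∑ i ∈ s, ε / 2 / (s.card + 1) := by
          refine Finset.sum_le_sum fun i hi => le_trans ?_ (hC3 i)
          exact measure_mono (Set.sdiff_subset_sdiff_right (Set.subset_biUnion_of_mem
            (u := fun i => C i) hi))
      _ = s.card * (ε / 2 / (s.card + 1)) := by rw [Finset.sum_const, nsmul_eq_mul]
      _ ≤ (s.card + 1) * (ε / 2 / (s.card + 1)) := mul_le_mul_left (le_self_add) _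
      _ ≤ ε / 2 := ENNReal.mul_div_le
  exact (h2.trans (add_le_add h3 hs)).trans_eq (ENNReal.add_halves ε)

omit [BorelSpace K] in
theorem Good.outer {μ : Measure K} (h : Good μ) (A : Set K) (hA : MeasurableSet A) (ε : ℝ≥0∞)
    (hε : ε ≠ 0) : ∃ U, A ⊆ U ∧ IsOpen U ∧ μ U ≤ μ A + ε := by
  have := h.fin
  obtain ⟨C, hC1, hC2, hC3⟩ := h.inner Aᶜ hA.compl ε hε
  refine ⟨Cᶜ, Set.subset_compl_comm.1 hC1, hC2.isOpen_compl, ?_⟩
  have h1 : Cᶜ ⊆ A ∪ (Aᶜ \ C) := by
    intro x hx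
    by_cases hxA : x ∈ A
    · exact Or.inl hxA
    · exact Or.inr ⟨hxA, hx⟩
  exact (measure_mono h1).trans ((measure_union_le _ _).trans (add_le_add le_rfl hC3))

theorem Good.regular [CompactSpace K] {μ : Measure K} (h : Good μ) : μ.Regular := by
  have := h.fin
  have ho : μ.OuterRegular := by
    refine ⟨fun A hA r hr => ?_⟩
    obtain ⟨ε, hε, hr'⟩ : ∃ ε : ℝ≥0∞, ε ≠ 0 ∧ μ A + ε < r := by
      obtain ⟨b, hb1, hb2⟩ := exists_between hr
      refine ⟨b - μ A, (tsub_pos_of_lt hb1).ne', ?_⟩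
      rwa [add_tsub_cancel_of_le hb1.le]
    obtain ⟨U, hU1, hU2, hU3⟩ := h.outer A hA ε hε
    exact ⟨U, hU1, hU2, hU3.trans_lt hr'⟩
  refine ⟨fun U hU r hr => ?_⟩
  obtain ⟨b, hb1, hb2⟩ := exists_between hr
  obtain ⟨C, hC1, hC2, hC3⟩ := h.inner U hU.measurableSet (μ U - b) (tsub_pos_of_lt hb2).ne'
  refine ⟨C, hC1, hC2.isCompact, hb1.trans_le ?_⟩
  have h2 : μ U ≤ μ C + μ (U \ C) := by
    refine (measure_mono (?_ : U ⊆ C ∪ (U \ C))).trans (measure_union_le _ _)
    rw [Set.union_sdiff_self]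
    exact Set.subset_union_right
  have h3 : μ U ≤ μ C + (μ U - b) := h2.trans (add_le_add le_rfl hC3)
  have h4 : μ U - (μ U - b) ≤ μ C := tsub_le_iff_right.2 h3
  rwa [ENNReal.sub_sub_cancel (measure_ne_top μ U) hb2.le] at h4

theorem Good.of_regular {μ : Measure K} [IsFiniteMeasure μ] [μ.WeaklyRegular] : Good μ :=
  ⟨inferInstance, fun A hA ε hε => by
    obtain ⟨C, hC1, hC2, hC3⟩ := hA.exists_isClosed_sdiff_lt (measure_ne_top μ A) hε
    exact ⟨C, hC1, hC2, hC3.le⟩⟩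

end

end Pool.Agent.H180
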