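import Mathlib
import Pool.Agent.H180.Rep1
import Pool.Agent.H180.Plus

/-!
The Riesz representation: functionals on `C(K)` have bounded densities with respect to inner regular measures.
-/

set_option autoImplicit false

open MeasureTheory Filter Topology Set
open scoped ENNReal NNReal

namespace Pool.Agent.H180

section

variable {K : Type*} [TopologicalSpace K] [CompactSpace K] [T2Space K]

/-- real part -/
noncomputable def reC (h : C(K, ℂ)) : C(K, ℝ) := ⟨fun x => (h x).re, by fun_prop⟩

/-- imaginary part -/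
noncomputable def imC (h : C(K, ℂ)) : C(K, ℝ) := ⟨fun x => (h x).im, by fun_prop⟩

omit [T2Space K] in
theorem norm_reC_le (h : C(K, ℂ)) : ‖reC h‖ ≤ ‖h‖ := by
  refine (ContinuousMap.norm_le _ (norm_nonneg _)).2 fun x => ?_
  exact (Complex.abs_re_le_norm (h x)).trans (h.norm_coe_le_norm x)

omit [T2Space K] in
theorem norm_imC_le (h : C(K, ℂ)) : ‖imC h‖ ≤ ‖h‖ := by
  refine (ContinuousMap.norm_le _ (norm_nonneg _)).2 fun x => ?_
  exact (Complex.abs_im_le_norm (h x)).trans (h.norm_coe_le_norm x)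

/-- complexification of a functional -/
noncomputable def cpx (φ : MM K) : StrongDual ℂ C(K, ℂ) :=
  LinearMap.mkContinuous (𝕜 := ℂ) (𝕜₂ := ℂ)
    { toFun := fun h => (φ (reC h) : ℂ) + Complex.I * (φ (imC h) : ℂ)
      map_add' := fun h h' => by
        have h1 : reC (h + h') = reC h + reC h' := by ext x; simp [reC]
        have h2 : imC (h + h') = imC h + imC h' := by ext x; simp [imC]
        rw [h1, h2, map_add, map_add]
        push_cast
        ring
      map_smul' := fun c h => by
        have h1 : reC (c • h) = c.re • reC h - c.im • imC h := by ext x; simp [reC, imC]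
        have h2 : imC (c • h) = c.re • imC h + c.im • reC h := by ext x; simp [reC, imC]
        rw [h1, h2, map_sub, map_add, map_smul, map_smul, map_smul, map_smul]
        simp only [smul_eq_mul, RingHom.id_apply]
        push_cast
        have h3 : c = (c.re : ℂ) + (c.im : ℂ) * Complex.I := (Complex.re_add_im c).symm
        conv_rhs => rw [h3]
        ring_nf
        rw [Complex.I_sq]
        ring } (2 * ‖φ‖) (fun h => by
      show ‖(φ (reC h) : ℂ) + Complex.I * (φ (imC h) : ℂ)‖ ≤ _
      have h1 : ‖(φ (reC h) : ℂ)‖ ≤ ‖φ‖ * ‖h‖ := by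
        rw [Complex.norm_real]
        exact (φ.le_opNorm _).trans (mul_le_mul_of_nonneg_left (norm_reC_le h) (norm_nonneg _))
      have h2 : ‖Complex.I * (φ (imC h) : ℂ)‖ ≤ ‖φ‖ * ‖h‖ := by
        rw [norm_mul, Complex.norm_I, one_mul, Complex.norm_real]
        exact (φ.le_opNorm _).trans (mul_le_mul_of_nonneg_left (norm_imC_le h) (norm_nonneg _))
      refine (norm_add_le _ _).trans ?_
      linarith)

variable [MeasurableSpace K] [BorelSpace K]

theorem exists_good_dom (φ : MM K) : ∃ μ : Measure K, Good μ ∧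
    ∀ f : C(K, ℝ), |φ f| ≤ ∫ x, |f x| ∂μ := by
  obtain ⟨μ, h1, h2, h3⟩ := H731R2.exists_dominating_measure (cpx φ)
  refine ⟨μ, Good.of_regular, fun f => ?_⟩
  let F : C(K, ℂ) := ⟨fun x => (f x : ℂ), by fun_prop⟩
  have h4 := h3 F
  have h5 : cpx φ F = (φ f : ℂ) := by
    show (φ (reC F) : ℂ) + Complex.I * (φ (imC F) : ℂ) = _
    have h6 : reC F = f := by ext x; simp [reC, F]
    have h7 : imC F = 0 := by ext x; simp [imC, F]
    rw [h6, h7, map_zero]
    simp
  rw [h5, Complex.norm_real, Real.norm_eq_abs] at h4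
  refine h4.trans_eq ?_
  refine integral_congr_ae (Filter.Eventually.of_forall fun x => ?_)
  show ‖(f x : ℂ)‖ = |f x|
  rw [Complex.norm_real, Real.norm_eq_abs]

/-- Riesz representation -/
theorem exists_good_density (φ : MM K) : ∃ μ : Measure K, Good μ ∧ ∃ g : K → ℝ, Measurable g ∧
    (∀ x, |g x| ≤ 1) ∧ ∀ f : C(K, ℝ), φ f = ∫ x, g x * f x ∂μ := by
  obtain ⟨μ, hμ, hdom⟩ := exists_good_dom φ
  have := hμ.fin
  have hae : ∀ f : C(K, ℝ), (ContinuousMap.toLp (E := ℝ) 1 μ ℝ f : K → ℝ) =ᵐ[μ] f := fun f =>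
    ContinuousMap.coeFn_toLp μ f
  have hnorm : ∀ f : C(K, ℝ), ‖ContinuousMap.toLp (E := ℝ) 1 μ ℝ f‖ = ∫ x, |f x| ∂μ := by
    intro f
    rw [L1.norm_eq_integral_norm]
    refine integral_congr_ae ?_
    filter_upwards [hae f] with x hx
    rw [hx, Real.norm_eq_abs]
  obtain ⟨Ψ, hΨ1, hΨ2⟩ := exists_interp (fun f : C(K, ℝ) => ContinuousMap.toLp (E := ℝ) 1 μ ℝ f)
    (fun f => φ f) 1 zero_le_one (fun a => by
      have e1 : (a.sum fun f b => b * φ f) = φ (a.sum fun f b => b • f) := by
        rw [Finsupp.sum, Finsupp.sum, map_sum]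
        refine Finset.sum_congr rfl fun f _ => ?_
        rw [map_smul, smul_eq_mul]
      have e2 : (a.sum fun f b => b • ContinuousMap.toLp (E := ℝ) 1 μ ℝ f) =
          ContinuousMap.toLp (E := ℝ) 1 μ ℝ (a.sum fun f b => b • f) := by
        rw [Finsupp.sum, Finsupp.sum, map_sum]
        refine Finset.sum_congr rfl fun f _ => ?_
        rw [map_smul]
      rw [e1, e2, one_mul, hnorm]
      exact hdom _)
  obtain ⟨g, hg1, hg2, hg3⟩ := R275.exists_density Ψ
  refine ⟨μ, hμ, fun x => max (-1) (min (g x) 1), by fun_prop, fun x => ?_, fun f => ?_⟩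
  · rw [abs_le]
    exact ⟨le_max_left _ _, max_le (by norm_num) (min_le_right _ _)⟩
  · rw [← hΨ2 f, hg3]
    refine integral_congr_ae ?_
    filter_upwards [hae f, hg2] with x hx hx2
    have h1 := abs_le.1 (hx2.trans hΨ1)
    rw [hx, min_eq_left h1.2, max_eq_right h1.1]

end

end Pool.Agent.H180
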