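import Mathlib
import Pool.Agent.H180.Rep2

/-!
The dual of `C(K)` is isomorphic to `L¹(μ)`.
-/

set_option autoImplicit false

open MeasureTheory Filter Topology Set
open scoped ENNReal NNReal

namespace Pool.Agent.H180

section

variable {K : Type*} [MeasurableSpace K]

theorem add_le_of_singular {a b μ : Measure K} (ha : a ≤ μ) (hb : b ≤ μ) (h : a ⟂ₘ b) :
    a + b ≤ μ := by
  obtain ⟨A, hA, h1, h2⟩ := h
  refine Measure.le_iff.2 fun E hE => ?_
  rw [Measure.add_apply, ← measure_inter_add_sdiff (μ := a) E hA,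
    ← measure_inter_add_sdiff (μ := b) E hA, ← measure_inter_add_sdiff (μ := μ) E hA]
  have h3 : a (E ∩ A) = 0 := measure_mono_null Set.inter_subset_right h1
  have h4 : b (E \ A) = 0 := measure_mono_null (fun x hx => hx.2) h2
  rw [h3, h4, zero_add, add_zero, add_comm]
  exact add_le_add (hb _) (ha _)

theorem finset_sum_le_of_singular {I : Type*} (s : Finset I) (p : I → Measure K) (μ : Measure K)
    (h : ∀ i, p i ≤ μ) (hs : ∀ i j, i ≠ j → p i ⟂ₘ p j) : ∑ i ∈ s, p i ≤ μ := by
  classical
  induction s using Finset.induction with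
  | empty => simp only [Finset.sum_empty]; exact Measure.zero_le μ
  | insert a s ha ih =>
    rw [Finset.sum_insert ha]
    refine add_le_of_singular (h a) ih ?_
    have : ∀ t : Finset I, a ∉ t → p a ⟂ₘ ∑ i ∈ t, p i := by
      intro t
      induction t using Finset.induction with
      | empty => intro _; simp only [Finset.sum_empty]; exact Measure.MutuallySingular.zero_right
      | insert b t hb iht =>
        intro hat
        rw [Finset.sum_insert hb]
        rw [Finset.mem_insert, not_or] at hat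
        exact (hs a b hat.1).add_right (iht hat.2)
    exact this s ha

theorem sum_le_of_singular {I : Type*} (p : I → Measure K) (μ : Measure K)
    (h : ∀ i, p i ≤ μ) (hs : ∀ i j, i ≠ j → p i ⟂ₘ p j) : Measure.sum p ≤ μ := by
  refine Measure.le_iff.2 fun E hE => ?_
  rw [Measure.sum_apply _ hE, ENNReal.tsum_eq_iSup_sum]
  refine iSup_le fun s => ?_
  have := Measure.le_iff.1 (finset_sum_le_of_singular s p μ h hs) E hE
  rwa [Measure.finsetSum_apply] at this

theorem sum_singular {I : Type*} (m : I → Measure K) (hf : IsFiniteMeasure (Measure.sum m))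
    (ν : Measure K) (h : ∀ i, m i ⟂ₘ ν) : Measure.sum m ⟂ₘ ν := by
  have h1 : ∑' i, m i univ ≠ ⊤ := by
    have := measure_ne_top (Measure.sum m) univ
    rwa [Measure.sum_apply _ MeasurableSet.univ] at this
  have hc : (Function.support fun i => m i univ).Countable := Summable.countable_support_ennreal h1
  choose B hB hB1 hB2 using h
  refine ⟨⋂ i ∈ Function.support fun i => m i univ, B i, MeasurableSet.biInter hc fun i _ => hB i,
    ?_, ?_⟩
  · rw [Measure.sum_apply _ (MeasurableSet.biInter hc fun i _ => hB i), ENNReal.tsum_eq_zero]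
    intro i
    by_cases hi : m i univ = 0
    · exact measure_mono_null (Set.subset_univ _) hi
    · exact measure_mono_null (Set.biInter_subset_of_mem hi) (hB1 i)
  · rw [Set.compl_iInter₂]
    exact (measure_biUnion_null_iff hc).2 fun i _ => hB2 i

end

section

variable {K : Type*} [TopologicalSpace K] [MeasurableSpace K]
  [BorelSpace K]

/-- families of pairwise singular measures -/
def Fam (S : Set (Measure K)) : Prop :=
  (∀ μ ∈ S, Good μ) ∧ ∀ μ ∈ S, ∀ ν ∈ S, μ ≠ ν → μ ⟂ₘ ν

omit [BorelSpace K] in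
/-- a maximal family -/
theorem exists_family : ∃ S : Set (Measure K), Fam S ∧
    ∀ σ : Measure K, Good σ → (∀ μ ∈ S, σ ⟂ₘ μ) → σ = 0 := by
  obtain ⟨S, hS⟩ := zorn_subset {S : Set (Measure K) | Fam S} (by
    intro c hc hch
    refine ⟨⋃₀ c, ⟨?_, ?_⟩, fun s hs => Set.subset_sUnion_of_mem hs⟩
    · rintro μ ⟨s, hs, hμ⟩
      exact (hc hs).1 μ hμ
    · rintro μ ⟨s, hs, hμ⟩ ν ⟨t, ht, hν⟩ hne
      rcases hch.total hs ht with h | h
      · exact (hc ht).2 μ (h hμ) ν hν hne
      · exact (hc hs).2 μ hμ ν (h hν) hne)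
  refine ⟨S, hS.prop, fun σ hσ hσ2 => ?_⟩
  have h1 : Fam (insert σ S) := by
    refine ⟨?_, ?_⟩
    · rintro μ (rfl | hμ)
      · exact hσ
      · exact hS.prop.1 μ hμ
    · rintro μ (rfl | hμ) ν (rfl | hν) hne
      · exact absurd rfl hne
      · exact hσ2 ν hν
      · exact (hσ2 μ hμ).symm
      · exact hS.prop.2 μ hμ ν hν hne
  have h2 : σ ∈ S := hS.le_of_ge h1 (Set.subset_insert σ S) (Set.mem_insert σ S)
  exact Measure.MutuallySingular.self_iff σ |>.1 (hσ2 σ h2)

/-- the absolutely continuous parts -/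
noncomputable def part (μ₀ j : Measure K) : Measure K := j.withDensity (μ₀.rnDeriv j)

theorem eq_sum_part {S : Set (Measure K)} (hS : Fam S)
    (hmax : ∀ σ : Measure K, Good σ → (∀ μ ∈ S, σ ⟂ₘ μ) → σ = 0) (μ₀ : Measure K) (h : Good μ₀) :
    Measure.sum (fun j : S => part μ₀ j) = μ₀ := by
  have hfin := h.fin
  have hSf : ∀ j : S, IsFiniteMeasure (j : Measure K) := fun j => (hS.1 j j.2).fin
  set P := Measure.sum (fun j : S => part μ₀ j) with hP
  have hpart : ∀ j : S, part μ₀ j ≤ μ₀ := fun j => Measure.withDensity_rnDeriv_le μ₀ _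
  have hac : ∀ j : S, part μ₀ j ≪ (j : Measure K) := fun j =>
    withDensity_absolutelyContinuous _ _
  have hle : P ≤ μ₀ := by
    refine sum_le_of_singular _ _ hpart ?_
    intro i j hij
    have h1 := hS.2 i i.2 j j.2 (fun h => hij (Subtype.ext h))
    exact h1.mono_ac (hac i) (hac j)
  have hPf : IsFiniteMeasure P := isFiniteMeasure_of_le μ₀ hle
  have hsub : μ₀ - P + P = μ₀ := Measure.sub_add_cancel_of_le hle
  set σ := μ₀ - P with hσ
  have hσle : σ ≤ μ₀ := by
    conv_rhs => rw [← hsub]
    exact Measure.le_add_right le_rfl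
  have hσf : IsFiniteMeasure σ := isFiniteMeasure_of_le μ₀ hσle
  have hσ0 : σ = 0 := by
    refine hmax σ (h.of_ac hσf hσle.absolutelyContinuous) fun j hj => ?_
    have hjf := hSf ⟨j, hj⟩
    have h1 : μ₀.singularPart j + part μ₀ j = μ₀ := Measure.singularPart_add_rnDeriv μ₀ j
    have h2 : part μ₀ j ≤ P := Measure.le_sum (fun j : S => part μ₀ j) ⟨j, hj⟩
    have h3 : σ ≤ μ₀.singularPart j := by
      refine Measure.le_iff.2 fun E hE => ?_
      have h4 : σ E + part μ₀ j E ≤ μ₀.singularPart j E + part μ₀ j E := by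
        have e1 : μ₀.singularPart j E + part μ₀ j E = μ₀ E := by
          rw [← Measure.add_apply, h1]
        have e2 : σ E + P E = μ₀ E := by
          rw [← Measure.add_apply, hsub]
        rw [e1, ← e2]
        exact add_le_add le_rfl (h2 E)
      have h5 : part μ₀ j E ≠ ⊤ := by
        have : IsFiniteMeasure (part μ₀ j) := isFiniteMeasure_of_le μ₀ (hpart ⟨j, hj⟩)
        exact measure_ne_top _ _
      exact (ENNReal.add_le_add_iff_right h5).1 h4
    exact (Measure.mutuallySingular_singularPart μ₀ j).mono h3 le_rfl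
  rw [hσ0, zero_add] at hsub
  exact hsub

end

end Pool.Agent.H180
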