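import Mathlib
import Pool.Agent.H180.Rep3

/-!
The dual of `C(K)` is isomorphic to `L¹(μ)`, continued.
-/

set_option autoImplicit false

open MeasureTheory Filter Topology Set
open scoped ENNReal NNReal

namespace Pool.Agent.H180

section

variable {K : Type*} [MeasurableSpace K]

/-- the disjoint union of copies of `K` indexed by the measures in `S` -/
abbrev Om (S : Set (Measure K)) : Type _ := (_ : S) × K

/-- the inclusion of a copy -/
def imk {S : Set (Measure K)} (j : S) : K → Om S := fun x => ⟨j, x⟩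

/-- the direct sum of the measures in `S` -/
noncomputable def nuS (S : Set (Measure K)) : Measure (Om S) :=
  Measure.sum fun j : S => (j : Measure K).map (imk j)

theorem measurableSet_sg {S : Set (Measure K)} {A : Set (Om S)} :
    MeasurableSet A ↔ ∀ j : S, MeasurableSet {x : K | (⟨j, x⟩ : Om S) ∈ A} := by
  change MeasurableSet[⨅ a, MeasurableSpace.map (Sigma.mk a) _] A ↔ _
  rw [MeasurableSpace.measurableSet_iInf]
  rfl

theorem measurable_sg {S : Set (Measure K)} {β : Type*} [MeasurableSpace β] {f : Om S → β} :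
    Measurable f ↔ ∀ j : S, Measurable fun x : K => f ⟨j, x⟩ := by
  constructor
  · intro h j A hA
    exact measurableSet_sg.1 (h hA) j
  · intro h A hA
    exact measurableSet_sg.2 fun j => h j hA

theorem measurable_imk {S : Set (Measure K)} (j : S) : Measurable (imk j) := by
  intro A hA
  exact measurableSet_sg.1 hA j

theorem lintegral_nuS {S : Set (Measure K)} {f : Om S → ℝ≥0∞} (hf : Measurable f) :
    ∫⁻ w, f w ∂(nuS S) = ∑' j : S, ∫⁻ x, f ⟨j, x⟩ ∂(j : Measure K) := by
  rw [nuS, lintegral_sum_measure]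
  congr 1
  funext j
  rw [lintegral_map hf (measurable_imk j)]
  rfl

theorem integral_nuS {S : Set (Measure K)} {f : Om S → ℝ} (hf : Measurable f)
    (hi : Integrable f (nuS S)) :
    (∀ j : S, Integrable (fun x => f ⟨j, x⟩) (j : Measure K)) ∧
    HasSum (fun j : S => ∫ x, f ⟨j, x⟩ ∂(j : Measure K)) (∫ w, f w ∂(nuS S)) := by
  constructor
  · intro j
    have h1 : Integrable f ((j : Measure K).map (imk j)) :=
      hi.mono_measure (Measure.le_sum (fun j : S => (j : Measure K).map (imk j)) j)
    exact (integrable_map_measure hf.aestronglyMeasurable (measurable_imk j).aemeasurable).1 h1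
  · have h := hasSum_integral_measure hi
    have h2 : (fun j : S => ∫ x, f x ∂((j : Measure K).map (imk j))) =
        fun j : S => ∫ x, f ⟨j, x⟩ ∂(j : Measure K) := by
      funext j
      rw [integral_map (measurable_imk j).aemeasurable hf.aestronglyMeasurable]
      rfl
    rw [h2] at h
    exact h

end

section

variable {K : Type*} [TopologicalSpace K] [CompactSpace K] [MeasurableSpace K] [BorelSpace K]

omit [CompactSpace K] in
theorem measurable_comp_snd (S : Set (Measure K)) (f : C(K, ℝ)) :
    Measurable fun w : Om S => f w.2 :=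
  measurable_sg.2 fun _ => f.continuous.measurable

theorem integrable_pair (S : Set (Measure K)) (G : Lp ℝ 1 (nuS S)) (f : C(K, ℝ)) :
    Integrable (fun w => f w.2 * G w) (nuS S) ∧ |∫ w, f w.2 * G w ∂(nuS S)| ≤ ‖G‖ * ‖f‖ := by
  have h1 : Integrable (fun w => G w) (nuS S) := L1.integrable_coeFn G
  have h2 : Integrable (fun w => f w.2 * G w) (nuS S) :=
    h1.bdd_mul (measurable_comp_snd S f).aestronglyMeasurable
      (Filter.Eventually.of_forall fun w => f.norm_coe_le_norm w.2)
  refine ⟨h2, ?_⟩
  rw [← Real.norm_eq_abs]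
  refine (norm_integral_le_integral_norm _).trans ?_
  rw [L1.norm_eq_integral_norm, ← integral_mul_const]
  refine integral_mono h2.norm (h1.norm.mul_const _) fun w => ?_
  show ‖f w.2 * G w‖ ≤ ‖G w‖ * ‖f‖
  rw [norm_mul, mul_comm]
  exact mul_le_mul_of_nonneg_left (f.norm_coe_le_norm w.2) (norm_nonneg _)

/-- the map from `L¹` to functionals, as a bilinear map -/
noncomputable def Phi0 (S : Set (Measure K)) : Lp ℝ 1 (nuS S) →ₗ[ℝ] C(K, ℝ) →ₗ[ℝ] ℝ :=
  LinearMap.mk₂ ℝ (fun G f => ∫ w, f w.2 * G w ∂(nuS S))
    (fun G G' f => by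
      rw [← integral_add (integrable_pair S G f).1 (integrable_pair S G' f).1]
      refine integral_congr_ae ?_
      filter_upwards [Lp.coeFn_add G G'] with w hw
      rw [hw, Pi.add_apply, mul_add])
    (fun c G f => by
      rw [smul_eq_mul, ← integral_const_mul]
      refine integral_congr_ae ?_
      filter_upwards [Lp.coeFn_smul c G] with w hw
      rw [hw, Pi.smul_apply, smul_eq_mul]
      ring)
    (fun G f f' => by
      rw [← integral_add (integrable_pair S G f).1 (integrable_pair S G f').1]
      refine integral_congr_ae (Filter.Eventually.of_forall fun w => ?_)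
      show (f + f') w.2 * G w = _
      rw [ContinuousMap.add_apply, add_mul])
    (fun c G f => by
      rw [smul_eq_mul, ← integral_const_mul]
      refine integral_congr_ae (Filter.Eventually.of_forall fun w => ?_)
      show (c • f) w.2 * G w = _
      rw [ContinuousMap.smul_apply, smul_eq_mul]
      ring)

/-- the map from `L¹` to functionals -/
noncomputable def Phi (S : Set (Measure K)) : Lp ℝ 1 (nuS S) →L[ℝ] MM K :=
  (Phi0 S).mkContinuous₂ 1 (fun G f => by
    rw [one_mul]
    exact (integrable_pair S G f).2)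

theorem Phi_apply (S : Set (Measure K)) (G : Lp ℝ 1 (nuS S)) (f : C(K, ℝ)) :
    Phi S G f = ∫ w, f w.2 * G w ∂(nuS S) := rfl

variable [T2Space K]

theorem Phi_surj {S : Set (Measure K)} (hS : Fam S)
    (hmax : ∀ σ : Measure K, Good σ → (∀ μ ∈ S, σ ⟂ₘ μ) → σ = 0) :
    Function.Surjective (Phi S) := by
  intro φ
  obtain ⟨μ₀, hμ, g, hg1, hg2, hg3⟩ := exists_good_density φ
  have hfin := hμ.fin
  have hSf : ∀ j : S, IsFiniteMeasure (j : Measure K) := fun j => (hS.1 j j.2).fin
  have hsum := eq_sum_part hS hmax μ₀ hμ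
  let G0 : Om S → ℝ := fun w => g w.2 * (μ₀.rnDeriv (w.1 : Measure K) w.2).toReal
  have hG0 : Measurable G0 := by
    refine measurable_sg.2 fun j => ?_
    show Measurable fun x => g x * (μ₀.rnDeriv (j : Measure K) x).toReal
    exact hg1.mul (Measure.measurable_rnDeriv μ₀ _).ennreal_toReal
  have hG1 : Integrable G0 (nuS S) := by
    refine ⟨hG0.aestronglyMeasurable, ?_⟩
    show ∫⁻ w, ‖G0 w‖ₑ ∂(nuS S) < ⊤
    rw [lintegral_nuS hG0.enorm]
    refine lt_of_le_of_lt ?_ (measure_lt_top μ₀ univ)
    conv_rhs => rw [← hsum]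
    rw [Measure.sum_apply _ MeasurableSet.univ]
    refine ENNReal.tsum_le_tsum fun j => ?_
    rw [part, withDensity_apply _ MeasurableSet.univ, Measure.restrict_univ]
    refine lintegral_mono fun x => ?_
    show ‖g x * (μ₀.rnDeriv (j : Measure K) x).toReal‖ₑ ≤ _
    rw [enorm_mul]
    have h1 : ‖g x‖ₑ ≤ 1 := by
      rw [Real.enorm_eq_ofReal_abs]
      exact ENNReal.ofReal_le_one.2 (hg2 x)
    have h2 : ‖(μ₀.rnDeriv (j : Measure K) x).toReal‖ₑ ≤ μ₀.rnDeriv (j : Measure K) x := by
      rw [Real.enorm_eq_ofReal_abs, abs_of_nonneg ENNReal.toReal_nonneg]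
      exact ENNReal.ofReal_toReal_le
    calc _ ≤ 1 * μ₀.rnDeriv (j : Measure K) x := mul_le_mul' h1 h2
      _ = _ := one_mul _
  refine ⟨hG1.toL1 G0, ?_⟩
  ext f
  rw [Phi_apply, hg3 f]
  have h1 : ∫ w, f w.2 * (hG1.toL1 G0) w ∂(nuS S) = ∫ w, f w.2 * G0 w ∂(nuS S) := by
    refine integral_congr_ae ?_
    filter_upwards [hG1.coeFn_toL1] with w hw
    rw [hw]
  rw [h1]
  have hm : Measurable fun w : Om S => f w.2 * G0 w := (measurable_comp_snd S f).mul hG0
  have hi : Integrable (fun w : Om S => f w.2 * G0 w) (nuS S) :=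
    hG1.bdd_mul (measurable_comp_snd S f).aestronglyMeasurable
      (Filter.Eventually.of_forall fun w => f.norm_coe_le_norm w.2)
  have h2 := (integral_nuS hm hi).2
  have hgi : Integrable (fun x => g x * f x) μ₀ := by
    have hfi : Integrable (fun x => f x) μ₀ :=
      Integrable.of_bound f.continuous.measurable.aestronglyMeasurable ‖f‖
        (Filter.Eventually.of_forall fun x => f.norm_coe_le_norm x)
    exact hfi.bdd_mul (c := 1) hg1.aestronglyMeasurable (Filter.Eventually.of_forall fun x => by
      rw [Real.norm_eq_abs]; exact hg2 x)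
  have h3 := hasSum_integral_measure (μ := fun j : S => part μ₀ j) (f := fun x => g x * f x)
    (by rw [hsum]; exact hgi)
  rw [hsum] at h3
  have h4 : (fun j : S => ∫ x, g x * f x ∂(part μ₀ j)) =
      fun j : S => ∫ x, f x * G0 ⟨j, x⟩ ∂(j : Measure K) := by
    funext j
    rw [part, integral_withDensity_eq_integral_toReal_smul (Measure.measurable_rnDeriv μ₀ _)
      (Measure.rnDeriv_lt_top μ₀ _)]
    refine integral_congr_ae (Filter.Eventually.of_forall fun x => ?_)
    show (μ₀.rnDeriv (j : Measure K) x).toReal • (g x * f x) =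
      f x * (g x * (μ₀.rnDeriv (j : Measure K) x).toReal)
    rw [smul_eq_mul]
    ring
  rw [h4] at h3
  exact h2.unique h3

end

end Pool.Agent.H180
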