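import Mathlib
import Pool.Agent.H180.Rep4

/-!
The dual of `C(K)` is isomorphic to `L¹(μ)`: injectivity and the theorem.
-/

set_option autoImplicit false

open MeasureTheory Filter Topology Set
open scoped ENNReal NNReal

namespace Pool.Agent.H180

section

variable {K : Type*} [TopologicalSpace K] [CompactSpace K] [MeasurableSpace K] [BorelSpace K]

/-- the image on `K` of a measure with density -/
noncomputable def wd (S : Set (Measure K)) (h : Om S → ℝ) (j : S) : Measure K :=
  (j : Measure K).withDensity fun x => ENNReal.ofReal (h ⟨j, x⟩)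

omit [TopologicalSpace K] [CompactSpace K] [BorelSpace K] in
theorem wd_finite {S : Set (Measure K)} {h : Om S → ℝ} (hm : Measurable h)
    (hi : Integrable h (nuS S)) : IsFiniteMeasure (Measure.sum (wd S h)) := by
  refine ⟨?_⟩
  rw [Measure.sum_apply _ MeasurableSet.univ]
  refine lt_of_le_of_lt ?_ hi.2
  show _ ≤ ∫⁻ w, ‖h w‖ₑ ∂(nuS S)
  rw [lintegral_nuS hm.enorm]
  refine ENNReal.tsum_le_tsum fun j => ?_
  rw [wd, withDensity_apply _ MeasurableSet.univ, Measure.restrict_univ]
  refine lintegral_mono fun x => ?_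
  show ENNReal.ofReal (h ⟨j, x⟩) ≤ ‖h ⟨j, x⟩‖ₑ
  rw [Real.enorm_eq_ofReal_abs]
  exact ENNReal.ofReal_le_ofReal (le_abs_self _)

theorem integral_wd {S : Set (Measure K)} {h : Om S → ℝ} (hm : Measurable h)
    (hi : Integrable h (nuS S)) (f : C(K, ℝ)) :
    ∫ x, f x ∂(Measure.sum (wd S h)) = ∫ w, f w.2 * max (h w) 0 ∂(nuS S) := by
  have hfin := wd_finite hm hi
  have hfi : Integrable (fun x => f x) (Measure.sum (wd S h)) :=
    Integrable.of_bound f.continuous.measurable.aestronglyMeasurable ‖f‖
      (Filter.Eventually.of_forall fun x => f.norm_coe_le_norm x)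
  have h1 := hasSum_integral_measure hfi
  have hm2 : Measurable fun w : Om S => f w.2 * max (h w) 0 :=
    (measurable_comp_snd S f).mul (hm.max measurable_const)
  have hi2 : Integrable (fun w : Om S => f w.2 * max (h w) 0) (nuS S) :=
    hi.pos_part.bdd_mul (measurable_comp_snd S f).aestronglyMeasurable
      (Filter.Eventually.of_forall fun w => f.norm_coe_le_norm w.2)
  have h2 := (integral_nuS hm2 hi2).2
  have h3 : (fun j : S => ∫ x, f x ∂(wd S h j)) =
      fun j : S => ∫ x, f x * max (h ⟨j, x⟩) 0 ∂(j : Measure K) := by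
    funext j
    have hmj : Measurable fun x => ENNReal.ofReal (h ⟨j, x⟩) :=
      (measurable_sg.1 hm j).ennreal_ofReal
    rw [wd, integral_withDensity_eq_integral_toReal_smul hmj
      (Filter.Eventually.of_forall fun x => ENNReal.ofReal_lt_top)]
    refine integral_congr_ae (Filter.Eventually.of_forall fun x => ?_)
    show (ENNReal.ofReal (h ⟨j, x⟩)).toReal • f x = f x * max (h ⟨j, x⟩) 0
    rw [ENNReal.toReal_ofReal', smul_eq_mul, mul_comm]
  rw [h3] at h1
  exact h1.unique h2

variable [T2Space K]

theorem Phi_inj {S : Set (Measure K)} (hS : Fam S) : Function.Injective (Phi S) := by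
  classical
  rw [injective_iff_map_eq_zero]
  intro G hG
  have hSf : ∀ j : S, IsFiniteMeasure (j : Measure K) := fun j => (hS.1 j j.2).fin
  have hm : Measurable (G : Om S → ℝ) := (Lp.stronglyMeasurable G).measurable
  have hi : Integrable (fun w => G w) (nuS S) := L1.integrable_coeFn G
  have hmn : Measurable fun w : Om S => -G w := hm.neg
  have hin : Integrable (fun w => -G w) (nuS S) := hi.neg
  have hfP := wd_finite hm hi
  have hfN := wd_finite hmn hin
  have hgood : ∀ (h : Om S → ℝ) (hf : IsFiniteMeasure (Measure.sum (wd S h))),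
      Good (Measure.sum (wd S h)) := by
    intro h hf
    refine Good.sum (fun j => ?_) hf
    have hj : IsFiniteMeasure (wd S h j) :=
      isFiniteMeasure_of_le _ (Measure.le_sum (wd S h) j)
    exact (hS.1 j j.2).of_ac hj (withDensity_absolutelyContinuous _ _)
  set P := Measure.sum (wd S fun w => G w) with hP
  set N := Measure.sum (wd S fun w => -G w) with hN
  have hPr : P.Regular := (hgood _ hfP).regular
  have hNr : N.Regular := (hgood _ hfN).regular
  have hPN : P = N := by
    refine Measure.ext_of_integral_eq_on_compactlySupported fun f0 => ?_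
    obtain ⟨f, hf0⟩ : ∃ f : C(K, ℝ), f = f0.toContinuousMap := ⟨_, rfl⟩
    have h1 := integral_wd hm hi f
    have h2 := integral_wd hmn hin f
    have h3 : ∫ x, f0 x ∂P = ∫ x, f x ∂P := by rw [hf0]; rfl
    have h4 : ∫ x, f0 x ∂N = ∫ x, f x ∂N := by rw [hf0]; rfl
    rw [h3, h4, hP, hN, h1, h2, ← sub_eq_zero]
    have hb : ∀ w : Om S, ‖f w.2‖ ≤ ‖f‖ := fun w => f.norm_coe_le_norm w.2
    rw [← integral_sub
      (hi.pos_part.bdd_mul (measurable_comp_snd S f).aestronglyMeasurable
        (Filter.Eventually.of_forall hb))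
      (hin.pos_part.bdd_mul (measurable_comp_snd S f).aestronglyMeasurable
        (Filter.Eventually.of_forall hb))]
    have h5 := Phi_apply S G f
    rw [hG] at h5
    have h6 : (0 : MM K) f = 0 := rfl
    rw [h6] at h5
    refine Eq.trans ?_ h5.symm
    refine integral_congr_ae (Filter.Eventually.of_forall fun w => ?_)
    show f w.2 * max (G w) 0 - f w.2 * max (-G w) 0 = f w.2 * G w
    rw [← mul_sub]
    congr 1
    rcases le_total 0 (G w) with h | h
    · rw [max_eq_left h, max_eq_right (by linarith)]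
      ring
    · rw [max_eq_right h, max_eq_left (by linarith)]
      ring
  -- the slices
  have hslice : ∀ j₀ : S, wd S (fun w => G w) j₀ = wd S (fun w => -G w) j₀ := by
    intro j₀
    have hrest : ∀ (h : Om S → ℝ) (hf : IsFiniteMeasure (Measure.sum (wd S h))),
        Measure.sum (fun j : S => if j = j₀ then 0 else wd S h j) ⟂ₘ (j₀ : Measure K) := by
      intro h hf
      have hle : Measure.sum (fun j : S => if j = j₀ then 0 else wd S h j) ≤
          Measure.sum (wd S h) := by
        refine Measure.le_iff.2 fun E hE => ?_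
        rw [Measure.sum_apply _ hE, Measure.sum_apply _ hE]
        refine ENNReal.tsum_le_tsum fun j => ?_
        split_ifs
        · simp
        · exact le_rfl
      have hf' := isFiniteMeasure_of_le _ hle
      refine sum_singular _ hf' _ fun j => ?_
      by_cases hj : j = j₀
      · rw [if_pos hj]
        exact Measure.MutuallySingular.zero_left
      · rw [if_neg hj]
        have h1 := hS.2 j j.2 j₀ j₀.2 (fun h => hj (Subtype.ext h))
        exact h1.mono_ac (withDensity_absolutelyContinuous _ _) Measure.AbsolutelyContinuous.rfl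
    obtain ⟨A, hA, hA1, hA2⟩ := (hrest _ hfP).add_left (hrest _ hfN)
    have hA1' := hA1
    rw [Measure.add_apply, add_eq_zero] at hA1'
    have hval : ∀ (h : Om S → ℝ),
        Measure.sum (fun j : S => if j = j₀ then 0 else wd S h j) A = 0 →
        ∀ E, MeasurableSet E → wd S h j₀ E = Measure.sum (wd S h) (E ∩ A) := by
      intro h h0 E hE
      have hz : ∀ j : S, j ≠ j₀ → wd S h j (E ∩ A) = 0 := by
        intro j hj
        have h2 : Measure.sum (fun j : S => if j = j₀ then 0 else wd S h j) (E ∩ A) = 0 :=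
          measure_mono_null Set.inter_subset_right h0
        rw [Measure.sum_apply _ (hE.inter hA), ENNReal.tsum_eq_zero] at h2
        have h3 := h2 j
        rwa [if_neg hj] at h3
      rw [Measure.sum_apply _ (hE.inter hA), tsum_eq_single j₀ hz]
      have h3 : wd S h j₀ Aᶜ = 0 := withDensity_absolutelyContinuous _ _ hA2
      rw [← measure_inter_add_sdiff E hA]
      have h4 : wd S h j₀ (E \ A) = 0 := measure_mono_null (fun x hx => hx.2) h3
      rw [h4, add_zero]
    refine Measure.ext fun E hE => ?_
    rw [hval _ hA1'.1 E hE, hval _ hA1'.2 E hE]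
    show P (E ∩ A) = N (E ∩ A)
    rw [hPN]
  have hzero : ∀ j : S, ∀ᵐ x ∂(j : Measure K), G ⟨j, x⟩ = 0 := by
    intro j
    have h1 := hslice j
    have hmj : Measurable fun x => ENNReal.ofReal (G ⟨j, x⟩) :=
      (measurable_sg.1 hm j).ennreal_ofReal
    have hmj' : Measurable fun x => ENNReal.ofReal (-G ⟨j, x⟩) :=
      (measurable_sg.1 hmn j).ennreal_ofReal
    have h2 : ∫⁻ x, ENNReal.ofReal (G ⟨j, x⟩) ∂(j : Measure K) ≠ ⊤ := by
      have h3 : IsFiniteMeasure (wd S (fun w => G w) j) :=
        isFiniteMeasure_of_le _ (Measure.le_sum (wd S fun w => G w) j)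
      have h4 := measure_ne_top (wd S (fun w => G w) j) univ
      rwa [wd, withDensity_apply _ MeasurableSet.univ, Measure.restrict_univ] at h4
    have h3 := (withDensity_eq_iff hmj.aemeasurable hmj'.aemeasurable h2).1 h1
    filter_upwards [h3] with x hx
    rcases lt_trichotomy (G ⟨j, x⟩) 0 with h | h | h
    · exfalso
      rw [ENNReal.ofReal_of_nonpos h.le, eq_comm, ENNReal.ofReal_eq_zero] at hx
      linarith
    · exact h
    · exfalso
      rw [ENNReal.ofReal_of_nonpos (by linarith : -G ⟨j, x⟩ ≤ 0), ENNReal.ofReal_eq_zero] at hx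
      linarith
  rw [Lp.eq_zero_iff_ae_eq_zero]
  have h5 : ∫⁻ w, ‖G w‖ₑ ∂(nuS S) = 0 := by
    rw [lintegral_nuS hm.enorm, ENNReal.tsum_eq_zero]
    intro j
    rw [lintegral_eq_zero_iff (measurable_sg.1 hm.enorm j)]
    filter_upwards [hzero j] with x hx
    rw [hx]
    simp
  rw [lintegral_eq_zero_iff hm.enorm] at h5
  filter_upwards [h5] with w hw
  simpa using hw

end

theorem bij_equiv {E F : Type*} [NormedAddCommGroup E] [NormedSpace ℝ E] [NormedAddCommGroup F]
    [NormedSpace ℝ F] [CompleteSpace E] [CompleteSpace F] (f : E →L[ℝ] F)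
    (h1 : Function.Injective f) (h2 : Function.Surjective f) : Nonempty (E ≃L[ℝ] F) :=
  ⟨ContinuousLinearEquiv.ofBijective f (LinearMap.ker_eq_bot.2 h1) (LinearMap.range_eq_top.2 h2)⟩

/-- **The dual of `C(K)` is isomorphic to an `L¹(μ)` space.** -/
theorem exists_L1.{u} (K : Type u) [TopologicalSpace K] [CompactSpace K] [T2Space K] :
    ∃ (Ω : Type u) (m : MeasurableSpace Ω) (μ : @Measure Ω m),
      Nonempty (MM K ≃L[ℝ] Lp ℝ 1 μ) := by
  let _ : MeasurableSpace K := borel K
  have _ : BorelSpace K := ⟨rfl⟩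
  obtain ⟨S, hS, hmax⟩ := exists_family (K := K)
  have h1 : Function.Injective (Phi S) := Phi_inj hS
  have h2 : Function.Surjective (Phi S) := Phi_surj hS hmax
  obtain ⟨e⟩ := bij_equiv (E := Lp ℝ 1 (nuS S)) (F := MM K) (Phi S) h1 h2
  exact ⟨Om S, inferInstance, nuS S, ⟨e.symm⟩⟩

end Pool.Agent.H180
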