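import Mathlib
import Pool.Agent.H180.Self
import Pool.Agent.H180.Lim

/-!
`ℓ₁`-sums of spaces of measures over the points of a Cantor cube.
-/

set_option autoImplicit false

open Filter Topology Set
open scoped Classical

namespace Pool.Agent.H180

/-- the `ℓ₁`-sum of copies of `A` over the index set `I` -/
abbrev LI (I : Type*) (A : Type*) [NormedAddCommGroup A] : Type _ := lp (fun _ : I => A) 1

section LI

variable {I : Type*} {A B : Type*} [NormedAddCommGroup A] [NormedAddCommGroup B]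

theorem LI.summable (f : LI I A) : Summable fun n => ‖f n‖ := by
  have h := (lp.memℓp (E := fun _ : I => A) (p := 1) f).summable (by norm_num)
  simp only [ENNReal.toReal_one, Real.rpow_one] at h
  exact h

/-- the element with given coordinates -/
def LI.mk (f : I → A) (hf : Summable fun n => ‖f n‖) : LI I A :=
  ⟨f, memℓp_gen (by simpa using hf)⟩

theorem LI.mk_apply (f : I → A) (hf : Summable fun n => ‖f n‖) (n : I) : LI.mk f hf n = f n := rfl

theorem LI.norm_eq (f : LI I A) : ‖f‖ = ∑' n, ‖f n‖ := by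
  have h := lp.norm_eq_tsum_rpow (E := fun _ : I => A) (p := 1) (by norm_num) f
  simp only [ENNReal.toReal_one, Real.rpow_one, div_one] at h
  exact h

theorem LI.ext {f g : LI I A} (h : ∀ n, f n = g n) : f = g := Subtype.ext (funext h)

theorem LI.norm_apply_le (f : LI I A) (n : I) : ‖f n‖ ≤ ‖f‖ := by
  rw [LI.norm_eq]
  exact (LI.summable f).le_tsum n (fun _ _ => norm_nonneg _)

variable [NormedSpace ℝ A] [NormedSpace ℝ B]

/-- a bounded linear map into `ℓ₁(I, B)` from its coordinates -/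
noncomputable def LI.pi {C : Type*} [NormedAddCommGroup C] [NormedSpace ℝ C]
    (T : I → (C →L[ℝ] B)) (K : ℝ)
    (h : ∀ y, Summable (fun n => ‖T n y‖) ∧ ∑' n, ‖T n y‖ ≤ K * ‖y‖) : C →L[ℝ] LI I B :=
  LinearMap.mkContinuous (𝕜 := ℝ) (𝕜₂ := ℝ)
    { toFun := fun y => LI.mk (fun n => T n y) (h y).1
      map_add' := fun y y' => LI.ext fun n => map_add (T n) y y'
      map_smul' := fun c y => LI.ext fun n => map_smul (T n) c y } K
    (fun y => by
      rw [LI.norm_eq]
      exact (h y).2)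

@[simp] theorem LI.pi_apply {C : Type*} [NormedAddCommGroup C] [NormedSpace ℝ C]
    (T : I → (C →L[ℝ] B)) (K : ℝ)
    (h : ∀ y, Summable (fun n => ‖T n y‖) ∧ ∑' n, ‖T n y‖ ≤ K * ‖y‖) (y : C) (n : I) :
    LI.pi T K h y n = T n y := rfl

theorem summable_norm_le' {E : Type*} [NormedAddCommGroup E] [NormedSpace ℝ E]
    (f : I → (E →L[ℝ] ℝ)) (K : ℝ)
    (h : ∀ (s : Finset I) (u : I → E), (∀ n, ‖u n‖ ≤ 1) → ∑ n ∈ s, f n (u n) ≤ K) :
    Summable (fun n => ‖f n‖) ∧ ∑' n, ‖f n‖ ≤ K := by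
  have h1 : ∀ s : Finset I, ∑ n ∈ s, ‖f n‖ ≤ K := fun s => sum_norm_le s f K (h s)
  have h2 : Summable (fun n => ‖f n‖) :=
    summable_of_sum_le (fun n => norm_nonneg _) h1
  exact ⟨h2, h2.tsum_le_of_sum_le h1⟩

/-- a family of operators into a dual space, summed over `ℓ₁(I, A)` -/
theorem LI.exists_sum {Z : Type*} [NormedAddCommGroup Z] [NormedSpace ℝ Z]
    (β : I → (A →L[ℝ] (Z →L[ℝ] ℝ))) (C : ℝ) (hC : 0 ≤ C) (h : ∀ i a, ‖β i a‖ ≤ C * ‖a‖) :
    ∃ b : LI I A →L[ℝ] (Z →L[ℝ] ℝ), ∀ f z, b f z = ∑' i, β i (f i) z := by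
  have hs : ∀ (f : LI I A) (z : Z), Summable (fun i => β i (f i) z) ∧
      |∑' i, β i (f i) z| ≤ C * ‖f‖ * ‖z‖ := by
    intro f z
    have h0 : ∀ i, ‖β i (f i) z‖ ≤ ‖f i‖ * (C * ‖z‖) := fun i => by
      refine ((β i (f i)).le_opNorm z).trans ?_
      calc ‖β i (f i)‖ * ‖z‖ ≤ C * ‖f i‖ * ‖z‖ :=
            mul_le_mul_of_nonneg_right (h i _) (norm_nonneg _)
        _ = _ := by ring
    have h1 : Summable fun i => ‖f i‖ * (C * ‖z‖) := (LI.summable f).mul_right _
    have h2 : Summable fun i => ‖β i (f i) z‖ := h1.of_nonneg_of_le (fun _ => norm_nonneg _) h0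
    refine ⟨h2.of_norm, ?_⟩
    have h3 := norm_tsum_le_tsum_norm h2
    have h4 := h2.tsum_le_tsum h0 h1
    rw [tsum_mul_right, ← LI.norm_eq] at h4
    refine h3.trans (h4.trans_eq ?_)
    ring
  let b0 : LI I A →ₗ[ℝ] Z →ₗ[ℝ] ℝ := LinearMap.mk₂ ℝ (fun f z => ∑' i, β i (f i) z)
    (fun f g z => by
      rw [← (hs f z).1.tsum_add (hs g z).1]
      congr 1
      funext i
      show β i (f i + g i) z = _
      rw [map_add, add_apply])
    (fun c f z => by
      rw [smul_eq_mul, ← tsum_mul_left]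
      congr 1
      funext i
      show β i (c • f i) z = _
      rw [map_smul, smul_apply, smul_eq_mul])
    (fun f z z' => by
      rw [← (hs f z).1.tsum_add (hs f z').1]
      congr 1
      funext i
      rw [map_add])
    (fun c f z => by
      rw [smul_eq_mul, ← tsum_mul_left]
      congr 1
      funext i
      rw [map_smul, smul_eq_mul])
  exact ⟨b0.mkContinuous₂ C (fun f z => (hs f z).2), fun f z => rfl⟩

end LI

section Points

variable {T I : Type*}

/-- insertion of a point in the first coordinates -/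
def ins (q : T → Bool) : C(T → Bool, (T ⊕ T) → Bool) :=
  ⟨fun t => Sum.elim q t, by
    refine continuous_pi fun i => ?_
    cases i with
    | inl a => exact continuous_const
    | inr m => exact continuous_apply m⟩

/-- the first coordinates -/
def prL : C((T ⊕ T) → Bool, T → Bool) := ⟨fun t a => t (Sum.inl a), by fun_prop⟩

/-- the second coordinates -/
def prR : C((T ⊕ T) → Bool, T → Bool) := ⟨fun t a => t (Sum.inr a), by fun_prop⟩

/-- multiplication by the indicator of the cylinder of `q` on the first coordinates -/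
noncomputable def cmul (F : Finset T) (q : T → Bool) : C(T → Bool, ℝ) →L[ℝ] C((T ⊕ T) → Bool, ℝ) :=
  LinearMap.mkContinuous (𝕜 := ℝ) (𝕜₂ := ℝ)
    { toFun := fun f => pull prL (cyl (pr F q)) * pull prR f
      map_add' := fun f g => by rw [map_add, mul_add]
      map_smul' := fun c f => by
        ext t
        simp only [map_smul, ContinuousMap.mul_apply, ContinuousMap.smul_apply, smul_eq_mul,
          RingHom.id_apply]
        ring } 1 (fun f => by
      rw [one_mul]
      refine (ContinuousMap.norm_le _ (norm_nonneg _)).2 fun t => ?_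
      show ‖(pull prL (cyl (pr F q)) * pull prR f) t‖ ≤ _
      rw [ContinuousMap.mul_apply, norm_mul, pull_apply, pull_apply, cyl_apply]
      have h2 : ‖f (prR t)‖ ≤ ‖f‖ := f.norm_coe_le_norm _
      split_ifs
      · rw [norm_one, one_mul]; exact h2
      · rw [norm_zero, zero_mul]; exact norm_nonneg _)

theorem cmul_apply (F : Finset T) (q : T → Bool) (f : C(T → Bool, ℝ)) (t : (T ⊕ T) → Bool) :
    cmul F q f t = (if pr F (prL t) = pr F q then 1 else 0) * f (prR t) := by
  show (pull prL (cyl (pr F q)) * pull prR f) t = _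
  rw [ContinuousMap.mul_apply, pull_apply, pull_apply, cyl_apply]

theorem exists_sep {s : Finset I} (p : I → (T → Bool)) (hp : Function.Injective p) :
    ∃ F : Finset T, ∀ i ∈ s, ∀ j ∈ s, pr F (p i) = pr F (p j) → i = j := by
  have h1 : ∀ i j : I, ∃ F : Finset T, pr F (p i) = pr F (p j) → i = j := by
    intro i j
    by_cases hij : i = j
    · exact ⟨∅, fun _ => hij⟩
    · obtain ⟨a, ha⟩ := Function.ne_iff.1 (fun h => hij (hp h))
      refine ⟨{a}, fun h => ?_⟩
      exact absurd (congrFun h ⟨a, Finset.mem_singleton_self a⟩) ha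
  choose F hF using h1
  refine ⟨(s ×ˢ s).biUnion fun q => F q.1 q.2, fun i hi j hj hij => hF i j ?_⟩
  exact pr_mono (Finset.subset_biUnion_of_mem (fun q : I × I => F q.1 q.2)
    (Finset.mk_mem_product hi hj)) hij

theorem norm_cmul_le (F : Finset T) (q : T → Bool) (f : C(T → Bool, ℝ)) : ‖cmul F q f‖ ≤ ‖f‖ := by
  refine (ContinuousMap.norm_le _ (norm_nonneg _)).2 fun t => ?_
  rw [cmul_apply, norm_mul]
  have h2 : ‖f (prR t)‖ ≤ ‖f‖ := f.norm_coe_le_norm _
  split_ifs
  · rw [norm_one, one_mul]; exact h2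
  · rw [norm_zero, zero_mul]; exact norm_nonneg _

theorem norm_push_ins_le (q : T → Bool) (ν : MM (T → Bool)) : ‖push (ins q) ν‖ ≤ 1 * ‖ν‖ := by
  rw [one_mul]
  refine ContinuousLinearMap.opNorm_le_bound _ (norm_nonneg ν) fun f => ?_
  rw [push_apply]
  refine (ν.le_opNorm _).trans ?_
  exact mul_le_mul_of_nonneg_left (norm_pull_le _ f) (norm_nonneg ν)

/-- the coordinates -/
theorem exists_Q (V : Ultrafilter (Finset T)) (q : T → Bool) :
    ∃ Q : MM ((T ⊕ T) → Bool) →L[ℝ] MM (T → Bool), ∀ μ f,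
      Tendsto (fun F => μ (cmul F q f)) V (𝓝 (Q μ f)) := by
  obtain ⟨Q, hQ, -⟩ := exists_lim V
    (fun (F : Finset T) (μ : MM ((T ⊕ T) → Bool)) (f : C(T → Bool, ℝ)) => μ (cmul F q f)) 1
    (fun F μ f => by
      rw [one_mul]
      exact (μ.le_opNorm _).trans (mul_le_mul_of_nonneg_left (norm_cmul_le F q f) (norm_nonneg μ)))
    (fun μ μ' f => Tendsto.congr (fun F => by rw [add_apply]; ring) tendsto_const_nhds)
    (fun c μ f => Tendsto.congr (fun F => by rw [smul_apply, smul_eq_mul]; ring)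
      tendsto_const_nhds)
    (fun μ f f' => Tendsto.congr (fun F => by rw [map_add, map_add]; ring) tendsto_const_nhds)
    (fun c μ f => Tendsto.congr (fun F => by rw [map_smul, map_smul, smul_eq_mul]; ring)
      tendsto_const_nhds)
  exact ⟨Q, hQ⟩

theorem norm_sum_cmul_le (p : I → (T → Bool)) (s : Finset I) (F : Finset T)
    (hF : ∀ i ∈ s, ∀ j ∈ s, pr F (p i) = pr F (p j) → i = j) (u : I → C(T → Bool, ℝ))
    (hu : ∀ i, ‖u i‖ ≤ 1) : ‖∑ i ∈ s, cmul F (p i) (u i)‖ ≤ 1 := by
  refine (ContinuousMap.norm_le _ zero_le_one).2 fun t => ?_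
  rw [ContinuousMap.sum_apply]
  by_cases ht : ∃ i ∈ s, pr F (prL t) = pr F (p i)
  · obtain ⟨i, hi, hti⟩ := ht
    rw [Finset.sum_eq_single_of_mem i hi]
    · rw [cmul_apply, if_pos hti, one_mul]
      exact ((u i).norm_coe_le_norm _).trans (hu i)
    · intro j hj hji
      rw [cmul_apply, if_neg, zero_mul]
      intro htj
      exact hji (hF j hj i hi (htj.symm.trans hti))
  · push Not at ht
    rw [Finset.sum_eq_zero, norm_zero]
    · exact zero_le_one
    · intro i hi
      rw [cmul_apply, if_neg (ht i hi), zero_mul]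

theorem Q_bound (V : Ultrafilter (Finset T)) (hV : (V : Filter (Finset T)) ≤ atTop)
    (p : I → (T → Bool)) (hp : Function.Injective p)
    (Q : I → (MM ((T ⊕ T) → Bool) →L[ℝ] MM (T → Bool)))
    (hQ : ∀ i μ f, Tendsto (fun F => μ (cmul F (p i) f)) V (𝓝 (Q i μ f)))
    (μ : MM ((T ⊕ T) → Bool)) :
    Summable (fun i => ‖Q i μ‖) ∧ ∑' i, ‖Q i μ‖ ≤ 1 * ‖μ‖ := by
  rw [one_mul]
  refine summable_norm_le' (fun i => Q i μ) ‖μ‖ fun s u hu => ?_
  have h1 : Tendsto (fun F => ∑ i ∈ s, μ (cmul F (p i) (u i))) V (𝓝 (∑ i ∈ s, Q i μ (u i))) :=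
    tendsto_finsetSum _ fun i _ => hQ i μ (u i)
  refine le_of_tendsto h1 ?_
  obtain ⟨F₀, hF₀⟩ := exists_sep (s := s) p hp
  have hev : ∀ᶠ F in (atTop : Filter (Finset T)), F₀ ≤ F := eventually_ge_atTop _
  filter_upwards [hV hev] with F hF
  rw [← map_sum]
  refine (le_abs_self _).trans ((μ.le_opNorm _).trans ?_)
  have h2 := norm_sum_cmul_le p s F (fun i hi j hj h => hF₀ i hi j hj (pr_mono hF h)) u hu
  have h3 : 0 ≤ ‖μ‖ := norm_nonneg μ
  nlinarith

theorem pull_ins_cmul (F : Finset T) (q q' : T → Bool) (f : C(T → Bool, ℝ)) :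
    pull (ins q') (cmul F q f) = (if pr F q' = pr F q then (1 : ℝ) else 0) • f := by
  ext t
  rw [pull_apply, cmul_apply, ContinuousMap.smul_apply]
  rfl

theorem J_cmul (p : I → (T → Bool)) (J : LI I (MM (T → Bool)) →L[ℝ] MM ((T ⊕ T) → Bool))
    (hJ : ∀ ν f, J ν f = ∑' i, push (ins (p i)) (ν i) f) (ν : LI I (MM (T → Bool)))
    (F : Finset T) (i : I) (f : C(T → Bool, ℝ)) :
    J ν (cmul F (p i) f) = ∑' i', (if pr F (p i') = pr F (p i) then ν i' f else 0) := by
  rw [hJ]
  congr 1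
  funext i'
  rw [push_apply, pull_ins_cmul]
  split_ifs
  · rw [one_smul]
  · rw [zero_smul, map_zero]

theorem tendsto_J (V : Ultrafilter (Finset T)) (hV : (V : Filter (Finset T)) ≤ atTop)
    (p : I → (T → Bool)) (hp : Function.Injective p) (ν : LI I (MM (T → Bool))) (i : I)
    (f : C(T → Bool, ℝ)) :
    Tendsto (fun F : Finset T => ∑' i', (if pr F (p i') = pr F (p i) then ν i' f else 0)) V
      (𝓝 (ν i f)) := by
  have h3 : ν i f = ∑' i', (if i' = i then ν i' f else 0) := by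
    rw [tsum_ite_eq]
  rw [h3]
  refine tendsto_tsum_of_dominated_convergence (bound := fun i' => ‖ν i'‖ * ‖f‖)
    ((LI.summable ν).mul_right _) (fun i' => ?_) (Filter.Eventually.of_forall fun F i' => ?_)
  · refine Tendsto.congr' ?_ tendsto_const_nhds
    obtain ⟨F₀, hF₀⟩ := exists_sep (s := {i, i'}) p hp
    have hev : ∀ᶠ F in (atTop : Filter (Finset T)), F₀ ≤ F := eventually_ge_atTop _
    filter_upwards [hV hev] with F hF
    by_cases hii : i' = i
    · rw [if_pos hii, if_pos (by rw [hii])]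
    · rw [if_neg hii, if_neg]
      intro h
      exact hii (hF₀ i' (by simp) i (by simp) (pr_mono hF h))
  · split_ifs
    · exact (ν i').le_opNorm f
    · rw [norm_zero]; positivity

/-- the embedding -/
theorem exists_J (p : I → (T → Bool)) : ∃ J : LI I (MM (T → Bool)) →L[ℝ] MM ((T ⊕ T) → Bool),
    ∀ ν f, J ν f = ∑' i, push (ins (p i)) (ν i) f := by
  have h := LI.exists_sum (I := I) (A := MM (T → Bool)) (Z := C((T ⊕ T) → Bool, ℝ))
    (fun i => push (ins (p i))) 1 zero_le_one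
  exact h (fun i ν => norm_push_ins_le (p i) ν)

/-- the `ℓ₁`-sum over a set of points of the cube -/
theorem cpl_points (p : I → (T → Bool)) (hp : Function.Injective p) :
    Cpl (LI I (MM (T → Bool))) (MM ((T ⊕ T) → Bool)) := by
  obtain ⟨J, hJ⟩ := exists_J p
  obtain ⟨V, hV⟩ : ∃ V : Ultrafilter (Finset T), (V : Filter (Finset T)) ≤ atTop :=
    ⟨Ultrafilter.of atTop, Ultrafilter.of_le _⟩
  choose Q hQ using fun i => exists_Q V (p i)
  refine ⟨J, LI.pi Q 1 (Q_bound V hV p hp Q hQ), fun ν => LI.ext fun i => ?_⟩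
  ext f
  rw [LI.pi_apply]
  refine tendsto_nhds_unique (hQ i (J ν) f) ?_
  simp only [J_cmul p J hJ]
  exact tendsto_J V hV p hp ν i f

end Points

end Pool.Agent.H180
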