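import Mathlib
import Pool.Agent.H180.Pts

/-!
A finite measure and a family of bounded functions which is small in `L¹`: the functions are recovered from
functions on the Cantor cube.
-/

set_option autoImplicit false

open Filter Topology Set MeasureTheory
open scoped Classical

namespace Pool.Agent.H180

/-- finite grids -/
theorem exists_grid (M ε : ℝ) (hε : 0 < ε) : ∃ G : Finset ℚ, ∀ a b : ℝ, |a| ≤ M → |b| ≤ M →
    a + ε ≤ b → ∃ q ∈ G, a ≤ (q : ℝ) ∧ (q : ℝ) < b := by
  obtain ⟨n, hn⟩ := exists_nat_gt (1 / ε)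
  have hn0 : (0 : ℝ) < n := lt_trans (by positivity) hn
  obtain ⟨m, hm⟩ := exists_nat_gt (n * M + 1)
  refine ⟨(Finset.Icc (-(m : ℤ)) m).image fun k : ℤ => (k : ℚ) / n, fun a b ha hb hab => ?_⟩
  have h1 : (1 : ℝ) / n < ε := by
    rw [div_lt_iff₀ hn0]
    rw [div_lt_iff₀ hε] at hn
    linarith
  have h2 := Int.le_ceil (a * n)
  have h3 := Int.ceil_lt_add_one (a * n)
  refine ⟨((⌈a * n⌉ : ℤ) : ℚ) / n, ?_, ?_, ?_⟩
  · refine Finset.mem_image_of_mem _ (Finset.mem_Icc.2 ⟨?_, ?_⟩)
    · have h4 : -(m : ℝ) ≤ (⌈a * n⌉ : ℤ) := by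
        have := (abs_le.1 ha).1
        nlinarith
      exact_mod_cast h4
    · have h4 : ((⌈a * n⌉ : ℤ) : ℝ) ≤ m := by
        have := (abs_le.1 ha).2
        nlinarith
      exact_mod_cast h4
  · push_cast
    rw [le_div_iff₀ hn0]
    exact h2
  · push_cast
    rw [div_lt_iff₀ hn0]
    have h5 : b * n ≥ (a + ε) * n := mul_le_mul_of_nonneg_right hab hn0.le
    rw [div_lt_iff₀ hn0] at h1
    nlinarith

section

variable {K : Type*} [MeasurableSpace K] {Q : Type*}

/-- the cells of the partition of `K` given by finitely many coordinates -/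
def cell (φ : K → Q → Bool) (F : Finset Q) (s : F → Bool) : Set K := {x | pr F (φ x) = s}

theorem measurableSet_cell {φ : K → Q → Bool} (hφ : ∀ q, Measurable fun x => φ x q) (F : Finset Q)
    (s : F → Bool) : MeasurableSet (cell φ F s) := by
  have h1 : Measurable fun x => pr F (φ x) := measurable_pi_iff.2 fun i => hφ i
  exact h1 (measurableSet_singleton s)

theorem integral_cells {φ : K → Q → Bool} (hφ : ∀ q, Measurable fun x => φ x q) (F : Finset Q)
    (j : Measure K) (f : K → ℝ) (hf : Integrable f j) :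
    ∫ x, f x ∂j = ∑ s, ∫ x in cell φ F s, f x ∂j := by
  have h1 : (⋃ s, cell φ F s) = univ := by
    refine Set.eq_univ_of_forall fun x => mem_iUnion.2 ⟨pr F (φ x), rfl⟩
  rw [← integral_iUnion_fintype (fun s => measurableSet_cell hφ F s) ?_ (fun s => hf.integrableOn),
    h1, setIntegral_univ]
  intro s s' hss
  refine Set.disjoint_left.2 fun x hx hx' => hss ?_
  rw [← (show pr F (φ x) = s from hx)]
  exact hx'

/-- the averages -/
noncomputable def avg (j : Measure K) (φ : K → Q → Bool) (F : Finset Q) (f : K → ℝ) (s : F → Bool) : ℝ :=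
  (j.real (cell φ F s))⁻¹ * ∫ x in cell φ F s, f x ∂j

theorem avg_abs_le {j : Measure K} [IsFiniteMeasure j] {φ : K → Q → Bool} {F : Finset Q}
    {f : K → ℝ} {s : F → Bool} (C : ℝ) (hC : 0 ≤ C) (h : ∀ x, |f x| ≤ C) : |avg j φ F f s| ≤ C := by
  rw [avg, abs_mul, abs_inv, abs_of_nonneg measureReal_nonneg]
  rcases eq_or_lt_of_le (measureReal_nonneg (μ := j) (s := cell φ F s)) with h0 | h0
  · rw [← h0, inv_zero, zero_mul]
    exact hC
  · rw [inv_mul_le_iff₀ h0]
    have h1 := norm_setIntegral_le_of_norm_le_const (μ := j) (s := cell φ F s) (f := f) (C := C)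
      (measure_lt_top j _) (fun x _ => h x)
    rw [Real.norm_eq_abs] at h1
    linarith

theorem avg_mul_le {j : Measure K} [IsFiniteMeasure j] {φ : K → Q → Bool} {F : Finset Q}
    {f : K → ℝ} {s : F → Bool} :
    |avg j φ F f s| * j.real (cell φ F s) ≤ ∫ x in cell φ F s, |f x| ∂j := by
  have h2 : |∫ x in cell φ F s, f x ∂j| ≤ ∫ x in cell φ F s, |f x| ∂j := abs_integral_le_integral_abs
  rw [avg, abs_mul, abs_inv, abs_of_nonneg measureReal_nonneg]
  rcases eq_or_lt_of_le (measureReal_nonneg (μ := j) (s := cell φ F s)) with h0 | h0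
  · rw [← h0, mul_zero]
    exact (abs_nonneg _).trans h2
  · rw [mul_comm (j.real _)⁻¹, mul_assoc, inv_mul_cancel₀ h0.ne', mul_one]
    exact h2

/-- averages contract `L¹` -/
theorem integral_avg_le {j : Measure K} [IsFiniteMeasure j] {φ : K → Q → Bool}
    (hφ : ∀ q, Measurable fun x => φ x q) (F : Finset Q) {f : K → ℝ} (hf : Integrable f j) :
    ∫ x, |avg j φ F f (pr F (φ x))| ∂j ≤ ∫ x, |f x| ∂j := by
  have hm : Measurable fun x => |avg j φ F f (pr F (φ x))| := by
    have h1 : Measurable fun x => pr F (φ x) := measurable_pi_iff.2 fun i => hφ i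
    have h2 : Measurable fun s : F → Bool => |avg j φ F f s| := Measurable.of_discrete
    exact h2.comp h1
  obtain ⟨C, hC⟩ : ∃ C, ∀ s : F → Bool, |avg j φ F f s| ≤ C := by
    obtain ⟨C, hC⟩ := (Set.finite_range fun s : F → Bool => |avg j φ F f s|).bddAbove
    exact ⟨C, fun s => hC ⟨s, rfl⟩⟩
  have hi : Integrable (fun x => |avg j φ F f (pr F (φ x))|) j :=
    Integrable.of_bound hm.aestronglyMeasurable C (Filter.Eventually.of_forall fun x => by
      rw [Real.norm_eq_abs, abs_abs]
      exact hC _)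
  rw [integral_cells hφ F j _ hi, integral_cells hφ F j _ hf.abs]
  refine Finset.sum_le_sum fun s _ => ?_
  have h1 : ∫ x in cell φ F s, |avg j φ F f (pr F (φ x))| ∂j =
      ∫ x in cell φ F s, |avg j φ F f s| ∂j := by
    refine setIntegral_congr_fun (measurableSet_cell hφ F s) fun x hx => ?_
    have : pr F (φ x) = s := hx
    show |avg j φ F f (pr F (φ x))| = _
    rw [this]
  rw [h1, setIntegral_const, smul_eq_mul, mul_comm]
  exact avg_mul_le

/-- averages are close to functions with small oscillation on the cells -/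
theorem integral_avg_sub_le {j : Measure K} [IsFiniteMeasure j] {φ : K → Q → Bool}
    (hφ : ∀ q, Measurable fun x => φ x q) (F : Finset Q) {f : K → ℝ} (hf : Measurable f)
    {C : ℝ} (hC : ∀ x, |f x| ≤ C) {ε : ℝ} (hε : 0 ≤ ε)
    (hosc : ∀ x y, pr F (φ x) = pr F (φ y) → |f x - f y| ≤ ε) :
    ∫ x, |avg j φ F f (pr F (φ x)) - f x| ∂j ≤ ε * j.real univ := by
  have hfi : Integrable f j := Integrable.of_bound hf.aestronglyMeasurable C
    (Filter.Eventually.of_forall fun x => hC x)
  have hm : Measurable fun x => |avg j φ F f (pr F (φ x)) - f x| := by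
    have h1 : Measurable fun x => pr F (φ x) := measurable_pi_iff.2 fun i => hφ i
    have h2 : Measurable fun s : F → Bool => avg j φ F f s := Measurable.of_discrete
    exact ((h2.comp h1).sub hf).abs
  have hC0 : ∀ x : K, 0 ≤ C := fun x => (abs_nonneg _).trans (hC x)
  have hi : Integrable (fun x => |avg j φ F f (pr F (φ x)) - f x|) j :=
    Integrable.of_bound hm.aestronglyMeasurable (C + C) (Filter.Eventually.of_forall fun x => by
      rw [Real.norm_eq_abs, abs_abs]
      exact (abs_sub _ _).trans (add_le_add (avg_abs_le C (hC0 x) hC) (hC x)))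
  rw [integral_cells hφ F j _ hi]
  have h0 : ε * j.real univ = ∑ s : F → Bool, ε * j.real (cell φ F s) := by
    rw [← Finset.mul_sum]
    congr 1
    have h1 := integral_cells hφ F j (fun _ => (1 : ℝ)) (integrable_const _)
    simp only [integral_const, smul_eq_mul, mul_one, measureReal_restrict_apply_univ] at h1
    exact h1
  rw [h0]
  refine Finset.sum_le_sum fun s _ => ?_
  rcases eq_or_lt_of_le (measureReal_nonneg (μ := j) (s := cell φ F s)) with h1 | h1
  · rw [← h1, mul_zero]
    have h2 : j (cell φ F s) = 0 := by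
      rw [Measure.real, eq_comm, ENNReal.toReal_eq_zero_iff] at h1
      exact h1.resolve_right (measure_ne_top _ _)
    rw [Measure.restrict_eq_zero.2 h2]
    simp
  · have h2 : ∀ x ∈ cell φ F s, |avg j φ F f (pr F (φ x)) - f x| ≤ ε := by
      intro x hx
      have hx' : pr F (φ x) = s := hx
      rw [hx']
      have h3 : avg j φ F f s - f x = (j.real (cell φ F s))⁻¹ * ∫ y in cell φ F s, (f y - f x) ∂j := by
        rw [integral_sub hfi.integrableOn (integrable_const _), setIntegral_const, smul_eq_mul, avg,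
          mul_sub, ← mul_assoc, inv_mul_cancel₀ h1.ne', one_mul]
      rw [h3, abs_mul, abs_inv, abs_of_pos h1, inv_mul_le_iff₀ h1]
      have h4 := norm_setIntegral_le_of_norm_le_const (μ := j) (s := cell φ F s)
        (f := fun y => f y - f x) (C := ε) (measure_lt_top j _) (fun y hy => by
          rw [Real.norm_eq_abs]
          exact hosc y x ((show pr F (φ y) = s from hy).trans hx'.symm))
      rw [Real.norm_eq_abs] at h4
      linarith
    have h3 : ∫ x in cell φ F s, |avg j φ F f (pr F (φ x)) - f x| ∂j ≤ ∫ x in cell φ F s, ε ∂j :=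
      setIntegral_mono_on hi.integrableOn (integrable_const _) (measurableSet_cell hφ F s) h2
    rw [setIntegral_const, smul_eq_mul] at h3
    linarith

/-- truncation of integrable functions -/
theorem exists_trunc {j : Measure K} {g : K → ℝ} (hg : Measurable g) (hgi : Integrable g j) {δ : ℝ}
    (hδ : 0 < δ) : ∃ (M : ℝ) (g' : K → ℝ), 0 ≤ M ∧ Measurable g' ∧ (∀ x, |g' x| ≤ M) ∧
      (∀ x, |g' x| ≤ |g x|) ∧ ∫ x, |g x - g' x| ∂j ≤ δ := by
  let t : ℕ → K → ℝ := fun n x => if |g x| ≤ n then g x else 0
  have ht : ∀ n, Measurable (t n) := fun n =>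
    Measurable.ite (measurableSet_le hg.abs measurable_const) hg measurable_const
  have h1 : Tendsto (fun n : ℕ => ∫ x, |g x - t n x| ∂j) atTop (𝓝 (∫ _, (0 : ℝ) ∂j)) := by
    refine tendsto_integral_of_dominated_convergence (fun x => |g x|)
      (fun n => ((hg.sub (ht n)).abs).aestronglyMeasurable) hgi.abs (fun n => ?_) ?_
    · refine Filter.Eventually.of_forall fun x => ?_
      rw [Real.norm_eq_abs, abs_abs]
      show |g x - if |g x| ≤ n then g x else 0| ≤ _
      split_ifs
      · rw [sub_self, abs_zero]; exact abs_nonneg _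
      · rw [sub_zero]
    · refine Filter.Eventually.of_forall fun x => ?_
      obtain ⟨N, hN⟩ := exists_nat_ge |g x|
      refine Tendsto.congr' ?_ tendsto_const_nhds
      filter_upwards [eventually_ge_atTop N] with n hn
      have : |g x| ≤ n := hN.trans (by exact_mod_cast hn)
      show (0 : ℝ) = |g x - if |g x| ≤ n then g x else 0|
      rw [if_pos this, sub_self, abs_zero]
  rw [integral_zero] at h1
  obtain ⟨n, hn⟩ := (h1.eventually (Iic_mem_nhds hδ)).exists
  refine ⟨n, t n, by positivity, ht n, fun x => ?_, fun x => ?_, hn⟩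
  · show |if |g x| ≤ n then g x else 0| ≤ _
    split_ifs with h
    · exact h
    · rw [abs_zero]; positivity
  · show |if |g x| ≤ n then g x else 0| ≤ _
    split_ifs
    · exact le_rfl
    · rw [abs_zero]; exact abs_nonneg _

end

end Pool.Agent.H180
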