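import Mathlib
import Pool.Agent.H180.UpA

/-!
The operator which recovers a functional on `Z` from a measure on the Cantor cube.
-/

set_option autoImplicit false

open Filter Topology Set MeasureTheory
open scoped Classical

namespace Pool.Agent.H180

/-- a linear family of bounded measurable functions -/
structure Fml (Z : Type*) [NormedAddCommGroup Z] [NormedSpace ℝ Z] {K : Type*} [MeasurableSpace K]
    (L : Z → K → ℝ) : Prop where
  meas : ∀ z, Measurable (L z)
  add : ∀ z z' x, L (z + z') x = L z x + L z' x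
  smul : ∀ (c : ℝ) z x, L (c • z) x = c * L z x
  bd : ∀ z x, |L z x| ≤ ‖z‖

section

variable {Z : Type*} [NormedAddCommGroup Z] [NormedSpace ℝ Z] {K : Type*} [MeasurableSpace K]
  {L : Z → K → ℝ} {T : Type*}

/-- the coding -/
noncomputable def phi (L : Z → K → ℝ) (zt : T → Z) (x : K) (p : T × ℚ) : Bool :=
  decide ((p.2 : ℝ) < L (zt p.1) x)

theorem Fml.measurable_phi (hL : Fml Z L) (zt : T → Z) (p : T × ℚ) :
    Measurable fun x => phi L zt x p := by
  refine measurable_to_bool ?_
  have h1 : (fun x => phi L zt x p) ⁻¹' {true} = {x | (p.2 : ℝ) < L (zt p.1) x} := by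
    ext x
    simp [phi]
  rw [h1]
  exact measurableSet_lt measurable_const (hL.meas (zt p.1))

theorem Fml.sub (hL : Fml Z L) (z z' : Z) (x : K) : L (z - z') x = L z x - L z' x := by
  rw [sub_eq_add_neg, hL.add, ← neg_one_smul ℝ z', hL.smul]
  ring

variable {j : Measure K} [IsFiniteMeasure j]

theorem Fml.integrable (hL : Fml Z L) (z : Z) : Integrable (L z) j :=
  Integrable.of_bound (hL.meas z).aestronglyMeasurable ‖z‖
    (Filter.Eventually.of_forall fun x => hL.bd z x)

theorem Fml.avg_add (hL : Fml Z L) (φ : K → T × ℚ → Bool) (F : Finset (T × ℚ)) (z z' : Z)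
    (s : F → Bool) : avg j φ F (L (z + z')) s = avg j φ F (L z) s + avg j φ F (L z') s := by
  have h1 : L (z + z') = fun x => L z x + L z' x := funext fun x => hL.add z z' x
  rw [avg, avg, avg, h1, integral_add (hL.integrable z).integrableOn (hL.integrable z').integrableOn,
    mul_add]

omit [IsFiniteMeasure j] in
theorem Fml.avg_smul (hL : Fml Z L) (φ : K → T × ℚ → Bool) (F : Finset (T × ℚ)) (c : ℝ) (z : Z)
    (s : F → Bool) : avg j φ F (L (c • z)) s = c * avg j φ F (L z) s := by
  have h1 : L (c • z) = fun x => c * L z x := funext fun x => hL.smul c z x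
  rw [avg, avg, h1, integral_const_mul]
  ring

/-- the averages converge in `L¹` -/
theorem Fml.tendsto_avg (hL : Fml Z L) (zt : T → Z)
    (hz : ∀ z, ∀ ε : ℝ, 0 < ε → ∃ t, ∫ x, |L z x - L (zt t) x| ∂j ≤ ε) (z : Z) :
    Tendsto (fun F : Finset (T × ℚ) =>
      ∫ x, |avg j (phi L zt) F (L z) (pr F (phi L zt x)) - L z x| ∂j) atTop (𝓝 0) := by
  rw [Metric.tendsto_nhds]
  intro ε hε
  set R : ℝ := j.real univ + 1 with hR
  have hR0 : 0 < R := by positivity
  obtain ⟨t, ht⟩ := hz z (ε / 4) (by positivity)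
  obtain ⟨G, hG⟩ := exists_grid ‖zt t‖ (ε / (4 * R)) (by positivity)
  filter_upwards [eventually_ge_atTop (G.image fun q => (t, q))] with F hF
  have hφ := fun p => hL.measurable_phi zt p
  set φ := phi L zt with hφdef
  have hosc : ∀ x y, pr F (φ x) = pr F (φ y) → |L (zt t) x - L (zt t) y| ≤ ε / (4 * R) := by
    have key : ∀ x y, pr F (φ x) = pr F (φ y) → L (zt t) y - L (zt t) x ≤ ε / (4 * R) := by
      intro x y hxy
      by_contra hc
      push Not at hc
      obtain ⟨q, hq, h1, h2⟩ := hG (L (zt t) x) (L (zt t) y) (hL.bd _ _) (hL.bd _ _) (by linarith)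
      have hmem : (t, q) ∈ F := hF (Finset.mem_image_of_mem _ hq)
      have h3 : φ x (t, q) = φ y (t, q) := congrFun hxy ⟨(t, q), hmem⟩
      have h4 : φ x (t, q) = false := decide_eq_false (not_lt.2 h1)
      have h5 : φ y (t, q) = true := decide_eq_true h2
      rw [h4, h5] at h3
      exact absurd h3 (by simp)
    intro x y hxy
    rw [abs_le]
    constructor
    · have := key x y hxy
      linarith
    · exact key y x hxy.symm
  have h1 := integral_avg_sub_le (j := j) hφ F (hL.meas (zt t)) (hL.bd (zt t))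
    (by positivity : 0 ≤ ε / (4 * R)) hosc
  have h2 : ∫ x, |avg j φ F (L (z - zt t)) (pr F (φ x))| ∂j ≤ ε / 4 := by
    refine (integral_avg_le hφ F (hL.integrable (z - zt t))).trans ?_
    refine le_trans (le_of_eq ?_) ht
    refine integral_congr_ae (Filter.Eventually.of_forall fun x => ?_)
    show |L (z - zt t) x| = |L z x - L (zt t) x|
    rw [hL.sub]
  have hmA : ∀ z, Measurable fun x => avg j φ F (L z) (pr F (φ x)) := by
    intro z
    have h1 : Measurable fun x => pr F (φ x) := measurable_pi_iff.2 fun i => hφ i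
    have h2 : Measurable fun s : F → Bool => avg j φ F (L z) s := Measurable.of_discrete
    exact h2.comp h1
  have hiA : ∀ z, Integrable (fun x => avg j φ F (L z) (pr F (φ x))) j := fun z =>
    Integrable.of_bound (hmA z).aestronglyMeasurable ‖z‖ (Filter.Eventually.of_forall fun x =>
      avg_abs_le _ (norm_nonneg _) (hL.bd z))
  have h3 : ∫ x, |avg j φ F (L z) (pr F (φ x)) - L z x| ∂j ≤
      ∫ x, (|avg j φ F (L (z - zt t)) (pr F (φ x))| +
        |avg j φ F (L (zt t)) (pr F (φ x)) - L (zt t) x| + |L z x - L (zt t) x|) ∂j := by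
    refine integral_mono ((hiA z).sub (hL.integrable z)).abs
      (((hiA _).abs.add ((hiA _).sub (hL.integrable _)).abs).add
        ((hL.integrable z).sub (hL.integrable (zt t))).abs) fun x => ?_
    show |avg j φ F (L z) (pr F (φ x)) - L z x| ≤ _
    have e1 : avg j φ F (L z) (pr F (φ x)) = avg j φ F (L (z - zt t)) (pr F (φ x)) +
        avg j φ F (L (zt t)) (pr F (φ x)) := by
      rw [← hL.avg_add, sub_add_cancel]
    rw [e1]
    have e2 : avg j φ F (L (z - zt t)) (pr F (φ x)) + avg j φ F (L (zt t)) (pr F (φ x)) - L z x =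
        avg j φ F (L (z - zt t)) (pr F (φ x)) +
        (avg j φ F (L (zt t)) (pr F (φ x)) - L (zt t) x) - (L z x - L (zt t) x) := by ring
    rw [e2]
    refine (abs_sub _ _).trans ?_
    exact add_le_add (abs_add_le _ _) le_rfl
  have h4 : ∫ x, (|avg j φ F (L (z - zt t)) (pr F (φ x))| +
        |avg j φ F (L (zt t)) (pr F (φ x)) - L (zt t) x| + |L z x - L (zt t) x|) ∂j =
      ∫ x, |avg j φ F (L (z - zt t)) (pr F (φ x))| ∂j +
        ∫ x, |avg j φ F (L (zt t)) (pr F (φ x)) - L (zt t) x| ∂j +
        ∫ x, |L z x - L (zt t) x| ∂j := by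
    rw [integral_add, integral_add]
    · exact (hiA _).abs
    · exact ((hiA _).sub (hL.integrable _)).abs
    · exact (hiA _).abs.add ((hiA _).sub (hL.integrable _)).abs
    · exact ((hL.integrable z).sub (hL.integrable (zt t))).abs
  rw [h4] at h3
  have h5 : ε / (4 * R) * j.real univ ≤ ε / 4 := by
    rw [div_mul_eq_mul_div, div_le_div_iff₀ (by positivity) (by norm_num)]
    have : j.real univ ≤ R := by rw [hR]; linarith
    nlinarith
  rw [Real.dist_eq, sub_zero, abs_of_nonneg (integral_nonneg fun x => abs_nonneg _)]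
  linarith

/-- the averages converge against integrable functions -/
theorem Fml.tendsto_integral (hL : Fml Z L) (zt : T → Z)
    (hz : ∀ z, ∀ ε : ℝ, 0 < ε → ∃ t, ∫ x, |L z x - L (zt t) x| ∂j ≤ ε) (z : Z)
    {g : K → ℝ} (hg : Measurable g) (hgi : Integrable g j) :
    Tendsto (fun F : Finset (T × ℚ) =>
      ∫ x, avg j (phi L zt) F (L z) (pr F (phi L zt x)) * g x ∂j) atTop
      (𝓝 (∫ x, L z x * g x ∂j)) := by
  have hφ := fun p => hL.measurable_phi zt p
  have h0 := hL.tendsto_avg (j := j) zt hz z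
  set φ := phi L zt with hφdef
  have hmA : ∀ F, Measurable fun x => avg j φ F (L z) (pr F (φ x)) := by
    intro F
    have h1 : Measurable fun x => pr F (φ x) := measurable_pi_iff.2 fun i => hφ i
    have h2 : Measurable fun s : F → Bool => avg j φ F (L z) s := Measurable.of_discrete
    exact h2.comp h1
  have hbA : ∀ F x, |avg j φ F (L z) (pr F (φ x))| ≤ ‖z‖ := fun F x =>
    avg_abs_le _ (norm_nonneg _) (hL.bd z)
  rw [Metric.tendsto_nhds]
  intro ε hε
  obtain ⟨M, g', hM, hg', hgM, hgg, hδ⟩ := exists_trunc (j := j) hg hgi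
    (δ := ε / (4 * (‖z‖ + 1))) (by positivity)
  filter_upwards [(Metric.tendsto_nhds.1 h0) (ε / (2 * (M + 1))) (by positivity)] with F hF
  rw [Real.dist_eq, sub_zero, abs_of_nonneg (integral_nonneg fun x => abs_nonneg _)] at hF
  have hi1 : Integrable (fun x => avg j φ F (L z) (pr F (φ x)) * g x) j :=
    hgi.bdd_mul (hmA F).aestronglyMeasurable (Filter.Eventually.of_forall fun x => hbA F x)
  have hi2 : Integrable (fun x => L z x * g x) j :=
    hgi.bdd_mul (hL.meas z).aestronglyMeasurable (Filter.Eventually.of_forall fun x => hL.bd z x)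
  rw [Real.dist_eq, ← integral_sub hi1 hi2]
  have hgi' : Integrable g' j := by
    refine hgi.mono hg'.aestronglyMeasurable (Filter.Eventually.of_forall fun x => ?_)
    exact hgg x
  have hiu : Integrable (fun x => |avg j φ F (L z) (pr F (φ x)) - L z x|) j := by
    refine Integrable.of_bound ((hmA F).sub (hL.meas z)).abs.aestronglyMeasurable (‖z‖ + ‖z‖)
      (Filter.Eventually.of_forall fun x => ?_)
    rw [Real.norm_eq_abs, abs_abs]
    exact (abs_sub _ _).trans (add_le_add (hbA F x) (hL.bd z x))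
  have hid : Integrable (fun x => |g x - g' x|) j := (hgi.sub hgi').abs
  refine lt_of_le_of_lt abs_integral_le_integral_abs ?_
  have h1 : ∫ x, |avg j φ F (L z) (pr F (φ x)) * g x - L z x * g x| ∂j ≤
      ∫ x, (M * |avg j φ F (L z) (pr F (φ x)) - L z x| + (2 * ‖z‖) * |g x - g' x|) ∂j := by
    refine integral_mono (hi1.sub hi2).abs ((hiu.const_mul M).add (hid.const_mul _)) fun x => ?_
    show |avg j φ F (L z) (pr F (φ x)) * g x - L z x * g x| ≤ _
    rw [← sub_mul, abs_mul]
    have e1 : |g x| ≤ |g' x| + |g x - g' x| := by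
      have := abs_add_le (g' x) (g x - g' x)
      rwa [add_sub_cancel] at this
    have e2 : |avg j φ F (L z) (pr F (φ x)) - L z x| ≤ 2 * ‖z‖ := by
      refine (abs_sub _ _).trans ?_
      have := hbA F x
      have := hL.bd z x
      linarith
    have e3 := hgM x
    have e4 : 0 ≤ |avg j φ F (L z) (pr F (φ x)) - L z x| := abs_nonneg _
    have e5 : 0 ≤ |g x - g' x| := abs_nonneg _
    calc _ ≤ |avg j φ F (L z) (pr F (φ x)) - L z x| * (M + |g x - g' x|) :=
          mul_le_mul_of_nonneg_left (by linarith) e4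
      _ = M * |avg j φ F (L z) (pr F (φ x)) - L z x| +
          |avg j φ F (L z) (pr F (φ x)) - L z x| * |g x - g' x| := by ring
      _ ≤ _ := by
          have := mul_le_mul_of_nonneg_right e2 e5
          linarith
  rw [integral_add (hiu.const_mul M) (hid.const_mul _), integral_const_mul, integral_const_mul] at h1
  refine lt_of_le_of_lt h1 ?_
  have h2 : M * ∫ x, |avg j φ F (L z) (pr F (φ x)) - L z x| ∂j ≤ ε / 2 := by
    calc _ ≤ M * (ε / (2 * (M + 1))) := mul_le_mul_of_nonneg_left hF.le hM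
      _ ≤ ε / 2 := by
          rw [mul_div_assoc', div_le_div_iff₀ (by positivity) (by norm_num)]
          nlinarith
  have h3 : (2 * ‖z‖) * ∫ x, |g x - g' x| ∂j < ε / 2 := by
    calc _ ≤ (2 * ‖z‖) * (ε / (4 * (‖z‖ + 1))) := mul_le_mul_of_nonneg_left hδ (by positivity)
      _ < ε / 2 := by
          rw [mul_div_assoc', div_lt_div_iff₀ (by positivity) (by norm_num)]
          nlinarith [norm_nonneg z]
  linarith

/-- the operator `β` -/
theorem Fml.exists_beta (hL : Fml Z L) (zt : T → Z)
    (hz : ∀ z, ∀ ε : ℝ, 0 < ε → ∃ t, ∫ x, |L z x - L (zt t) x| ∂j ≤ ε) :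
    ∃ β : MM (T × ℚ → Bool) →L[ℝ] (Z →L[ℝ] ℝ), (∀ ν, ‖β ν‖ ≤ 1 * ‖ν‖) ∧
      ∀ (g : K → ℝ), Measurable g → Integrable g j → ∀ ν : MM (T × ℚ → Bool),
        (∀ h : C(T × ℚ → Bool, ℝ), ν h = ∫ x, h (phi L zt x) * g x ∂j) →
        ∀ z, β ν z = ∫ x, L z x * g x ∂j := by
  obtain ⟨V, hV⟩ : ∃ V : Ultrafilter (Finset (T × ℚ)), (V : Filter (Finset (T × ℚ))) ≤ atTop :=
    ⟨Ultrafilter.of atTop, Ultrafilter.of_le _⟩
  obtain ⟨β, hβ, hβ2⟩ := exists_lim V
    (fun (F : Finset (T × ℚ)) (ν : MM (T × ℚ → Bool)) (z : Z) =>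
      ν (lift F (avg j (phi L zt) F (L z)))) 1
    (fun F ν z => by
      rw [one_mul]
      refine (ν.le_opNorm _).trans (mul_le_mul_of_nonneg_left ?_ (norm_nonneg _))
      exact norm_lift_le F _ ‖z‖ (norm_nonneg _) fun s => avg_abs_le _ (norm_nonneg _) (hL.bd z))
    (fun ν ν' z => Tendsto.congr (fun F => by rw [add_apply]; ring) tendsto_const_nhds)
    (fun c ν z => Tendsto.congr (fun F => by rw [smul_apply, smul_eq_mul]; ring)
      tendsto_const_nhds)
    (fun ν z z' => Tendsto.congr (fun F => by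
      have : avg j (phi L zt) F (L (z + z')) =
          avg j (phi L zt) F (L z) + avg j (phi L zt) F (L z') :=
        funext fun s => hL.avg_add _ F z z' s
      rw [this, map_add, map_add]
      ring) tendsto_const_nhds)
    (fun c ν z => Tendsto.congr (fun F => by
      have : avg j (phi L zt) F (L (c • z)) = c • avg j (phi L zt) F (L z) :=
        funext fun s => hL.avg_smul _ F c z s
      rw [this, map_smul, map_smul, smul_eq_mul]
      ring) tendsto_const_nhds)
  refine ⟨β, fun ν => ?_, fun g hg hgi ν hν z => ?_⟩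
  · have := hβ2 ν
    rwa [abs_one] at this
  · refine tendsto_nhds_unique (hβ ν z) ?_
    refine Tendsto.congr (fun F => ?_) ((hL.tendsto_integral zt hz z hg hgi).mono_left hV)
    rw [hν]
    rfl

end

end Pool.Agent.H180
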