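import Mathlib
import Pool.Agent.H180.Self

/-!
Density characters of ranges: operators between a space and a Hilbert space.
-/

set_option autoImplicit false

open Filter Topology Set
open scoped Classical

namespace Pool.Agent.H180

/-- a subset of the closure of a `T`-indexed set has a dense `T`-indexed subset -/
theorem exists_dense_subset {E : Type*} [PseudoMetricSpace E] {T : Type*} [Infinite T] (d : T → E)
    (A : Set E) (hA : A.Nonempty) (h : A ⊆ closure (range d)) :
    ∃ a : T → E, (∀ t, a t ∈ A) ∧ A ⊆ closure (range a) := by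
  obtain ⟨a0, ha0⟩ := hA
  have h1 : ∀ p : T × ℕ, ∃ a ∈ A, (∃ x ∈ A, dist x (d p.1) < 1 / ((p.2 : ℝ) + 1)) →
      dist a (d p.1) < 1 / ((p.2 : ℝ) + 1) := by
    intro p
    by_cases hp : ∃ x ∈ A, dist x (d p.1) < 1 / ((p.2 : ℝ) + 1)
    · obtain ⟨x, hx, hx2⟩ := hp
      exact ⟨x, hx, fun _ => hx2⟩
    · exact ⟨a0, ha0, fun h => absurd h hp⟩
  choose a ha1 ha2 using h1
  have e : Nonempty (T ≃ T × ℕ) := by
    refine Cardinal.lift_mk_eq'.1 ?_
    rw [Cardinal.mk_prod]
    simp only [Cardinal.lift_uzero, Cardinal.mk_nat, Cardinal.lift_aleph0, Cardinal.lift_mul]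
    rw [Cardinal.mul_eq_left]
    · simp
    · simp
    · exact Cardinal.aleph0_ne_zero
  obtain ⟨e⟩ := e
  refine ⟨fun t => a (e t), fun t => ha1 _, fun x hx => ?_⟩
  rw [Metric.mem_closure_iff]
  intro ε hε
  obtain ⟨n, hn⟩ := exists_nat_one_div_lt (show 0 < ε / 2 by positivity)
  obtain ⟨_, ⟨t, rfl⟩, ht⟩ := Metric.mem_closure_iff.1 (h hx) (1 / ((n : ℝ) + 1)) (by positivity)
  refine ⟨a (t, n), ⟨e.symm (t, n), by simp⟩, ?_⟩
  have h2 := ha2 (t, n) ⟨x, hx, ht⟩
  have h3 := dist_triangle_right x (a (t, n)) (d t)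
  simp only at h2
  linarith

/-- the closed span of a `T`-indexed family is the closure of a `T`-indexed set -/
theorem exists_dense_span {H : Type*} [NormedAddCommGroup H] [NormedSpace ℝ H] {T : Type*}
    [Infinite T] (g : T → H) : ∃ d : T → H,
      ((Submodule.span ℝ (range g)).topologicalClosure : Set H) ⊆ closure (range d) := by
  have h1 : ∀ F : Finset T, ∃ u : ℕ → H, (Submodule.span ℝ (g '' (F : Set T)) : Set H) ⊆
      closure (range u) := by
    intro F
    have hfd : FiniteDimensional ℝ (Submodule.span ℝ (g '' (F : Set T))) :=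
      FiniteDimensional.span_of_finite ℝ (F.finite_toSet.image g)
    have hs : TopologicalSpace.SeparableSpace (Submodule.span ℝ (g '' (F : Set T))) := by
      have : ProperSpace (Submodule.span ℝ (g '' (F : Set T))) := FiniteDimensional.proper ℝ _
      infer_instance
    refine ⟨fun n => (TopologicalSpace.denseSeq (Submodule.span ℝ (g '' (F : Set T))) n : H),
      fun x hx => ?_⟩
    have h2 := TopologicalSpace.denseRange_denseSeq (Submodule.span ℝ (g '' (F : Set T)))
      (⟨x, hx⟩ : Submodule.span ℝ (g '' (F : Set T)))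
    have h3 := image_closure_subset_closure_image (continuous_subtype_val
      (p := fun x => x ∈ Submodule.span ℝ (g '' (F : Set T)))) ⟨_, h2, rfl⟩
    rwa [← range_comp] at h3
  choose u hu using h1
  obtain ⟨e⟩ := nonempty_index T
  refine ⟨fun t => u (e.symm t).1 (e.symm t).2.1, ?_⟩
  rw [Submodule.topologicalClosure_coe]
  refine closure_minimal (fun x hx => ?_) isClosed_closure
  obtain ⟨F, hF1, hF2⟩ : ∃ F : Finset T, x ∈ Submodule.span ℝ (g '' (F : Set T)) ∧ True := by
    have hx' : x ∈ Submodule.span ℝ (range g) := hx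
    obtain ⟨c, hc⟩ := (Finsupp.mem_span_range_iff_exists_finsupp).1 hx'
    refine ⟨c.support, ?_, trivial⟩
    rw [← hc]
    refine Submodule.sum_mem _ fun i hi => Submodule.smul_mem _ _ (Submodule.subset_span ?_)
    exact ⟨i, hi, rfl⟩
  refine closure_mono ?_ (hu F hF1)
  rintro _ ⟨n, rfl⟩
  exact ⟨e (F, n, 0), by simp⟩

/-- If all functionals `z ↦ ⟨g, A z⟩` are in the closure of a `T`-indexed set, the range of `A` has a dense
`T`-indexed subset. -/
theorem exists_hilb {H : Type*} [NormedAddCommGroup H] [InnerProductSpace ℝ H] [CompleteSpace H]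
    {Z : Type*} [NormedAddCommGroup Z] [NormedSpace ℝ Z] {T : Type*} [Infinite T] (A : Z →L[ℝ] H)
    (d : T → (Z →L[ℝ] ℝ)) (hd : ∀ g : H, (innerSL ℝ g).comp A ∈ closure (range d)) :
    ∃ zt : T → Z, ∀ z, A z ∈ closure (range fun t => A (zt t)) := by
  let R : H → (Z →L[ℝ] ℝ) := fun g => (innerSL ℝ g).comp A
  have hR : ∀ g z, R g z = inner ℝ g (A z) := fun g z => rfl
  obtain ⟨a, ha1, ha2⟩ := exists_dense_subset d (R '' Metric.closedBall 0 1)
    ⟨R 0, 0, by simp, rfl⟩ (by rintro _ ⟨g, -, rfl⟩; exact hd g)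
  choose g hg1 hg2 using ha1
  set G : Submodule ℝ H := (Submodule.span ℝ (range g)).topologicalClosure with hG
  have hGc : IsClosed (G : Set H) := Submodule.isClosed_topologicalClosure _
  have hGcomp : CompleteSpace G := hGc.completeSpace_coe
  have hmem : ∀ z, A z ∈ G := by
    intro z
    by_cases h0 : A z = 0
    · rw [h0]; exact zero_mem _
    have hn : 0 < ‖A z‖ := norm_pos_iff.2 h0
    -- the norm of the projection
    have hproj : ‖A z‖ ≤ ‖G.starProjection (A z)‖ := by
      refine le_of_forall_pos_le_add fun ε hε => ?_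
      have h1 : R (‖A z‖⁻¹ • A z) ∈ closure (range a) := ha2 ⟨_, by
        rw [mem_closedBall_zero_iff, norm_smul, norm_inv, norm_norm, inv_mul_cancel₀ hn.ne'], rfl⟩
      obtain ⟨_, ⟨t, rfl⟩, ht⟩ := Metric.mem_closure_iff.1 h1 (ε / (‖z‖ + 1)) (by positivity)
      rw [dist_eq_norm] at ht
      have h2 : R (‖A z‖⁻¹ • A z) z = ‖A z‖ := by
        rw [hR, inner_smul_left, real_inner_self_eq_norm_sq]
        simp only [conj_trivial]
        field_simp
      have h3 : |R (‖A z‖⁻¹ • A z) z - a t z| ≤ ε := by
        have := (R (‖A z‖⁻¹ • A z) - a t).le_opNorm z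
        rw [sub_apply, Real.norm_eq_abs] at this
        refine this.trans ?_
        calc _ ≤ ε / (‖z‖ + 1) * ‖z‖ := mul_le_mul_of_nonneg_right ht.le (norm_nonneg _)
          _ ≤ ε := by
              rw [div_mul_eq_mul_div, div_le_iff₀ (by positivity)]
              nlinarith [norm_nonneg z]
      have h4 : a t z ≤ ‖G.starProjection (A z)‖ := by
        rw [← hg2 t, hR]
        have h5 : inner ℝ (g t) (A z) = inner ℝ (g t) (G.starProjection (A z)) := by
          have h6 : inner ℝ (g t) (A z - G.starProjection (A z)) = 0 := by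
            refine Submodule.inner_right_of_mem_orthogonal (K := G) ?_ ?_
            · exact Submodule.le_topologicalClosure _ (Submodule.subset_span ⟨t, rfl⟩)
            · exact Submodule.sub_starProjection_mem_orthogonal _
          rw [inner_sub_right, sub_eq_zero] at h6
          exact h6
        rw [h5]
        refine (real_inner_le_norm _ _).trans ?_
        have h7 : ‖g t‖ ≤ 1 := mem_closedBall_zero_iff.1 (hg1 t)
        nlinarith [norm_nonneg (G.starProjection (A z))]
      rw [h2] at h3
      have := (abs_le.1 h3).2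
      linarith
    have hpyth : ‖A z‖ ^ 2 = ‖G.starProjection (A z)‖ ^ 2 + ‖A z - G.starProjection (A z)‖ ^ 2 := by
      have h1 : inner ℝ (G.starProjection (A z)) (A z - G.starProjection (A z)) = 0 :=
        Submodule.inner_right_of_mem_orthogonal (K := G) (Submodule.starProjection_apply_mem _ _)
          (Submodule.sub_starProjection_mem_orthogonal _)
      have h2 := norm_add_sq_real (G.starProjection (A z)) (A z - G.starProjection (A z))
      rw [add_sub_cancel, h1] at h2
      linarith
    have hz : ‖A z - G.starProjection (A z)‖ = 0 := by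
      have h1 := norm_nonneg (A z - G.starProjection (A z))
      nlinarith [norm_nonneg (A z)]
    rw [norm_eq_zero, sub_eq_zero] at hz
    rw [hz]
    exact Submodule.starProjection_apply_mem _ _
  obtain ⟨d', hd'⟩ := exists_dense_span g
  obtain ⟨b, hb1, hb2⟩ := exists_dense_subset d' (range A) ⟨A 0, 0, rfl⟩ (by
    rintro _ ⟨z, rfl⟩
    exact hd' (hmem z))
  choose zt hzt using hb1
  refine ⟨zt, fun z => ?_⟩
  have h1 := hb2 ⟨z, rfl⟩
  have h2 : (fun t => A (zt t)) = b := funext hzt
  rw [h2]
  exact h1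

end Pool.Agent.H180
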