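import Mathlib
import Pool.Agent.H180.UpB
import Pool.Agent.H180.UpC
import Pool.Agent.H180.LocE
import Pool.Agent.H180.Rep5

/-!
Upper embeddings of dual spaces for which ranges of operators from Hilbert spaces are small.
-/

set_option autoImplicit false

open Filter Topology Set MeasureTheory
open scoped Classical

namespace Pool.Agent.H180

section Ball

variable (Z : Type*) [NormedAddCommGroup Z] [NormedSpace ℝ Z]

/-- the unit ball of the dual with the weak topology given by `Z` -/
abbrev Ball : Type _ :=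
  ↥(WeakDual.toStrongDual ⁻¹' Metric.closedBall (0 : StrongDual ℝ Z) 1 : Set (WeakDual ℝ Z))

instance : CompactSpace (Ball Z) :=
  isCompact_iff_compactSpace.1 (WeakDual.isCompact_closedBall (0 : StrongDual ℝ Z) 1)

variable {Z}

/-- the value at a point of the predual -/
noncomputable def evf (z : Z) : C(Ball Z, ℝ) :=
  ⟨fun y => (y : WeakDual ℝ Z) z, (WeakDual.eval_continuous z).comp continuous_subtype_val⟩

theorem evf_apply (z : Z) (y : Ball Z) : evf z y = (y : WeakDual ℝ Z) z := rfl

theorem abs_evf_le (z : Z) (y : Ball Z) : |evf z y| ≤ ‖z‖ := by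
  have h1 : ‖WeakDual.toStrongDual (y : WeakDual ℝ Z)‖ ≤ 1 := mem_closedBall_zero_iff.1 y.2
  have h2 := (WeakDual.toStrongDual (y : WeakDual ℝ Z)).le_opNorm z
  rw [Real.norm_eq_abs] at h2
  refine h2.trans ?_
  nlinarith [norm_nonneg z]

/-- evaluation, as an operator -/
noncomputable def ev : Z →L[ℝ] C(Ball Z, ℝ) :=
  LinearMap.mkContinuous (𝕜 := ℝ) (𝕜₂ := ℝ)
    { toFun := evf
      map_add' := fun z z' => by
        ext y
        exact map_add (WeakDual.toStrongDual (y : WeakDual ℝ Z)) z z'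
      map_smul' := fun c z => by
        ext y
        exact map_smul (WeakDual.toStrongDual (y : WeakDual ℝ Z)) c z } 1
    (fun z => by
      rw [one_mul]
      exact (ContinuousMap.norm_le _ (norm_nonneg z)).2 fun y => abs_evf_le z y)

theorem ev_apply (z : Z) (y : Ball Z) : ev z y = evf z y := rfl

/-- the point of the ball of a functional -/
noncomputable def ptb (y : Z →L[ℝ] ℝ) : Ball Z :=
  if h : ‖y‖ ≤ 1 then ⟨StrongDual.toWeakDual y, mem_closedBall_zero_iff.2 h⟩
  else ⟨0, by simp⟩

theorem ev_ptb (z : Z) (y : Z →L[ℝ] ℝ) (h : ‖y‖ ≤ 1) : ev z (ptb y) = y z := by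
  rw [ev_apply, evf_apply, ptb, dif_pos h]
  rfl

theorem exists_alpha (h : HasLoc (Z →L[ℝ] ℝ)) :
    ∃ α : (Z →L[ℝ] ℝ) →L[ℝ] MM (Ball Z), ∀ x z, α x (ev z) = x z := by
  obtain ⟨ι, U, s, lam, hs⟩ := h
  obtain ⟨α, -, hα⟩ := hs.loc.exists_map (ptb (Z := Z))
  refine ⟨α, fun x z => ?_⟩
  refine tendsto_nhds_unique (hα x (ev z)) ?_
  refine Tendsto.congr (fun i => ?_) (hs.loc.lim x z)
  refine Finsupp.sum_congr fun y hy => ?_
  rw [ev_ptb z y (hs.ball i x y hy)]

end Ball

section Pair

variable {H : Type*} [NormedAddCommGroup H] [NormedSpace ℝ H] {Ω : Type*} [MeasurableSpace Ω]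

theorem pair_aux {L : H → Ω → ℝ} (hL : Fml H L) (μ : Measure Ω) (G : Lp ℝ 1 μ) (h : H) :
    Integrable (fun w => L h w * G w) μ ∧ |∫ w, L h w * G w ∂μ| ≤ ‖G‖ * ‖h‖ := by
  have h1 : Integrable (fun w => G w) μ := L1.integrable_coeFn G
  have h2 : Integrable (fun w => L h w * G w) μ :=
    h1.bdd_mul (hL.meas h).aestronglyMeasurable (Filter.Eventually.of_forall fun w => hL.bd h w)
  refine ⟨h2, ?_⟩
  rw [← Real.norm_eq_abs]
  refine (norm_integral_le_integral_norm _).trans ?_
  rw [L1.norm_eq_integral_norm, ← integral_mul_const]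
  refine integral_mono h2.norm (h1.norm.mul_const _) fun w => ?_
  show ‖L h w * G w‖ ≤ ‖G w‖ * ‖h‖
  rw [norm_mul, mul_comm]
  exact mul_le_mul_of_nonneg_left (hL.bd h w) (norm_nonneg _)

/-- pairing of `L¹` with a family of bounded functions -/
theorem exists_pair {L : H → Ω → ℝ} (hL : Fml H L) (μ : Measure Ω) :
    ∃ B : Lp ℝ 1 μ →L[ℝ] (H →L[ℝ] ℝ), ∀ G h, B G h = ∫ w, L h w * G w ∂μ := by
  let B0 : Lp ℝ 1 μ →ₗ[ℝ] H →ₗ[ℝ] ℝ := LinearMap.mk₂ ℝ (fun G h => ∫ w, L h w * G w ∂μ)
    (fun G G' h => by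
      rw [← integral_add (pair_aux hL μ G h).1 (pair_aux hL μ G' h).1]
      refine integral_congr_ae ?_
      filter_upwards [Lp.coeFn_add G G'] with w hw
      rw [hw, Pi.add_apply, mul_add])
    (fun c G h => by
      rw [smul_eq_mul, ← integral_const_mul]
      refine integral_congr_ae ?_
      filter_upwards [Lp.coeFn_smul c G] with w hw
      rw [hw, Pi.smul_apply, smul_eq_mul]
      ring)
    (fun G h h' => by
      rw [← integral_add (pair_aux hL μ G h).1 (pair_aux hL μ G h').1]
      refine integral_congr_ae (Filter.Eventually.of_forall fun w => ?_)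
      show L (h + h') w * G w = _
      rw [hL.add, add_mul])
    (fun c G h => by
      rw [smul_eq_mul, ← integral_const_mul]
      refine integral_congr_ae (Filter.Eventually.of_forall fun w => ?_)
      show L (c • h) w * G w = _
      rw [hL.smul]
      ring)
  exact ⟨B0.mkContinuous₂ 1 (fun G h => by
    rw [one_mul]
    exact (pair_aux hL μ G h).2), fun G h => rfl⟩

theorem measurable_comp_cube {K : Type*} [MeasurableSpace K] {Q : Type*} {φ : K → Q → Bool}
    (hφ : ∀ q, Measurable fun x => φ x q) (h : C(Q → Bool, ℝ)) : Measurable fun x => h (φ x) := by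
  have h1 : ∀ n : ℕ, ∃ F : Finset Q, ‖lift F (fun s => h (ex s)) - h‖ < 1 / ((n : ℝ) + 1) := by
    intro n
    have h2 := (Metric.tendsto_nhds.1 (tendsto_lift h)) (1 / ((n : ℝ) + 1)) (by positivity)
    obtain ⟨F, hF⟩ := h2.exists
    exact ⟨F, by rwa [dist_eq_norm] at hF⟩
  choose F hF using h1
  refine measurable_of_tendsto_metrizable (f := fun n x => lift (F n) (fun s => h (ex s)) (φ x))
    (fun n => ?_) ?_
  · have h3 : Measurable fun x => pr (F n) (φ x) := measurable_pi_iff.2 fun i => hφ i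
    have h4 : Measurable fun s : F n → Bool => h (ex s) := Measurable.of_discrete
    exact h4.comp h3
  · rw [tendsto_pi_nhds]
    intro x
    rw [tendsto_iff_dist_tendsto_zero]
    refine squeeze_zero (fun n => dist_nonneg) (fun n => ?_) tendsto_one_div_add_atTop_nhds_zero_nat
    refine le_trans ?_ (hF n).le
    rw [Real.dist_eq]
    exact (lift (F n) (fun s => h (ex s)) - h).norm_coe_le_norm (φ x)

end Pair

end Pool.Agent.H180
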