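import Mathlib
import Pool.Agent.H180.UpD

/-!
Upper embeddings of dual spaces for which ranges of operators from Hilbert spaces are small: the theorem.
-/

set_option autoImplicit false

open Filter Topology Set MeasureTheory
open scoped Classical

namespace Pool.Agent.H180

section Slices

variable {K : Type*} [MeasurableSpace K] {S : Set (Measure K)} {Q : Type*}

/-- functions of a slice, coded in the cube -/
noncomputable def slf (φ : S → K → Q → Bool) (j : S) (h : C(Q → Bool, ℝ)) (w : Om S) : ℝ :=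
  if w.1 = j then h (φ j w.2) else 0

theorem slf_fml (φ : S → K → Q → Bool) (hφ : ∀ j q, Measurable fun x => φ j x q) (j : S) :
    Fml C(Q → Bool, ℝ) (slf φ j) where
  meas := fun h => by
    refine measurable_sg.2 fun j' => ?_
    by_cases hj : j' = j
    · have h1 : (fun x => slf φ j h ⟨j', x⟩) = fun x => h (φ j x) := by
        funext x
        exact if_pos hj
      rw [h1]
      exact measurable_comp_cube (hφ j) h
    · have h1 : (fun x => slf φ j h ⟨j', x⟩) = fun x => 0 := by
        funext x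
        exact if_neg hj
      rw [h1]
      exact measurable_const
  add := fun h h' w => by
    unfold slf
    split_ifs
    · rfl
    · rw [add_zero]
  smul := fun c h w => by
    unfold slf
    split_ifs
    · rfl
    · rw [mul_zero]
  bd := fun h w => by
    unfold slf
    split_ifs
    · exact h.norm_coe_le_norm _
    · rw [abs_zero]; exact norm_nonneg _

theorem measurable_slice (G : Lp ℝ 1 (nuS S)) (j : S) : Measurable fun y => G ⟨j, y⟩ :=
  measurable_sg.1 (Lp.stronglyMeasurable G).measurable j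

theorem integrable_slice (G : Lp ℝ 1 (nuS S)) (j : S) :
    Integrable (fun y => G ⟨j, y⟩) (j : Measure K) :=
  (integral_nuS (Lp.stronglyMeasurable G).measurable (L1.integrable_coeFn G)).1 j

theorem integral_slf (φ : S → K → Q → Bool) (hφ : ∀ j q, Measurable fun x => φ j x q) (j : S)
    (h : C(Q → Bool, ℝ)) (G : Lp ℝ 1 (nuS S)) :
    ∫ w, slf φ j h w * G w ∂(nuS S) = ∫ y, h (φ j y) * G ⟨j, y⟩ ∂(j : Measure K) := by
  have h1 := (integral_nuS (((slf_fml φ hφ j).meas h).mul (Lp.stronglyMeasurable G).measurable)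
    (pair_aux (slf_fml φ hφ j) (nuS S) G h).1).2
  have h2 : ∀ j' : S, j' ≠ j → ∫ x, slf φ j h ⟨j', x⟩ * G ⟨j', x⟩ ∂(j' : Measure K) = 0 := by
    intro j' hj
    have h3 : ∀ x, slf φ j h ⟨j', x⟩ * G ⟨j', x⟩ = 0 := fun x => by
      rw [slf, if_neg hj, zero_mul]
    simp only [h3, integral_zero]
  have h3 := hasSum_single j h2
  have h4 : ∫ x, slf φ j h ⟨j, x⟩ * G ⟨j, x⟩ ∂(j : Measure K) =
      ∫ y, h (φ j y) * G ⟨j, y⟩ ∂(j : Measure K) := by
    refine integral_congr_ae (Filter.Eventually.of_forall fun x => ?_)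
    show slf φ j h ⟨j, x⟩ * G ⟨j, x⟩ = _
    rw [slf, if_pos rfl]
  rw [← h4]
  exact h1.unique h3

theorem sum_slices (φ : S → K → Q → Bool) (hφ : ∀ j q, Measurable fun x => φ j x q)
    (B : S → (Lp ℝ 1 (nuS S) →L[ℝ] MM (Q → Bool)))
    (hB : ∀ j G h, B j G h = ∫ w, slf φ j h w * G w ∂(nuS S)) (I : Set S) (G : Lp ℝ 1 (nuS S)) :
    Summable (fun j : I => ‖B j G‖) ∧ ∑' j : I, ‖B j G‖ ≤ ‖G‖ := by
  refine summable_norm_le' (fun j : I => B j G) ‖G‖ fun s u hu => ?_
  have h1 : ∑ j ∈ s, B j G (u j) = ∫ w, ∑ j ∈ s, slf φ j (u j) w * G w ∂(nuS S) := by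
    rw [integral_finsetSum _ fun (j : I) _ => (pair_aux (slf_fml φ hφ (j : S)) (nuS S) G (u j)).1]
    exact Finset.sum_congr rfl fun j _ => hB j G (u j)
  rw [h1, L1.norm_eq_integral_norm]
  have hi : Integrable (fun w => ∑ j ∈ s, slf φ j (u j) w * G w) (nuS S) :=
    integrable_finsetSum _ fun (j : I) _ => (pair_aux (slf_fml φ hφ (j : S)) (nuS S) G (u j)).1
  refine integral_mono hi (L1.integrable_coeFn G).norm fun w => ?_
  show ∑ j ∈ s, slf φ j (u j) w * G w ≤ ‖G w‖
  rw [← Finset.sum_mul]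
  have h2 : |∑ j ∈ s, slf φ j (u j) w| ≤ 1 := by
    by_cases hw : ∃ j ∈ s, w.1 = (j : S)
    · obtain ⟨j, hj, hwj⟩ := hw
      rw [Finset.sum_eq_single_of_mem j hj]
      · rw [slf, if_pos hwj]
        exact ((u j).norm_coe_le_norm _).trans (hu j)
      · intro j' _ hj'
        rw [slf, if_neg]
        intro h
        exact hj' (Subtype.ext (h.symm.trans hwj))
    · push Not at hw
      rw [Finset.sum_eq_zero, abs_zero]
      · exact zero_le_one
      · intro j hj
        rw [slf, if_neg (hw j hj)]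
  refine (le_abs_self _).trans ?_
  rw [abs_mul]
  calc _ ≤ 1 * |G w| := mul_le_mul_of_nonneg_right h2 (abs_nonneg _)
    _ = ‖G w‖ := by rw [one_mul, Real.norm_eq_abs]

/-- the slices which are not zero -/
def supp (G : Lp ℝ 1 (nuS S)) : Set S := {j | ∫ y, |G ⟨j, y⟩| ∂(j : Measure K) ≠ 0}

theorem countable_supp (G : Lp ℝ 1 (nuS S)) : (supp G).Countable := by
  have h1 := (integral_nuS (f := fun w => |G w|) (Lp.stronglyMeasurable G).measurable.abs
    (L1.integrable_coeFn G).abs).2
  exact h1.summable.countable_support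

end Slices

section

variable {Z : Type} [NormedAddCommGroup Z] [NormedSpace ℝ Z] {T : Type}

/-- ranges of operators from Hilbert spaces are in closures of `T`-indexed sets -/
def HilbS (T : Type) (X : Type) [NormedAddCommGroup X] [NormedSpace ℝ X] : Prop :=
  ∀ (H : Type) [NormedAddCommGroup H] [InnerProductSpace ℝ H] [CompleteSpace H] (R : H →L[ℝ] X),
    ∃ d : T → X, ∀ g, R g ∈ closure (range d)

variable [MeasurableSpace (Ball Z)] [BorelSpace (Ball Z)]

theorem ev_fml : Fml Z (fun (z : Z) (y : Ball Z) => ev z y) where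
  meas := fun z => (ev z).continuous.measurable
  add := fun z z' y => by rw [map_add]; rfl
  smul := fun c z y => by rw [map_smul]; rfl
  bd := fun z y => abs_evf_le z y

/-- the `L²` argument -/
theorem exists_zt [Infinite T] (hH : HilbS T (Z →L[ℝ] ℝ)) (j : Measure (Ball Z)) [IsFiniteMeasure j] :
    ∃ zt : T → Z, ∀ z, ∀ ε : ℝ, 0 < ε → ∃ t, ∫ y, |ev z y - ev (zt t) y| ∂j ≤ ε := by
  let A : Z →L[ℝ] Lp ℝ 2 j := (ContinuousMap.toLp (E := ℝ) 2 j ℝ).comp ev
  have hA : ∀ z, (A z : Ball Z → ℝ) =ᵐ[j] fun y => ev z y := fun z => ContinuousMap.coeFn_toLp j (ev z)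
  obtain ⟨d, hd⟩ := hH (Lp ℝ 2 j)
    (((ContinuousLinearMap.compL ℝ Z (Lp ℝ 2 j) ℝ).flip A).comp (innerSL ℝ))
  obtain ⟨zt, hzt⟩ := exists_hilb A d hd
  refine ⟨zt, fun z ε hε => ?_⟩
  set R : ℝ := j.real univ + 1 with hR
  have hR0 : 0 < R := by positivity
  obtain ⟨_, ⟨t, rfl⟩, ht⟩ := Metric.mem_closure_iff.1 (hzt z) (ε / R) (by positivity)
  refine ⟨t, ?_⟩
  simp only [dist_eq_norm, ← map_sub] at ht
  have h1 : ‖A (z - zt t)‖ ^ 2 = ∫ y, (ev (z - zt t) y) ^ 2 ∂j := by
    rw [← real_inner_self_eq_norm_sq, L2.inner_def]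
    refine integral_congr_ae ?_
    filter_upwards [hA (z - zt t)] with y hy
    rw [hy, real_inner_self_eq_norm_sq, Real.norm_eq_abs, sq_abs]
  have hδ : 0 < ε / R := by positivity
  have hmeas : Measurable fun y => ev (z - zt t) y := (ev (z - zt t)).continuous.measurable
  have hi1 : Integrable (fun y => |ev (z - zt t) y|) j :=
    Integrable.of_bound hmeas.abs.aestronglyMeasurable ‖z - zt t‖
      (Filter.Eventually.of_forall fun y => by
        rw [Real.norm_eq_abs, abs_abs]
        exact abs_evf_le _ y)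
  have hi2 : Integrable (fun y => (ev (z - zt t) y) ^ 2) j :=
    Integrable.of_bound (hmeas.pow_const 2).aestronglyMeasurable (‖z - zt t‖ ^ 2)
      (Filter.Eventually.of_forall fun y => by
        rw [Real.norm_eq_abs, abs_pow]
        exact pow_le_pow_left₀ (abs_nonneg _) (abs_evf_le _ y) 2)
  have h2 : ∫ y, |ev z y - ev (zt t) y| ∂j ≤
      ∫ y, ((ε / R) / 2 + (2 * (ε / R))⁻¹ * (ev (z - zt t) y) ^ 2) ∂j := by
    refine integral_mono ?_ ((integrable_const _).add (hi2.const_mul _)) fun y => ?_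
    · refine hi1.congr (Filter.Eventually.of_forall fun y => ?_)
      show |ev (z - zt t) y| = |ev z y - ev (zt t) y|
      rw [map_sub]
      rfl
    · show |ev z y - ev (zt t) y| ≤ _
      have e1 : ev (z - zt t) y = ev z y - ev (zt t) y := by
        rw [map_sub]
        rfl
      rw [← e1, ← sq_abs (ev (z - zt t) y)]
      set a := |ev (z - zt t) y|
      set δ := ε / R
      have h3 : 0 ≤ (a - δ) ^ 2 := sq_nonneg _
      have h4 : δ / 2 + (2 * δ)⁻¹ * a ^ 2 - a = (2 * δ)⁻¹ * (a - δ) ^ 2 := by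
        field_simp
        ring
      have h5 : 0 ≤ (2 * δ)⁻¹ * (a - δ) ^ 2 := by positivity
      show a ≤ δ / 2 + (2 * δ)⁻¹ * a ^ 2
      linarith
  rw [integral_add (integrable_const _) (hi2.const_mul _), integral_const, integral_const_mul,
    ← h1, smul_eq_mul] at h2
  refine h2.trans ?_
  have h3 : ‖A (z - zt t)‖ ^ 2 ≤ (ε / R) ^ 2 := pow_le_pow_left₀ (norm_nonneg _) ht.le 2
  have h4 : (2 * (ε / R))⁻¹ * ‖A (z - zt t)‖ ^ 2 ≤ (ε / R) / 2 := by
    calc _ ≤ (2 * (ε / R))⁻¹ * (ε / R) ^ 2 := mul_le_mul_of_nonneg_left h3 (by positivity)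
      _ = _ := by field_simp
  have h5 : j.real univ * (ε / R / 2) + ε / R / 2 = ε / 2 := by
    rw [← add_one_mul, ← hR]
    field_simp
  linarith

end

end Pool.Agent.H180
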