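import Mathlib
import Pool.Agent.H180.HayB
import Pool.Agent.H180.UpE

/-!
Functions whose level sets are in a small sigma-algebra.
-/

set_option autoImplicit false

open Filter Topology Set MeasureTheory Cardinal
open scoped Classical ENNReal

namespace Pool.Agent.H180

theorem count_layers (n : ℕ) (hn : 0 < n) (t : ℝ) (ht : |t| ≤ 1) :
    |-2 + (1 / (n : ℝ)) * ∑ k ∈ Finset.range (4 * n),
      (if t < ((-2 + (k : ℚ) / n : ℚ) : ℝ) then (0 : ℝ) else 1) - t| ≤ 1 / n := by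
  have hn' : (0 : ℝ) < n := by exact_mod_cast hn
  obtain ⟨h1, h2⟩ := abs_le.1 ht
  have h3 : ∑ k ∈ Finset.range (4 * n), (if t < ((-2 + (k : ℚ) / n : ℚ) : ℝ) then (0 : ℝ) else 1) =
      ((Finset.range (⌊(t + 2) * n⌋₊ + 1)).card : ℝ) := by
    have h4 : ∀ k : ℕ, (if t < ((-2 + (k : ℚ) / n : ℚ) : ℝ) then (0 : ℝ) else 1) =
        if (k : ℝ) ≤ (t + 2) * n then 1 else 0 := by
      intro k
      have h5 : t < ((-2 + (k : ℚ) / n : ℚ) : ℝ) ↔ ¬ (k : ℝ) ≤ (t + 2) * n := by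
        push_cast
        rw [not_le, ← lt_div_iff₀ hn']
        constructor
        · intro h; linarith
        · intro h; linarith
      by_cases h : (k : ℝ) ≤ (t + 2) * n
      · rw [if_pos h, if_neg (fun h' => h5.1 h' h)]
      · rw [if_neg h, if_pos (h5.2 h)]
    rw [Finset.sum_congr rfl fun k _ => h4 k, Finset.sum_boole]
    congr 2
    ext k
    rw [Finset.mem_filter, Finset.mem_range, Finset.mem_range, Nat.lt_add_one_iff,
      Nat.le_floor_iff (by nlinarith)]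
    refine ⟨fun h => h.2, fun h => ⟨?_, h⟩⟩
    have h6 : (k : ℝ) < (4 * n : ℕ) := by
      push_cast
      nlinarith
    exact_mod_cast h6
  rw [h3, Finset.card_range]
  have h7 := Nat.floor_le (show 0 ≤ (t + 2) * n by nlinarith)
  have h8 := Nat.lt_floor_add_one ((t + 2) * n)
  push_cast
  set m : ℝ := (⌊(t + 2) * n⌋₊ : ℝ) with hm
  have h9 : -2 + 1 / (n : ℝ) * (m + 1) - t = (m + 1 - (t + 2) * n) / n := by
    field_simp
    ring
  rw [h9, abs_div, abs_of_pos hn', abs_of_pos (by linarith)]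
  gcongr
  linarith

section

variable {K : Type*} [MeasurableSpace K] {j : Measure K} [IsFiniteMeasure j]

theorem layer_sum (V : Submodule ℝ (Lp ℝ 2 j))
    (hone : indicatorConstLp 2 (MeasurableSet.univ (α := K)) (measure_ne_top j univ) (1 : ℝ) ∈ V)
    (f : K → ℝ) (hB : ∀ q : ℚ, ∃ (B : Set K) (hB : MeasurableSet B), {x | f x < q} =ᵐ[j] B ∧
      indicatorConstLp 2 hB (measure_ne_top j B) (1 : ℝ) ∈ V) (c : ℕ → ℚ) (m : ℕ) :
    ∃ u ∈ V, (u : K → ℝ) =ᵐ[j] fun x => ∑ k ∈ Finset.range m,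
      (if f x < (c k : ℝ) then (0 : ℝ) else 1) := by
  induction m with
  | zero =>
    refine ⟨0, zero_mem _, ?_⟩
    filter_upwards [Lp.coeFn_zero ℝ 2 j] with x hx
    rw [hx]
    simp
  | succ m ih =>
    obtain ⟨u, hu, hu2⟩ := ih
    obtain ⟨B, hBm, hB1, hB2⟩ := hB (c m)
    set I1 := indicatorConstLp 2 (MeasurableSet.univ (α := K)) (measure_ne_top j univ) (1 : ℝ)
    set IB := indicatorConstLp 2 hBm (measure_ne_top j B) (1 : ℝ)
    refine ⟨u + (I1 - IB), V.add_mem hu (V.sub_mem hone hB2), ?_⟩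
    have e1 : (I1 : K → ℝ) =ᵐ[j] _ := indicatorConstLp_coeFn
    have e2 : (IB : K → ℝ) =ᵐ[j] _ := indicatorConstLp_coeFn
    filter_upwards [hu2, Lp.coeFn_add u (I1 - IB), Lp.coeFn_sub I1 IB, e1, e2, hB1]
      with x h1 h2 h3 h4 h5 h6
    rw [h2, Pi.add_apply, h3, Pi.sub_apply, h1, h4, h5, Finset.sum_range_succ]
    congr 1
    have h7 : f x < (c m : ℝ) ↔ x ∈ B := Iff.of_eq h6
    by_cases hx : x ∈ B
    · rw [if_pos (h7.2 hx), Set.indicator_of_mem (Set.mem_univ x), Set.indicator_of_mem hx, sub_self]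
    · rw [if_neg (fun h => hx (h7.1 h)), Set.indicator_of_mem (Set.mem_univ x),
        Set.indicator_of_notMem hx, sub_zero]

theorem layer_cake (V : Submodule ℝ (Lp ℝ 2 j)) (hV : IsClosed (V : Set (Lp ℝ 2 j)))
    (hone : indicatorConstLp 2 (MeasurableSet.univ (α := K)) (measure_ne_top j univ) (1 : ℝ) ∈ V)
    (f : K → ℝ) (hf : ∀ x, |f x| ≤ 1)
    (hB : ∀ q : ℚ, ∃ (B : Set K) (hB : MeasurableSet B), {x | f x < q} =ᵐ[j] B ∧
      indicatorConstLp 2 hB (measure_ne_top j B) (1 : ℝ) ∈ V) (g : Lp ℝ 2 j) (hg : (g : K → ℝ) =ᵐ[j] f) :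
    g ∈ V := by
  rw [← SetLike.mem_coe, ← hV.closure_eq, Metric.mem_closure_iff]
  intro ε hε
  set R : ℝ := (measureUnivNNReal j : ℝ) ^ ((2 : ℝ≥0∞).toReal⁻¹) with hR
  have hR0 : 0 ≤ R := by positivity
  obtain ⟨n0, hn0⟩ := exists_nat_gt ((R + 1) / ε)
  have hn : 0 < n0 := by
    have : (0 : ℝ) < n0 := lt_trans (by positivity) hn0
    exact_mod_cast this
  have hn' : (0 : ℝ) < n0 := by exact_mod_cast hn
  obtain ⟨u, hu, hu2⟩ := layer_sum V hone f hB (fun k => -2 + (k : ℚ) / n0) (4 * n0)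
  set I1 := indicatorConstLp 2 (MeasurableSet.univ (α := K)) (measure_ne_top j univ) (1 : ℝ)
  have e1 : (I1 : K → ℝ) =ᵐ[j] _ := indicatorConstLp_coeFn
  refine ⟨(-2 : ℝ) • I1 + (1 / (n0 : ℝ)) • u, V.add_mem (V.smul_mem _ hone) (V.smul_mem _ hu), ?_⟩
  rw [dist_comm, dist_eq_norm]
  have h1 : ‖(-2 : ℝ) • I1 + (1 / (n0 : ℝ)) • u - g‖ ≤ R * (1 / n0) := by
    refine Lp.norm_le_of_ae_bound (by positivity) ?_
    filter_upwards [hu2, e1, hg, Lp.coeFn_sub ((-2 : ℝ) • I1 + (1 / (n0 : ℝ)) • u) g,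
      Lp.coeFn_add ((-2 : ℝ) • I1) ((1 / (n0 : ℝ)) • u), Lp.coeFn_smul (-2 : ℝ) I1,
      Lp.coeFn_smul (1 / (n0 : ℝ)) u] with x h1 h2 h3 h4 h5 h6 h7
    rw [h4, Pi.sub_apply, h5, Pi.add_apply, h6, h7, Pi.smul_apply, Pi.smul_apply, h1, h2, h3,
      Set.indicator_of_mem (Set.mem_univ x), smul_eq_mul, smul_eq_mul, mul_one, Real.norm_eq_abs]
    exact count_layers n0 hn (f x) (hf x)
  refine lt_of_le_of_lt h1 ?_
  rw [mul_one_div, div_lt_iff₀ hn']
  rw [div_lt_iff₀ hε] at hn0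
  linarith

end

section

variable {Z : Type} [NormedAddCommGroup Z] [NormedSpace ℝ Z] [MeasurableSpace (Ball Z)]
  [BorelSpace (Ball Z)]

/-- the functions of the unit ball -/
noncomputable def Lb (z : {z : Z // ‖z‖ ≤ 1}) (y : Ball Z) : ℝ := ev (z : Z) y

theorem measurable_Lb (z : {z : Z // ‖z‖ ≤ 1}) : Measurable (Lb z) := (ev (z : Z)).continuous.measurable

/-- the operator into `L²` -/
noncomputable def A2 (j : Measure (Ball Z)) [IsFiniteMeasure j] : Z →L[ℝ] Lp ℝ 2 j :=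
  (ContinuousMap.toLp (E := ℝ) 2 j ℝ).comp ev

theorem A2_coe (j : Measure (Ball Z)) [IsFiniteMeasure j] (z : Z) :
    (A2 j z : Ball Z → ℝ) =ᵐ[j] fun y => ev z y := ContinuousMap.coeFn_toLp j (ev z)

theorem small_of_AM {κ : Cardinal.{0}} (hκ : κ.IsRegular) (hω : ℵ₀ < κ)
    (hpow : ∀ ν < κ, ν ^ ℵ₀ < κ) (j : Measure (Ball Z)) [IsFiniteMeasure j]
    (N : Set {z : Z // ‖z‖ ≤ 1}) (hN : #N < κ) (h : ∀ z, AM Lb j N z) :
    ∃ (T' : Type) (zt : T' → Z), #T' < κ ∧ ∀ z, A2 j z ∈ closure (range fun t => A2 j (zt t)) := by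
  have hm := sgm_le (L := Lb (Z := Z)) measurable_Lb N
  let T' : Type := {B : Set (Ball Z) | MeasurableSet[sgm Lb N] B} ⊕ ℕ
  have hT' : #T' < κ := by
    show #({B : Set (Ball Z) | MeasurableSet[sgm Lb N] B} ⊕ ℕ) < κ
    rw [Cardinal.mk_sum, Cardinal.lift_uzero, Cardinal.lift_uzero, Cardinal.mk_nat]
    exact Cardinal.add_lt_of_lt hκ.aleph0_le (card_sgm hκ hpow hN) hω
  have hinf : Infinite T' := inferInstanceAs (Infinite (_ ⊕ ℕ))
  let g : T' → Lp ℝ 2 j := Sum.elim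
    (fun B => indicatorConstLp 2 (hm _ B.2) (measure_ne_top j (B : Set (Ball Z))) (1 : ℝ)) (fun _ => 0)
  set V : Submodule ℝ (Lp ℝ 2 j) := (Submodule.span ℝ (range g)).topologicalClosure with hV
  have hVc : IsClosed (V : Set (Lp ℝ 2 j)) := Submodule.isClosed_topologicalClosure _
  have hgV : ∀ t, g t ∈ V := fun t =>
    Submodule.le_topologicalClosure _ (Submodule.subset_span ⟨t, rfl⟩)
  have h1 : ∀ z : Z, ‖z‖ ≤ 1 → A2 j z ∈ V := by
    intro z hz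
    have hu : (univ : Set (Ball Z)) ∈ {B : Set (Ball Z) | MeasurableSet[sgm Lb N] B} :=
      @MeasurableSet.univ (Ball Z) (sgm Lb N)
    refine layer_cake V hVc (hgV (Sum.inl ⟨univ, hu⟩)) (fun y => ev z y)
      (fun y => (abs_evf_le z y).trans hz) (fun q => ?_) (A2 j z) (A2_coe j z)
    obtain ⟨B, hB1, hB2⟩ := h ⟨z, hz⟩ q
    exact ⟨B, hm _ hB1, hB2, hgV (Sum.inl ⟨B, hB1⟩)⟩
  have h2 : ∀ z : Z, A2 j z ∈ V := by
    intro z
    by_cases hz : ‖z‖ ≤ 1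
    · exact h1 z hz
    · push Not at hz
      have hz0 : ‖z‖ ≠ 0 := by linarith
      have h3 : A2 j z = ‖z‖ • A2 j (‖z‖⁻¹ • z) := by
        rw [map_smul, smul_smul, mul_inv_cancel₀ hz0, one_smul]
      rw [h3]
      refine V.smul_mem _ (h1 _ ?_)
      rw [norm_smul, norm_inv, norm_norm, inv_mul_cancel₀ hz0]
  obtain ⟨d', hd'⟩ := exists_dense_span g
  obtain ⟨b, hb1, hb2⟩ := exists_dense_subset d' (range (A2 j)) ⟨A2 j 0, 0, rfl⟩ (by
    rintro _ ⟨z, rfl⟩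
    exact hd' (h2 z))
  choose zt hzt using hb1
  refine ⟨T', zt, hT', fun z => ?_⟩
  have h4 : (fun t => A2 j (zt t)) = b := funext hzt
  rw [h4]
  exact hb2 ⟨z, rfl⟩

end

end Pool.Agent.H180
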