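import Mathlib
import Pool.Agent.H180.HayC

/-!
The slices of an operator into a dual space; Hilbert spaces.
-/

set_option autoImplicit false

open Filter Topology Set MeasureTheory Cardinal
open scoped Classical ENNReal

namespace Pool.Agent.H180

section Slices

variable {K : Type*} [MeasurableSpace K] {S : Set (Measure K)} {H : Type*} [NormedAddCommGroup H]
  [NormedSpace ℝ H]

/-- functions of a slice -/
noncomputable def slg (L : H → K → ℝ) (j : S) (h : H) (w : Om S) : ℝ :=
  if w.1 = j then L h w.2 else 0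

theorem slg_fml {L : H → K → ℝ} (hL : Fml H L) (j : S) : Fml H (slg L j) where
  meas := fun h => by
    refine measurable_sg.2 fun j' => ?_
    by_cases hj : j' = j
    · have h1 : (fun x => slg L j h ⟨j', x⟩) = fun x => L h x := by
        funext x
        exact if_pos hj
      rw [h1]
      exact hL.meas h
    · have h1 : (fun x => slg L j h ⟨j', x⟩) = fun x => 0 := by
        funext x
        exact if_neg hj
      rw [h1]
      exact measurable_const
  add := fun h h' w => by
    unfold slg
    split_ifs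
    · exact hL.add h h' w.2
    · rw [add_zero]
  smul := fun c h w => by
    unfold slg
    split_ifs
    · exact hL.smul c h w.2
    · rw [mul_zero]
  bd := fun h w => by
    unfold slg
    split_ifs
    · exact hL.bd h w.2
    · rw [abs_zero]; exact norm_nonneg _

theorem integral_slg {L : H → K → ℝ} (hL : Fml H L) (j : S) (h : H) (G : Lp ℝ 1 (nuS S)) :
    ∫ w, slg L j h w * G w ∂(nuS S) = ∫ y, L h y * G ⟨j, y⟩ ∂(j : Measure K) := by
  have h1 := (integral_nuS (((slg_fml hL j).meas h).mul (Lp.stronglyMeasurable G).measurable)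
    (pair_aux (slg_fml hL j) (nuS S) G h).1).2
  have h2 : ∀ j' : S, j' ≠ j → ∫ x, slg L j h ⟨j', x⟩ * G ⟨j', x⟩ ∂(j' : Measure K) = 0 := by
    intro j' hj
    have h3 : ∀ x, slg L j h ⟨j', x⟩ * G ⟨j', x⟩ = 0 := fun x => by
      rw [slg, if_neg hj, zero_mul]
    simp only [h3, integral_zero]
  have h3 := hasSum_single j h2
  have h4 : ∫ x, slg L j h ⟨j, x⟩ * G ⟨j, x⟩ ∂(j : Measure K) =
      ∫ y, L h y * G ⟨j, y⟩ ∂(j : Measure K) := by
    refine integral_congr_ae (Filter.Eventually.of_forall fun x => ?_)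
    show slg L j h ⟨j, x⟩ * G ⟨j, x⟩ = _
    rw [slg, if_pos rfl]
  rw [← h4]
  exact h1.unique h3

theorem sum_slg {L : H → K → ℝ} (hL : Fml H L) (B : S → (Lp ℝ 1 (nuS S) →L[ℝ] (H →L[ℝ] ℝ)))
    (hB : ∀ j G h, B j G h = ∫ w, slg L j h w * G w ∂(nuS S)) (G : Lp ℝ 1 (nuS S)) :
    Summable (fun j => ‖B j G‖) ∧ ∑' j, ‖B j G‖ ≤ ‖G‖ := by
  refine summable_norm_le' (fun j => B j G) ‖G‖ fun s u hu => ?_
  have h1 : ∑ j ∈ s, B j G (u j) = ∫ w, ∑ j ∈ s, slg L j (u j) w * G w ∂(nuS S) := by
    rw [integral_finsetSum _ fun (j : S) _ => (pair_aux (slg_fml hL j) (nuS S) G (u j)).1]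
    exact Finset.sum_congr rfl fun j _ => hB j G (u j)
  rw [h1, L1.norm_eq_integral_norm]
  have hi : Integrable (fun w => ∑ j ∈ s, slg L j (u j) w * G w) (nuS S) :=
    integrable_finsetSum _ fun (j : S) _ => (pair_aux (slg_fml hL j) (nuS S) G (u j)).1
  refine integral_mono hi (L1.integrable_coeFn G).norm fun w => ?_
  show ∑ j ∈ s, slg L j (u j) w * G w ≤ ‖G w‖
  rw [← Finset.sum_mul]
  have h2 : |∑ j ∈ s, slg L j (u j) w| ≤ 1 := by
    by_cases hw : w.1 ∈ s
    · rw [Finset.sum_eq_single_of_mem w.1 hw]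
      · rw [slg, if_pos rfl]
        exact (hL.bd _ _).trans (hu _)
      · intro j' _ hj'
        rw [slg, if_neg]
        intro h
        exact hj' h.symm
    · rw [Finset.sum_eq_zero, abs_zero]
      · exact zero_le_one
      · intro j hj
        rw [slg, if_neg]
        intro h
        exact hw (h ▸ hj)
  refine (le_abs_self _).trans ?_
  rw [abs_mul]
  calc _ ≤ 1 * |G w| := mul_le_mul_of_nonneg_right h2 (abs_nonneg _)
    _ = ‖G w‖ := by rw [one_mul, Real.norm_eq_abs]

end Slices

section Hilbert

variable {H : Type*} [NormedAddCommGroup H] [InnerProductSpace ℝ H]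

theorem exists_signs {I : Type*} (F : Finset I) (w : I → H) : ∃ θ : I → ℝ, (∀ i, |θ i| ≤ 1) ∧
    ∑ i ∈ F, ‖w i‖ ^ 2 ≤ ‖∑ i ∈ F, θ i • w i‖ ^ 2 := by
  induction F using Finset.induction with
  | empty => exact ⟨fun _ => 0, fun _ => by simp, by simp⟩
  | insert a F ha ih =>
    obtain ⟨θ, hθ, hs⟩ := ih
    set v := ∑ i ∈ F, θ i • w i with hv
    have key : ∀ c : ℝ, |c| ≤ 1 → (∀ i, |Function.update θ a c i| ≤ 1) ∧
        ∑ i ∈ insert a F, Function.update θ a c i • w i = c • w a + v := by
      intro c hc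
      refine ⟨fun i => ?_, ?_⟩
      · by_cases hi : i = a
        · rw [hi, Function.update_self]; exact hc
        · rw [Function.update_of_ne hi]; exact hθ i
      · rw [Finset.sum_insert ha, Function.update_self, hv]
        congr 1
        refine Finset.sum_congr rfl fun i hi => ?_
        rw [Function.update_of_ne (fun h : i = a => ha (h ▸ hi))]
    rw [Finset.sum_insert ha]
    rcases le_total 0 (inner ℝ (w a) v) with h | h
    · refine ⟨Function.update θ a 1, (key 1 (by simp)).1, ?_⟩
      rw [(key 1 (by simp)).2, one_smul, norm_add_sq_real]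
      linarith
    · refine ⟨Function.update θ a (-1), (key (-1) (by simp)).1, ?_⟩
      rw [(key (-1) (by simp)).2, neg_one_smul, norm_add_sq_real, norm_neg, inner_neg_left]
      linarith

variable [CompleteSpace H]

/-- countably many functionals with bounded sums of signs on a Hilbert space do not vanish -/
theorem countable_nonzero {I : Type*} (ψ : I → (H →L[ℝ] ℝ)) (C : ℝ)
    (h : ∀ (F : Finset I) (θ : I → ℝ), (∀ i, |θ i| ≤ 1) → ∀ g, |∑ i ∈ F, θ i * ψ i g| ≤ C * ‖g‖) :
    {i | ψ i ≠ 0}.Countable := by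
  let w : I → H := fun i => (InnerProductSpace.toDual ℝ H).symm (ψ i)
  have hw : ∀ i g, inner ℝ (w i) g = ψ i g := fun i g => InnerProductSpace.toDual_symm_apply
  have h1 : ∀ F : Finset I, ∑ i ∈ F, ‖w i‖ ^ 2 ≤ C ^ 2 := by
    intro F
    obtain ⟨θ, hθ, hs⟩ := exists_signs F w
    refine hs.trans ?_
    set v := ∑ i ∈ F, θ i • w i with hv
    have h2 : ‖v‖ ^ 2 ≤ C * ‖v‖ := by
      rw [← real_inner_self_eq_norm_sq]
      have h3 : inner ℝ v v = ∑ i ∈ F, θ i * ψ i v := by
        conv_lhs => rw [hv, sum_inner]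
        refine Finset.sum_congr rfl fun i _ => ?_
        rw [inner_smul_left, hw]
        rfl
      rw [h3]
      exact (le_abs_self _).trans (h F θ hθ v)
    rcases eq_or_lt_of_le (norm_nonneg v) with h0 | h0
    · rw [← h0]
      nlinarith [sq_nonneg C]
    · have h4 : ‖v‖ ≤ C := by nlinarith
      nlinarith
  have h2 : Summable fun i => ‖w i‖ ^ 2 := summable_of_sum_le (fun i => by positivity) h1
  refine h2.countable_support.mono fun i hi => ?_
  rw [Function.mem_support]
  intro h0
  apply hi
  have h3 : w i = 0 := by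
    have : ‖w i‖ = 0 := by
      rw [sq_eq_zero_iff] at h0
      exact h0
    exact norm_eq_zero.1 this
  ext g
  rw [← hw, h3, inner_zero_left]
  rfl

theorem hilb_proj {Z T : Type*} [NormedAddCommGroup Z] [NormedSpace ℝ Z] (A : Z →L[ℝ] H) (zt : T → Z)
    (h : ∀ z, A z ∈ closure (range fun t => A (zt t))) (g : H) :
    (innerSL ℝ g).comp A ∈ closure (range fun t => (innerSL ℝ (A (zt t))).comp A) := by
  let V : Submodule ℝ H := (LinearMap.range (A : Z →ₗ[ℝ] H)).topologicalClosure
  have hVc : IsClosed (V : Set H) := Submodule.isClosed_topologicalClosure _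
  have hVcomp : CompleteSpace V := hVc.completeSpace_coe
  have h1 : (innerSL ℝ g).comp A = (innerSL ℝ (V.starProjection g)).comp A := by
    ext z
    have h2 : inner ℝ (g - V.starProjection g) (A z) = 0 := by
      refine Submodule.inner_left_of_mem_orthogonal (K := V) ?_ ?_
      · exact Submodule.le_topologicalClosure _ ⟨z, rfl⟩
      · exact Submodule.sub_starProjection_mem_orthogonal _
    rw [inner_sub_left, sub_eq_zero] at h2
    exact h2
  have h2 : V.starProjection g ∈ closure (range fun t => A (zt t)) := by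
    have h3 : V.starProjection g ∈ (V : Set H) := Submodule.starProjection_apply_mem _ _
    rw [Submodule.topologicalClosure_coe] at h3
    refine closure_minimal ?_ isClosed_closure h3
    rintro _ ⟨z, rfl⟩
    exact h z
  let R : H →L[ℝ] (Z →L[ℝ] ℝ) := ((ContinuousLinearMap.compL ℝ Z H ℝ).flip A).comp (innerSL ℝ)
  have h3 := image_closure_subset_closure_image R.continuous ⟨_, h2, rfl⟩
  rw [← range_comp] at h3
  rw [h1]
  exact h3

end Hilbert

end Pool.Agent.H180
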