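import Mathlib
import Pool.Agent.H180.Asm
import Pool.Agent.H180.Rep5

/-!
A predual which contains `ℓ₁(κ)`, with density character `κ` regular and uncountable.
-/

set_option autoImplicit false

open Filter Topology Set Cardinal

namespace Pool.Agent.H180

theorem HasLoc.of_isL1 {X : Type} [NormedAddCommGroup X] [NormedSpace ℝ X] (h : IsL1 X) :
    HasLoc X := by
  obtain ⟨s, lam, hs⟩ := LocE.of_isL1 h
  exact ⟨Finset X, Ultrafilter.of atTop, s, lam, hs⟩

theorem HasLoc.cpl {X Y : Type} [NormedAddCommGroup X] [NormedSpace ℝ X] [NormedAddCommGroup Y]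
    [NormedSpace ℝ Y] (h : HasLoc X) (hY : Cpl Y X) : HasLoc Y := by
  obtain ⟨ι, U, s, lam, hs⟩ := h
  obtain ⟨s', lam', hs'⟩ := hs.cpl hY
  exact ⟨ι, U, s', lam', hs'⟩

section

variable {Z : Type} [NormedAddCommGroup Z] [NormedSpace ℝ Z] {T : Type}

/-- A bounded family equivalent to the basis of `ℓ₁(T)`, `|T|` regular and uncountable. -/
theorem hasG_of_l1 (hL : HasLoc (Z →L[ℝ] ℝ)) (hκ : (#T).IsRegular) (hω : ℵ₀ < #T)
    (J : lp (fun _ : T => ℝ) 1 →L[ℝ] Z) (c : ℝ) (hc : 0 < c) (hJ : ∀ v, c * ‖v‖ ≤ ‖J v‖) :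
    HasG Z T := by
  classical
  obtain ⟨ι, U, s, lam, hs⟩ := hL
  -- normalization
  set C : ℝ := ‖J‖ + 1 with hC
  have hC0 : 0 < C := by positivity
  let z : T → Z := fun t => C⁻¹ • J (lp.single 1 t (1 : ℝ))
  have hz : ∀ t, ‖z t‖ ≤ 1 := by
    intro t
    show ‖C⁻¹ • J (lp.single 1 t (1 : ℝ))‖ ≤ 1
    rw [norm_smul, norm_inv, Real.norm_of_nonneg hC0.le, inv_mul_le_iff₀ hC0, mul_one]
    refine (J.le_opNorm _).trans ?_
    have h1 : ‖lp.single (E := fun _ : T => ℝ) 1 t (1 : ℝ)‖ = 1 := by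
      rw [lp.norm_single (by norm_num), norm_one]
    rw [h1]
    linarith [norm_nonneg J]
  have hlow : ∀ (t : T → Bool) (a : T →₀ ℝ), |a.sum fun i b => b * sg (t i)| ≤
      (C / c) * ‖a.sum fun i b => b • z i‖ := by
    intro t a
    have h1 : (a.sum fun i b => b • z i) =
        C⁻¹ • J (∑ i ∈ a.support, lp.single (E := fun _ : T => ℝ) 1 i (a i)) := by
      rw [Finsupp.sum, map_sum, Finset.smul_sum]
      refine Finset.sum_congr rfl fun i _ => ?_
      show a i • C⁻¹ • J (lp.single 1 i (1 : ℝ)) = _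
      rw [smul_comm, ← map_smul, ← lp.single_smul, smul_eq_mul, mul_one]
    have h2 : ‖∑ i ∈ a.support, lp.single (E := fun _ : T => ℝ) 1 i (a i)‖ =
        ∑ i ∈ a.support, |a i| := by
      have h3 := lp.norm_sum_single (E := fun _ : T => ℝ) (p := 1) (by norm_num) (fun i => a i)
        a.support
      simpa using h3
    have h4 := hJ (∑ i ∈ a.support, lp.single (E := fun _ : T => ℝ) 1 i (a i))
    rw [h2] at h4
    have h5 : |a.sum fun i b => b * sg (t i)| ≤ ∑ i ∈ a.support, |a i| := by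
      refine (Finset.abs_sum_le_sum_abs _ _).trans (Finset.sum_le_sum fun i _ => ?_)
      rw [abs_mul, abs_sg, mul_one]
    rw [h1, norm_smul, norm_inv, Real.norm_of_nonneg hC0.le]
    refine h5.trans ?_
    have h6 : C / c * (C⁻¹ * ‖J (∑ i ∈ a.support, lp.single (E := fun _ : T => ℝ) 1 i (a i))‖) =
        ‖J (∑ i ∈ a.support, lp.single (E := fun _ : T => ℝ) 1 i (a i))‖ / c := by
      field_simp
    rw [h6, le_div_iff₀ hc, mul_comm]
    exact h4
  have hM : ∀ t : T → Bool, ∃ x : Z →L[ℝ] ℝ, ‖x‖ ≤ max 1 (C / c) ∧ ∀ γ, x (z γ) = sg (t γ) := by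
    intro t
    obtain ⟨x, hx1, hx2⟩ := exists_interp z (fun γ => sg (t γ)) (C / c) (by positivity) (hlow t)
    exact ⟨x, hx1.trans (le_max_right _ _), hx2⟩
  obtain ⟨E, hE⟩ := exists_irr z (max 1 (C / c)) hM
  exact hasG_of_irr hE (le_max_left _ _) hz hs.loc hκ hω

/-- **Theorem.** The density character is `|T|`, regular and uncountable, and `ℓ₁(T)` embeds. -/
theorem main1 (hL : HasLoc (Z →L[ℝ] ℝ)) (hκ : (#T).IsRegular) (hω : ℵ₀ < #T)
    (J : lp (fun _ : T => ℝ) 1 →L[ℝ] Z) (c : ℝ) (hc : 0 < c) (hJ : ∀ v, c * ‖v‖ ≤ ‖J v‖)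
    (d : T → Z) (hd : DenseRange d) : Nonempty ((Z →L[ℝ] ℝ) ≃L[ℝ] MM (T → Bool)) := by
  have : Infinite T := Cardinal.infinite_iff.2 hκ.aleph0_le
  exact plus hL d hd (hasG_of_l1 hL hκ hω J c hc hJ)

end

end Pool.Agent.H180
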