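import Mathlib
import Pool.Agent.H180.UpE

/-!
Upper embeddings of dual spaces for which ranges of operators from Hilbert spaces are small: the end.
-/

set_option autoImplicit false

open Filter Topology Set MeasureTheory
open scoped Classical

namespace Pool.Agent.H180

theorem bij_inv {E F : Type*} [NormedAddCommGroup E] [NormedSpace ℝ E] [NormedAddCommGroup F]
    [NormedSpace ℝ F] [CompleteSpace E] [CompleteSpace F] (f : E →L[ℝ] F)
    (h1 : Function.Injective f) (h2 : Function.Surjective f) : ∃ g : F →L[ℝ] E, ∀ y, f (g y) = y :=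
  let e := ContinuousLinearEquiv.ofBijective f (LinearMap.ker_eq_bot.2 h1) (LinearMap.range_eq_top.2 h2)
  ⟨(e.symm : F →L[ℝ] E), fun y => e.apply_symm_apply y⟩

theorem cpl_LI {Z A : Type*} [NormedAddCommGroup Z] [NormedSpace ℝ Z] [NormedAddCommGroup A]
    [NormedSpace ℝ A] {I : Type*} (a : I → ((Z →L[ℝ] ℝ) →L[ℝ] A)) (β : I → (A →L[ℝ] (Z →L[ℝ] ℝ)))
    (C : ℝ) (hs : ∀ x, Summable (fun j : I => ‖a j x‖) ∧ ∑' j : I, ‖a j x‖ ≤ C * ‖x‖)
    (hβ : ∀ j ν, ‖β j ν‖ ≤ 1 * ‖ν‖) (hid : ∀ x z, HasSum (fun j => β j (a j x) z) (x z)) :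
    Cpl (Z →L[ℝ] ℝ) (LI I A) := by
  obtain ⟨b, hb⟩ := LI.exists_sum β 1 zero_le_one hβ
  refine ⟨LI.pi a C hs, b, fun x => ?_⟩
  ext z
  rw [hb]
  exact (hid x z).tsum_eq

section

variable {Z : Type} [NormedAddCommGroup Z] [NormedSpace ℝ Z] {T : Type}

/-- the data which give the complemented embedding -/
structure UpData (Z : Type) [NormedAddCommGroup Z] [NormedSpace ℝ Z] (T Q : Type) (S : Type) where
  A : S → ((Z →L[ℝ] ℝ) →L[ℝ] MM (Q → Bool))
  β : S → (MM (Q → Bool) →L[ℝ] (Z →L[ℝ] ℝ))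
  C : ℝ
  sumA : ∀ (I : Set S) x, Summable (fun j : I => ‖A j x‖) ∧ ∑' j : I, ‖A j x‖ ≤ C * ‖x‖
  bβ : ∀ j ν, ‖β j ν‖ ≤ 1 * ‖ν‖
  id : ∀ x z, HasSum (fun j => β j (A j x) z) (x z)
  small : ∀ x, {j | ∃ z, β j (A j x) z ≠ 0}.Countable

theorem exists_upData [Infinite T] (hL : HasLoc (Z →L[ℝ] ℝ)) (hH : HilbS T (Z →L[ℝ] ℝ)) :
    ∃ S : Type, Nonempty (UpData Z T (T × ℚ) S) := by
  obtain ⟨α, hα⟩ := exists_alpha hL
  let _ : MeasurableSpace (Ball Z) := borel (Ball Z)
  have _ : BorelSpace (Ball Z) := ⟨rfl⟩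
  obtain ⟨S, hS, hmax⟩ := exists_family (K := Ball Z)
  have hSf : ∀ j : S, IsFiniteMeasure (j : Measure (Ball Z)) := fun j => (hS.1 j j.2).fin
  have h1 : Function.Injective (Phi S) := Phi_inj hS
  have h2 : Function.Surjective (Phi S) := Phi_surj hS hmax
  obtain ⟨P, hP⟩ := bij_inv (E := Lp ℝ 1 (nuS S)) (F := MM (Ball Z)) (Phi S) h1 h2
  let i : (Z →L[ℝ] ℝ) →L[ℝ] Lp ℝ 1 (nuS S) := P.comp α
  have hi : ∀ x z, x z = ∫ w, ev z w.2 * (i x) w ∂(nuS S) := by
    intro x z
    rw [← Phi_apply]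
    have h3 : Phi S (i x) = α x := hP (α x)
    rw [h3, hα]
  choose zt hzt using fun j : S => exists_zt hH (j : Measure (Ball Z))
  choose β hβ1 hβ2 using fun j : S => ev_fml.exists_beta (j := (j : Measure (Ball Z))) (zt j) (hzt j)
  let φ : S → Ball Z → T × ℚ → Bool := fun j => phi (fun z y => ev z y) (zt j)
  have hφ : ∀ j q, Measurable fun x => φ j x q := fun j q => ev_fml.measurable_phi (zt j) q
  choose B hB using fun j : S => exists_pair (slf_fml φ hφ j) (nuS S)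
  have hβB : ∀ (j : S) (G : Lp ℝ 1 (nuS S)) z,
      β j (B j G) z = ∫ y, ev z y * G ⟨j, y⟩ ∂(j : Measure (Ball Z)) := by
    intro j G z
    refine hβ2 j (fun y => G ⟨j, y⟩) (measurable_slice G j) (integrable_slice G j) (B j G)
      (fun h => ?_) z
    rw [hB, integral_slf φ hφ j h G]
  refine ⟨S, ⟨{
    A := fun j => (B j).comp i
    β := β
    C := ‖i‖
    sumA := fun I x => ?_
    bβ := hβ1
    id := fun x z => ?_
    small := fun x => ?_ }⟩⟩
  · obtain ⟨h3, h4⟩ := sum_slices φ hφ B hB I (i x)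
    exact ⟨h3, h4.trans (i.le_opNorm x)⟩
  · have h3 := (integral_nuS ((measurable_comp_snd S (ev z)).mul
      (Lp.stronglyMeasurable (i x)).measurable) (integrable_pair S (i x) (ev z)).1).2
    have h4 : ∫ w, ev z w.2 * (i x) w ∂(nuS S) = x z := (hi x z).symm
    rw [← h4]
    have h5 : (fun j : S => β j (((B j).comp i) x) z) =
        fun j : S => ∫ y, ev z y * (i x) ⟨j, y⟩ ∂(j : Measure (Ball Z)) := by
      funext j
      exact hβB j (i x) z
    rw [h5]
    exact h3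
  · refine (countable_supp (i x)).mono ?_
    rintro j ⟨z, hz⟩
    show ∫ y, |(i x) ⟨j, y⟩| ∂(j : Measure (Ball Z)) ≠ 0
    intro h0
    apply hz
    show β j (B j (i x)) z = 0
    rw [hβB]
    have h3 : |∫ y, ev z y * (i x) ⟨j, y⟩ ∂(j : Measure (Ball Z))| ≤
        ‖z‖ * ∫ y, |(i x) ⟨j, y⟩| ∂(j : Measure (Ball Z)) := by
      refine abs_integral_le_integral_abs.trans ?_
      rw [← integral_const_mul]
      refine integral_mono_of_nonneg (Filter.Eventually.of_forall fun y => abs_nonneg _)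
        ((integrable_slice (i x) j).abs.const_mul _) (Filter.Eventually.of_forall fun y => ?_)
      show |ev z y * (i x) ⟨j, y⟩| ≤ ‖z‖ * |(i x) ⟨j, y⟩|
      rw [abs_mul]
      exact mul_le_mul_of_nonneg_right (abs_evf_le z y) (abs_nonneg _)
    rw [h0, mul_zero] at h3
    exact abs_nonpos_iff.1 h3

/-- **Upper embedding**, with small ranges of operators from Hilbert spaces. -/
theorem cpl_up2 [Infinite T] (hL : HasLoc (Z →L[ℝ] ℝ)) (hH : HilbS T (Z →L[ℝ] ℝ))
    (d : (T → Bool) → (Z →L[ℝ] ℝ)) (hd : DenseRange d) : Cpl (Z →L[ℝ] ℝ) (MM (T → Bool)) := by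
  obtain ⟨S, ⟨D⟩⟩ := exists_upData hL hH
  let I : Set S := ⋃ b, {j | ∃ z, D.β j (D.A j (d b)) z ≠ 0}
  have hI : ∀ j ∉ I, ∀ x z, D.β j (D.A j x) z = 0 := by
    intro j hj x z
    have hcl : IsClosed {x | D.β j (D.A j x) z = 0} := by
      refine isClosed_eq ?_ continuous_const
      have h1 : Continuous fun x => D.β j (D.A j x) :=
        (D.β j).continuous.comp (D.A j).continuous
      exact (ContinuousLinearMap.apply ℝ ℝ z).continuous.comp h1
    have h2 : closure (range d) ⊆ {x | D.β j (D.A j x) z = 0} := by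
      refine closure_minimal ?_ hcl
      rintro _ ⟨b, rfl⟩
      by_contra hc
      exact hj (mem_iUnion.2 ⟨b, z, hc⟩)
    exact h2 (hd x)
  -- the cardinality
  have hcard : ∃ p : I → (T × ℚ → Bool), Function.Injective p := by
    have h1 : Cardinal.mk I ≤ Cardinal.mk (T → Bool) := by
      refine (Cardinal.mk_iUnion_le_sum_mk).trans ?_
      refine (Cardinal.sum_le_sum _ (fun _ => Cardinal.aleph0) fun b =>
        (D.small (d b)).le_aleph0).trans ?_
      rw [Cardinal.sum_const, Cardinal.lift_id, Cardinal.lift_id]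
      refine (Cardinal.mul_eq_left ?_ ?_ Cardinal.aleph0_ne_zero).le
      · exact Cardinal.aleph0_le_mk _
      · exact Cardinal.aleph0_le_mk _
    obtain ⟨p⟩ := h1
    refine ⟨fun j q => p j q.1, fun j j' h => p.injective (funext fun t => ?_)⟩
    exact congrFun h (t, 0)
  obtain ⟨p, hp⟩ := hcard
  have h1 : Cpl (Z →L[ℝ] ℝ) (LI I (MM (T × ℚ → Bool))) := by
    refine cpl_LI (fun j : I => D.A j) (fun j : I => D.β j) D.C (D.sumA I)
      (fun j ν => D.bβ j ν) (fun x z => ?_)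
    have h2 := D.id x z
    rw [← hasSum_subtype_iff_of_support_subset (s := I)] at h2
    · exact h2
    · intro j hj
      by_contra hjI
      exact hj (hI j hjI x z)
  obtain ⟨e⟩ : Nonempty (((T × ℚ) ⊕ (T × ℚ)) ≃ T) := by
    refine Cardinal.lift_mk_eq'.1 ?_
    simp only [Cardinal.mk_sum, Cardinal.mk_prod, Cardinal.lift_uzero, Cardinal.lift_id,
      Cardinal.mkRat, Cardinal.lift_aleph0]
    have h3 : Cardinal.mk T * Cardinal.aleph0 = Cardinal.mk T :=
      Cardinal.mul_eq_left (Cardinal.aleph0_le_mk T) (Cardinal.aleph0_le_mk T) Cardinal.aleph0_ne_zero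
    rw [h3]
    exact Cardinal.add_eq_left (Cardinal.aleph0_le_mk T) le_rfl
  exact (h1.trans (cpl_points p hp)).trans (Cpl.of_equiv (MM.cube e))

end

end Pool.Agent.H180
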