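import Mathlib
import Pool.Agent.H180.Main1
import Pool.Agent.H180.UpF

/-!
A predual which contains `ℓ₁(κ)`; ranges of operators from Hilbert spaces are small.
-/

set_option autoImplicit false

open Filter Topology Set Cardinal

namespace Pool.Agent.H180

theorem HilbS.cpl {X Y T : Type} [NormedAddCommGroup X] [NormedSpace ℝ X] [NormedAddCommGroup Y]
    [NormedSpace ℝ Y] (h : HilbS T X) (hY : Cpl Y X) : HilbS T Y := by
  obtain ⟨j, q, hjq⟩ := hY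
  intro H _ _ _ R
  obtain ⟨d, hd⟩ := h H (j.comp R)
  refine ⟨fun t => q (d t), fun g => ?_⟩
  have h1 := image_closure_subset_closure_image q.continuous ⟨_, hd g, rfl⟩
  rw [← range_comp] at h1
  have h2 : q ((j.comp R) g) = R g := hjq (R g)
  rw [h2] at h1
  exact h1

variable {Z : Type} [NormedAddCommGroup Z] [NormedSpace ℝ Z] {T : Type}

theorem main2_of_hasG [Infinite T] (hL : HasLoc (Z →L[ℝ] ℝ)) (hG : HasG Z T)
    (hH : HilbS T (Z →L[ℝ] ℝ)) (d : (T → Bool) → (Z →L[ℝ] ℝ)) (hd : DenseRange d) :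
    Nonempty ((Z →L[ℝ] ℝ) ≃L[ℝ] MM (T → Bool)) :=
  pelczynski (cpl_up2 hL hH d hd) hG.cpl (cpl_self T)

theorem main2 (hL : HasLoc (Z →L[ℝ] ℝ)) (hκ : (#T).IsRegular) (hω : ℵ₀ < #T)
    (J : lp (fun _ : T => ℝ) 1 →L[ℝ] Z) (c : ℝ) (hc : 0 < c) (hJ : ∀ v, c * ‖v‖ ≤ ‖J v‖)
    (hH : HilbS T (Z →L[ℝ] ℝ)) (d : (T → Bool) → (Z →L[ℝ] ℝ)) (hd : DenseRange d) :
    Nonempty ((Z →L[ℝ] ℝ) ≃L[ℝ] MM (T → Bool)) := by
  have : Infinite T := Cardinal.infinite_iff.2 hκ.aleph0_le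
  exact main2_of_hasG hL (hasG_of_l1 hL hκ hω J c hc hJ) hH d hd

end Pool.Agent.H180
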