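import Mathlib
import Pool.Agent.H180.HayD
import Pool.Agent.H180.UpF
import Pool.Agent.H180.Main2

/-!
A dual space with small types has small ranges of operators from Hilbert spaces.
-/

set_option autoImplicit false

open Filter Topology Set MeasureTheory Cardinal
open scoped Classical ENNReal

namespace Pool.Agent.H180

variable {Z : Type} [NormedAddCommGroup Z] [NormedSpace ℝ Z]

section

variable [MeasurableSpace (Ball Z)] [BorelSpace (Ball Z)]

/-- the range of a slice operator -/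
theorem slice_range {S : Set (Measure (Ball Z))} (j : S) [IsFiniteMeasure (j : Measure (Ball Z))]
    {T' : Type} (zt : T' → Z)
    (hzt : ∀ z, A2 (j : Measure (Ball Z)) z ∈ closure (range fun t => A2 (j : Measure (Ball Z)) (zt t)))
    (G : Lp ℝ 1 (nuS S)) (x : Z →L[ℝ] ℝ)
    (hx : ∀ z, x z = ∫ y, ev z y * G ⟨j, y⟩ ∂(j : Measure (Ball Z))) :
    x ∈ closure (range fun t => (innerSL ℝ (A2 (j : Measure (Ball Z)) (zt t))).comp
      (A2 (j : Measure (Ball Z)))) := by
  rw [← closure_closure, Metric.mem_closure_iff]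
  intro ε hε
  obtain ⟨M, g', hM, hg', hgM, hgg, hδ⟩ := exists_trunc (j := (j : Measure (Ball Z)))
    (measurable_slice G j) (integrable_slice G j) (δ := ε / 2) (by positivity)
  have hmem : MemLp g' 2 (j : Measure (Ball Z)) :=
    MemLp.of_bound hg'.aestronglyMeasurable M (Filter.Eventually.of_forall fun x => hgM x)
  refine ⟨_, hilb_proj (A2 (j : Measure (Ball Z))) zt hzt (hmem.toLp g'), ?_⟩
  refine lt_of_le_of_lt (b := ε / 2) ?_ (by linarith)
  rw [dist_eq_norm]
  refine ContinuousLinearMap.opNorm_le_bound _ (by positivity) fun z => ?_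
  have h1 : ((innerSL ℝ (hmem.toLp g')).comp (A2 (j : Measure (Ball Z)))) z =
      ∫ y, ev z y * g' y ∂(j : Measure (Ball Z)) := by
    show inner ℝ (hmem.toLp g') (A2 (j : Measure (Ball Z)) z) = _
    rw [L2.inner_def]
    refine integral_congr_ae ?_
    filter_upwards [hmem.coeFn_toLp, A2_coe (j : Measure (Ball Z)) z] with y h2 h3
    rw [h2, h3]
    rfl
  have hgi' : Integrable g' (j : Measure (Ball Z)) := hmem.integrable (by norm_num)
  have hi1 : Integrable (fun y => ev z y * G ⟨j, y⟩) (j : Measure (Ball Z)) :=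
    (integrable_slice G j).bdd_mul (ev z).continuous.measurable.aestronglyMeasurable
      (Filter.Eventually.of_forall fun y => abs_evf_le z y)
  have hi2 : Integrable (fun y => ev z y * g' y) (j : Measure (Ball Z)) :=
    hgi'.bdd_mul (ev z).continuous.measurable.aestronglyMeasurable
      (Filter.Eventually.of_forall fun y => abs_evf_le z y)
  rw [sub_apply, h1, hx, ← integral_sub hi1 hi2]
  refine (norm_integral_le_integral_norm _).trans ?_
  have h2 : ∫ y, ‖ev z y * G ⟨j, y⟩ - ev z y * g' y‖ ∂(j : Measure (Ball Z)) ≤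
      ∫ y, ‖z‖ * |G ⟨j, y⟩ - g' y| ∂(j : Measure (Ball Z)) := by
    refine integral_mono (hi1.sub hi2).norm
      (((integrable_slice G j).sub hgi').abs.const_mul _) fun y => ?_
    show ‖ev z y * G ⟨j, y⟩ - ev z y * g' y‖ ≤ ‖z‖ * |G ⟨j, y⟩ - g' y|
    rw [← mul_sub, norm_mul]
    exact mul_le_mul_of_nonneg_right (abs_evf_le z y) (abs_nonneg _)
  refine h2.trans ?_
  rw [integral_const_mul, mul_comm]
  exact mul_le_mul_of_nonneg_right hδ (norm_nonneg z)

end

/-- **Small types give small ranges of operators from Hilbert spaces.** -/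
theorem hilb_small {κ : Cardinal.{0}} (hκ : κ.IsRegular) (hω : ℵ₀ < κ)
    (hL : HasLoc (Z →L[ℝ] ℝ)) [MeasurableSpace (Ball Z)] [BorelSpace (Ball Z)]
    (h : ∀ (j : Measure (Ball Z)) (_ : IsFiniteMeasure j),
      ∃ (T' : Type) (zt : T' → Z), #T' < κ ∧ ∀ z, A2 j z ∈ closure (range fun t => A2 j (zt t)))
    (H : Type) [NormedAddCommGroup H] [InnerProductSpace ℝ H] [CompleteSpace H]
    (R : H →L[ℝ] (Z →L[ℝ] ℝ)) :
    ∃ (T' : Type) (d : T' → (Z →L[ℝ] ℝ)), #T' < κ ∧ ∀ g, R g ∈ closure (range d) := by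
  obtain ⟨α, hα⟩ := exists_alpha hL
  obtain ⟨S, hS, hmax⟩ := exists_family (K := Ball Z)
  have hSf : ∀ j : S, IsFiniteMeasure (j : Measure (Ball Z)) := fun j => (hS.1 j j.2).fin
  have h1 : Function.Injective (Phi S) := Phi_inj hS
  have h2 : Function.Surjective (Phi S) := Phi_surj hS hmax
  obtain ⟨P, hP⟩ := bij_inv (E := Lp ℝ 1 (nuS S)) (F := MM (Ball Z)) (Phi S) h1 h2
  let i : (Z →L[ℝ] ℝ) →L[ℝ] Lp ℝ 1 (nuS S) := P.comp α
  have hi : ∀ x z, x z = ∫ w, ev z w.2 * (i x) w ∂(nuS S) := by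
    intro x z
    rw [← Phi_apply]
    have h3 : Phi S (i x) = α x := hP (α x)
    rw [h3, hα]
  choose B hB using fun j : S => exists_pair (slg_fml (S := S) (ev_fml (Z := Z)) j) (nuS S)
  have hBv : ∀ (j : S) G z, B j G z = ∫ y, ev z y * G ⟨j, y⟩ ∂(j : Measure (Ball Z)) := by
    intro j G z
    rw [hB, integral_slg ev_fml]
  have hsum := sum_slg (ev_fml (Z := Z)) B hB
  have hid : ∀ x, HasSum (fun j => B j (i x)) x := by
    intro x
    have h3 : Summable fun j => B j (i x) := (hsum (i x)).1.of_norm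
    have h4 : ∑' j, B j (i x) = x := by
      ext z
      have h5 : HasSum (fun j => B j (i x) z) ((∑' j, B j (i x)) z) :=
        (ContinuousLinearMap.apply ℝ ℝ z).hasSum h3.hasSum
      have h6 := (integral_nuS ((measurable_comp_snd S (ev z)).mul
        (Lp.stronglyMeasurable (i x)).measurable) (integrable_pair S (i x) (ev z)).1).2
      have h7 : (fun j : S => B j (i x) z) =
          fun j : S => ∫ y, ev z y * (i x) ⟨j, y⟩ ∂(j : Measure (Ball Z)) := funext fun j => hBv j _ z
      rw [h7] at h5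
      rw [hi x z]
      exact h5.unique h6
    have h8 := h3.hasSum
    rw [h4] at h8
    exact h8
  -- the slices which are used
  let J : Set S := {j | ∃ g, B j (i (R g)) ≠ 0}
  have hJ : J.Countable := by
    have hch : ∀ j : S, ∃ z : Z, ‖z‖ ≤ 1 ∧ ((∃ g, B j (i (R g)) ≠ 0) → ∃ g, B j (i (R g)) z ≠ 0) := by
      intro j
      by_cases hj : ∃ g, B j (i (R g)) ≠ 0
      · obtain ⟨g, hg⟩ := hj
        obtain ⟨z, hz⟩ : ∃ z, B j (i (R g)) z ≠ 0 := by
          by_contra hcon
          push Not at hcon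
          exact hg (ContinuousLinearMap.ext hcon)
        have hz0 : z ≠ 0 := fun h => hz (by rw [h, map_zero])
        have hzn : ‖z‖ ≠ 0 := norm_ne_zero_iff.2 hz0
        refine ⟨‖z‖⁻¹ • z, ?_, fun _ => ⟨g, ?_⟩⟩
        · rw [norm_smul, norm_inv, norm_norm, inv_mul_cancel₀ hzn]
        · rw [map_smul, smul_eq_mul]
          exact mul_ne_zero (inv_ne_zero hzn) hz
      · exact ⟨0, by simp, fun h => absurd h hj⟩
    choose zz hzz1 hzz2 using hch
    let ψ : S → (H →L[ℝ] ℝ) := fun j =>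
      (ContinuousLinearMap.apply ℝ ℝ (zz j)).comp ((B j).comp (i.comp R))
    have hψ : ∀ j g, ψ j g = B j (i (R g)) (zz j) := fun j g => rfl
    have h3 := countable_nonzero ψ (‖i‖ * ‖R‖) (fun F θ hθ g => by
      refine (Finset.abs_sum_le_sum_abs _ _).trans ?_
      have h4 : ∑ j ∈ F, |θ j * ψ j g| ≤ ∑ j ∈ F, ‖B j (i (R g))‖ := by
        refine Finset.sum_le_sum fun j _ => ?_
        rw [abs_mul, hψ]
        have h5 := (B j (i (R g))).le_opNorm (zz j)
        rw [Real.norm_eq_abs] at h5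
        have h6 := hzz1 j
        have h7 := hθ j
        have h8 := norm_nonneg (B j (i (R g)))
        have h9 := abs_nonneg (B j (i (R g)) (zz j))
        calc _ ≤ 1 * |B j (i (R g)) (zz j)| := mul_le_mul_of_nonneg_right h7 h9
          _ ≤ ‖B j (i (R g))‖ * ‖zz j‖ := by rw [one_mul]; exact h5
          _ ≤ ‖B j (i (R g))‖ * 1 := mul_le_mul_of_nonneg_left h6 h8
          _ = _ := mul_one _
      refine h4.trans (((hsum (i (R g))).1.sum_le_tsum F (fun _ _ => norm_nonneg _)).trans ?_)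
      refine (hsum (i (R g))).2.trans ?_
      refine (i.le_opNorm _).trans ?_
      rw [mul_assoc]
      exact mul_le_mul_of_nonneg_left (R.le_opNorm g) (norm_nonneg _))
    refine h3.mono ?_
    rintro j hj h0
    obtain ⟨g, hg⟩ := hzz2 j hj
    apply hg
    rw [← hψ, h0]
    rfl
  choose T' zt hT' hzt using fun j : S => h (j : Measure (Ball Z)) (hSf j)
  let T2 : Type := (Σ j : J, T' j) ⊕ ℕ
  have hJc : #J ≤ ℵ₀ := Cardinal.le_aleph0_iff_set_countable.2 hJ
  have hT2 : #T2 < κ := by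
    show #((Σ j : J, T' j) ⊕ ℕ) < κ
    rw [Cardinal.mk_sum, Cardinal.lift_uzero, Cardinal.lift_uzero, Cardinal.mk_nat]
    refine Cardinal.add_lt_of_lt hκ.aleph0_le ?_ hω
    rw [Cardinal.mk_sigma]
    exact Cardinal.sum_lt_of_isRegular hκ (hJc.trans_lt hω) fun j => hT' j
  have hinf : Infinite T2 := inferInstanceAs (Infinite (_ ⊕ ℕ))
  let v : T2 → (Z →L[ℝ] ℝ) := Sum.elim (fun p => (innerSL ℝ (A2 ((p.1 : S) : Measure (Ball Z))
    (zt p.1 p.2))).comp (A2 ((p.1 : S) : Measure (Ball Z)))) (fun _ => 0)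
  obtain ⟨d, hd⟩ := exists_dense_span v
  refine ⟨T2, d, hT2, fun g => hd ?_⟩
  set W : Submodule ℝ (Z →L[ℝ] ℝ) := (Submodule.span ℝ (range v)).topologicalClosure with hW
  have hWc : IsClosed (W : Set (Z →L[ℝ] ℝ)) := Submodule.isClosed_topologicalClosure _
  have hmem : ∀ j : S, B j (i (R g)) ∈ W := by
    intro j
    by_cases hj : j ∈ J
    · have h3 := slice_range j (zt j) (hzt j) (i (R g)) (B j (i (R g))) (hBv j _)
      have h4 : closure (range fun t => (innerSL ℝ (A2 (j : Measure (Ball Z)) (zt j t))).comp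
          (A2 (j : Measure (Ball Z)))) ⊆ (W : Set (Z →L[ℝ] ℝ)) := by
        refine closure_minimal ?_ hWc
        rintro _ ⟨t, rfl⟩
        exact Submodule.le_topologicalClosure _ (Submodule.subset_span
          ⟨Sum.inl ⟨⟨j, hj⟩, t⟩, rfl⟩)
      exact h4 h3
    · have h3 : B j (i (R g)) = 0 := by
        by_contra h4
        exact hj ⟨g, h4⟩
      rw [h3]
      exact W.zero_mem
  exact hWc.mem_of_tendsto (hid (R g)) (Filter.Eventually.of_forall fun F =>
    W.sum_mem fun j _ => hmem j)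

end Pool.Agent.H180
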