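import Mathlib
import Pool.Agent.H180.HayE

/-!
Dual spaces of maximal type `κ`: the predual contains `ℓ₁(κ)`.
-/

set_option autoImplicit false

open Filter Topology Set MeasureTheory Cardinal
open scoped Classical ENNReal

namespace Pool.Agent.H180

variable {Z : Type} [NormedAddCommGroup Z] [NormedSpace ℝ Z] {T : Type}

theorem hasG_of_interp (hL : HasLoc (Z →L[ℝ] ℝ)) (hκ : (#T).IsRegular) (hω : ℵ₀ < #T)
    (z : T → Z) (hz : ∀ t, ‖z t‖ ≤ 1) (M : ℝ)
    (hM : ∀ t : T → Bool, ∃ x : Z →L[ℝ] ℝ, ‖x‖ ≤ M ∧ ∀ γ, x (z γ) = sg (t γ)) : HasG Z T := by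
  obtain ⟨ι, U, s, lam, hs⟩ := hL
  have hM' : ∀ t : T → Bool, ∃ x : Z →L[ℝ] ℝ, ‖x‖ ≤ max 1 M ∧ ∀ γ, x (z γ) = sg (t γ) := by
    intro t
    obtain ⟨x, hx1, hx2⟩ := hM t
    exact ⟨x, hx1.trans (le_max_right _ _), hx2⟩
  obtain ⟨E, hE⟩ := exists_irr z (max 1 M) hM'
  exact hasG_of_irr hE (le_max_left _ _) hz hs.loc hκ hω

/-- independent families are equivalent to the basis of `ℓ₁` -/
theorem interp_of_indep (z : T → Z) (r s : ℚ) (hrs : r < s)
    (h : ∀ (F : Finset T) (σ : T → Bool), ∃ y : Ball Z, ∀ t ∈ F,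
      (σ t = true → ¬ ev (z t) y < s) ∧ (σ t = false → ev (z t) y < r)) (t : T → Bool) :
    ∃ x : Z →L[ℝ] ℝ, ‖x‖ ≤ 2 / ((s : ℝ) - r) ∧ ∀ γ, x (z γ) = sg (t γ) := by
  have hrs' : (0 : ℝ) < (s : ℝ) - r := by
    have : (r : ℝ) < s := by exact_mod_cast hrs
    linarith
  refine exists_interp z (fun γ => sg (t γ)) (2 / ((s : ℝ) - r)) (by positivity) fun a => ?_
  have h5 : |a.sum fun i b => b * sg (t i)| ≤ ∑ i ∈ a.support, |a i| := by
    refine (Finset.abs_sum_le_sum_abs _ _).trans (Finset.sum_le_sum fun i _ => ?_)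
    rw [abs_mul, abs_sg, mul_one]
  refine h5.trans ?_
  obtain ⟨y1, hy1⟩ := h a.support fun i => decide (0 ≤ a i)
  obtain ⟨y2, hy2⟩ := h a.support fun i => decide (¬ 0 ≤ a i)
  set v : Z := a.sum fun i b => b • z i with hv
  have hev : ∀ y : Ball Z, ev v y = ∑ i ∈ a.support, a i * ev (z i) y := by
    intro y
    rw [hv, Finsupp.sum, map_sum, ContinuousMap.sum_apply]
    refine Finset.sum_congr rfl fun i _ => ?_
    rw [map_smul]
    rfl
  have h1 : ∑ i ∈ a.support, |a i| * ((s : ℝ) - r) ≤ ev v y1 - ev v y2 := by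
    rw [hev, hev, ← Finset.sum_sub_distrib]
    refine Finset.sum_le_sum fun i hi => ?_
    rw [← mul_sub]
    by_cases h0 : 0 ≤ a i
    · have e1 := (hy1 i hi).1 (decide_eq_true h0)
      have e2 := (hy2 i hi).2 (decide_eq_false (not_not.2 h0))
      rw [abs_of_nonneg h0]
      push Not at e1
      exact mul_le_mul_of_nonneg_left (by linarith) h0
    · have e1 := (hy1 i hi).2 (decide_eq_false h0)
      have e2 := (hy2 i hi).1 (decide_eq_true h0)
      push Not at h0 e2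
      rw [abs_of_neg h0]
      have h3 : ev (z i) y1 - ev (z i) y2 ≤ -((s : ℝ) - r) := by linarith
      nlinarith
  rw [← Finset.sum_mul] at h1
  have h2 : ev v y1 - ev v y2 ≤ 2 * ‖v‖ := by
    have e1 := (abs_le.1 (abs_evf_le v y1)).2
    have e2 := (abs_le.1 (abs_evf_le v y2)).1
    rw [← ev_apply] at e1 e2
    linarith
  rw [div_mul_eq_mul_div, le_div_iff₀ hrs']
  linarith

/-- ranges of operators from Hilbert spaces of density character at least `|T|` -/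
def HilbB (T : Type) (X : Type) [NormedAddCommGroup X] [NormedSpace ℝ X] : Prop :=
  ∃ (H : Type) (_ : NormedAddCommGroup H) (_ : InnerProductSpace ℝ H) (_ : CompleteSpace H)
    (R : H →L[ℝ] X), ∀ (T' : Type) (d : T' → X), (∀ g, R g ∈ closure (range d)) → #T ≤ #T'

theorem HilbB.of_equiv {X Y T : Type} [NormedAddCommGroup X] [NormedSpace ℝ X]
    [NormedAddCommGroup Y] [NormedSpace ℝ Y] (h : HilbB T X) (e : X ≃L[ℝ] Y) : HilbB T Y := by
  obtain ⟨H, i1, i2, i3, R, hR⟩ := h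
  refine ⟨H, i1, i2, i3, (e : X →L[ℝ] Y).comp R, fun T' d hd => hR T' (fun t => e.symm (d t))
    fun g => ?_⟩
  have h1 := image_closure_subset_closure_image e.symm.continuous ⟨_, hd g, rfl⟩
  rw [← range_comp] at h1
  have h2 : e.symm (((e : X →L[ℝ] Y).comp R) g) = R g := e.symm_apply_apply (R g)
  rw [h2] at h1
  exact h1

theorem hasG_of_hilbB (hL : HasLoc (Z →L[ℝ] ℝ)) (hκ : (#T).IsRegular) (hω : ℵ₀ < #T)
    (hpow : ∀ ν < #T, ν ^ ℵ₀ < #T) (hB : HilbB T (Z →L[ℝ] ℝ)) : HasG Z T := by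
  let _ : MeasurableSpace (Ball Z) := borel (Ball Z)
  have _ : BorelSpace (Ball Z) := ⟨rfl⟩
  obtain ⟨H, i1, i2, i3, R, hR⟩ := hB
  obtain ⟨j, hj, hjbig⟩ : ∃ (j : Measure (Ball Z)) (_ : IsFiniteMeasure j),
      ∀ (T' : Type) (zt : T' → Z), (∀ z, A2 j z ∈ closure (range fun t => A2 j (zt t))) →
        #T ≤ #T' := by
    by_contra hcon
    push Not at hcon
    obtain ⟨T', d, hT', hd⟩ := hilb_small hκ hω hL (fun j hj => by
      obtain ⟨T', zt, h1, h2⟩ := hcon j hj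
      exact ⟨T', zt, h2, h1⟩) H R
    exact absurd (hR T' d hd) (not_le.2 hT')
  have hbig : ∀ N : Set {z : Z // ‖z‖ ≤ 1}, #N < #T → ∃ z, ¬ AM Lb j N z := by
    intro N hN
    by_contra hcon
    push Not at hcon
    obtain ⟨T', zt, h1, h2⟩ := small_of_AM hκ hω hpow j N hN hcon
    exact absurd (hjbig T' zt h2) (not_le.2 h1)
  obtain ⟨z, r, s, hrs, h⟩ := haydon_indep hκ hω hpow measurable_Lb hbig
  exact hasG_of_interp hL hκ hω (fun t => (z t : Z)) (fun t => (z t).2) _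
    (interp_of_indep (fun t => (z t : Z)) r s hrs h)

theorem main3 (hL : HasLoc (Z →L[ℝ] ℝ)) (hκ : (#T).IsRegular) (hω : ℵ₀ < #T)
    (hpow : ∀ ν < #T, ν ^ ℵ₀ < #T) (hB : HilbB T (Z →L[ℝ] ℝ)) (hH : HilbS T (Z →L[ℝ] ℝ))
    (d : (T → Bool) → (Z →L[ℝ] ℝ)) (hd : DenseRange d) :
    Nonempty ((Z →L[ℝ] ℝ) ≃L[ℝ] MM (T → Bool)) := by
  have : Infinite T := Cardinal.infinite_iff.2 hκ.aleph0_le
  exact main2_of_hasG hL (hasG_of_hilbB hL hκ hω hpow hB) hH d hd

end Pool.Agent.H180
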